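import Pool.Agent.Lib.MP_bf67b0_lc.NUC.FDefs

/-!
# Arithmetic and reals in nice classes
-/

namespace Pool.Agent.NUC

open ZFSet (pair)

@[simp] theorem sUnion_nat_succ (n : ℕ) : ZFSet.sUnion (nat (n + 1)) = nat n := by
  apply ZFSet.ext
  intro z
  rw [ZFSet.mem_sUnion]
  constructor
  · rintro ⟨y, hy, hz⟩
    obtain ⟨m, hm, rfl⟩ := mem_nat.1 hy
    obtain ⟨k, hk, rfl⟩ := mem_nat.1 hz
    exact mem_nat.2 ⟨k, by omega, rfl⟩
  · intro hz
    exact ⟨nat n, nat_mem_nat.2 (Nat.lt_succ_self n), hz⟩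

theorem nat_zero : nat 0 = ∅ := rfl

theorem nat_succ (n : ℕ) : nat (n + 1) = insert (nat n) (nat n) := rfl

@[simp] theorem nat_succ_ne (n : ℕ) : nat (n + 1) ≠ ∅ := by
  intro h
  have : nat n ∈ (∅ : V) := h ▸ ZFSet.mem_insert _ _
  exact ZFSet.notMem_empty _ this

open Classical in
/-- Recursion on natural numbers (with a parameter). -/
noncomputable def nrec (A : V → V) (B : V → V → V → V) : V → V → V :=
  recF (fun _ x => x)
    (fun p x f => if x = ∅ then A p else B p (ZFSet.sUnion x) (app f (ZFSet.sUnion x)))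
    (fun _ _ _ hy => ZFSet.rank_lt_of_mem hy)

@[simp] theorem nrec_zero (A : V → V) (B : V → V → V → V) (p : V) :
    nrec A B p (nat 0) = A p := by
  unfold nrec
  rw [recF_eq]
  simp [nat]

@[simp] theorem nrec_succ (A : V → V) (B : V → V → V → V) (p : V) (n : ℕ) :
    nrec A B p (nat (n + 1)) = B p (nat n) (nrec A B p (nat n)) := by
  conv_lhs => rw [nrec, recF_eq]
  rw [if_neg (nat_succ_ne n), sUnion_nat_succ, app_gr (nat_mem_nat.2 (Nat.lt_succ_self n))]
  rfl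

theorem d2_nrec {A : V → V} {B : V → V → V → V} (hA : D1 A) (hB : D3 B) : D2 (nrec A B) := by
  refine d2_recF (DT.var 1) ?_
  exact DT.ite (Dfn.eq (DT.var 1) DT.empty) (hA.app (DT.var 0))
    (hB.app (DT.var 0) (DT.sUnion (DT.var 1)) (DT.app (DT.var 2) (DT.sUnion (DT.var 1))))

/-- Successor. -/
noncomputable def suc (x : V) : V := insert x x

@[simp] theorem suc_nat (n : ℕ) : suc (nat n) = nat (n + 1) := rfl

theorem d1_suc : D1 suc := DT.insert (DT.var 0) (DT.var 0)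

noncomputable def addN : V → V → V := nrec (fun p => p) (fun _ _ r => suc r)

@[simp] theorem addN_nat (a b : ℕ) : addN (nat a) (nat b) = nat (a + b) := by
  induction b with
  | zero => exact nrec_zero _ _ _
  | succ b ih =>
    unfold addN at ih ⊢
    rw [nrec_succ, ih]
    rfl

theorem d2_addN : D2 addN := d2_nrec (DT.var 0) (d1_suc.app (DT.var 2))

noncomputable def mulN : V → V → V := nrec (fun _ => ∅) (fun p _ r => addN r p)

@[simp] theorem mulN_nat (a b : ℕ) : mulN (nat a) (nat b) = nat (a * b) := by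
  induction b with
  | zero => exact nrec_zero _ _ _
  | succ b ih =>
    unfold mulN at ih ⊢
    rw [nrec_succ, ih, addN_nat]
    rfl

theorem d2_mulN : D2 mulN := d2_nrec DT.empty (d2_addN.app (DT.var 2) (DT.var 0))

open Classical in
/-- The pairing of natural numbers. -/
noncomputable def pairN (x y : V) : V :=
  if x ∈ y then addN (mulN y y) x else addN (addN (mulN x x) x) y

@[simp] theorem pairN_nat (a b : ℕ) : pairN (nat a) (nat b) = nat (Nat.pair a b) := by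
  unfold pairN Nat.pair
  by_cases h : a < b
  · rw [if_pos (nat_mem_nat.2 h), if_pos h]
    simp
  · rw [if_neg (fun h' => h (nat_mem_nat.1 h')), if_neg h]
    simp

theorem d2_pairN : D2 pairN :=
  DT.ite (Dfn.mem (DT.var 0) (DT.var 1))
    (d2_addN.app (d2_mulN.app (DT.var 1) (DT.var 1)) (DT.var 0))
    (d2_addN.app (d2_addN.app (d2_mulN.app (DT.var 0) (DT.var 0)) (DT.var 0)) (DT.var 1))

/-- First component. -/
noncomputable def leftN (z : V) : V :=
  ZFSet.sUnion (ZFSet.sep (fun a => ∃ b ∈ suc z, pairN a b = z) (suc z))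

/-- Second component. -/
noncomputable def rightN (z : V) : V :=
  ZFSet.sUnion (ZFSet.sep (fun b => ∃ a ∈ suc z, pairN a b = z) (suc z))

@[simp] theorem leftN_nat (n : ℕ) : leftN (nat n) = nat (Nat.unpair n).1 := by
  have h : ZFSet.sep (fun a => ∃ b ∈ suc (nat n), pairN a b = nat n) (suc (nat n)) =
      {nat (Nat.unpair n).1} := by
    apply ZFSet.ext
    intro a
    rw [ZFSet.mem_sep, ZFSet.mem_singleton, suc_nat]
    constructor
    · rintro ⟨ha, b, hb, h⟩
      obtain ⟨a, _, rfl⟩ := mem_nat.1 ha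
      obtain ⟨b, _, rfl⟩ := mem_nat.1 hb
      rw [pairN_nat, nat_inj] at h
      rw [← h, Nat.unpair_pair]
    · rintro rfl
      refine ⟨nat_mem_nat.2 (Nat.lt_succ_of_le (Nat.unpair_left_le n)), nat (Nat.unpair n).2,
        nat_mem_nat.2 (Nat.lt_succ_of_le (Nat.unpair_right_le n)), ?_⟩
      rw [pairN_nat, Nat.pair_unpair]
  unfold leftN
  rw [h, ZFSet.sUnion_singleton]

@[simp] theorem rightN_nat (n : ℕ) : rightN (nat n) = nat (Nat.unpair n).2 := by
  have h : ZFSet.sep (fun b => ∃ a ∈ suc (nat n), pairN a b = nat n) (suc (nat n)) =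
      {nat (Nat.unpair n).2} := by
    apply ZFSet.ext
    intro b
    rw [ZFSet.mem_sep, ZFSet.mem_singleton, suc_nat]
    constructor
    · rintro ⟨hb, a, ha, h⟩
      obtain ⟨a, _, rfl⟩ := mem_nat.1 ha
      obtain ⟨b, _, rfl⟩ := mem_nat.1 hb
      rw [pairN_nat, nat_inj] at h
      rw [← h, Nat.unpair_pair]
    · rintro rfl
      refine ⟨nat_mem_nat.2 (Nat.lt_succ_of_le (Nat.unpair_right_le n)), nat (Nat.unpair n).1,
        nat_mem_nat.2 (Nat.lt_succ_of_le (Nat.unpair_left_le n)), ?_⟩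
      rw [pairN_nat, Nat.pair_unpair]
  unfold rightN
  rw [h, ZFSet.sUnion_singleton]

theorem d1_leftN : D1 leftN := by
  refine DT.sUnion (DT.sep (P := fun W a v => ∃ b ∈ suc (v 0), pairN a b = v 0)
    (d1_suc.app (DT.var 0)) ?_)
  exact Dfn.bex (P := fun W b v => pairN (v 0) b = v 1) (d1_suc.app (DT.var 1))
    (Dfn.eq (d2_pairN.app (DT.var 1) (DT.var 0)) (DT.var 2))

theorem d1_rightN : D1 rightN := by
  refine DT.sUnion (DT.sep (P := fun W b v => ∃ a ∈ suc (v 0), pairN a b = v 0)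
    (d1_suc.app (DT.var 0)) ?_)
  exact Dfn.bex (P := fun W a v => pairN a (v 0) = v 1) (d1_suc.app (DT.var 1))
    (Dfn.eq (d2_pairN.app (DT.var 0) (DT.var 1)) (DT.var 2))

/-- Every primitive recursive function is (the restriction of) a definable function. -/
theorem exists_D1_of_primrec {f : ℕ → ℕ} (hf : Nat.Primrec f) :
    ∃ F : V → V, D1 F ∧ ∀ n, F (nat n) = nat (f n) := by
  induction hf with
  | zero => exact ⟨fun _ => ∅, DT.empty, fun n => rfl⟩
  | succ => exact ⟨suc, d1_suc, fun n => rfl⟩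
  | left => exact ⟨leftN, d1_leftN, leftN_nat⟩
  | right => exact ⟨rightN, d1_rightN, rightN_nat⟩
  | pair _ _ ih1 ih2 =>
    obtain ⟨F, hF, hF'⟩ := ih1
    obtain ⟨G, hG, hG'⟩ := ih2
    exact ⟨fun x => pairN (F x) (G x), d2_pairN.app (hF.app (DT.var 0)) (hG.app (DT.var 0)),
      fun n => by simp only [hF', hG', pairN_nat]⟩
  | comp _ _ ih1 ih2 =>
    obtain ⟨F, hF, hF'⟩ := ih1
    obtain ⟨G, hG, hG'⟩ := ih2
    exact ⟨fun x => F (G x), hF.app (hG.app (DT.var 0)), fun n => by simp only [hG', hF']⟩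
  | prec _ _ ih1 ih2 =>
    obtain ⟨F, hF, hF'⟩ := ih1
    obtain ⟨G, hG, hG'⟩ := ih2
    refine ⟨fun x => nrec F (fun z y r => G (pairN z (pairN y r))) (leftN x) (rightN x), ?_, ?_⟩
    · refine (d2_nrec hF ?_).app (d1_leftN.app (DT.var 0)) (d1_rightN.app (DT.var 0))
      exact hG.app (d2_pairN.app (DT.var 0) (d2_pairN.app (DT.var 1) (DT.var 2)))
    · intro n
      simp only [leftN_nat, rightN_nat, Nat.unpaired]
      generalize (Nat.unpair n).1 = z
      generalize (Nat.unpair n).2 = m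
      induction m with
      | zero => exact (nrec_zero _ _ _).trans (hF' _)
      | succ m ih => rw [nrec_succ, ih, pairN_nat, pairN_nat, hG']

/-! ### Reals -/

theorem mem_rl {x : ℕ → ℕ} {z : V} : z ∈ rl x ↔ ∃ n, z = pair (nat n) (nat (x n)) := by
  unfold rl
  simp [eq_comm]

@[simp] theorem pair_mem_rl {x : ℕ → ℕ} {a b : ℕ} : pair (nat a) (nat b) ∈ rl x ↔ x a = b := by
  rw [mem_rl]
  constructor
  · rintro ⟨n, h⟩
    obtain ⟨h1, h2⟩ := ZFSet.pair_inj.1 h
    rw [nat_inj] at h1 h2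
    rw [h1, h2]
  · rintro rfl
    exact ⟨a, rfl⟩

theorem rl_inj {x y : ℕ → ℕ} : rl x = rl y ↔ x = y := by
  constructor
  · intro h
    funext n
    have h1 : pair (nat n) (nat (x n)) ∈ rl y := h ▸ pair_mem_rl.2 rfl
    exact (pair_mem_rl.1 h1).symm
  · rintro rfl
    rfl

@[simp] theorem app_rl (x : ℕ → ℕ) (n : ℕ) : app (rl x) (nat n) = nat (x n) := by
  refine app_eq (pair_mem_rl.2 rfl) fun z hz => ?_
  obtain ⟨m, h⟩ := mem_rl.1 hz
  obtain ⟨h1, h2⟩ := ZFSet.pair_inj.1 h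
  rw [nat_inj] at h1
  rw [h2, h1]

theorem rl_eq_gr {F : V → V} {x : ℕ → ℕ} (h : ∀ n, F (nat n) = nat (x n)) :
    rl x = gr F ZFSet.omega := by
  apply ZFSet.ext
  intro z
  rw [mem_rl, mem_gr]
  constructor
  · rintro ⟨n, rfl⟩
    exact ⟨nat n, nat_mem_omega n, by rw [h]⟩
  · rintro ⟨y, hy, rfl⟩
    obtain ⟨n, rfl⟩ := mem_omega.1 hy
    exact ⟨n, by rw [h]⟩

/-- The code of the pairing of two reals. -/
noncomputable def prN (X Y : V) : V :=
  gr (fun n => pairN (app X n) (app Y n)) ZFSet.omega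

@[simp] theorem prN_rl (x y : ℕ → ℕ) : prN (rl x) (rl y) = rl (pr x y) :=
  (rl_eq_gr fun n => by simp [pr]).symm

theorem d2_prN : D2 prN :=
  DT.gr (F := fun W n v => pairN (app (v 0) n) (app (v 1) n)) DT.omega
    (d2_pairN.app (DT.app (DT.var 1) (DT.var 0)) (DT.app (DT.var 2) (DT.var 0)))

/-- The code of the restriction of a real. -/
noncomputable def resN : V → V → V := nrec (fun _ => ∅) (fun X n r => suc (pairN (app X n) r))

@[simp] theorem resN_rl (x : ℕ → ℕ) (n : ℕ) : resN (rl x) (nat n) = nat (res x n) := by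
  induction n with
  | zero => exact nrec_zero _ _ _
  | succ n ih =>
    unfold resN at ih ⊢
    rw [nrec_succ, ih, app_rl, pairN_nat]
    rfl

theorem d2_resN : D2 resN :=
  d2_nrec DT.empty (d1_suc.app (d2_pairN.app (DT.app (DT.var 0) (DT.var 1)) (DT.var 2)))

/-- `X` is the code of a real. -/
def IsRl (X : V) : Prop := ∃ x, X = rl x

theorem isRl_iff {X : V} : IsRl X ↔ (∀ z ∈ X, ∃ a ∈ ZFSet.omega, ∃ b ∈ ZFSet.omega, z = pair a b) ∧
    ∀ a ∈ ZFSet.omega, ∃ b ∈ ZFSet.omega, pair a b ∈ X ∧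
      ∀ c ∈ ZFSet.omega, pair a c ∈ X → c = b := by
  constructor
  · rintro ⟨x, rfl⟩
    constructor
    · intro z hz
      obtain ⟨n, rfl⟩ := mem_rl.1 hz
      exact ⟨_, nat_mem_omega _, _, nat_mem_omega _, rfl⟩
    · intro a ha
      obtain ⟨n, rfl⟩ := mem_omega.1 ha
      refine ⟨nat (x n), nat_mem_omega _, pair_mem_rl.2 rfl, fun c hc h => ?_⟩
      obtain ⟨m, rfl⟩ := mem_omega.1 hc
      rw [pair_mem_rl.1 h]
  · rintro ⟨h1, h2⟩
    have h3 : ∀ n : ℕ, ∃ m : ℕ, pair (nat n) (nat m) ∈ X ∧ ∀ k : ℕ, pair (nat n) (nat k) ∈ X →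
        k = m := by
      intro n
      obtain ⟨b, hb, h, h'⟩ := h2 (nat n) (nat_mem_omega n)
      obtain ⟨m, rfl⟩ := mem_omega.1 hb
      exact ⟨m, h, fun k hk => nat_inj.1 (h' _ (nat_mem_omega k) hk)⟩
    choose x hx hx' using h3
    refine ⟨x, ?_⟩
    apply ZFSet.ext
    intro z
    rw [mem_rl]
    constructor
    · intro hz
      obtain ⟨a, ha, b, hb, rfl⟩ := h1 z hz
      obtain ⟨n, rfl⟩ := mem_omega.1 ha
      obtain ⟨m, rfl⟩ := mem_omega.1 hb
      exact ⟨n, by rw [hx' n m hz]⟩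
    · rintro ⟨n, rfl⟩
      exact hx n

theorem r1_isRl : R1 IsRl := by
  have h : Dfn (fun W v => (∀ z ∈ v 0, ∃ a ∈ ZFSet.omega, ∃ b ∈ ZFSet.omega, z = pair a b) ∧
      ∀ a ∈ ZFSet.omega, ∃ b ∈ ZFSet.omega, pair a b ∈ v 0 ∧
        ∀ c ∈ ZFSet.omega, pair a c ∈ v 0 → c = b) := by
    refine DC.and ?_ ?_
    · refine Dfn.ball (P := fun W z v => ∃ a ∈ ZFSet.omega, ∃ b ∈ ZFSet.omega, z = pair a b)
        (DT.var 0) ?_
      refine Dfn.bex (P := fun W a v => ∃ b ∈ ZFSet.omega, v 0 = pair a b) DT.omega ?_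
      exact Dfn.bex (P := fun W b v => v 1 = pair (v 0) b) DT.omega
        (Dfn.eq (DT.var 2) (DT.pair (DT.var 1) (DT.var 0)))
    · refine Dfn.ball (P := fun W a v => ∃ b ∈ ZFSet.omega, pair a b ∈ v 0 ∧
        ∀ c ∈ ZFSet.omega, pair a c ∈ v 0 → c = b) DT.omega ?_
      refine Dfn.bex (P := fun W b v => pair (v 0) b ∈ v 1 ∧
        ∀ c ∈ ZFSet.omega, pair (v 0) c ∈ v 1 → c = b) DT.omega ?_
      refine DC.and (Dfn.mem (DT.pair (DT.var 1) (DT.var 0)) (DT.var 2)) ?_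
      refine Dfn.ball (P := fun W c v => pair (v 1) c ∈ v 2 → c = v 0) DT.omega ?_
      exact DC.imp (Dfn.mem (DT.pair (DT.var 2) (DT.var 0)) (DT.var 3))
        (Dfn.eq (DT.var 0) (DT.var 1))
  exact h.congr fun W _ v _ => isRl_iff

/-- Quantifying over the reals of `W` is quantifying over real codes in `W`. -/
theorem exists_real_iff {W : Set V} {P : V → Prop} :
    (∃ x ∈ Reals W, P (rl x)) ↔ ∃ X ∈ W, IsRl X ∧ P X := by
  constructor
  · rintro ⟨x, hx, h⟩
    exact ⟨rl x, hx, ⟨x, rfl⟩, h⟩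
  · rintro ⟨X, hX, ⟨x, rfl⟩, h⟩
    exact ⟨x, hX, h⟩

theorem forall_real_iff {W : Set V} {P : V → Prop} :
    (∀ x ∈ Reals W, P (rl x)) ↔ ∀ X ∈ W, IsRl X → P X := by
  constructor
  · rintro h X hX ⟨x, rfl⟩
    exact h x hX
  · intro h x hx
    exact h _ hx ⟨x, rfl⟩

theorem Reals.pr {W : Set V} (hW : Nice W) {x y : ℕ → ℕ} (hx : x ∈ Reals W) (hy : y ∈ Reals W) :
    pr x y ∈ Reals W := by
  have := d2_prN.mem hW hx hy
  rwa [prN_rl] at this

/-- A real whose graph is a definable subset of `ω × ω` is in `W`. -/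
theorem Reals.of_D1 {W : Set V} (hW : Nice W) {F : V → V} (hF : D1 F) {x : ℕ → ℕ}
    (h : ∀ n, F (nat n) = nat (x n)) : x ∈ Reals W := by
  show rl x ∈ W
  rw [rl_eq_gr h]
  have h1 : DT (fun _ _ => gr F ZFSet.omega) :=
    DT.gr (F := fun _ x _ => F x) DT.omega (hF.app (DT.var 0))
  exact h1.mem W hW (fun _ => ∅) hW.in_const

end Pool.Agent.NUC
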