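import Pool.Agent.Lib.MP_bf67b0_lc.NUC.Calc0

/-!
# Definability calculus, part 1: definable terms over nice classes
-/

namespace Pool.Agent.NUC

open ZFSet (pair)

/-- The image of the set `a` under `f`. -/
noncomputable def img (f : V → V) (a : V) : V := ZFSet.range (fun x : a => f x)

@[simp] theorem mem_img {f : V → V} {a y : V} : y ∈ img f a ↔ ∃ x ∈ a, f x = y := by
  unfold img
  rw [ZFSet.mem_range]
  constructor
  · rintro ⟨x, hx⟩
    exact ⟨x, x.2, hx⟩
  · rintro ⟨x, hx, h⟩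
    exact ⟨⟨x, hx⟩, h⟩

theorem img_congr {f g : V → V} {a : V} (h : ∀ x ∈ a, f x = g x) : img f a = img g a := by
  apply ZFSet.ext
  intro y
  simp only [mem_img]
  exact exists_congr fun x => and_congr_right fun hx => by rw [h x hx]

/-- Definable terms (uniformly over nice classes; the value may depend on `W`). -/
structure DT (F : Set V → (ℕ → V) → V) : Prop where
  mem : ∀ W, Nice W → ∀ v, In W v → F W v ∈ W
  dfn : Dfn (fun W v => v 0 = F W (tl v))

theorem DT.congr {F G : Set V → (ℕ → V) → V} (h : DT F)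
    (hFG : ∀ W, Nice W → ∀ v, In W v → G W v = F W v) : DT G where
  mem W hW v hv := by rw [hFG W hW v hv]; exact h.mem W hW v hv
  dfn := h.dfn.congr fun W hW v hv => by rw [hFG W hW _ hv.tl]

theorem DT.var (i : ℕ) : DT (fun _ v => v i) where
  mem _ _ v hv := hv i
  dfn := DC.eq' 0 (i + 1)

theorem Dfn.subst1 {R : Set V → (ℕ → V) → Prop} {t : Set V → (ℕ → V) → V} (h : Dfn R)
    (ht : DT t) : Dfn (fun W v => R W (cons (t W v) v)) := by
  have h1 : Dfn (fun W v => ∃ x ∈ W, (x = t W v ∧ R W (cons x v))) := by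
    refine DC.ex (P := fun W x v => x = t W v ∧ R W (cons x v)) (DC.and ht.dfn ?_)
    simpa only [cons_tl] using h
  refine h1.congr fun W hW v hv => ?_
  constructor
  · intro h
    exact ⟨_, ht.mem W hW v hv, rfl, h⟩
  · rintro ⟨x, _, rfl, h⟩
    exact h

theorem DT.ren {F : Set V → (ℕ → V) → V} (h : DT F) (ρ : ℕ → ℕ) :
    DT (fun W v => F W (fun n => v (ρ n))) where
  mem W hW v hv := h.mem W hW _ fun n => hv _
  dfn := by
    have := DC.ren h.dfn (liftRen ρ)
    exact this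

/-- Auxiliary assignment for the simultaneous substitution. -/
def wAux (t : ℕ → Set V → (ℕ → V) → V) (W : Set V) (v : ℕ → V) : ℕ → (ℕ → V)
  | 0 => v
  | k + 1 => cons (t k W v) (wAux t W v k)

theorem wAux_add (t : ℕ → Set V → (ℕ → V) → V) (W : Set V) (v : ℕ → V) (k i : ℕ) :
    wAux t W v k (i + k) = v i := by
  induction k with
  | zero => rfl
  | succ k ih => exact ih

theorem wAux_sub (t : ℕ → Set V → (ℕ → V) → V) (W : Set V) (v : ℕ → V) (k i : ℕ) (h : i < k) :
    wAux t W v k (k - 1 - i) = t i W v := by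
  induction k with
  | zero => omega
  | succ k ih =>
    by_cases hi : i = k
    · subst hi
      have : i + 1 - 1 - i = 0 := by omega
      rw [this]
      rfl
    · have : k + 1 - 1 - i = (k - 1 - i) + 1 := by omega
      rw [this]
      exact ih (by omega)

theorem Dfn.wAux {t : ℕ → Set V → (ℕ → V) → V} (ht : ∀ i, DT (t i)) (k : ℕ) :
    ∀ {R : Set V → (ℕ → V) → Prop}, Dfn R → Dfn (fun W v => R W (wAux t W v k)) := by
  induction k with
  | zero => intro R h; exact h
  | succ k ih =>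
    intro R h
    have h1 : Dfn (fun W u => R W (cons (t k W (fun i => u (i + k))) u)) :=
      Dfn.subst1 h ((ht k).ren (fun i => i + k))
    refine (ih h1).congr fun W _ v _ => ?_
    show R W (cons (t k W v) (NUC.wAux t W v k)) ↔
      R W (cons (t k W fun i => NUC.wAux t W v k (i + k)) (NUC.wAux t W v k))
    simp only [wAux_add]

/-- Simultaneous substitution of terms. -/
theorem Dfn.comp {R : Set V → (ℕ → V) → Prop} (h : Dfn R) {t : ℕ → Set V → (ℕ → V) → V}
    (ht : ∀ i, DT (t i)) : Dfn (fun W v => R W (fun i => t i W v)) := by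
  obtain ⟨φ, hφ⟩ := h
  obtain ⟨n, hn⟩ := sat_support φ
  have h1 : Dfn (fun W u => Sat W φ (fun i => u (n - 1 - i))) :=
    ⟨φ.ren (fun i => n - 1 - i), fun W _ v _ => (sat_ren W φ _ v).symm⟩
  refine (Dfn.wAux ht n h1).congr fun W hW v hv => ?_
  rw [hφ W hW _ fun i => (ht i).mem W hW v hv]
  exact hn W _ _ fun i hi => (wAux_sub t W v n i hi).symm

theorem DT.comp {F : Set V → (ℕ → V) → V} (h : DT F) {t : ℕ → Set V → (ℕ → V) → V}
    (ht : ∀ i, DT (t i)) : DT (fun W v => F W (fun i => t i W v)) where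
  mem W hW v hv := h.mem W hW _ fun i => (ht i).mem W hW v hv
  dfn := by
    let t' : ℕ → Set V → (ℕ → V) → V := fun i W v => match i with
      | 0 => v 0
      | i + 1 => t i W (tl v)
    have ht' : ∀ i, DT (t' i) := by
      intro i
      cases i with
      | zero => exact DT.var 0
      | succ i => exact (ht i).ren (fun n => n + 1)
    exact Dfn.comp h.dfn ht'

theorem DT.tl {F : Set V → (ℕ → V) → V} (h : DT F) : DT (fun W v => F W (tl v)) :=
  h.ren (fun n => n + 1)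

/-! ### Relations between terms -/

theorem Dfn.mem {a b : Set V → (ℕ → V) → V} (ha : DT a) (hb : DT b) :
    Dfn (fun W v => a W v ∈ b W v) := by
  have := Dfn.comp (DC.mem' (C := Nice) 0 1)
    (t := fun i => match i with | 0 => a | _ + 1 => b)
    (fun i => by cases i <;> assumption)
  exact this

theorem Dfn.eq {a b : Set V → (ℕ → V) → V} (ha : DT a) (hb : DT b) :
    Dfn (fun W v => a W v = b W v) := by
  have := Dfn.comp (DC.eq' (C := Nice) 0 1)
    (t := fun i => match i with | 0 => a | _ + 1 => b)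
    (fun i => by cases i <;> assumption)
  exact this

theorem Dfn.ex {P : Set V → V → (ℕ → V) → Prop} (h : Dfn (fun W v => P W (v 0) (NUC.tl v))) :
    Dfn (fun W v => ∃ x ∈ W, P W x v) := DC.ex h

theorem Dfn.all {P : Set V → V → (ℕ → V) → Prop} (h : Dfn (fun W v => P W (v 0) (NUC.tl v))) :
    Dfn (fun W v => ∀ x ∈ W, P W x v) := DC.all h

theorem Dfn.bex {P : Set V → V → (ℕ → V) → Prop} {a : Set V → (ℕ → V) → V} (ha : DT a)
    (h : Dfn (fun W v => P W (v 0) (NUC.tl v))) : Dfn (fun W v => ∃ x ∈ a W v, P W x v) := by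
  have h1 : Dfn (fun W v => ∃ x ∈ W, (x ∈ a W v ∧ P W x v)) :=
    DC.ex (P := fun W x v => x ∈ a W v ∧ P W x v) ((Dfn.mem (DT.var 0) ha.tl).and h)
  refine h1.congr fun W hW v hv => ?_
  constructor
  · rintro ⟨x, hx, h⟩
    exact ⟨x, hW.trans _ (ha.mem W hW v hv) _ hx, hx, h⟩
  · rintro ⟨x, _, hx, h⟩
    exact ⟨x, hx, h⟩

theorem Dfn.ball {P : Set V → V → (ℕ → V) → Prop} {a : Set V → (ℕ → V) → V} (ha : DT a)
    (h : Dfn (fun W v => P W (v 0) (NUC.tl v))) : Dfn (fun W v => ∀ x ∈ a W v, P W x v) :=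
  (Dfn.bex (P := fun W x v => ¬ P W x v) ha (DC.not h)).not.congr fun W _ v _ => by
    push Not; rfl

theorem Dfn.subset {a b : Set V → (ℕ → V) → V} (ha : DT a) (hb : DT b) :
    Dfn (fun W v => a W v ⊆ b W v) :=
  (Dfn.ball (P := fun W x v => x ∈ b W v) ha (Dfn.mem (DT.var 0) hb.tl)).congr
    fun _ _ _ _ => ZFSet.subset_def

/-! ### The basic criterion -/

/-- A term with values in `W` and definable membership relation is definable. -/
theorem DT.of_mem {F : Set V → (ℕ → V) → V} (hF : ∀ W, Nice W → ∀ v, In W v → F W v ∈ W)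
    (h : Dfn (fun W v => v 0 ∈ F W (NUC.tl v))) : DT F where
  mem := hF
  dfn := by
    have h1 : Dfn (fun W v => (∀ x ∈ v 0, x ∈ F W (NUC.tl v)) ∧
        ∀ x ∈ W, (x ∈ F W (NUC.tl v) → x ∈ v 0)) := by
      have h2 : Dfn (fun W v => v 0 ∈ F W (fun n => v (n + 2))) :=
        DC.ren h (fun n => match n with | 0 => 0 | n + 1 => n + 2)
      refine DC.and (Dfn.ball (P := fun W x v => x ∈ F W (NUC.tl v)) (DT.var 0) h2) ?_
      exact Dfn.all (P := fun W x v => x ∈ F W (NUC.tl v) → x ∈ v 0)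
        (DC.imp h2 (Dfn.mem (DT.var 0) (DT.var 1)))
    refine h1.congr fun W hW v hv => ?_
    constructor
    · intro h
      rw [h]
      exact ⟨fun x hx => hx, fun x _ hx => hx⟩
    · rintro ⟨h3, h4⟩
      apply ZFSet.ext
      intro x
      exact ⟨h3 x, fun hx => h4 x (hW.trans _ (hF W hW _ hv.tl) _ hx) hx⟩

section nice

variable {W : Set V} (hW : Nice W)
include hW

theorem Nice.memOf {x y : V} (hy : y ∈ W) (h : x ∈ y) : x ∈ W := hW.trans _ hy _ h

theorem Nice.sepD {R : Set V → (ℕ → V) → Prop} (hR : Dfn R) {v : ℕ → V} (hv : In W v) {a : V}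
    (ha : a ∈ W) : ZFSet.sep (fun x => R W (cons x v)) a ∈ W := by
  obtain ⟨φ, hφ⟩ := hR
  have h := hW.sep φ v hv a ha
  convert h using 1
  apply ZFSet.ext
  intro x
  simp only [ZFSet.mem_sep]
  exact and_congr_right fun hx => hφ W hW _ (hv.cons (hW.memOf ha hx))

theorem Nice.collD {R : Set V → (ℕ → V) → Prop} (hR : Dfn R) {v : ℕ → V} (hv : In W v) {a : V}
    (ha : a ∈ W) (h : ∀ x ∈ a, ∃ y ∈ W, R W (cons y (cons x v))) :
    ∃ b ∈ W, ∀ x ∈ a, ∃ y ∈ b, R W (cons y (cons x v)) := by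
  obtain ⟨φ, hφ⟩ := hR
  obtain ⟨b, hb, h'⟩ := hW.coll φ v hv a ha (fun x hx => by
    obtain ⟨y, hy, h1⟩ := h x hx
    exact ⟨y, hy, (hφ W hW _ ((hv.cons (hW.memOf ha hx)).cons hy)).1 h1⟩)
  refine ⟨b, hb, fun x hx => ?_⟩
  obtain ⟨y, hy, h1⟩ := h' x hx
  exact ⟨y, hy, (hφ W hW _ ((hv.cons (hW.memOf ha hx)).cons (hW.memOf hb hy))).2 h1⟩

theorem Nice.empty_mem : (∅ : V) ∈ W := hW.memOf hW.omega ZFSet.omega_zero

theorem Nice.in_const : In W (fun _ => ∅) := fun _ => hW.empty_mem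

theorem Nice.singleton {x : V} (hx : x ∈ W) : ({x} : V) ∈ W := by
  have := hW.upair x hx x hx
  rwa [ZFSet.pair_eq_singleton] at this

theorem Nice.union {x y : V} (hx : x ∈ W) (hy : y ∈ W) : x ∪ y ∈ W :=
  hW.sUnion _ (hW.upair x hx y hy)

theorem Nice.insert {x y : V} (hx : x ∈ W) (hy : y ∈ W) : insert x y ∈ W := by
  rw [ZFSet.insert_eq]
  exact hW.union (hW.singleton hx) hy

theorem Nice.pair {x y : V} (hx : x ∈ W) (hy : y ∈ W) : pair x y ∈ W :=
  hW.upair _ (hW.singleton hx) _ (hW.upair x hx y hy)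

theorem Nice.of_pair {x y : V} (h : ZFSet.pair x y ∈ W) : x ∈ W ∧ y ∈ W := by
  have h1 : ({x, y} : V) ∈ W := hW.memOf h (by simp [ZFSet.pair])
  exact ⟨hW.memOf h1 (by simp), hW.memOf h1 (by simp)⟩

end nice

/-! ### Terms -/

variable {a b c d : Set V → (ℕ → V) → V}

theorem DT.empty : DT (fun _ _ => (∅ : V)) :=
  DT.of_mem (fun _ hW _ _ => hW.empty_mem) (DC.false.congr fun W _ v _ => by simp)

theorem DT.upair (ha : DT a) (hb : DT b) : DT (fun W v => ({a W v, b W v} : V)) :=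
  DT.of_mem (fun W hW v hv => hW.upair _ (ha.mem W hW v hv) _ (hb.mem W hW v hv))
    ((DC.or (Dfn.eq (DT.var 0) ha.tl) (Dfn.eq (DT.var 0) hb.tl)).congr fun W _ v _ => by simp)

theorem DT.singleton (ha : DT a) : DT (fun W v => ({a W v} : V)) :=
  (DT.upair ha ha).congr fun W _ v _ => (ZFSet.pair_eq_singleton _).symm

theorem DT.pair (ha : DT a) (hb : DT b) : DT (fun W v => ZFSet.pair (a W v) (b W v)) :=
  DT.upair (DT.singleton ha) (DT.upair ha hb)

theorem DT.sUnion (ha : DT a) : DT (fun W v => ZFSet.sUnion (a W v)) :=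
  DT.of_mem (fun W hW v hv => hW.sUnion _ (ha.mem W hW v hv))
    ((Dfn.bex (P := fun W x v => v 0 ∈ x) ha.tl (Dfn.mem (DT.var 1) (DT.var 0))).congr
      fun W _ v _ => by simp)

theorem DT.union (ha : DT a) (hb : DT b) : DT (fun W v => a W v ∪ b W v) :=
  DT.sUnion (DT.upair ha hb)

theorem DT.insert (ha : DT a) (hb : DT b) : DT (fun W v => insert (a W v) (b W v)) :=
  (DT.union (DT.singleton ha) hb).congr fun W _ v _ => ZFSet.insert_eq _ _

/-! ### Natural numbers -/

theorem mk_ofNat (n : ℕ) : ZFSet.mk (PSet.ofNat.{0} n) = nat n := by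
  induction n with
  | zero => rfl
  | succ n ih =>
    show ZFSet.mk (insert (PSet.ofNat n) (PSet.ofNat n)) = insert (nat n) (nat n)
    rw [← ih]
    rfl

theorem mem_omega {x : V} : x ∈ ZFSet.omega ↔ ∃ n, x = nat n := by
  constructor
  · induction x using Quotient.inductionOn with
    | h x =>
      rintro ⟨n, hn⟩
      refine ⟨n.down, ?_⟩
      rw [← mk_ofNat]
      exact ZFSet.sound hn
  · rintro ⟨n, rfl⟩
    induction n with
    | zero => exact ZFSet.omega_zero
    | succ n ih => exact ZFSet.omega_succ ih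

theorem nat_mem_omega (n : ℕ) : nat n ∈ ZFSet.omega := mem_omega.2 ⟨n, rfl⟩

theorem mem_nat {n : ℕ} {x : V} : x ∈ nat n ↔ ∃ m < n, x = nat m := by
  induction n with
  | zero => simp [nat]
  | succ n ih =>
    rw [nat, ZFSet.mem_insert_iff, ih]
    constructor
    · rintro (h | ⟨m, hm, h⟩)
      · exact ⟨n, by omega, h⟩
      · exact ⟨m, by omega, h⟩
    · rintro ⟨m, hm, h⟩
      rcases Nat.lt_succ_iff_lt_or_eq.1 hm with h1 | h1
      · exact Or.inr ⟨m, h1, h⟩
      · exact Or.inl (by rw [h, h1])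

theorem nat_inj {m n : ℕ} : nat m = nat n ↔ m = n := by
  constructor
  · intro h
    rcases lt_trichotomy m n with h1 | h1 | h1
    · have h2 : nat m ∈ nat n := mem_nat.2 ⟨m, h1, rfl⟩
      rw [← h] at h2
      exact absurd h2 (ZFSet.mem_irrefl _)
    · exact h1
    · have h2 : nat n ∈ nat m := mem_nat.2 ⟨n, h1, rfl⟩
      rw [h] at h2
      exact absurd h2 (ZFSet.mem_irrefl _)
  · rintro rfl
    rfl

theorem nat_mem_nat {m n : ℕ} : nat m ∈ nat n ↔ m < n := by
  rw [mem_nat]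
  constructor
  · rintro ⟨k, hk, h⟩
    rw [nat_inj.1 h]
    exact hk
  · intro h
    exact ⟨m, h, rfl⟩

theorem DT.omega : DT (fun _ _ => ZFSet.omega) where
  mem _ hW _ _ := hW.omega
  dfn := by
    have h : Dfn (fun W v => ((∅ : V) ∈ v 0 ∧ (∀ x ∈ v 0, (Insert.insert x x : V) ∈ v 0)) ∧
        ∀ x ∈ v 0, (x = ∅ ∨ ∃ y ∈ v 0, x = Insert.insert y y)) := by
      refine DC.and (DC.and (Dfn.mem DT.empty (DT.var 0)) ?_) ?_
      · exact Dfn.ball (P := fun W x v => (Insert.insert x x : V) ∈ v 0) (DT.var 0)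
          (Dfn.mem (DT.insert (DT.var 0) (DT.var 0)) (DT.var 1))
      · refine Dfn.ball (P := fun W x v => (x = ∅ ∨ ∃ y ∈ v 0, x = Insert.insert y y)) (DT.var 0)
          (DC.or (Dfn.eq (DT.var 0) DT.empty) ?_)
        exact Dfn.bex (P := fun W y v => v 0 = Insert.insert y y) (DT.var 1)
          (Dfn.eq (DT.var 1) (DT.insert (DT.var 0) (DT.var 0)))
    refine h.congr fun W hW v _ => ?_
    constructor
    · intro h
      rw [h]
      refine ⟨⟨ZFSet.omega_zero, fun x hx => ZFSet.omega_succ hx⟩, fun x hx => ?_⟩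
      obtain ⟨n, rfl⟩ := mem_omega.1 hx
      cases n with
      | zero => exact Or.inl rfl
      | succ n => exact Or.inr ⟨nat n, nat_mem_omega n, rfl⟩
    · rintro ⟨⟨h1, h2⟩, h3⟩
      apply ZFSet.ext
      intro x
      constructor
      · intro hx
        induction x using ZFSet.inductionOn with
        | _ x ih =>
          rcases h3 x hx with rfl | ⟨y, hy, rfl⟩
          · exact ZFSet.omega_zero
          · exact ZFSet.omega_succ (ih y (ZFSet.mem_insert _ _) hy)
      · intro hx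
        obtain ⟨n, rfl⟩ := mem_omega.1 hx
        induction n with
        | zero => exact h1
        | succ n ih => exact h2 _ (ih (nat_mem_omega n))

theorem Nice.nat {W : Set V} (hW : Nice W) (n : ℕ) : nat n ∈ W := hW.memOf hW.omega (nat_mem_omega n)

theorem DT.nat (n : ℕ) : DT (fun _ _ => NUC.nat n) := by
  induction n with
  | zero => exact DT.empty
  | succ n ih => exact DT.insert ih ih

/-! ### Separation, images -/

/-- A separation term. -/
theorem DT.sep {P : Set V → V → (ℕ → V) → Prop} (ha : DT a)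
    (h : Dfn (fun W v => P W (v 0) (NUC.tl v))) :
    DT (fun W v => ZFSet.sep (fun x => P W x v) (a W v)) := by
  refine DT.of_mem (fun W hW v hv => ?_) ?_
  · exact hW.sepD h hv (ha.mem W hW v hv)
  · exact (DC.and (Dfn.mem (DT.var 0) ha.tl) h).congr fun W _ v _ => by simp

theorem DT.inter (ha : DT a) (hb : DT b) : DT (fun W v => a W v ∩ b W v) :=
  (DT.sep (P := fun W x v => x ∈ b W v) ha (Dfn.mem (DT.var 0) hb.tl)).congr
    fun W _ v _ => by apply ZFSet.ext; intro x; simp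

theorem DT.diff (ha : DT a) (hb : DT b) : DT (fun W v => a W v \ b W v) :=
  (DT.sep (P := fun W x v => x ∉ b W v) ha (DC.not (Dfn.mem (DT.var 0) hb.tl))).congr
    fun W _ v _ => by apply ZFSet.ext; intro x; simp

theorem DT.img {F : Set V → V → (ℕ → V) → V} (ha : DT a)
    (h : DT (fun W v => F W (v 0) (NUC.tl v))) :
    DT (fun W v => img (fun x => F W x v) (a W v)) := by
  refine DT.of_mem (fun W hW v hv => ?_) ?_
  · have h1 : Dfn (fun W v => v 0 = F W (v 1) (NUC.tl (NUC.tl v))) := h.dfn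
    obtain ⟨b, hb, h2⟩ := hW.collD h1 hv (ha.mem W hW v hv) (fun x hx =>
      ⟨F W x v, h.mem W hW _ (hv.cons (hW.memOf (ha.mem W hW v hv) hx)), rfl⟩)
    have h3 : Dfn (fun W v => ∃ x ∈ a W (NUC.tl v), v 0 = F W x (NUC.tl v)) :=
      Dfn.bex (P := fun W x v => v 0 = F W x (NUC.tl v)) ha.tl
        (DC.ren h1 (fun n => match n with | 0 => 1 | 1 => 0 | n + 2 => n + 2))
    have h4 := hW.sepD h3 hv hb
    convert h4 using 1
    apply ZFSet.ext
    intro y
    simp only [mem_img, ZFSet.mem_sep]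
    constructor
    · rintro ⟨x, hx, rfl⟩
      obtain ⟨y, hy, h5⟩ := h2 x hx
      have h6 : y = F W x v := h5
      rw [h6] at hy
      exact ⟨hy, x, hx, rfl⟩
    · rintro ⟨_, x, hx, h5⟩
      exact ⟨x, hx, h5.symm⟩
  · exact (Dfn.bex (P := fun W x v => v 0 = F W x (NUC.tl v)) ha.tl
      (DC.ren h.dfn (fun n => match n with | 0 => 1 | 1 => 0 | n + 2 => n + 2))).congr
        fun W _ v _ => by simp [eq_comm]

/-- Union of a definable family indexed by a set. -/
noncomputable def bU (a : V) (f : V → V) : V := ZFSet.sUnion (NUC.img f a)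

@[simp] theorem mem_bU {f : V → V} {a y : V} : y ∈ bU a f ↔ ∃ x ∈ a, y ∈ f x := by
  unfold bU
  simp

theorem DT.bU {F : Set V → V → (ℕ → V) → V} (ha : DT a)
    (h : DT (fun W v => F W (v 0) (NUC.tl v))) :
    DT (fun W v => bU (a W v) (fun x => F W x v)) :=
  DT.sUnion (DT.img ha h)

theorem DT.prod (ha : DT a) (hb : DT b) : DT (fun W v => ZFSet.prod (a W v) (b W v)) := by
  refine (DT.bU (F := fun W x v => NUC.img (fun y => ZFSet.pair x y) (b W v)) ha ?_).congr ?_
  · exact DT.img (F := fun W y v => ZFSet.pair (v 0) y) hb.tl (DT.pair (DT.var 1) (DT.var 0))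
  · intro W _ v _
    apply ZFSet.ext
    intro z
    simp [eq_comm]

open Classical in
theorem DT.ite {P : Set V → (ℕ → V) → Prop} (hP : Dfn P) (ha : DT a) (hb : DT b) :
    DT (fun W v => if P W v then a W v else b W v) where
  mem W hW v hv := by
    split_ifs
    · exact ha.mem W hW v hv
    · exact hb.mem W hW v hv
  dfn := by
    have h : Dfn (fun W v => (P W (NUC.tl v) ∧ v 0 = a W (NUC.tl v)) ∨
        (¬ P W (NUC.tl v) ∧ v 0 = b W (NUC.tl v))) := by
      have hP' : Dfn (fun W v => P W (NUC.tl v)) := DC.ren hP (fun n => n + 1)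
      exact DC.or (DC.and hP' ha.dfn) (DC.and hP'.not hb.dfn)
    refine h.congr fun W _ v _ => ?_
    by_cases h1 : P W (NUC.tl v) <;> simp [h1]

/-! ### Functions and relations of few arguments -/

/-- `F` is (absolutely) definable. -/
def D1 (F : V → V) : Prop := DT (fun _ v => F (v 0))
def D2 (F : V → V → V) : Prop := DT (fun _ v => F (v 0) (v 1))
def D3 (F : V → V → V → V) : Prop := DT (fun _ v => F (v 0) (v 1) (v 2))
def D4 (F : V → V → V → V → V) : Prop := DT (fun _ v => F (v 0) (v 1) (v 2) (v 3))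
def R1 (P : V → Prop) : Prop := Dfn (fun _ v => P (v 0))
def R2 (P : V → V → Prop) : Prop := Dfn (fun _ v => P (v 0) (v 1))
def R3 (P : V → V → V → Prop) : Prop := Dfn (fun _ v => P (v 0) (v 1) (v 2))
def R4 (P : V → V → V → V → Prop) : Prop := Dfn (fun _ v => P (v 0) (v 1) (v 2) (v 3))

/-- The list of terms `a, b, c, d, d, …`. -/
def tms (a b c d : Set V → (ℕ → V) → V) : ℕ → Set V → (ℕ → V) → V
  | 0 => a
  | 1 => b
  | 2 => c
  | _ => d

theorem dt_tms (ha : DT a) (hb : DT b) (hc : DT c) (hd : DT d) (i : ℕ) : DT (tms a b c d i) := by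
  match i with
  | 0 => exact ha
  | 1 => exact hb
  | 2 => exact hc
  | _ + 3 => exact hd

theorem DT.app1 {F : Set V → V → V} (h : DT (fun W v => F W (v 0))) (ha : DT a) :
    DT (fun W v => F W (a W v)) := DT.comp h (dt_tms ha ha ha ha)

theorem DT.app2 {F : Set V → V → V → V} (h : DT (fun W v => F W (v 0) (v 1))) (ha : DT a)
    (hb : DT b) : DT (fun W v => F W (a W v) (b W v)) := DT.comp h (dt_tms ha hb hb hb)

theorem DT.app3 {F : Set V → V → V → V → V} (h : DT (fun W v => F W (v 0) (v 1) (v 2)))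
    (ha : DT a) (hb : DT b) (hc : DT c) : DT (fun W v => F W (a W v) (b W v) (c W v)) :=
  DT.comp h (dt_tms ha hb hc hc)

theorem DT.app4 {F : Set V → V → V → V → V → V}
    (h : DT (fun W v => F W (v 0) (v 1) (v 2) (v 3))) (ha : DT a) (hb : DT b) (hc : DT c)
    (hd : DT d) : DT (fun W v => F W (a W v) (b W v) (c W v) (d W v)) :=
  DT.comp h (dt_tms ha hb hc hd)

theorem Dfn.app1 {F : Set V → V → Prop} (h : Dfn (fun W v => F W (v 0))) (ha : DT a) :
    Dfn (fun W v => F W (a W v)) := Dfn.comp h (dt_tms ha ha ha ha)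

theorem Dfn.app2 {F : Set V → V → V → Prop} (h : Dfn (fun W v => F W (v 0) (v 1))) (ha : DT a)
    (hb : DT b) : Dfn (fun W v => F W (a W v) (b W v)) := Dfn.comp h (dt_tms ha hb hb hb)

theorem Dfn.app3 {F : Set V → V → V → V → Prop} (h : Dfn (fun W v => F W (v 0) (v 1) (v 2)))
    (ha : DT a) (hb : DT b) (hc : DT c) : Dfn (fun W v => F W (a W v) (b W v) (c W v)) :=
  Dfn.comp h (dt_tms ha hb hc hc)

theorem Dfn.app4 {F : Set V → V → V → V → V → Prop}
    (h : Dfn (fun W v => F W (v 0) (v 1) (v 2) (v 3))) (ha : DT a) (hb : DT b) (hc : DT c)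
    (hd : DT d) : Dfn (fun W v => F W (a W v) (b W v) (c W v) (d W v)) :=
  Dfn.comp h (dt_tms ha hb hc hd)

/-- The list of terms `a, b, c, d, e, e, …`. -/
def tms5 (a b c d e : Set V → (ℕ → V) → V) : ℕ → Set V → (ℕ → V) → V
  | 0 => a
  | 1 => b
  | 2 => c
  | 3 => d
  | _ => e

theorem dt_tms5 {e : Set V → (ℕ → V) → V} (ha : DT a) (hb : DT b) (hc : DT c) (hd : DT d)
    (he : DT e) (i : ℕ) : DT (tms5 a b c d e i) := by
  match i with
  | 0 => exact ha
  | 1 => exact hb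
  | 2 => exact hc
  | 3 => exact hd
  | _ + 4 => exact he

theorem DT.app5 {F : Set V → V → V → V → V → V → V} {e : Set V → (ℕ → V) → V}
    (h : DT (fun W v => F W (v 0) (v 1) (v 2) (v 3) (v 4))) (ha : DT a) (hb : DT b) (hc : DT c)
    (hd : DT d) (he : DT e) : DT (fun W v => F W (a W v) (b W v) (c W v) (d W v) (e W v)) :=
  DT.comp h (dt_tms5 ha hb hc hd he)

theorem Dfn.app5 {F : Set V → V → V → V → V → V → Prop} {e : Set V → (ℕ → V) → V}
    (h : Dfn (fun W v => F W (v 0) (v 1) (v 2) (v 3) (v 4))) (ha : DT a) (hb : DT b) (hc : DT c)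
    (hd : DT d) (he : DT e) : Dfn (fun W v => F W (a W v) (b W v) (c W v) (d W v) (e W v)) :=
  Dfn.comp h (dt_tms5 ha hb hc hd he)

theorem D1.app {F : V → V} (h : D1 F) (ha : DT a) : DT (fun W v => F (a W v)) :=
  DT.app1 (F := fun _ => F) h ha
theorem D2.app {F : V → V → V} (h : D2 F) (ha : DT a) (hb : DT b) :
    DT (fun W v => F (a W v) (b W v)) := DT.app2 (F := fun _ => F) h ha hb
theorem D3.app {F : V → V → V → V} (h : D3 F) (ha : DT a) (hb : DT b) (hc : DT c) :
    DT (fun W v => F (a W v) (b W v) (c W v)) := DT.app3 (F := fun _ => F) h ha hb hc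
theorem D4.app {F : V → V → V → V → V} (h : D4 F) (ha : DT a) (hb : DT b) (hc : DT c)
    (hd : DT d) : DT (fun W v => F (a W v) (b W v) (c W v) (d W v)) :=
  DT.app4 (F := fun _ => F) h ha hb hc hd
theorem R1.app {F : V → Prop} (h : R1 F) (ha : DT a) : Dfn (fun W v => F (a W v)) :=
  Dfn.app1 (F := fun _ => F) h ha
theorem R2.app {F : V → V → Prop} (h : R2 F) (ha : DT a) (hb : DT b) :
    Dfn (fun W v => F (a W v) (b W v)) := Dfn.app2 (F := fun _ => F) h ha hb
theorem R3.app {F : V → V → V → Prop} (h : R3 F) (ha : DT a) (hb : DT b) (hc : DT c) :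
    Dfn (fun W v => F (a W v) (b W v) (c W v)) := Dfn.app3 (F := fun _ => F) h ha hb hc
theorem R4.app {F : V → V → V → V → Prop} (h : R4 F) (ha : DT a) (hb : DT b) (hc : DT c)
    (hd : DT d) : Dfn (fun W v => F (a W v) (b W v) (c W v) (d W v)) :=
  Dfn.app4 (F := fun _ => F) h ha hb hc hd

/-! Values of definable functions lie in `W`. -/

theorem D1.mem {F : V → V} (h : D1 F) {W : Set V} (hW : Nice W) {x : V} (hx : x ∈ W) :
    F x ∈ W := DT.mem h W hW (fun _ => x) (fun _ => hx)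
theorem D2.mem {F : V → V → V} (h : D2 F) {W : Set V} (hW : Nice W) {x y : V} (hx : x ∈ W)
    (hy : y ∈ W) : F x y ∈ W :=
  DT.mem h W hW (cons x (fun _ => y)) (In.cons hx (fun _ => hy))
theorem D3.mem {F : V → V → V → V} (h : D3 F) {W : Set V} (hW : Nice W) {x y z : V} (hx : x ∈ W)
    (hy : y ∈ W) (hz : z ∈ W) : F x y z ∈ W :=
  DT.mem h W hW (cons x (cons y (fun _ => z))) (In.cons hx (In.cons hy (fun _ => hz)))
theorem D4.mem {F : V → V → V → V → V} (h : D4 F) {W : Set V} (hW : Nice W) {x y z w : V}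
    (hx : x ∈ W) (hy : y ∈ W) (hz : z ∈ W) (hw : w ∈ W) : F x y z w ∈ W :=
  DT.mem h W hW (cons x (cons y (cons z (fun _ => w))))
    (In.cons hx (In.cons hy (In.cons hz (fun _ => hw))))

/-! ### Ordered pairs, domain, application -/

/-- First component of an ordered pair. -/
noncomputable def fst (z : V) : V :=
  ZFSet.sUnion (ZFSet.sep (fun x => ∃ y ∈ ZFSet.sUnion z, z = ZFSet.pair x y) (ZFSet.sUnion z))

/-- Second component of an ordered pair. -/
noncomputable def snd (z : V) : V :=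
  ZFSet.sUnion (ZFSet.sep (fun y => ∃ x ∈ ZFSet.sUnion z, z = ZFSet.pair x y) (ZFSet.sUnion z))

theorem mem_sUnion_pair_left (x y : V) : x ∈ ZFSet.sUnion (ZFSet.pair x y) := by
  simp [ZFSet.pair]

theorem mem_sUnion_pair_right (x y : V) : y ∈ ZFSet.sUnion (ZFSet.pair x y) := by
  simp [ZFSet.pair]

@[simp] theorem fst_pair (x y : V) : fst (ZFSet.pair x y) = x := by
  unfold fst
  apply ZFSet.ext
  intro z
  rw [ZFSet.mem_sUnion]
  constructor
  · rintro ⟨u, hu, hz⟩
    rw [ZFSet.mem_sep] at hu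
    obtain ⟨_, w, _, h⟩ := hu
    rw [(ZFSet.pair_inj.1 h).1]
    exact hz
  · intro hz
    exact ⟨x, ZFSet.mem_sep.2 ⟨mem_sUnion_pair_left x y, y, mem_sUnion_pair_right x y, rfl⟩, hz⟩

@[simp] theorem snd_pair (x y : V) : snd (ZFSet.pair x y) = y := by
  unfold snd
  apply ZFSet.ext
  intro z
  rw [ZFSet.mem_sUnion]
  constructor
  · rintro ⟨u, hu, hz⟩
    rw [ZFSet.mem_sep] at hu
    obtain ⟨_, w, _, h⟩ := hu
    rw [(ZFSet.pair_inj.1 h).2]
    exact hz
  · intro hz
    exact ⟨y, ZFSet.mem_sep.2 ⟨mem_sUnion_pair_right x y, x, mem_sUnion_pair_left x y, rfl⟩, hz⟩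

theorem d1_fst : D1 fst := by
  refine DT.sUnion (DT.sep (P := fun W x v => ∃ y ∈ ZFSet.sUnion (v 0), v 0 = ZFSet.pair x y)
    (DT.sUnion (DT.var 0)) ?_)
  exact Dfn.bex (P := fun W y v => v 1 = ZFSet.pair (v 0) y) (DT.sUnion (DT.var 1))
    (Dfn.eq (DT.var 2) (DT.pair (DT.var 1) (DT.var 0)))

theorem d1_snd : D1 snd := by
  refine DT.sUnion (DT.sep (P := fun W x v => ∃ y ∈ ZFSet.sUnion (v 0), v 0 = ZFSet.pair y x)
    (DT.sUnion (DT.var 0)) ?_)
  exact Dfn.bex (P := fun W y v => v 1 = ZFSet.pair y (v 0)) (DT.sUnion (DT.var 1))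
    (Dfn.eq (DT.var 2) (DT.pair (DT.var 0) (DT.var 1)))

theorem DT.fst (ha : DT a) : DT (fun W v => NUC.fst (a W v)) := d1_fst.app ha
theorem DT.snd (ha : DT a) : DT (fun W v => NUC.snd (a W v)) := d1_snd.app ha

/-- The domain of a relation. -/
noncomputable def dom (f : V) : V :=
  ZFSet.sep (fun x => ∃ y ∈ ZFSet.sUnion (ZFSet.sUnion f), ZFSet.pair x y ∈ f)
    (ZFSet.sUnion (ZFSet.sUnion f))

/-- The range of a relation. -/
noncomputable def ran (f : V) : V :=
  ZFSet.sep (fun y => ∃ x ∈ ZFSet.sUnion (ZFSet.sUnion f), ZFSet.pair x y ∈ f)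
    (ZFSet.sUnion (ZFSet.sUnion f))

theorem mem_UU_left {f x y : V} (h : ZFSet.pair x y ∈ f) :
    x ∈ ZFSet.sUnion (ZFSet.sUnion f) := by
  rw [ZFSet.mem_sUnion]
  exact ⟨{x, y}, ZFSet.mem_sUnion.2 ⟨_, h, by simp [ZFSet.pair]⟩, by simp⟩

theorem mem_UU_right {f x y : V} (h : ZFSet.pair x y ∈ f) :
    y ∈ ZFSet.sUnion (ZFSet.sUnion f) := by
  rw [ZFSet.mem_sUnion]
  exact ⟨{x, y}, ZFSet.mem_sUnion.2 ⟨_, h, by simp [ZFSet.pair]⟩, by simp⟩

@[simp] theorem mem_dom {f x : V} : x ∈ dom f ↔ ∃ y, ZFSet.pair x y ∈ f := by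
  unfold dom
  rw [ZFSet.mem_sep]
  constructor
  · rintro ⟨_, y, _, h⟩
    exact ⟨y, h⟩
  · rintro ⟨y, h⟩
    exact ⟨mem_UU_left h, y, mem_UU_right h, h⟩

@[simp] theorem mem_ran {f y : V} : y ∈ ran f ↔ ∃ x, ZFSet.pair x y ∈ f := by
  unfold ran
  rw [ZFSet.mem_sep]
  constructor
  · rintro ⟨_, x, _, h⟩
    exact ⟨x, h⟩
  · rintro ⟨x, h⟩
    exact ⟨mem_UU_right h, x, mem_UU_left h, h⟩

theorem d1_dom : D1 dom := by
  refine DT.sep (P := fun W x v => ∃ y ∈ ZFSet.sUnion (ZFSet.sUnion (v 0)), ZFSet.pair x y ∈ v 0)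
    (DT.sUnion (DT.sUnion (DT.var 0))) ?_
  exact Dfn.bex (P := fun W y v => ZFSet.pair (v 0) y ∈ v 1) (DT.sUnion (DT.sUnion (DT.var 1)))
    (Dfn.mem (DT.pair (DT.var 1) (DT.var 0)) (DT.var 2))

theorem d1_ran : D1 ran := by
  refine DT.sep (P := fun W x v => ∃ y ∈ ZFSet.sUnion (ZFSet.sUnion (v 0)), ZFSet.pair y x ∈ v 0)
    (DT.sUnion (DT.sUnion (DT.var 0))) ?_
  exact Dfn.bex (P := fun W y v => ZFSet.pair y (v 0) ∈ v 1) (DT.sUnion (DT.sUnion (DT.var 1)))
    (Dfn.mem (DT.pair (DT.var 0) (DT.var 1)) (DT.var 2))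

theorem DT.dom (ha : DT a) : DT (fun W v => NUC.dom (a W v)) := d1_dom.app ha
theorem DT.ran (ha : DT a) : DT (fun W v => NUC.ran (a W v)) := d1_ran.app ha

/-- Value of the function (set of pairs) `f` at `x`. -/
noncomputable def app (f x : V) : V :=
  ZFSet.sUnion (ZFSet.sep (fun y => ZFSet.pair x y ∈ f) (ZFSet.sUnion (ZFSet.sUnion f)))

theorem app_eq {f x y : V} (h : ZFSet.pair x y ∈ f) (hu : ∀ z, ZFSet.pair x z ∈ f → z = y) :
    app f x = y := by
  unfold app
  apply ZFSet.ext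
  intro z
  rw [ZFSet.mem_sUnion]
  constructor
  · rintro ⟨w, hw, hz⟩
    rw [ZFSet.mem_sep] at hw
    rw [← hu w hw.2]
    exact hz
  · intro hz
    exact ⟨y, ZFSet.mem_sep.2 ⟨mem_UU_right h, h⟩, hz⟩

theorem d2_app : D2 app := by
  refine DT.sUnion (DT.sep (P := fun W y v => ZFSet.pair (v 1) y ∈ v 0)
    (DT.sUnion (DT.sUnion (DT.var 0))) ?_)
  exact Dfn.mem (DT.pair (DT.var 2) (DT.var 0)) (DT.var 1)

theorem DT.app (ha : DT a) (hb : DT b) : DT (fun W v => NUC.app (a W v) (b W v)) :=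
  d2_app.app ha hb

/-- The graph of `f` on the set `a`. -/
noncomputable def gr (f : V → V) (a : V) : V := NUC.img (fun x => ZFSet.pair x (f x)) a

@[simp] theorem pair_mem_gr {f : V → V} {a x y : V} :
    ZFSet.pair x y ∈ gr f a ↔ x ∈ a ∧ f x = y := by
  unfold gr
  simp only [mem_img, ZFSet.pair_inj]
  constructor
  · rintro ⟨z, hz, rfl, rfl⟩
    exact ⟨hz, rfl⟩
  · rintro ⟨hx, rfl⟩
    exact ⟨x, hx, rfl, rfl⟩

theorem mem_gr {f : V → V} {a z : V} : z ∈ gr f a ↔ ∃ x ∈ a, z = ZFSet.pair x (f x) := by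
  unfold gr
  simp [eq_comm]

@[simp] theorem app_gr {f : V → V} {a x : V} (hx : x ∈ a) : NUC.app (gr f a) x = f x :=
  app_eq (pair_mem_gr.2 ⟨hx, rfl⟩) fun z hz => (pair_mem_gr.1 hz).2.symm

@[simp] theorem dom_gr {f : V → V} {a : V} : NUC.dom (gr f a) = a := by
  apply ZFSet.ext
  intro x
  simp

theorem DT.gr {F : Set V → V → (ℕ → V) → V} (ha : DT a)
    (h : DT (fun W v => F W (v 0) (NUC.tl v))) :
    DT (fun W v => NUC.gr (fun x => F W x v) (a W v)) :=
  DT.img (F := fun W x v => ZFSet.pair x (F W x v)) ha (DT.pair (DT.var 0) h)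

end Pool.Agent.NUC
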