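import Pool.Agent.Lib.MP_bf67b0_lc.NUC.Defs

/-!
# Definability calculus, part 0: relations definable uniformly over a class of structures
-/

namespace Pool.Agent.NUC

/-- The tail of an assignment. -/
abbrev tl (v : ℕ → V) : ℕ → V := fun n => v (n + 1)

theorem In.cons {W : Set V} {v : ℕ → V} {x : V} (hx : x ∈ W) (hv : In W v) : In W (cons x v) := by
  intro n
  cases n with
  | zero => exact hx
  | succ n => exact hv n

theorem In.tl {W : Set V} {v : ℕ → V} (hv : In W v) : In W (tl v) := fun n => hv (n + 1)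

@[simp] theorem tl_cons (x : V) (v : ℕ → V) : tl (cons x v) = v := rfl

theorem cons_tl (v : ℕ → V) : cons (v 0) (tl v) = v := by
  funext n
  cases n <;> rfl

/-- Renaming of variables. -/
def liftRen (ρ : ℕ → ℕ) : ℕ → ℕ
  | 0 => 0
  | n + 1 => ρ n + 1

def Fml.ren : Fml → (ℕ → ℕ) → Fml
  | .mem i j, ρ => .mem (ρ i) (ρ j)
  | .eq i j, ρ => .eq (ρ i) (ρ j)
  | .neg φ, ρ => .neg (φ.ren ρ)
  | .and φ ψ, ρ => .and (φ.ren ρ) (ψ.ren ρ)
  | .ex φ, ρ => .ex (φ.ren (liftRen ρ))

theorem cons_comp_liftRen (x : V) (v : ℕ → V) (ρ : ℕ → ℕ) :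
    (fun n => cons x v (liftRen ρ n)) = cons x (fun n => v (ρ n)) := by
  funext n
  cases n <;> rfl

theorem sat_ren (W : Set V) (φ : Fml) : ∀ (ρ : ℕ → ℕ) (v : ℕ → V),
    Sat W (φ.ren ρ) v ↔ Sat W φ (fun n => v (ρ n)) := by
  induction φ with
  | mem i j => intro ρ v; rfl
  | eq i j => intro ρ v; rfl
  | neg φ ih => intro ρ v; exact not_congr (ih ρ v)
  | and φ ψ ih1 ih2 => intro ρ v; exact and_congr (ih1 ρ v) (ih2 ρ v)
  | ex φ ih =>
    intro ρ v
    refine exists_congr fun x => and_congr Iff.rfl ?_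
    rw [ih, cons_comp_liftRen]

/-- `φ` only depends on the variables below `n`. -/
theorem sat_support (φ : Fml) : ∃ n : ℕ, ∀ (W : Set V) (v w : ℕ → V), (∀ i < n, v i = w i) →
    (Sat W φ v ↔ Sat W φ w) := by
  induction φ with
  | mem i j =>
    refine ⟨i + j + 1, fun W v w h => ?_⟩
    simp only [Sat, h i (by omega), h j (by omega)]
  | eq i j =>
    refine ⟨i + j + 1, fun W v w h => ?_⟩
    simp only [Sat, h i (by omega), h j (by omega)]
  | neg φ ih =>
    obtain ⟨n, hn⟩ := ih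
    exact ⟨n, fun W v w h => not_congr (hn W v w h)⟩
  | and φ ψ ih1 ih2 =>
    obtain ⟨n, hn⟩ := ih1
    obtain ⟨m, hm⟩ := ih2
    exact ⟨n + m, fun W v w h => and_congr (hn W v w fun i hi => h i (by omega))
      (hm W v w fun i hi => h i (by omega))⟩
  | ex φ ih =>
    obtain ⟨n, hn⟩ := ih
    refine ⟨n, fun W v w h => exists_congr fun x => and_congr Iff.rfl (hn W _ _ ?_)⟩
    intro i hi
    cases i with
    | zero => rfl
    | succ i => exact h i (by omega)

/-- Relations definable by one formula over all structures in the class `C`. -/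
def DC (C : Set V → Prop) (R : Set V → (ℕ → V) → Prop) : Prop :=
  ∃ φ : Fml, ∀ W, C W → ∀ v, In W v → (R W v ↔ Sat W φ v)

/-- Relations definable over all nice classes. -/
abbrev Dfn (R : Set V → (ℕ → V) → Prop) : Prop := DC Nice R

/-- Relations definable over all transitive classes. -/
abbrev Dfn0 (R : Set V → (ℕ → V) → Prop) : Prop := DC Trans R

section closure

variable {C : Set V → Prop}

theorem DC.congr {R S : Set V → (ℕ → V) → Prop} (h : DC C R)
    (hRS : ∀ W, C W → ∀ v, In W v → (S W v ↔ R W v)) : DC C S := by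
  obtain ⟨φ, hφ⟩ := h
  exact ⟨φ, fun W hW v hv => (hRS W hW v hv).trans (hφ W hW v hv)⟩

theorem DC.mono {C' : Set V → Prop} {R : Set V → (ℕ → V) → Prop} (h : DC C R)
    (hC : ∀ W, C' W → C W) : DC C' R := by
  obtain ⟨φ, hφ⟩ := h
  exact ⟨φ, fun W hW v hv => hφ W (hC W hW) v hv⟩

theorem DC.ren {R : Set V → (ℕ → V) → Prop} (h : DC C R) (ρ : ℕ → ℕ) :
    DC C (fun W v => R W (fun n => v (ρ n))) := by
  obtain ⟨φ, hφ⟩ := h
  refine ⟨φ.ren ρ, fun W hW v hv => ?_⟩
  rw [sat_ren]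
  exact hφ W hW _ fun n => hv _

theorem DC.mem' (i j : ℕ) : DC C (fun _ v => v i ∈ v j) := ⟨.mem i j, fun _ _ _ _ => Iff.rfl⟩

theorem DC.eq' (i j : ℕ) : DC C (fun _ v => v i = v j) := ⟨.eq i j, fun _ _ _ _ => Iff.rfl⟩

theorem DC.not {R : Set V → (ℕ → V) → Prop} (h : DC C R) : DC C (fun W v => ¬ R W v) := by
  obtain ⟨φ, hφ⟩ := h
  exact ⟨.neg φ, fun W hW v hv => not_congr (hφ W hW v hv)⟩

theorem DC.and {R S : Set V → (ℕ → V) → Prop} (h : DC C R) (h' : DC C S) :
    DC C (fun W v => R W v ∧ S W v) := by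
  obtain ⟨φ, hφ⟩ := h
  obtain ⟨ψ, hψ⟩ := h'
  exact ⟨.and φ ψ, fun W hW v hv => and_congr (hφ W hW v hv) (hψ W hW v hv)⟩

theorem DC.or {R S : Set V → (ℕ → V) → Prop} (h : DC C R) (h' : DC C S) :
    DC C (fun W v => R W v ∨ S W v) :=
  (h.not.and h'.not).not.congr fun W _ v _ => by tauto

theorem DC.imp {R S : Set V → (ℕ → V) → Prop} (h : DC C R) (h' : DC C S) :
    DC C (fun W v => R W v → S W v) :=
  (h.and h'.not).not.congr fun W _ v _ => by tauto

theorem DC.iff {R S : Set V → (ℕ → V) → Prop} (h : DC C R) (h' : DC C S) :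
    DC C (fun W v => R W v ↔ S W v) :=
  ((h.imp h').and (h'.imp h)).congr fun W _ v _ => by tauto

theorem DC.true : DC C (fun _ _ => True) :=
  (DC.eq' 0 0).congr fun W _ v _ => by simp

theorem DC.false : DC C (fun _ _ => False) :=
  (DC.eq' 0 0).not.congr fun W _ v _ => by simp

theorem DC.const (p : Prop) : DC C (fun _ _ => p) := by
  by_cases h : p
  · exact DC.true.congr fun W _ v _ => by simp [h]
  · exact DC.false.congr fun W _ v _ => by simp [h]

/-- Unbounded quantifier (over the structure). -/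
theorem DC.ex {P : Set V → V → (ℕ → V) → Prop} (h : DC C (fun W v => P W (v 0) (tl v))) :
    DC C (fun W v => ∃ x ∈ W, P W x v) := by
  obtain ⟨φ, hφ⟩ := h
  refine ⟨.ex φ, fun W hW v hv => exists_congr fun x => ?_⟩
  constructor
  · rintro ⟨hx, h⟩
    exact ⟨hx, (hφ W hW (cons x v) (hv.cons hx)).1 h⟩
  · rintro ⟨hx, h⟩
    exact ⟨hx, (hφ W hW (cons x v) (hv.cons hx)).2 h⟩

theorem DC.all {P : Set V → V → (ℕ → V) → Prop} (h : DC C (fun W v => P W (v 0) (tl v))) :
    DC C (fun W v => ∀ x ∈ W, P W x v) :=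
  (DC.ex (P := fun W x v => ¬ P W x v) h.not).not.congr fun W _ v _ => by push Not; rfl

/-- Bounded quantifier, bound a variable. -/
theorem DC.bex' {P : Set V → V → (ℕ → V) → Prop} (hC : ∀ W, C W → Trans W) (i : ℕ)
    (h : DC C (fun W v => P W (v 0) (tl v))) : DC C (fun W v => ∃ x ∈ v i, P W x v) := by
  have h1 : DC C (fun W v => ∃ x ∈ W, (x ∈ v i ∧ P W x v)) :=
    DC.ex (P := fun W x v => x ∈ v i ∧ P W x v) ((DC.mem' 0 (i + 1)).and h)
  refine h1.congr fun W hW v hv => ?_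
  constructor
  · rintro ⟨x, hx, h⟩
    exact ⟨x, hC W hW _ (hv i) _ hx, hx, h⟩
  · rintro ⟨x, _, hx, h⟩
    exact ⟨x, hx, h⟩

theorem DC.ball' {P : Set V → V → (ℕ → V) → Prop} (hC : ∀ W, C W → Trans W) (i : ℕ)
    (h : DC C (fun W v => P W (v 0) (tl v))) : DC C (fun W v => ∀ x ∈ v i, P W x v) :=
  (DC.bex' (P := fun W x v => ¬ P W x v) hC i h.not).not.congr fun W _ v _ => by push Not; rfl

/-- Quantifier bounded by a definable class. -/
theorem DC.exWhere {K P : Set V → V → (ℕ → V) → Prop} (hK : DC C (fun W v => K W (v 0) (tl v)))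
    (h : DC C (fun W v => P W (v 0) (tl v))) : DC C (fun W v => ∃ x ∈ W, K W x v ∧ P W x v) :=
  DC.ex (P := fun W x v => K W x v ∧ P W x v) (hK.and h)

end closure

end Pool.Agent.NUC
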