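import Pool.Agent.Lib.MP_bf67b0_lc.NUC.Force

/-!
# Generic extensions are nice
-/

namespace Pool.Agent.NUC

open ZFSet (pair)

/-! ### A weaker list of axioms -/

/-- Being a natural number is `Δ₀`. -/
theorem dfn0_nat : Dfn0 (fun _ v => ∃ n, v 0 = nat n) := by
  have hC : ∀ W : Set V, Trans W → Trans W := fun _ h => h
  have hP : Dfn0 (fun _ v => (∀ u ∈ v 0, False) ∨ ∃ z ∈ v 0, (∀ u ∈ v 0, (u ∈ z ∨ u = z)) ∧
      ∀ u ∈ z, u ∈ v 0) := by
    refine DC.or (DC.ball' (P := fun W u v => False) hC 0 DC.false) ?_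
    refine DC.bex' (P := fun W z v => (∀ u ∈ v 0, (u ∈ z ∨ u = z)) ∧ ∀ u ∈ z, u ∈ v 0) hC 0 ?_
    refine DC.and ?_ ?_
    · exact DC.ball' (P := fun W u v => (u ∈ v 0 ∨ u = v 0)) hC 1
        (DC.or (DC.mem' 0 1) (DC.eq' 0 1))
    · exact DC.ball' (P := fun W u v => u ∈ v 1) hC 0 (DC.mem' 0 2)
  have h : Dfn0 (fun _ v => ((∀ u ∈ v 0, False) ∨ ∃ z ∈ v 0, (∀ u ∈ v 0, (u ∈ z ∨ u = z)) ∧
      ∀ u ∈ z, u ∈ v 0) ∧ ∀ y ∈ v 0, ((∀ u ∈ y, False) ∨ ∃ z ∈ y, (∀ u ∈ y, (u ∈ z ∨ u = z)) ∧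
      ∀ u ∈ z, u ∈ y)) := by
    refine DC.and hP ?_
    exact DC.ball' (P := fun W y v => (∀ u ∈ y, False) ∨ ∃ z ∈ y, (∀ u ∈ y, (u ∈ z ∨ u = z)) ∧
      ∀ u ∈ z, u ∈ y) hC 0 (DC.ren hP (fun n => n))
  refine h.congr fun W _ v _ => ?_
  have key : ∀ y : V, ((∀ u ∈ y, False) ∨ ∃ z ∈ y, (∀ u ∈ y, (u ∈ z ∨ u = z)) ∧ ∀ u ∈ z, u ∈ y) ↔
      (y = ∅ ∨ ∃ z ∈ y, y = insert z z) := by
    intro y
    refine or_congr ?_ (exists_congr fun z => and_congr_right fun hz => ?_)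
    · exact (ZFSet.eq_empty y).symm
    · constructor
      · rintro ⟨h1, h2⟩
        apply ZFSet.ext
        intro u
        rw [ZFSet.mem_insert_iff]
        constructor
        · intro hu
          exact (h1 u hu).symm
        · rintro (rfl | hu)
          · exact hz
          · exact h2 u hu
      · intro h
        constructor
        · intro u hu
          rw [h, ZFSet.mem_insert_iff] at hu
          exact hu.symm
        · intro u hu
          rw [h]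
          exact ZFSet.mem_insert_of_mem _ hu
  simp only [key]
  constructor
  · rintro ⟨n, hn⟩
    rw [hn]
    constructor
    · cases n with
      | zero => exact Or.inl rfl
      | succ n => exact Or.inr ⟨nat n, nat_mem_nat.2 (Nat.lt_succ_self n), rfl⟩
    · intro y hy
      obtain ⟨m, _, rfl⟩ := mem_nat.1 hy
      cases m with
      | zero => exact Or.inl rfl
      | succ m => exact Or.inr ⟨nat m, nat_mem_nat.2 (Nat.lt_succ_self m), rfl⟩
  · generalize v 0 = x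
    induction x using ZFSet.inductionOn with
    | _ x ih =>
      rintro ⟨h1, h2⟩
      rcases h1 with rfl | ⟨z, hz, h3⟩
      · exact ⟨0, rfl⟩
      · obtain ⟨n, hn⟩ := ih z hz ⟨h2 z hz, fun y hy => h2 y (by
          rw [h3]; exact ZFSet.mem_insert_of_mem _ hy)⟩
        exact ⟨n + 1, by rw [h3, hn]; rfl⟩

theorem Nice.mk' {W : Set V} (htr : Trans W) (hup : ∀ x ∈ W, ∀ y ∈ W, ∃ z ∈ W, x ∈ z ∧ y ∈ z)
    (hun : ∀ x ∈ W, ∃ y ∈ W, ZFSet.sUnion x ⊆ y)
    (hpow : ∀ x ∈ W, ∃ y ∈ W, ∀ z ∈ W, z ⊆ x → z ∈ y)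
    (hom : ∃ z ∈ W, ZFSet.omega ⊆ z)
    (hsep : ∀ (φ : Fml) (v : ℕ → V), In W v → ∀ a ∈ W,
      ZFSet.sep (fun x => Sat W φ (cons x v)) a ∈ W)
    (hcoll : ∀ (φ : Fml) (v : ℕ → V), In W v → ∀ a ∈ W,
      (∀ x ∈ a, ∃ y ∈ W, Sat W φ (cons y (cons x v))) →
        ∃ b ∈ W, ∀ x ∈ a, ∃ y ∈ b, Sat W φ (cons y (cons x v))) : Nice W where
  trans := htr
  upair := by
    intro x hx y hy
    obtain ⟨z, hz, hxz, hyz⟩ := hup x hx y hy
    have h : Dfn0 (fun _ v => v 0 = v 1 ∨ v 0 = v 2) := DC.or (DC.eq' 0 1) (DC.eq' 0 2)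
    obtain ⟨φ, hφ⟩ := h
    have hv : In W (cons x (fun _ => y)) := In.cons hx fun _ => hy
    have := hsep φ (cons x (fun _ => y)) hv z hz
    convert this using 1
    apply ZFSet.ext
    intro u
    rw [ZFSet.mem_sep, ZFSet.mem_pair]
    constructor
    · intro hu
      have hu' : u ∈ z := by rcases hu with rfl | rfl <;> assumption
      exact ⟨hu', (hφ W htr _ (hv.cons (htr z hz u hu'))).1 hu⟩
    · rintro ⟨hu', h⟩
      exact (hφ W htr _ (hv.cons (htr z hz u hu'))).2 h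
  sUnion := by
    intro x hx
    obtain ⟨y, hy, hxy⟩ := hun x hx
    have h : Dfn0 (fun _ v => ∃ z ∈ v 1, v 0 ∈ z) :=
      DC.bex' (P := fun W z v => v 0 ∈ z) (fun _ h => h) 1 (DC.mem' 1 0)
    obtain ⟨φ, hφ⟩ := h
    have hv : In W (fun _ => x) := fun _ => hx
    have := hsep φ (fun _ => x) hv y hy
    convert this using 1
    apply ZFSet.ext
    intro u
    rw [ZFSet.mem_sep, ZFSet.mem_sUnion]
    constructor
    · intro hu
      have hu' : u ∈ y := hxy (ZFSet.mem_sUnion.2 hu)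
      exact ⟨hu', (hφ W htr _ (hv.cons (htr y hy u hu'))).1 hu⟩
    · rintro ⟨hu', h⟩
      exact (hφ W htr _ (hv.cons (htr y hy u hu'))).2 h
  pow := hpow
  omega := by
    obtain ⟨z, hz, hoz⟩ := hom
    obtain ⟨φ, hφ⟩ := dfn0_nat
    have hv : In W (fun _ => z) := fun _ => hz
    have := hsep φ (fun _ => z) hv z hz
    convert this using 1
    apply ZFSet.ext
    intro u
    rw [ZFSet.mem_sep, mem_omega]
    constructor
    · intro hu
      have hu' : u ∈ z := hoz (mem_omega.2 hu)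
      exact ⟨hu', (hφ W htr _ (hv.cons (htr z hz u hu'))).1 hu⟩
    · rintro ⟨hu', h⟩
      exact (hφ W htr _ (hv.cons (htr z hz u hu'))).2 h
  sep := hsep
  coll := hcoll

/-! ### Names -/

/-- The name of the set of values of the elements of `b`. -/
noncomputable def fl (b : V) : V := img (fun ρ => pair ρ ∅) b

theorem d1_fl : D1 fl :=
  DT.img (F := fun W ρ v => pair ρ ∅) (DT.var 0) (DT.pair (DT.var 0) DT.empty)

theorem mem_val_fl {G : V} (hG : ∅ ∈ G) {b x : V} :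
    x ∈ val G (fl b) ↔ ∃ ρ ∈ b, val G ρ = x := by
  rw [mem_val]
  unfold fl
  simp only [mem_img, ZFSet.pair_inj]
  constructor
  · rintro ⟨σ, p, _, ⟨ρ, hρ, rfl, rfl⟩, rfl⟩
    exact ⟨ρ, hρ, rfl⟩
  · rintro ⟨ρ, hρ, rfl⟩
    exact ⟨ρ, ∅, hG, ⟨ρ, hρ, rfl, rfl⟩, rfl⟩

theorem val_chk {G : V} (hG : ∅ ∈ G) (x : V) : val G (chk x) = x := by
  induction x using ZFSet.inductionOn with
  | _ x ih =>
    apply ZFSet.ext
    intro y
    rw [mem_val, chk_eq]
    simp only [mem_img, ZFSet.pair_inj]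
    constructor
    · rintro ⟨σ, p, _, ⟨z, hz, rfl, rfl⟩, rfl⟩
      rw [ih z hz]
      exact hz
    · intro hy
      exact ⟨chk y, ∅, hG, ⟨y, hy, rfl, rfl⟩, ih y hy⟩

/-- The name of the generic filter. -/
noncomputable def gnm (P : V) : V := img (fun p => pair (chk p) p) P

theorem d1_gnm : D1 gnm :=
  DT.img (F := fun W p v => pair (chk p) p) (DT.var 0)
    (DT.pair (d1_chk.app (DT.var 0)) (DT.var 0))

theorem val_gnm {M : Set V} {P G : V} (hG : IsGen M P G) : val G (gnm P) = G := by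
  apply ZFSet.ext
  intro y
  rw [mem_val]
  unfold gnm
  simp only [mem_img, ZFSet.pair_inj]
  constructor
  · rintro ⟨σ, p, hp, ⟨z, hz, rfl, rfl⟩, rfl⟩
    rw [val_chk hG.empty]
    exact hp
  · intro hy
    exact ⟨chk y, y, hy, ⟨y, hG.sub hy, rfl, rfl⟩, val_chk hG.empty y⟩

theorem rank_val_le (G τ : V) : (val G τ).rank ≤ τ.rank := by
  induction hτ : τ.rank using WellFoundedLT.induction generalizing τ with
  | _ o ih =>
    rw [ZFSet.rank_le_iff]
    intro x hx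
    obtain ⟨σ, p, _, hσ, rfl⟩ := mem_val.1 hx
    have h1 := rank_left_lt hσ
    exact (ih σ.rank (hτ ▸ h1) σ rfl).trans_lt (hτ ▸ h1)

section generic

variable {M : Set V} (hM : Nice M) {P G : V} (hP : P ∈ M) (hG : IsGen M P G)
include hM hG

omit hG in
theorem subset_Ext (hG : ∅ ∈ G) : M ⊆ Ext M G := fun x hx =>
  ⟨chk x, d1_chk.mem hM hx, val_chk hG x⟩

include hP

theorem gen_mem_Ext : G ∈ Ext M G := ⟨gnm P, d1_gnm.mem hM hP, val_gnm hG⟩

theorem Ext_nice : Nice (Ext M G) := by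
  have hpick : ∀ v : ℕ → V, In (Ext M G) v → ∃ u : ℕ → V, In M u ∧ v = fun n => val G (u n) := by
    intro v hv
    choose u hu hu' using hv
    exact ⟨u, hu, funext fun n => (hu' n).symm⟩
  -- a set of pairs `⟨σ, p⟩` where `p` forces `φ σ`
  have hsepname : ∀ (φ : Fml) (u : ℕ → V), In M u → ∀ τ ∈ M, ∃ ρ ∈ M,
      (ρ ⊆ ZFSet.prod (dom τ) P) ∧ ∀ x, x ∈ val G ρ ↔ ∃ σ ∈ dom τ, val G σ = x ∧
        Sat (Ext M G) φ (cons x (fun n => val G (u n))) := by
    intro φ u hu τ hτ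
    have hR : Dfn (fun W v => Fc W (v 1) φ (snd (v 0)) (cons (fst (v 0)) (fun n => v (n + 2)))) := by
      have ht : ∀ i, DT ((fun i : ℕ => match i with
          | 0 => fun _ v => v 1
          | 1 => fun _ v => snd (v 0)
          | 2 => fun _ v => fst (v 0)
          | n + 3 => fun _ v => v (n + 2) : ℕ → Set V → (ℕ → V) → V) i) := by
        intro i
        match i with
        | 0 => exact DT.var 1
        | 1 => exact DT.snd (DT.var 0)
        | 2 => exact DT.fst (DT.var 0)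
        | n + 3 => exact DT.var (n + 2)
      refine (Dfn.comp (dfn_Fc φ) ht).congr fun W _ v _ => ?_
      have : cons (fst (v 0)) (fun n => v (n + 2)) = fun n => ((fun i : ℕ => match i with
          | 0 => fun _ v => v 1
          | 1 => fun _ v => snd (v 0)
          | 2 => fun _ v => fst (v 0)
          | n + 3 => fun _ v => v (n + 2) : ℕ → Set V → (ℕ → V) → V) (n + 2)) W v := by
        funext n
        cases n <;> rfl
      rw [this]
    have hprod : ZFSet.prod (dom τ) P ∈ M :=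
      (DT.prod (DT.dom (DT.var 0)) (DT.var 1)).mem M hM (cons τ fun _ => P)
        (In.cons hτ fun _ => hP)
    refine ⟨_, hM.sepD hR (v := cons P u) (In.cons hP hu) hprod, ZFSet.sep_subset, fun x => ?_⟩
    have hcons : ∀ σ, (fun n => val G (cons σ u n)) = cons (val G σ) (fun n => val G (u n)) := by
      intro σ
      funext n
      cases n <;> rfl
    rw [mem_val]
    constructor
    · rintro ⟨σ, p, hp, h, rfl⟩
      rw [ZFSet.mem_sep, ZFSet.pair_mem_prod] at h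
      obtain ⟨⟨hσ, _⟩, h2⟩ := h
      have h3 : Fc M P φ p (cons σ u) := by
        have h4 : Fc M P φ (snd (pair σ p)) (cons (fst (pair σ p)) u) := h2
        rwa [fst_pair, snd_pair] at h4
      obtain ⟨r, hr⟩ := mem_dom.1 hσ
      have hσM : σ ∈ M := (hM.of_pair (hM.memOf hτ hr)).1
      have h4 := (truth hM hP hG φ (cons σ u) (In.cons hσM hu)).2 ⟨p, hp, h3⟩
      rw [hcons] at h4
      exact ⟨σ, hσ, rfl, h4⟩
    · rintro ⟨σ, hσ, rfl, h⟩
      obtain ⟨r, hr⟩ := mem_dom.1 hσ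
      have hσM : σ ∈ M := (hM.of_pair (hM.memOf hτ hr)).1
      rw [← hcons] at h
      obtain ⟨p, hp, h3⟩ := (truth hM hP hG φ (cons σ u) (In.cons hσM hu)).1 h
      refine ⟨σ, p, hp, ?_, rfl⟩
      rw [ZFSet.mem_sep, ZFSet.pair_mem_prod]
      refine ⟨⟨hσ, hG.sub hp⟩, ?_⟩
      show Fc M P φ (snd (pair σ p)) (cons (fst (pair σ p)) u)
      rw [fst_pair, snd_pair]
      exact h3
  refine Nice.mk' ?_ ?_ ?_ ?_ ?_ ?_ ?_
  · rintro _ ⟨τ, hτ, rfl⟩ y hy
    obtain ⟨σ, p, _, hσ, rfl⟩ := mem_val.1 hy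
    exact ⟨σ, (hM.of_pair (hM.memOf hτ hσ)).1, rfl⟩
  · rintro _ ⟨σ, hσ, rfl⟩ _ ⟨τ, hτ, rfl⟩
    refine ⟨_, ⟨fl {σ, τ}, d1_fl.mem hM (hM.upair σ hσ τ hτ), rfl⟩, ?_, ?_⟩
    · exact (mem_val_fl hG.empty).2 ⟨σ, by simp, rfl⟩
    · exact (mem_val_fl hG.empty).2 ⟨τ, by simp, rfl⟩
  · rintro _ ⟨τ, hτ, rfl⟩
    refine ⟨_, ⟨fl (bU (dom τ) dom), d1_fl.mem hM ?_, rfl⟩, ?_⟩
    · exact (DT.bU (F := fun W x v => dom x) (DT.dom (DT.var 0)) (DT.dom (DT.var 0))).mem M hM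
        (fun _ => τ) (fun _ => hτ)
    · intro x hx
      obtain ⟨y, hy, hxy⟩ := ZFSet.mem_sUnion.1 hx
      obtain ⟨σ, p, _, hσ, rfl⟩ := mem_val.1 hy
      obtain ⟨ρ, q, _, hρ, rfl⟩ := mem_val.1 hxy
      exact (mem_val_fl hG.empty).2 ⟨ρ, mem_bU.2 ⟨σ, mem_dom.2 ⟨p, hσ⟩, mem_dom.2 ⟨q, hρ⟩⟩, rfl⟩
  · rintro _ ⟨τ, hτ, rfl⟩
    have hprod : ZFSet.prod (dom τ) P ∈ M :=
      (DT.prod (DT.dom (DT.var 0)) (DT.var 1)).mem M hM (cons τ fun _ => P)
        (In.cons hτ fun _ => hP)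
    obtain ⟨Y, hY, hY'⟩ := hM.pow _ hprod
    refine ⟨_, ⟨fl Y, d1_fl.mem hM hY, rfl⟩, ?_⟩
    rintro _ ⟨ζ, hζ, rfl⟩ hsub
    obtain ⟨ρ, hρ, hρsub, hρ'⟩ := hsepname (.mem 0 1) (fun _ => ζ) (fun _ => hζ) τ hτ
    refine (mem_val_fl hG.empty).2 ⟨ρ, hY' ρ hρ hρsub, ?_⟩
    apply ZFSet.ext
    intro x
    rw [hρ']
    constructor
    · rintro ⟨σ, _, _, h⟩
      exact h
    · intro hx
      obtain ⟨σ, p, _, hσ, rfl⟩ := mem_val.1 (hsub hx)
      exact ⟨σ, mem_dom.2 ⟨p, hσ⟩, rfl, hx⟩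
  · exact ⟨ZFSet.omega, subset_Ext hM hG.empty hM.omega, fun _ h => h⟩
  · rintro φ v hv _ ⟨τ, hτ, rfl⟩
    obtain ⟨u, hu, rfl⟩ := hpick v hv
    obtain ⟨ρ, hρ, _, hρ'⟩ := hsepname (.and (.mem 0 1) (φ.ren (fun n => match n with
      | 0 => 0 | n + 1 => n + 2))) (cons τ u) (In.cons hτ hu) τ hτ
    refine ⟨ρ, hρ, ?_⟩
    apply ZFSet.ext
    intro x
    rw [hρ', ZFSet.mem_sep]
    have h2 : ∀ x, Sat (Ext M G) (φ.ren (fun n => match n with | 0 => 0 | n + 1 => n + 2))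
        (cons x (fun n => val G (cons τ u n))) ↔
        Sat (Ext M G) φ (cons x (fun n => val G (u n))) := by
      intro x
      rw [sat_ren]
      have : (fun n => cons x (fun n => val G (cons τ u n)) (match n with
          | 0 => 0 | n + 1 => n + 2)) = cons x (fun n => val G (u n)) := by
        funext n
        cases n <;> rfl
      rw [this]
    constructor
    · rintro ⟨σ, hσ, rfl, h3, h4⟩
      exact ⟨h3, (h2 _).1 h4⟩
    · rintro ⟨h3, h4⟩
      obtain ⟨σ, p, _, hσ, rfl⟩ := mem_val.1 h3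
      exact ⟨σ, mem_dom.2 ⟨p, hσ⟩, rfl, h3, (h2 _).2 h4⟩
  · rintro φ v hv _ ⟨τ, hτ, rfl⟩ hex
    obtain ⟨u, hu, rfl⟩ := hpick v hv
    have hprod : ZFSet.prod (dom τ) P ∈ M :=
      (DT.prod (DT.dom (DT.var 0)) (DT.var 1)).mem M hM (cons τ fun _ => P)
        (In.cons hτ fun _ => hP)
    -- assignment : ρ, z = ⟨σ, p⟩, P, u
    have hF : Dfn (fun W v => Fc W (v 2) φ (snd (v 1))
        (cons (v 0) (cons (fst (v 1)) (fun n => v (n + 3))))) := by
      have ht : ∀ i, DT ((fun i : ℕ => match i with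
          | 0 => fun _ v => v 2
          | 1 => fun _ v => snd (v 1)
          | 2 => fun _ v => v 0
          | 3 => fun _ v => fst (v 1)
          | n + 4 => fun _ v => v (n + 3) : ℕ → Set V → (ℕ → V) → V) i) := by
        intro i
        match i with
        | 0 => exact DT.var 2
        | 1 => exact DT.snd (DT.var 1)
        | 2 => exact DT.var 0
        | 3 => exact DT.fst (DT.var 1)
        | n + 4 => exact DT.var (n + 3)
      refine (Dfn.comp (dfn_Fc φ) ht).congr fun W _ v _ => ?_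
      have : cons (v 0) (cons (fst (v 1)) (fun n => v (n + 3))) =
          fun n => ((fun i : ℕ => match i with
          | 0 => fun _ v => v 2
          | 1 => fun _ v => snd (v 1)
          | 2 => fun _ v => v 0
          | 3 => fun _ v => fst (v 1)
          | n + 4 => fun _ v => v (n + 3) : ℕ → Set V → (ℕ → V) → V) (n + 2)) W v := by
        funext n
        match n with
        | 0 => rfl
        | 1 => rfl
        | n + 2 => rfl
      rw [this]
    have hR : Dfn (fun W v => (∃ ρ' ∈ W, Fc W (v 2) φ (snd (v 1))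
        (cons ρ' (cons (fst (v 1)) (fun n => v (n + 3))))) → Fc W (v 2) φ (snd (v 1))
        (cons (v 0) (cons (fst (v 1)) (fun n => v (n + 3))))) := by
      refine DC.imp ?_ hF
      refine Dfn.ex (P := fun W ρ' v => Fc W (v 2) φ (snd (v 1))
        (cons ρ' (cons (fst (v 1)) (fun n => v (n + 3))))) ?_
      exact DC.ren hF (fun n => match n with | 0 => 0 | n + 1 => n + 2)
    obtain ⟨b, hb, hb'⟩ := hM.collD hR (v := cons P u) (In.cons hP hu) hprod (fun z _ => by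
      by_cases h : ∃ ρ' ∈ M, Fc M P φ (snd z) (cons ρ' (cons (fst z) u))
      · obtain ⟨ρ', hρ', h'⟩ := h
        exact ⟨ρ', hρ', fun _ => h'⟩
      · exact ⟨∅, hM.empty_mem, fun h' => absurd h' h⟩)
    refine ⟨_, ⟨fl b, d1_fl.mem hM hb, rfl⟩, ?_⟩
    intro x hx
    obtain ⟨σ, q, hqG, hσ, rfl⟩ := mem_val.1 hx
    have hσM : σ ∈ M := (hM.of_pair (hM.memOf hτ hσ)).1
    obtain ⟨_, ⟨ρ', hρ', rfl⟩, hS⟩ := hex _ hx
    have hcons : ∀ ρ, (fun n => val G (cons ρ (cons σ u) n)) =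
        cons (val G ρ) (cons (val G σ) (fun n => val G (u n))) := by
      intro ρ
      funext n
      match n with
      | 0 => rfl
      | 1 => rfl
      | n + 2 => rfl
    rw [← hcons] at hS
    obtain ⟨p, hp, hF'⟩ := (truth hM hP hG φ _ (In.cons hρ' (In.cons hσM hu))).1 hS
    obtain ⟨ρ, hρ, h1⟩ := hb' (pair σ p) (ZFSet.pair_mem_prod.2 ⟨mem_dom.2 ⟨q, hσ⟩, hG.sub hp⟩)
    have h2 : (∃ ρ' ∈ M, Fc M P φ (snd (pair σ p)) (cons ρ' (cons (fst (pair σ p)) u))) →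
        Fc M P φ (snd (pair σ p)) (cons ρ (cons (fst (pair σ p)) u)) := h1
    rw [fst_pair, snd_pair] at h2
    have h3 := h2 ⟨ρ', hρ', hF'⟩
    have hρM : ρ ∈ M := hM.memOf hb hρ
    have h4 := (truth hM hP hG φ _ (In.cons hρM (In.cons hσM hu))).2 ⟨p, hp, h3⟩
    rw [hcons] at h4
    exact ⟨_, (mem_val_fl hG.empty).2 ⟨ρ, hρ, rfl⟩, h4⟩

omit hP hG hM in
/-- The generic extension is the smallest nice class containing `M` and `G`. -/
theorem Ext_subset {W : Set V} (hW : Nice W) (hMW : M ⊆ W) (hGW : G ∈ W) : Ext M G ⊆ W := by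
  rintro _ ⟨τ, hτ, rfl⟩
  exact d2_val.mem hW hGW (hMW hτ)

end generic

end Pool.Agent.NUC
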