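import Pool.Agent.Lib.MP_bf67b0_lc.NUC.Arith
import Pool.Agent.Lib.MP_bf67b0_lc.NUC.Ext

/-!
# Cohen forcing
-/

namespace Pool.Agent.NUC

open ZFSet (pair)

/-- Generic objects: functions `ω × ω → 2`. -/
abbrev HH := ℕ → ℕ → Bool

/-- The element `⟨⟨a,b⟩,c⟩`. -/
def pt (a b : ℕ) (c : Bool) : V := pair (pair (nat a) (nat b)) (nat c.toNat)

theorem toNat_inj {c d : Bool} : c.toNat = d.toNat ↔ c = d := by
  cases c <;> cases d <;> simp

theorem pt_inj {a b a' b' : ℕ} {c c' : Bool} : pt a b c = pt a' b' c' ↔ a = a' ∧ b = b' ∧ c = c' := by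
  unfold pt
  rw [ZFSet.pair_inj, ZFSet.pair_inj, nat_inj, nat_inj, nat_inj, toNat_inj]
  tauto

/-- The graph of `h`. -/
noncomputable def hs (h : HH) : V := ZFSet.range (fun x : ℕ × ℕ => pt x.1 x.2 (h x.1 x.2))

/-- The condition `g ↾ F`. -/
noncomputable def cd (F : Finset (ℕ × ℕ)) (g : HH) : V :=
  ZFSet.range (fun x : {x // x ∈ F} => pt x.1.1 x.1.2 (g x.1.1 x.1.2))

theorem mem_hs {h : HH} {z : V} : z ∈ hs h ↔ ∃ a b, z = pt a b (h a b) := by
  unfold hs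
  rw [ZFSet.mem_range]
  constructor
  · rintro ⟨⟨a, b⟩, rfl⟩
    exact ⟨a, b, rfl⟩
  · rintro ⟨a, b, rfl⟩
    exact ⟨⟨a, b⟩, rfl⟩

theorem mem_cd {F : Finset (ℕ × ℕ)} {g : HH} {z : V} :
    z ∈ cd F g ↔ ∃ a b, (a, b) ∈ F ∧ z = pt a b (g a b) := by
  unfold cd
  rw [ZFSet.mem_range]
  constructor
  · rintro ⟨⟨⟨a, b⟩, h⟩, rfl⟩
    exact ⟨a, b, h, rfl⟩
  · rintro ⟨a, b, h, rfl⟩
    exact ⟨⟨⟨a, b⟩, h⟩, rfl⟩

theorem pt_mem_hs {h : HH} {a b : ℕ} {c : Bool} : pt a b c ∈ hs h ↔ h a b = c := by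
  rw [mem_hs]
  constructor
  · rintro ⟨a', b', h1⟩
    obtain ⟨rfl, rfl, rfl⟩ := pt_inj.1 h1
    rfl
  · rintro rfl
    exact ⟨a, b, rfl⟩

theorem pt_mem_cd {F : Finset (ℕ × ℕ)} {g : HH} {a b : ℕ} {c : Bool} :
    pt a b c ∈ cd F g ↔ (a, b) ∈ F ∧ g a b = c := by
  rw [mem_cd]
  constructor
  · rintro ⟨a', b', h, h1⟩
    obtain ⟨rfl, rfl, rfl⟩ := pt_inj.1 h1
    exact ⟨h, rfl⟩
  · rintro ⟨h, rfl⟩
    exact ⟨a, b, h, rfl⟩

theorem cd_subset_cd {F F' : Finset (ℕ × ℕ)} {g g' : HH} :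
    cd F g ⊆ cd F' g' ↔ ∀ a b, (a, b) ∈ F → (a, b) ∈ F' ∧ g' a b = g a b := by
  constructor
  · intro h a b hab
    exact pt_mem_cd.1 (h (pt_mem_cd.2 ⟨hab, rfl⟩))
  · intro h z hz
    obtain ⟨a, b, hab, rfl⟩ := mem_cd.1 hz
    exact pt_mem_cd.2 (h a b hab)

theorem cd_subset_hs {F : Finset (ℕ × ℕ)} {g h : HH} :
    cd F g ⊆ hs h ↔ ∀ a b, (a, b) ∈ F → h a b = g a b := by
  constructor
  · intro h a b hab
    exact pt_mem_hs.1 (h (pt_mem_cd.2 ⟨hab, rfl⟩))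
  · intro h z hz
    obtain ⟨a, b, hab, rfl⟩ := mem_cd.1 hz
    exact pt_mem_hs.2 (h a b hab)

theorem cd_congr {F : Finset (ℕ × ℕ)} {g g' : HH} (h : ∀ a b, (a, b) ∈ F → g a b = g' a b) :
    cd F g = cd F g' := by
  apply ZFSet.ext
  intro z
  exact ⟨fun hz => cd_subset_cd.2 (fun a b hab => ⟨hab, (h a b hab).symm⟩) hz,
    fun hz => cd_subset_cd.2 (fun a b hab => ⟨hab, h a b hab⟩) hz⟩

theorem cd_eq_cd {F F' : Finset (ℕ × ℕ)} {g g' : HH} (h : cd F g = cd F' g') :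
    F = F' ∧ ∀ a b, (a, b) ∈ F → g a b = g' a b := by
  have h1 : cd F g ⊆ cd F' g' := fun z hz => h ▸ hz
  have h2 : cd F' g' ⊆ cd F g := fun z hz => h.symm ▸ hz
  rw [cd_subset_cd] at h1 h2
  refine ⟨?_, fun a b hab => (h1 a b hab).2.symm⟩
  ext ⟨a, b⟩
  exact ⟨fun hx => (h1 a b hx).1, fun hx => (h2 a b hx).1⟩

/-- The set of all conditions. -/
noncomputable def PP : V := ZFSet.range (fun x : Finset (ℕ × ℕ) × HH => cd x.1 x.2)

theorem mem_PP {p : V} : p ∈ PP ↔ ∃ F g, p = cd F g := by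
  unfold PP
  rw [ZFSet.mem_range]
  constructor
  · rintro ⟨⟨F, g⟩, rfl⟩
    exact ⟨F, g, rfl⟩
  · rintro ⟨F, g, rfl⟩
    exact ⟨⟨F, g⟩, rfl⟩

theorem cd_mem_PP (F : Finset (ℕ × ℕ)) (g : HH) : cd F g ∈ PP := mem_PP.2 ⟨F, g, rfl⟩

theorem cd_empty (g : HH) : cd ∅ g = ∅ := by
  apply ZFSet.ext
  intro z
  rw [mem_cd]
  simp

theorem empty_mem_PP : (∅ : V) ∈ PP := cd_empty (fun _ _ => false) ▸ cd_mem_PP _ _

/-! ### Enumeration of the conditions -/

open Classical in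
/-- Recursion step of the enumeration. -/
noncomputable def enumH (x f : V) : V :=
  if x = ∅ then ∅ else
    if pair (leftN (leftN (leftN (ZFSet.sUnion x)))) (rightN (leftN (leftN (ZFSet.sUnion x)))) ∈
        dom (app f (rightN (ZFSet.sUnion x))) then app f (rightN (ZFSet.sUnion x))
    else insert (pair (pair (leftN (leftN (leftN (ZFSet.sUnion x))))
        (rightN (leftN (leftN (ZFSet.sUnion x)))))
        (if rightN (leftN (ZFSet.sUnion x)) = ∅ then ∅ else nat 1))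
          (app f (rightN (ZFSet.sUnion x)))

theorem d2_enumH : D2 enumH := by
  have hx : DT (fun _ v => ZFSet.sUnion (v 0)) := DT.sUnion (DT.var 0)
  have hp : DT (fun _ v => pair (leftN (leftN (leftN (ZFSet.sUnion (v 0)))))
      (rightN (leftN (leftN (ZFSet.sUnion (v 0)))))) :=
    DT.pair (d1_leftN.app (d1_leftN.app (d1_leftN.app hx)))
      (d1_rightN.app (d1_leftN.app (d1_leftN.app hx)))
  have hr : DT (fun _ v => app (v 1) (rightN (ZFSet.sUnion (v 0)))) :=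
    DT.app (DT.var 1) (d1_rightN.app hx)
  refine DT.ite (Dfn.eq (DT.var 0) DT.empty) DT.empty (DT.ite (Dfn.mem hp (DT.dom hr)) hr ?_)
  exact DT.insert (DT.pair hp (DT.ite (Dfn.eq (d1_rightN.app (d1_leftN.app hx)) DT.empty)
    DT.empty (DT.nat 1))) hr

/-- Enumeration of the conditions by natural numbers. -/
noncomputable def enumP : V → V :=
  recF (fun _ x => x) (fun _ x f => enumH x f) (fun _ _ _ hy => ZFSet.rank_lt_of_mem hy) ∅

theorem d1_enumP : D1 enumP :=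
  (d2_recF (child := fun _ x => x) (H := fun _ x f => enumH x f) (DT.var 1)
    (d2_enumH.app (DT.var 1) (DT.var 2))).app DT.empty (DT.var 0)

theorem enumP_zero : enumP (nat 0) = ∅ := by
  unfold enumP
  rw [recF_eq]
  exact if_pos rfl

open Classical in
theorem enumP_succ (n : ℕ) : enumP (nat (n + 1)) =
    if pair (nat (Nat.unpair (Nat.unpair (Nat.unpair n).1).1).1)
        (nat (Nat.unpair (Nat.unpair (Nat.unpair n).1).1).2) ∈ dom (enumP (nat (Nat.unpair n).2))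
      then enumP (nat (Nat.unpair n).2)
      else insert (pair (pair (nat (Nat.unpair (Nat.unpair (Nat.unpair n).1).1).1)
        (nat (Nat.unpair (Nat.unpair (Nat.unpair n).1).1).2))
        (if (Nat.unpair (Nat.unpair n).1).2 = 0 then ∅ else nat 1))
          (enumP (nat (Nat.unpair n).2)) := by
  have h1 : app (gr enumP (nat (n + 1))) (nat (Nat.unpair n).2) = enumP (nat (Nat.unpair n).2) :=
    app_gr (nat_mem_nat.2 (Nat.lt_succ_of_le (Nat.unpair_right_le n)))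
  have h2 : enumP (nat (n + 1)) = enumH (nat (n + 1)) (gr enumP (nat (n + 1))) := by
    conv_lhs => unfold enumP
    rw [recF_eq]
    rfl
  rw [h2]
  unfold enumH
  rw [if_neg (nat_succ_ne n)]
  simp only [sUnion_nat_succ, leftN_nat, rightN_nat, h1]
  have h3 : ∀ k : ℕ, (nat k = (∅ : V)) ↔ k = 0 := by
    intro k
    rw [← nat_zero, nat_inj]
  simp only [h3]

theorem pair_mem_dom_cd {F : Finset (ℕ × ℕ)} {g : HH} {a b : ℕ} :
    pair (nat a) (nat b) ∈ dom (cd F g) ↔ (a, b) ∈ F := by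
  rw [mem_dom]
  constructor
  · rintro ⟨y, hy⟩
    obtain ⟨a', b', h, h1⟩ := mem_cd.1 hy
    unfold pt at h1
    obtain ⟨h2, _⟩ := ZFSet.pair_inj.1 h1
    obtain ⟨h3, h4⟩ := ZFSet.pair_inj.1 h2
    rw [nat_inj.1 h3, nat_inj.1 h4]
    exact h
  · intro h
    exact ⟨_, pt_mem_cd.2 ⟨h, rfl⟩⟩

/-- Update of a function at a point. -/
def upd (g : HH) (x : ℕ × ℕ) (c : Bool) : HH := fun a b => if (a, b) = x then c else g a b

theorem insert_cd {F : Finset (ℕ × ℕ)} {g : HH} {a b : ℕ} (h : (a, b) ∉ F) (c : Bool) :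
    insert (pt a b c) (cd F g) = cd (insert (a, b) F) (upd g (a, b) c) := by
  apply ZFSet.ext
  intro z
  rw [ZFSet.mem_insert_iff, mem_cd, mem_cd]
  constructor
  · rintro (rfl | ⟨a', b', h', rfl⟩)
    · exact ⟨a, b, Finset.mem_insert_self _ _, by simp [upd]⟩
    · refine ⟨a', b', Finset.mem_insert_of_mem h', ?_⟩
      have : (a', b') ≠ (a, b) := fun h1 => h (h1 ▸ h')
      simp only [upd, if_neg this]
  · rintro ⟨a', b', h', rfl⟩
    rcases Finset.mem_insert.1 h' with h1 | h1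
    · left
      obtain ⟨rfl, rfl⟩ := Prod.mk.inj h1
      simp [upd]
    · right
      have : (a', b') ≠ (a, b) := fun h2 => h (h2 ▸ h1)
      exact ⟨a', b', h1, by simp only [upd, if_neg this]⟩

theorem enumP_mem (n : ℕ) : enumP (nat n) ∈ PP := by
  classical
  induction n using Nat.strong_induction_on with
  | _ n ih =>
    cases n with
    | zero => rw [enumP_zero]; exact empty_mem_PP
    | succ n =>
      have h1 := ih (Nat.unpair n).2 (Nat.lt_succ_of_le (Nat.unpair_right_le n))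
      obtain ⟨F, g, hFg⟩ := mem_PP.1 h1
      rw [enumP_succ]
      split_ifs with h2 h3
      · exact h1
      · rw [hFg] at h2 ⊢
        rw [pair_mem_dom_cd] at h2
        exact insert_cd h2 false ▸ cd_mem_PP _ _
      · rw [hFg] at h2 ⊢
        rw [pair_mem_dom_cd] at h2
        exact insert_cd h2 true ▸ cd_mem_PP _ _

theorem enumP_surj {p : V} (hp : p ∈ PP) : ∃ n, enumP (nat n) = p := by
  classical
  obtain ⟨F, g, rfl⟩ := mem_PP.1 hp
  clear hp
  induction F using Finset.induction_on with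
  | empty => exact ⟨0, by rw [enumP_zero, cd_empty]⟩
  | insert x F hx ih =>
    obtain ⟨n, hn⟩ := ih
    obtain ⟨a, b⟩ := x
    refine ⟨Nat.pair (Nat.pair (Nat.pair a b) (g a b).toNat) n + 1, ?_⟩
    rw [enumP_succ]
    simp only [Nat.unpair_pair]
    rw [hn, if_neg (by rw [pair_mem_dom_cd]; exact hx)]
    have h1 : (if (g a b).toNat = 0 then (∅ : V) else nat 1) = nat (g a b).toNat := by
      cases g a b <;> rfl
    rw [h1]
    show insert (pt a b (g a b)) (cd F g) = _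
    rw [insert_cd hx]
    refine cd_congr fun a' b' _ => ?_
    unfold upd
    split_ifs with h2
    · obtain ⟨rfl, rfl⟩ := Prod.mk.inj h2
      rfl
    · rfl

theorem PP_eq : PP = img enumP ZFSet.omega := by
  apply ZFSet.ext
  intro p
  rw [mem_img]
  constructor
  · intro hp
    obtain ⟨n, hn⟩ := enumP_surj hp
    exact ⟨nat n, nat_mem_omega n, hn⟩
  · rintro ⟨x, hx, rfl⟩
    obtain ⟨n, rfl⟩ := mem_omega.1 hx
    exact enumP_mem n

theorem DT.PP : DT (fun _ _ => PP) :=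
  (DT.img (F := fun W x v => enumP x) DT.omega (d1_enumP.app (DT.var 0))).congr
    fun _ _ _ _ => PP_eq

theorem Nice.PP {W : Set V} (hW : Nice W) : PP ∈ W := DT.PP.mem W hW (fun _ => ∅) hW.in_const

theorem Nice.cd {W : Set V} (hW : Nice W) (F : Finset (ℕ × ℕ)) (g : HH) : cd F g ∈ W :=
  hW.memOf hW.PP (cd_mem_PP F g)

/-! ### Generic functions -/

/-- The filter of `h`. -/
noncomputable def Gn (h : HH) : V := ZFSet.range (fun F : Finset (ℕ × ℕ) => cd F h)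

theorem mem_Gn {h : HH} {p : V} : p ∈ Gn h ↔ ∃ F, p = cd F h := by
  unfold Gn
  rw [ZFSet.mem_range]
  exact exists_congr fun F => eq_comm

theorem mem_Gn' {h : HH} {p : V} : p ∈ Gn h ↔ p ∈ PP ∧ p ⊆ hs h := by
  rw [mem_Gn]
  constructor
  · rintro ⟨F, rfl⟩
    exact ⟨cd_mem_PP F h, cd_subset_hs.2 fun _ _ _ => rfl⟩
  · rintro ⟨hp, hps⟩
    obtain ⟨F, g, rfl⟩ := mem_PP.1 hp
    exact ⟨F, cd_congr fun a b hab => ((cd_subset_hs.1 hps) a b hab).symm⟩

/-- The graph of `h` from the filter, and conversely. -/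
theorem hs_eq (h : HH) : hs h = ZFSet.sUnion (Gn h) := by
  apply ZFSet.ext
  intro z
  rw [ZFSet.mem_sUnion]
  constructor
  · intro hz
    obtain ⟨a, b, rfl⟩ := mem_hs.1 hz
    exact ⟨cd {(a, b)} h, mem_Gn.2 ⟨_, rfl⟩, pt_mem_cd.2 ⟨by simp, rfl⟩⟩
  · rintro ⟨p, hp, hz⟩
    exact (mem_Gn'.1 hp).2 hz

theorem Gn_eq (h : HH) : Gn h = ZFSet.sep (fun p => p ⊆ hs h) PP := by
  apply ZFSet.ext
  intro z
  rw [ZFSet.mem_sep, mem_Gn']

/-- `h` is generic over `M`. -/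
def Gen (M : Set V) (h : HH) : Prop := ∀ D ∈ M, IsDense PP D → ∃ F, cd F h ∈ D

theorem Gen.isGen {M : Set V} {h : HH} (hh : Gen M h) : IsGen M PP (Gn h) where
  sub p hp := (mem_Gn'.1 hp).1
  empty := mem_Gn.2 ⟨∅, (cd_empty h).symm⟩
  down p hp q hq hqp := mem_Gn'.2 ⟨hq, fun _ hx => (mem_Gn'.1 hp).2 (hqp hx)⟩
  dir := by
    intro p hp q hq
    obtain ⟨F, rfl⟩ := mem_Gn.1 hp
    obtain ⟨F', rfl⟩ := mem_Gn.1 hq
    classical
    refine ⟨cd (F ∪ F') h, mem_Gn.2 ⟨_, rfl⟩, cd_subset_cd.2 ?_, cd_subset_cd.2 ?_⟩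
    · exact fun a b hab => ⟨Finset.mem_union_left _ hab, rfl⟩
    · exact fun a b hab => ⟨Finset.mem_union_right _ hab, rfl⟩
  meets := by
    intro D hD hDd
    obtain ⟨F, hF⟩ := hh D hD hDd
    exact ⟨_, mem_Gn.2 ⟨F, rfl⟩, hF⟩

/-- Meeting sets that are dense below a finite part of `h`. -/
theorem Gen.meets_below {M : Set V} (hM : Nice M) {h : HH} (hh : Gen M h) {D : V} (hD : D ∈ M)
    (F : Finset (ℕ × ℕ))
    (hd : ∀ (F' : Finset (ℕ × ℕ)) (g : HH), F ⊆ F' → (∀ a b, (a, b) ∈ F → g a b = h a b) →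
      ∃ (F'' : Finset (ℕ × ℕ)) (g' : HH), F' ⊆ F'' ∧
      (∀ a b, (a, b) ∈ F' → g' a b = g a b) ∧ cd F'' g' ∈ D) : ∃ F', F ⊆ F' ∧ cd F' h ∈ D := by
  -- intersect `D` with the cone
  have hR : Dfn (fun _ v => v 1 ⊆ v 0) := Dfn.subset (DT.var 1) (DT.var 0)
  have hD' := hM.sepD hR (v := fun _ => cd F h) (fun _ => hM.cd F h) hD
  obtain ⟨r, hr, hrD⟩ := IsGen.meets_below hM hM.PP hh.isGen hD' (p := cd F h)
    (mem_Gn.2 ⟨F, rfl⟩) (by
    intro q hq hpq
    obtain ⟨F', g, rfl⟩ := mem_PP.1 hq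
    rw [cd_subset_cd] at hpq
    obtain ⟨F'', g', h1, h2, h3⟩ := hd F' g (fun ⟨a, b⟩ hab => (hpq a b hab).1)
      (fun a b hab => (hpq a b hab).2)
    refine ⟨cd F'' g', ZFSet.mem_sep.2 ⟨h3, ?_⟩, cd_mem_PP _ _,
      cd_subset_cd.2 fun a b hab => ⟨h1 hab, h2 a b hab⟩⟩
    show cd F h ⊆ cd F'' g'
    refine cd_subset_cd.2 fun a b hab => ?_
    have h4 := hpq a b hab
    exact ⟨h1 h4.1, (h2 a b h4.1).trans h4.2⟩)
  obtain ⟨F', rfl⟩ := mem_Gn.1 hr
  rw [ZFSet.mem_sep] at hrD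
  refine ⟨F', fun ⟨a, b⟩ hab => ?_, hrD.1⟩
  exact ((cd_subset_cd.1 (show cd F h ⊆ cd F' h from hrD.2)) a b hab).1

/-- Generic functions exist below each condition. -/
theorem exists_gen {M : Set V} (hM : Nice M) (hc : M.Countable) (F : Finset (ℕ × ℕ)) (g : HH) :
    ∃ h, Gen M h ∧ ∀ a b, (a, b) ∈ F → h a b = g a b := by
  classical
  obtain ⟨D, hD⟩ : ∃ D : ℕ → V, {D | D ∈ M ∧ IsDense PP D} = Set.range D := by
    refine (hc.mono fun x hx => hx.1).exists_eq_range ⟨PP, hM.PP, fun _ h => h, fun p hp =>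
      ⟨p, hp, fun _ h => h⟩⟩
  have hdense : ∀ n, IsDense PP (D n) := fun n =>
    (show D n ∈ {D | D ∈ M ∧ IsDense PP D} from hD ▸ Set.mem_range_self n).2
  have hstep : ∀ (n : ℕ) (q : Finset (ℕ × ℕ) × HH), ∃ q' : Finset (ℕ × ℕ) × HH, q.1 ⊆ q'.1 ∧
      (∀ a b, (a, b) ∈ q.1 → q'.2 a b = q.2 a b) ∧ cd q'.1 q'.2 ∈ D n := by
    intro n q
    obtain ⟨r, hr, hqr⟩ := (hdense n).2 _ (cd_mem_PP q.1 q.2)
    obtain ⟨F', g', rfl⟩ := mem_PP.1 ((hdense n).1 hr)
    rw [cd_subset_cd] at hqr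
    exact ⟨(F', g'), fun ⟨a, b⟩ hab => (hqr a b hab).1, fun a b hab => (hqr a b hab).2, hr⟩
  choose f hf1 hf2 hf3 using hstep
  let q : ℕ → Finset (ℕ × ℕ) × HH := fun n => Nat.rec (F, g) (fun n q => f n q) n
  have hqs : ∀ n, q (n + 1) = f n (q n) := fun n => rfl
  have hmono : ∀ m n, m ≤ n → (q m).1 ⊆ (q n).1 ∧
      ∀ a b, (a, b) ∈ (q m).1 → (q n).2 a b = (q m).2 a b := by
    intro m n hmn
    induction hmn with
    | refl => exact ⟨fun _ h => h, fun _ _ _ => rfl⟩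
    | step _ ih =>
      rw [hqs]
      exact ⟨ih.1.trans (hf1 _ _), fun a b hab => (hf2 _ _ a b (ih.1 hab)).trans (ih.2 a b hab)⟩
  let h : HH := fun a b => if hx : ∃ n, (a, b) ∈ (q n).1 then (q (Nat.find hx)).2 a b else false
  have hh : ∀ n a b, (a, b) ∈ (q n).1 → h a b = (q n).2 a b := by
    intro n a b hab
    have hx : ∃ n, (a, b) ∈ (q n).1 := ⟨n, hab⟩
    show (if hx : ∃ n, (a, b) ∈ (q n).1 then (q (Nat.find hx)).2 a b else false) = _
    rw [dif_pos hx]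
    exact ((hmono _ n (Nat.find_min' hx hab)).2 a b (Nat.find_spec hx)).symm
  refine ⟨h, ?_, fun a b hab => hh 0 a b hab⟩
  intro E hE hEd
  obtain ⟨n, rfl⟩ : E ∈ Set.range D := hD ▸ ⟨hE, hEd⟩
  refine ⟨(q (n + 1)).1, ?_⟩
  rw [cd_congr fun a b hab => hh (n + 1) a b hab]
  exact hf3 n (q n)

/-! ### Transformations of generic functions -/

/-- A general invariance principle: if `T` is a transformation of conditions given by a definable
function, with inverse of the same kind, then it maps generics to generics. -/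
theorem Gen.transform {M : Set V} (hM : Nice M) {h h' : HH} (hh : Gen M h) {T : V → V → V}
    (hT : D2 T) {c : V} (hc : c ∈ M) {e : Finset (ℕ × ℕ) → Finset (ℕ × ℕ)} {t t' : HH → HH}
    {e' : Finset (ℕ × ℕ) → Finset (ℕ × ℕ)}
    (h1 : ∀ F g, T c (cd F g) = cd (e F) (t g))
    (h2 : ∀ F g F' g', (∀ a b, (a, b) ∈ e F → (a, b) ∈ F' ∧ g' a b = t g a b) →
      (∀ a b, (a, b) ∈ F → (a, b) ∈ e' F' ∧ t' g' a b = g a b))
    (h3 : ∀ F' g', T c (cd (e' F') (t' g')) = cd F' g')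
    (h4 : t h = h') : Gen M h' := by
  intro D hD hDd
  have hR : Dfn (fun _ v => T (v 1) (v 0) ∈ v 2) := Dfn.mem (hT.app (DT.var 1) (DT.var 0)) (DT.var 2)
  have hD' := hM.sepD hR (v := cons c (fun _ => D)) (In.cons hc fun _ => hD) hM.PP
  obtain ⟨F, hF⟩ := hh _ hD' ⟨ZFSet.sep_subset, by
    intro p hp
    obtain ⟨F, g, rfl⟩ := mem_PP.1 hp
    obtain ⟨q, hq, hqs⟩ := hDd.2 _ (cd_mem_PP (e F) (t g))
    obtain ⟨F', g', rfl⟩ := mem_PP.1 (hDd.1 hq)
    rw [cd_subset_cd] at hqs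
    refine ⟨cd (e' F') (t' g'), ZFSet.mem_sep.2 ⟨cd_mem_PP _ _, ?_⟩,
      cd_subset_cd.2 (h2 F g F' g' hqs)⟩
    show T c (cd (e' F') (t' g')) ∈ D
    rw [h3]
    exact hq⟩
  refine ⟨e F, ?_⟩
  have h5 : T c (cd F h) ∈ D := (ZFSet.mem_sep.1 hF).2
  rw [h1, h4] at h5
  exact h5

/-- Addition modulo 2. -/
def hadd (h z : HH) : HH := fun a b => xor (h a b) (z a b)

theorem hadd_hadd (h z : HH) : hadd (hadd h z) z = h := by
  funext a b
  simp [hadd]

open Classical in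
noncomputable def xorV (a b : V) : V := if a = b then ∅ else nat 1

theorem xorV_nat (c d : Bool) : xorV (nat c.toNat) (nat d.toNat) = nat (xor c d).toNat := by
  unfold xorV
  rw [nat_inj, toNat_inj]
  cases c <;> cases d <;> simp [nat]

theorem d2_xorV : D2 xorV := DT.ite (Dfn.eq (DT.var 0) (DT.var 1)) DT.empty (DT.nat 1)

theorem app_hs (z : HH) (a b : ℕ) : app (hs z) (pair (nat a) (nat b)) = nat (z a b).toNat := by
  refine app_eq (pt_mem_hs.2 rfl) fun y hy => ?_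
  obtain ⟨a', b', h⟩ := mem_hs.1 hy
  unfold pt at h
  obtain ⟨h1, h2⟩ := ZFSet.pair_inj.1 h
  obtain ⟨h3, h4⟩ := ZFSet.pair_inj.1 h1
  rw [h2, nat_inj.1 h3, nat_inj.1 h4]

/-- Translation of a condition (or of a graph) by the graph `Z`. -/
noncomputable def trV (Z p : V) : V :=
  img (fun t => pair (fst t) (xorV (snd t) (app Z (fst t)))) p

theorem d2_trV : D2 trV :=
  DT.img (F := fun W t v => pair (fst t) (xorV (snd t) (app (v 0) (fst t)))) (DT.var 1)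
    (DT.pair (DT.fst (DT.var 0)) (d2_xorV.app (DT.snd (DT.var 0))
      (DT.app (DT.var 1) (DT.fst (DT.var 0)))))

theorem trV_pt (z : HH) (a b : ℕ) (c : Bool) :
    pair (fst (pt a b c)) (xorV (snd (pt a b c)) (app (hs z) (fst (pt a b c)))) =
      pt a b (xor c (z a b)) := by
  unfold pt
  rw [fst_pair, snd_pair, app_hs, xorV_nat]

theorem trV_cd (z : HH) (F : Finset (ℕ × ℕ)) (g : HH) : trV (hs z) (cd F g) = cd F (hadd g z) := by
  apply ZFSet.ext
  intro x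
  unfold trV
  rw [mem_img, mem_cd]
  constructor
  · rintro ⟨t, ht, rfl⟩
    obtain ⟨a, b, hab, rfl⟩ := mem_cd.1 ht
    exact ⟨a, b, hab, trV_pt z a b (g a b)⟩
  · rintro ⟨a, b, hab, rfl⟩
    exact ⟨pt a b (g a b), mem_cd.2 ⟨a, b, hab, rfl⟩, trV_pt z a b (g a b)⟩

theorem trV_hs (z h : HH) : trV (hs z) (hs h) = hs (hadd h z) := by
  apply ZFSet.ext
  intro x
  unfold trV
  rw [mem_img, mem_hs]
  constructor
  · rintro ⟨t, ht, rfl⟩
    obtain ⟨a, b, rfl⟩ := mem_hs.1 ht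
    exact ⟨a, b, trV_pt z a b (h a b)⟩
  · rintro ⟨a, b, rfl⟩
    exact ⟨pt a b (h a b), mem_hs.2 ⟨a, b, rfl⟩, trV_pt z a b (h a b)⟩

theorem Gen.add {M : Set V} (hM : Nice M) {h : HH} (hh : Gen M h) {z : HH} (hz : hs z ∈ M) :
    Gen M (hadd h z) := by
  refine Gen.transform hM hh d2_trV hz (e := id) (e' := id) (t := fun g => hadd g z)
    (t' := fun g => hadd g z) (fun F g => trV_cd z F g) ?_ ?_ rfl
  · intro F g F' g' h1 a b hab
    obtain ⟨h2, h3⟩ := h1 a b hab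
    refine ⟨h2, ?_⟩
    show xor (g' a b) (z a b) = g a b
    rw [h3]
    simp [hadd]
  · intro F' g'
    rw [trV_cd, hadd_hadd]
    rfl

/-- A function with finite support is in every nice class. -/
theorem Nice.hs_upd {W : Set V} (hW : Nice W) {z : HH} (hz : hs z ∈ W) (x : ℕ × ℕ) (c : Bool) :
    hs (upd z x c) ∈ W := by
  obtain ⟨a, b⟩ := x
  have h1 : hs (upd z (a, b) c) = (hs z \ {pt a b (!c)}) ∪ {pt a b c} := by
    apply ZFSet.ext
    intro t
    rw [ZFSet.mem_union, ZFSet.mem_sdiff, ZFSet.mem_singleton, ZFSet.mem_singleton, mem_hs]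
    constructor
    · rintro ⟨a', b', rfl⟩
      unfold upd
      split_ifs with h
      · obtain ⟨rfl, rfl⟩ := Prod.mk.inj h
        exact Or.inr rfl
      · refine Or.inl ⟨mem_hs.2 ⟨a', b', rfl⟩, fun h' => h ?_⟩
        obtain ⟨rfl, rfl, _⟩ := pt_inj.1 h'
        rfl
    · rintro (⟨h2, h3⟩ | rfl)
      · obtain ⟨a', b', rfl⟩ := mem_hs.1 h2
        refine ⟨a', b', ?_⟩
        unfold upd
        split_ifs with h
        · obtain ⟨rfl, rfl⟩ := Prod.mk.inj h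
          have : z a' b' ≠ !c := fun h' => h3 (by rw [h'])
          rw [pt_inj]
          refine ⟨rfl, rfl, ?_⟩
          cases c <;> cases hz' : z a' b' <;> simp_all
        · rfl
      · exact ⟨a, b, by simp [upd]⟩
  have hpt : ∀ c, pt a b c ∈ W := fun c => hW.pair (hW.pair (hW.nat a) (hW.nat b)) (hW.nat _)
  rw [h1]
  exact (DT.union (DT.diff (DT.var 0) (DT.var 1)) (DT.var 2)).mem W hW
    (cons (hs z) (cons {pt a b (!c)} fun _ => {pt a b c}))
    (In.cons hz (In.cons (hW.singleton (hpt _)) fun _ => hW.singleton (hpt _)))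

theorem Nice.hs_zero {W : Set V} (hW : Nice W) : hs (fun _ _ => false) ∈ W := by
  have h1 : hs (fun _ _ => false) = ZFSet.prod (ZFSet.prod ZFSet.omega ZFSet.omega) {∅} := by
    apply ZFSet.ext
    intro t
    rw [mem_hs]
    simp only [ZFSet.mem_prod, ZFSet.mem_singleton, mem_omega]
    constructor
    · rintro ⟨a, b, rfl⟩
      exact ⟨_, ⟨_, ⟨a, rfl⟩, _, ⟨b, rfl⟩, rfl⟩, ∅, rfl, rfl⟩
    · rintro ⟨_, ⟨_, ⟨a, rfl⟩, _, ⟨b, rfl⟩, rfl⟩, _, rfl, rfl⟩
      exact ⟨a, b, rfl⟩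
  rw [h1]
  exact (DT.prod (DT.prod DT.omega DT.omega) (DT.singleton DT.empty)).mem W hW (fun _ => ∅)
    hW.in_const

theorem Nice.hs_finite {W : Set V} (hW : Nice W) {z : HH} (hz : hs z ∈ W) {z' : HH}
    (F : Finset (ℕ × ℕ)) (h : ∀ a b, (a, b) ∉ F → z' a b = z a b) : hs z' ∈ W := by
  classical
  induction F using Finset.induction_on generalizing z with
  | empty =>
    have : z' = z := by
      funext a b
      exact h a b (by simp)
    rw [this]
    exact hz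
  | insert x F _ ih =>
    refine ih (hW.hs_upd hz x (z' x.1 x.2)) fun a b hab => ?_
    unfold upd
    split_ifs with h1
    · rw [← h1]
    · exact h a b fun h2 => (Finset.mem_insert.1 h2).elim h1 hab

/-- Finite modifications of generics are generic. -/
theorem Gen.finite {M : Set V} (hM : Nice M) {h h' : HH} (hh : Gen M h) (F : Finset (ℕ × ℕ))
    (hF : ∀ a b, (a, b) ∉ F → h' a b = h a b) : Gen M h' := by
  have h1 : h' = hadd h (fun a b => xor (h a b) (h' a b)) := by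
    funext a b
    simp [hadd]
  have h2 : hs (fun a b => xor (h a b) (h' a b)) ∈ M :=
    hM.hs_finite hM.hs_zero F fun a b hab => by rw [hF a b hab]; simp
  rw [h1]
  exact hh.add hM h2

end Pool.Agent.NUC
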