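import Pool.Agent.Lib.MP_bf67b0_lc.NUC.LNice

/-!
# Existence of a countable nice class
-/

namespace Pool.Agent.NUC

open ZFSet (pair)

deriving instance Countable for Fml

/-- The universe is nice. -/
theorem univ_nice : Nice (Set.univ : Set V) where
  trans _ _ _ _ := Set.mem_univ _
  upair _ _ _ _ := Set.mem_univ _
  sUnion _ _ := Set.mem_univ _
  pow x _ := ⟨ZFSet.powerset x, Set.mem_univ _, fun z _ hz => ZFSet.mem_powerset.2 hz⟩
  omega := Set.mem_univ _
  sep _ _ _ _ _ := Set.mem_univ _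
  coll := by
    intro φ v _ a _ h
    choose! y _ hy using h
    exact ⟨img y a, Set.mem_univ _, fun x hx => ⟨y x, mem_img.2 ⟨x, hx, rfl⟩, hy x hx⟩⟩

theorem nice_transfer {W W' : Set V} (hW : Nice W) (hW' : Trans W') (hne : ∃ x, x ∈ W')
    (hel : ∀ v', In W' v' → ∃ v, In W v ∧ ∀ φ, (Sat W φ v ↔ Sat W' φ v')) : Nice W' := by
  -- transfer of a relation definable over transitive classes
  have htr : ∀ {R : Set V → (ℕ → V) → Prop}, Dfn0 R → (∀ v, In W v → R W v) →
      ∀ v, In W' v → R W' v := by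
    rintro R ⟨χ, hχ⟩ h v' hv'
    obtain ⟨v, hv, hvv'⟩ := hel v' hv'
    exact (hχ W' hW' v' hv').2 ((hvv' χ).1 ((hχ W hW.trans v hv).1 (h v hv)))
  have hC : ∀ W : Set V, Trans W → Trans W := fun _ h => h
  have hSat : ∀ φ : Fml, Dfn0 (fun W v => Sat W φ v) := fun φ => ⟨φ, fun _ _ _ _ => Iff.rfl⟩
  refine Nice.mk' hW' ?_ ?_ ?_ ?_ ?_ ?_
  · have h : Dfn0 (fun W v => ∃ z ∈ W, v 0 ∈ z ∧ v 1 ∈ z) :=
      DC.ex (P := fun W z v => v 0 ∈ z ∧ v 1 ∈ z) (DC.and (DC.mem' 1 0) (DC.mem' 2 0))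
    intro x hx y hy
    exact htr h (fun v hv => ⟨{v 0, v 1}, hW.upair _ (hv 0) _ (hv 1), by simp, by simp⟩)
      (cons x (fun _ => y)) (In.cons hx fun _ => hy)
  · have h : Dfn0 (fun W v => ∃ y ∈ W, ∀ z ∈ v 0, ∀ u ∈ z, u ∈ y) := by
      refine DC.ex (P := fun W y v => ∀ z ∈ v 0, ∀ u ∈ z, u ∈ y) ?_
      refine DC.ball' (P := fun W z v => ∀ u ∈ z, u ∈ v 0) hC 1 ?_
      exact DC.ball' (P := fun W u v => u ∈ v 1) hC 0 (DC.mem' 0 2)
    intro x hx
    obtain ⟨y, hy, h1⟩ := htr h (fun v hv => ⟨ZFSet.sUnion (v 0), hW.sUnion _ (hv 0),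
      fun z hz u hu => ZFSet.mem_sUnion.2 ⟨z, hz, hu⟩⟩) (fun _ => x) (fun _ => hx)
    refine ⟨y, hy, fun u hu => ?_⟩
    obtain ⟨z, hz, hu⟩ := ZFSet.mem_sUnion.1 hu
    exact h1 z hz u hu
  · have h : Dfn0 (fun W v => ∃ y ∈ W, ∀ z ∈ W, (∀ u ∈ z, u ∈ v 0) → z ∈ y) := by
      refine DC.ex (P := fun W y v => ∀ z ∈ W, (∀ u ∈ z, u ∈ v 0) → z ∈ y) ?_
      refine DC.all (P := fun W z v => (∀ u ∈ z, u ∈ v 1) → z ∈ v 0) ?_
      refine DC.imp ?_ (DC.mem' 0 1)
      exact DC.ball' (P := fun W u v => u ∈ v 2) hC 0 (DC.mem' 0 3)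
    intro x hx
    obtain ⟨y, hy, h1⟩ := htr h (fun v hv => by
      obtain ⟨y, hy, h1⟩ := hW.pow _ (hv 0)
      exact ⟨y, hy, fun z hz hzx => h1 z hz fun u hu => hzx u hu⟩) (fun _ => x) (fun _ => hx)
    exact ⟨y, hy, fun z hz hzx => h1 z hz fun u hu => hzx hu⟩
  · have h : Dfn0 (fun W _ => ∃ z ∈ W, (∃ e ∈ z, ∀ u ∈ e, False) ∧ ∀ x ∈ z, ∃ y ∈ z,
        x ∈ y ∧ (∀ u ∈ y, (u ∈ x ∨ u = x)) ∧ ∀ u ∈ x, u ∈ y) := by
      refine DC.ex (P := fun W z v => (∃ e ∈ z, ∀ u ∈ e, False) ∧ ∀ x ∈ z, ∃ y ∈ z,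
        x ∈ y ∧ (∀ u ∈ y, (u ∈ x ∨ u = x)) ∧ ∀ u ∈ x, u ∈ y) (DC.and ?_ ?_)
      · refine DC.bex' (P := fun W e v => ∀ u ∈ e, False) hC 0 ?_
        exact DC.ball' (P := fun W e v => False) hC 0 DC.false
      · refine DC.ball' (P := fun W x v => ∃ y ∈ v 0,
          x ∈ y ∧ (∀ u ∈ y, (u ∈ x ∨ u = x)) ∧ ∀ u ∈ x, u ∈ y) hC 0 ?_
        refine DC.bex' (P := fun W y v => v 0 ∈ y ∧ (∀ u ∈ y, (u ∈ v 0 ∨ u = v 0)) ∧
          ∀ u ∈ v 0, u ∈ y) hC 1 ?_
        refine DC.and (DC.mem' 1 0) (DC.and ?_ ?_)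
        · exact DC.ball' (P := fun W u v => (u ∈ v 1 ∨ u = v 1)) hC 0
            (DC.or (DC.mem' 0 2) (DC.eq' 0 2))
        · exact DC.ball' (P := fun W u v => u ∈ v 0) hC 1 (DC.mem' 0 1)
    obtain ⟨x, hx⟩ := hne
    obtain ⟨z, hz, ⟨e, he, h1⟩, h2⟩ := htr h (fun v hv => ⟨ZFSet.omega, hW.omega,
      ⟨∅, ZFSet.omega_zero, fun u hu => ZFSet.notMem_empty _ hu⟩, fun x hx =>
        ⟨insert x x, ZFSet.omega_succ hx, ZFSet.mem_insert _ _, fun u hu =>
          (ZFSet.mem_insert_iff.1 hu).symm, fun u hu => ZFSet.mem_insert_of_mem _ hu⟩⟩)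
      (fun _ => x) (fun _ => hx)
    refine ⟨z, hz, fun y hy => ?_⟩
    obtain ⟨n, rfl⟩ := mem_omega.1 hy
    clear hy
    induction n with
    | zero =>
      have : e = ∅ := (ZFSet.eq_empty e).2 h1
      rw [this] at he
      exact he
    | succ n ih =>
      obtain ⟨y, hy, h3, h4, h5⟩ := h2 _ ih
      have : nat (n + 1) = y := by
        apply ZFSet.ext
        intro u
        rw [nat, ZFSet.mem_insert_iff]
        constructor
        · rintro (rfl | hu)
          · exact h3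
          · exact h5 u hu
        · intro hu
          exact (h4 u hu).symm
      rw [this]
      exact hy
  · intro φ v hv a ha
    have h : Dfn0 (fun W v => ∃ b ∈ W, ∀ x ∈ W, (x ∈ b ↔ x ∈ v 0 ∧
        Sat W φ (cons x (fun n => v (n + 1))))) := by
      refine DC.ex (P := fun W b v => ∀ x ∈ W, (x ∈ b ↔ x ∈ v 0 ∧
        Sat W φ (cons x (fun n => v (n + 1))))) ?_
      refine DC.all (P := fun W x v => (x ∈ v 0 ↔ x ∈ v 1 ∧
        Sat W φ (cons x (fun n => v (n + 2))))) ?_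
      refine DC.iff (DC.mem' 0 1) (DC.and (DC.mem' 0 2) ?_)
      refine (DC.ren (hSat φ) (fun n => match n with | 0 => 0 | n + 1 => n + 3)).congr ?_
      intro W _ v _
      have : cons (v 0) (fun n => v (n + 3)) =
          fun n => v (match n with | 0 => 0 | n + 1 => n + 3) := by
        funext n
        cases n <;> rfl
      show Sat W φ (cons (v 0) (fun n => v (n + 3))) ↔ _
      rw [this]
    obtain ⟨b, hb, h1⟩ := htr h (fun v hv => by
      refine ⟨_, hW.sep φ (fun n => v (n + 1)) (fun n => hv _) _ (hv 0), fun x hx => ?_⟩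
      rw [ZFSet.mem_sep]) (cons a v) (In.cons ha hv)
    convert hb using 1
    apply ZFSet.ext
    intro x
    rw [ZFSet.mem_sep]
    constructor
    · rintro ⟨hx, h2⟩
      exact (h1 x (hW' a ha x hx)).2 ⟨hx, h2⟩
    · intro hx
      exact (h1 x (hW' b hb x hx)).1 hx
  · intro φ v hv a ha hex
    have hS : ∀ W, Trans W → ∀ v, In W v → (Sat W φ (cons (v 0) (cons (v 1) (fun n => v (n + 4)))) ↔
        Sat W φ (fun n => v (match n with | 0 => 0 | 1 => 1 | n + 2 => n + 4))) := by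
      intro W _ v _
      have : cons (v 0) (cons (v 1) (fun n => v (n + 4))) =
          fun n => v (match n with | 0 => 0 | 1 => 1 | n + 2 => n + 4) := by
        funext n
        match n with
        | 0 => rfl
        | 1 => rfl
        | n + 2 => rfl
      rw [this]
    have hS' : ∀ W, Trans W → ∀ v, In W v → (Sat W φ (cons (v 0) (cons (v 1) (fun n => v (n + 3)))) ↔
        Sat W φ (fun n => v (match n with | 0 => 0 | 1 => 1 | n + 2 => n + 3))) := by
      intro W _ v _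
      have : cons (v 0) (cons (v 1) (fun n => v (n + 3))) =
          fun n => v (match n with | 0 => 0 | 1 => 1 | n + 2 => n + 3) := by
        funext n
        match n with
        | 0 => rfl
        | 1 => rfl
        | n + 2 => rfl
      rw [this]
    have h : Dfn0 (fun W v => (∀ x ∈ v 0, ∃ y ∈ W, Sat W φ (cons y (cons x (fun n => v (n + 1))))) →
        ∃ b ∈ W, ∀ x ∈ v 0, ∃ y ∈ b, Sat W φ (cons y (cons x (fun n => v (n + 1))))) := by
      refine DC.imp ?_ ?_
      · refine DC.ball' (P := fun W x v => ∃ y ∈ W, Sat W φ (cons y (cons x (fun n => v (n + 1)))))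
          hC 0 ?_
        refine DC.ex (P := fun W y v => Sat W φ (cons y (cons (v 0) (fun n => v (n + 2))))) ?_
        exact (DC.ren (hSat φ) (fun n => match n with | 0 => 0 | 1 => 1 | n + 2 => n + 3)).congr
          hS'
      · refine DC.ex (P := fun W b v => ∀ x ∈ v 0, ∃ y ∈ b,
          Sat W φ (cons y (cons x (fun n => v (n + 1))))) ?_
        refine DC.ball' (P := fun W x v => ∃ y ∈ v 0,
          Sat W φ (cons y (cons x (fun n => v (n + 2))))) hC 1 ?_
        refine DC.bex' (P := fun W y v =>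
          Sat W φ (cons y (cons (v 0) (fun n => v (n + 3))))) hC 1 ?_
        exact (DC.ren (hSat φ) (fun n => match n with | 0 => 0 | 1 => 1 | n + 2 => n + 4)).congr
          hS
    exact htr h (fun v hv h2 => hW.coll φ (fun n => v (n + 1)) (fun n => hv _) _ (hv 0) h2)
      (cons a v) (In.cons ha hv) hex

/-! ### A countable elementary subclass of the universe -/

/-- The assignment given by a list. -/
noncomputable def lv (l : List V) : ℕ → V := fun i => l.getD i ∅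

open Classical in
/-- Skolem functions of the universe. -/
noncomputable def skU (p : Fml × List V) : V :=
  if h : ∃ y, Sat Set.univ p.1 (cons y (lv p.2)) then h.choose else ∅

/-- The hull. -/
noncomputable def hullN : ℕ → Set V
  | 0 => {∅}
  | n + 1 => hullN n ∪ skU '' {p | ∀ x ∈ p.2, x ∈ hullN n}

theorem hullN_countable (n : ℕ) : (hullN n).Countable := by
  induction n with
  | zero => exact Set.countable_singleton _
  | succ n ih =>
    refine ih.union (Set.Countable.image ?_ _)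
    have h1 : {p : Fml × List V | ∀ x ∈ p.2, x ∈ hullN n} =
        Set.univ ×ˢ {l : List V | ∀ x ∈ l, x ∈ hullN n} := by
      ext p
      simp
    rw [h1]
    refine Set.Countable.prod (Set.to_countable _) ?_
    have hc : Countable (hullN n) := ih.to_subtype
    refine (Set.countable_range (List.map (Subtype.val : hullN n → V))).mono ?_
    intro l hl
    have hl' : ∀ x ∈ l, x ∈ hullN n := hl
    clear hl
    induction l with
    | nil => exact ⟨[], rfl⟩
    | cons a l ih' =>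
      obtain ⟨l', hl''⟩ := ih' fun x hx => hl' x (List.mem_cons_of_mem _ hx)
      exact ⟨⟨a, hl' a List.mem_cons_self⟩ :: l', by rw [List.map_cons, hl'']⟩

theorem hullN_mono {m n : ℕ} (h : m ≤ n) : hullN m ⊆ hullN n := by
  induction h with
  | refl => exact fun _ h => h
  | step _ ih => exact ih.trans Set.subset_union_left

/-- The hull. -/
noncomputable def hull : Set V := ⋃ n, hullN n

theorem hull_countable : hull.Countable := Set.countable_iUnion hullN_countable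

theorem hull_closed (ψ : Fml) (v : ℕ → V) (hv : In hull v)
    (h : ∃ y, Sat Set.univ ψ (cons y v)) : ∃ y ∈ hull, Sat Set.univ ψ (cons y v) := by
  -- the first `ψ.bd` values
  have hk : ∀ m, ∃ k, ∀ i < m, v i ∈ hullN k := by
    intro m
    induction m with
    | zero => exact ⟨0, fun i hi => by omega⟩
    | succ m ih =>
      obtain ⟨k, hk⟩ := ih
      obtain ⟨l, hl⟩ := Set.mem_iUnion.1 (hv m)
      refine ⟨max k l, fun i hi => ?_⟩
      rcases Nat.lt_succ_iff_lt_or_eq.1 hi with h | rfl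
      · exact hullN_mono (le_max_left _ _) (hk i h)
      · exact hullN_mono (le_max_right _ _) hl
  obtain ⟨k, hk⟩ := hk ψ.bd
  let l : List V := (List.range ψ.bd).map v
  have hl : ∀ y, Sat Set.univ ψ (cons y v) ↔ Sat Set.univ ψ (cons y (lv l)) := by
    intro y
    refine sat_bd _ ψ fun i hi => ?_
    cases i with
    | zero => rfl
    | succ i =>
      show v i = ((List.range ψ.bd).map v).getD i ∅
      rw [List.getD_eq_getElem _ _ (by simp; omega)]
      simp
  have hex : ∃ y, Sat Set.univ ψ (cons y (lv l)) := by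
    obtain ⟨y, hy⟩ := h
    exact ⟨y, (hl y).1 hy⟩
  refine ⟨skU (ψ, l), Set.mem_iUnion.2 ⟨k + 1, Or.inr ⟨(ψ, l), ?_, rfl⟩⟩, ?_⟩
  · intro x hx
    obtain ⟨i, hi, rfl⟩ := List.mem_map.1 hx
    exact hk i (List.mem_range.1 hi)
  · rw [hl]
    unfold skU
    rw [dif_pos hex]
    exact hex.choose_spec

theorem hull_elem (φ : Fml) (v : ℕ → V) (hv : In hull v) :
    Sat Set.univ φ v ↔ Sat hull φ v :=
  tarskiVaught (Set.subset_univ _) φ (fun ψ _ v hv h => by
    obtain ⟨y, _, hy⟩ := h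
    exact hull_closed ψ v hv ⟨y, hy⟩) v hv

/-- The collapse. -/
noncomputable def colH (x : V) : V :=
  ZFSet.range (fun y : ZFSet.sep (fun y => y ∈ hull) x => colH y.1)
termination_by x
decreasing_by exact (ZFSet.mem_sep.1 y.2).1

theorem mem_colH {x z : V} : z ∈ colH x ↔ ∃ y ∈ x, y ∈ hull ∧ colH y = z := by
  rw [colH, ZFSet.mem_range]
  constructor
  · rintro ⟨⟨y, hy⟩, rfl⟩
    rw [ZFSet.mem_sep] at hy
    exact ⟨y, hy.1, hy.2, rfl⟩
  · rintro ⟨y, hy, hy', rfl⟩
    exact ⟨⟨y, ZFSet.mem_sep.2 ⟨hy, hy'⟩⟩, rfl⟩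

theorem hull_ext {x y : V} (hx : x ∈ hull) (hy : y ∈ hull) (h : ∀ z ∈ hull, z ∈ x ↔ z ∈ y) :
    x = y := by
  by_contra hne
  have h1 : ∃ z, z ∈ x ∧ z ∉ y ∨ z ∈ y ∧ z ∉ x := by
    by_contra hc
    push Not at hc
    exact hne (ZFSet.ext fun z => ⟨fun hz => (hc z).1 hz, fun hz => (hc z).2 hz⟩)
  have hR : DC (fun W => W = Set.univ) (fun _ v => v 0 ∈ v 1 ∧ v 0 ∉ v 2 ∨ v 0 ∈ v 2 ∧ v 0 ∉ v 1) :=
    DC.or (DC.and (DC.mem' 0 1) (DC.not (DC.mem' 0 2))) (DC.and (DC.mem' 0 2) (DC.not (DC.mem' 0 1)))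
  obtain ⟨ψ, hψ⟩ := hR
  obtain ⟨z, hz⟩ := h1
  obtain ⟨z', hz'H, hz'⟩ := hull_closed ψ (cons x (fun _ => y)) (In.cons hx fun _ => hy)
    ⟨z, (hψ _ rfl _ fun _ => Set.mem_univ _).1 hz⟩
  have h2 : z' ∈ x ∧ z' ∉ y ∨ z' ∈ y ∧ z' ∉ x := (hψ _ rfl _ fun _ => Set.mem_univ _).2 hz'
  have h3 := h z' hz'H
  tauto

theorem colH_inj : ∀ x ∈ hull, ∀ y ∈ hull, colH x = colH y → x = y := by
  intro x
  induction x using ZFSet.inductionOn with
  | _ x ih =>
    intro hx y hy hxy
    refine hull_ext hx hy fun z hz => ?_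
    constructor
    · intro hzx
      have h1 : colH z ∈ colH y := hxy ▸ mem_colH.2 ⟨z, hzx, hz, rfl⟩
      obtain ⟨w, hw, hwH, h2⟩ := mem_colH.1 h1
      rw [ih z hzx hz w hwH h2.symm]
      exact hw
    · intro hzy
      have h1 : colH z ∈ colH x := hxy ▸ mem_colH.2 ⟨z, hzy, hz, rfl⟩
      obtain ⟨w, hw, hwH, h2⟩ := mem_colH.1 h1
      rw [← ih w hw hwH z hz h2]
      exact hw

theorem colH_mem {x y : V} (hx : x ∈ hull) (hy : y ∈ hull) : colH x ∈ colH y ↔ x ∈ y := by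
  rw [mem_colH]
  constructor
  · rintro ⟨z, hz, hzH, h⟩
    rw [← colH_inj z hzH x hx h]
    exact hz
  · intro h
    exact ⟨x, h, hx, rfl⟩

/-- The collapse of the hull. -/
noncomputable def W₀ : Set V := colH '' hull

theorem sat_colH (φ : Fml) : ∀ v, In hull v → (Sat hull φ v ↔ Sat W₀ φ (fun n => colH (v n))) := by
  induction φ with
  | mem i j => intro v hv; exact (colH_mem (hv i) (hv j)).symm
  | eq i j =>
    intro v hv
    exact ⟨fun h => congrArg colH h, fun h => colH_inj _ (hv i) _ (hv j) h⟩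
  | neg φ ih => intro v hv; exact not_congr (ih v hv)
  | and φ ψ ih1 ih2 => intro v hv; exact and_congr (ih1 v hv) (ih2 v hv)
  | ex φ ih =>
    intro v hv
    have hcons : ∀ x, (fun n => colH (cons x v n)) = cons (colH x) (fun n => colH (v n)) := by
      intro x
      funext n
      cases n <;> rfl
    constructor
    · rintro ⟨x, hx, h⟩
      refine ⟨colH x, ⟨x, hx, rfl⟩, ?_⟩
      rw [← hcons]
      exact (ih _ (In.cons hx hv)).1 h
    · rintro ⟨_, ⟨x, hx, rfl⟩, h⟩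
      rw [← hcons] at h
      exact ⟨x, hx, (ih _ (In.cons hx hv)).2 h⟩

theorem W₀_countable : W₀.Countable := hull_countable.image _

theorem W₀_nice : Nice W₀ := by
  refine nice_transfer univ_nice ?_ ?_ ?_
  · rintro _ ⟨x, hx, rfl⟩ y hy
    obtain ⟨z, _, hz, rfl⟩ := mem_colH.1 hy
    exact ⟨z, hz, rfl⟩
  · exact ⟨colH ∅, ∅, Set.mem_iUnion.2 ⟨0, rfl⟩, rfl⟩
  · intro v' hv'
    choose v hv hvv' using hv'
    refine ⟨v, fun _ => Set.mem_univ _, fun φ => ?_⟩
    rw [hull_elem φ v hv, sat_colH φ v hv]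
    have : (fun n => colH (v n)) = v' := funext hvv'
    rw [this]

/-- There is a countable transitive model of `ZF`. -/
theorem exists_countable_nice : ∃ W : Set V, W.Countable ∧ Nice W := ⟨W₀, W₀_countable, W₀_nice⟩

end Pool.Agent.NUC
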