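import Mathlib

/-!
# MP_bf67b0_lc : basic definitions

The language of set theory, satisfaction in a class `W` of sets, transitive models, reals and their
codes, the projective classes relative to a model, and `AC_ω(ℝ; Γ)` relative to a model.
-/

namespace Pool.Agent.NUC

/-- The ambient universe of sets. -/
abbrev V := ZFSet.{0}

/-- Formulas of the language of set theory; variables are de Bruijn indices. -/
inductive Fml : Type
  | mem (i j : ℕ) : Fml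
  | eq (i j : ℕ) : Fml
  | neg (φ : Fml) : Fml
  | and (φ ψ : Fml) : Fml
  | ex (φ : Fml) : Fml

/-- Put `x` in front of the assignment `v`. -/
def cons (x : V) (v : ℕ → V) : ℕ → V
  | 0 => x
  | n + 1 => v n

@[simp] theorem cons_zero (x : V) (v : ℕ → V) : cons x v 0 = x := rfl
@[simp] theorem cons_succ (x : V) (v : ℕ → V) (n : ℕ) : cons x v (n + 1) = v n := rfl

/-- Satisfaction in the structure `(W, ∈)`. -/
def Sat (W : Set V) : Fml → (ℕ → V) → Prop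
  | .mem i j, v => v i ∈ v j
  | .eq i j, v => v i = v j
  | .neg φ, v => ¬ Sat W φ v
  | .and φ ψ, v => Sat W φ v ∧ Sat W ψ v
  | .ex φ, v => ∃ x ∈ W, Sat W φ (cons x v)

/-- Transitive classes. -/
def Trans (W : Set V) : Prop := ∀ x ∈ W, ∀ y ∈ x, y ∈ W

/-- All values of the assignment lie in `W`. -/
def In (W : Set V) (v : ℕ → V) : Prop := ∀ n, v n ∈ W

/-- Transitive models of `ZF` (working form). -/
structure Nice (W : Set V) : Prop where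
  trans : Trans W
  upair : ∀ x ∈ W, ∀ y ∈ W, ({x, y} : V) ∈ W
  sUnion : ∀ x ∈ W, ZFSet.sUnion x ∈ W
  pow : ∀ x ∈ W, ∃ y ∈ W, ∀ z ∈ W, z ⊆ x → z ∈ y
  omega : ZFSet.omega ∈ W
  sep : ∀ (φ : Fml) (v : ℕ → V), In W v → ∀ a ∈ W,
    ZFSet.sep (fun x => Sat W φ (cons x v)) a ∈ W
  coll : ∀ (φ : Fml) (v : ℕ → V), In W v → ∀ a ∈ W,
    (∀ x ∈ a, ∃ y ∈ W, Sat W φ (cons y (cons x v))) →
      ∃ b ∈ W, ∀ x ∈ a, ∃ y ∈ b, Sat W φ (cons y (cons x v))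

/-- `N` is a transitive model of `ZF`: `N` is a transitive class of sets and all axioms of `ZF`
(with the separation and replacement schemes for all formulas with parameters) hold when
relativised to `N`. -/
structure IsTransModelZF (N : Set V) : Prop where
  transitive : ∀ x ∈ N, ∀ y ∈ x, y ∈ N
  extensionality : ∀ x ∈ N, ∀ y ∈ N, (∀ z ∈ N, z ∈ x ↔ z ∈ y) → x = y
  foundation : ∀ x ∈ N, (∃ y ∈ N, y ∈ x) → ∃ y ∈ N, y ∈ x ∧ ∀ z ∈ N, z ∈ y → z ∉ x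
  pairing : ∀ x ∈ N, ∀ y ∈ N, ∃ z ∈ N, ∀ w ∈ N, w ∈ z ↔ w = x ∨ w = y
  union : ∀ x ∈ N, ∃ z ∈ N, ∀ w ∈ N, w ∈ z ↔ ∃ y ∈ N, y ∈ x ∧ w ∈ y
  powerset : ∀ x ∈ N, ∃ z ∈ N, ∀ w ∈ N, w ∈ z ↔ ∀ u ∈ N, u ∈ w → u ∈ x
  infinity : ∃ x ∈ N, (∃ e ∈ N, (∀ u ∈ N, u ∉ e) ∧ e ∈ x) ∧
    ∀ y ∈ N, y ∈ x → ∃ z ∈ N, z ∈ x ∧ ∀ w ∈ N, w ∈ z ↔ w ∈ y ∨ w = y
  separation : ∀ (φ : Fml) (v : ℕ → V), In N v → ∀ a ∈ N, ∃ b ∈ N, ∀ x ∈ N,
    x ∈ b ↔ x ∈ a ∧ Sat N φ (cons x v)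
  replacement : ∀ (φ : Fml) (v : ℕ → V), In N v → ∀ a ∈ N,
    (∀ x ∈ N, x ∈ a → ∃! y, y ∈ N ∧ Sat N φ (cons y (cons x v))) →
      ∃ b ∈ N, ∀ y ∈ N, y ∈ b ↔ ∃ x ∈ N, x ∈ a ∧ Sat N φ (cons y (cons x v))

/-- The von Neumann numerals. -/
def nat : ℕ → V
  | 0 => ∅
  | n + 1 => insert (nat n) (nat n)

/-- The code of the real `x : ℕ → ℕ`: its graph. -/
noncomputable def rl (x : ℕ → ℕ) : V :=
  ZFSet.range (fun n : ℕ => ZFSet.pair (nat n) (nat (x n)))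

/-- The reals of `N`. -/
def Reals (N : Set V) : Set (ℕ → ℕ) := {x | rl x ∈ N}

/-- The code of a sequence of sets of reals. -/
noncomputable def seqCode (A : ℕ → Set (ℕ → ℕ)) : V :=
  ZFSet.range (fun p : {p : ℕ × (ℕ → ℕ) // p.2 ∈ A p.1} =>
    ZFSet.pair (nat p.1.1) (rl p.1.2))

/-- The pairing of two reals. -/
def pr (x y : ℕ → ℕ) : ℕ → ℕ := fun n => Nat.pair (x n) (y n)

/-- The code of the finite sequence `x 0, …, x (n-1)`. -/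
def res (x : ℕ → ℕ) : ℕ → ℕ
  | 0 => 0
  | n + 1 => Nat.pair (x n) (res x n) + 1

/-- `A` is closed relative to the set of reals `R`: the set of branches (in `R`) of a tree coded by a
real of `R`. -/
def ClosedIn (R : Set (ℕ → ℕ)) (A : Set (ℕ → ℕ)) : Prop :=
  ∃ r ∈ R, A = {x | x ∈ R ∧ ∀ n, r (res x n) = 0}

/-- Projection (relative to `R`) of a set of reals, seen as a set of pairs. -/
def Proj (R : Set (ℕ → ℕ)) (B : Set (ℕ → ℕ)) : Set (ℕ → ℕ) := {x | x ∈ R ∧ ∃ y ∈ R, pr x y ∈ B}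

/-- `IsPi R n A`: `A` is a boldface `Π¹_n` set of reals, relative to the set `R` of all reals
(of a model). -/
def IsPi (R : Set (ℕ → ℕ)) : ℕ → Set (ℕ → ℕ) → Prop
  | 0, A => ClosedIn R A
  | n + 1, A => A ⊆ R ∧ ∃ B, IsPi R n B ∧ R \ A = Proj R B

/-- `IsSigma R n A`: `A` is a boldface `Σ¹_n` set of reals (`n ≥ 1`), relative to `R`. -/
def IsSigma (R : Set (ℕ → ℕ)) (n : ℕ) (A : Set (ℕ → ℕ)) : Prop :=
  ∃ m, n = m + 1 ∧ ∃ B, IsPi R m B ∧ A = Proj R B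

/-- `AC_ω(ℝ; Γ)` in the transitive model `N`. -/
def ACω (N : Set V) (Γ : Set (ℕ → ℕ) → Prop) : Prop :=
  ∀ A : ℕ → Set (ℕ → ℕ), seqCode A ∈ N → (∀ k, (A k).Nonempty) → (∀ k, Γ (A k)) →
    ∃ f : ℕ → (ℕ → ℕ), seqCode (fun k => {f k}) ∈ N ∧ ∀ k, f k ∈ A k

/-- The statement to be proved: a (countable) transitive model of `ZF` in which
`AC_ω(ℝ; Π¹₁)` holds and `AC_ω(ℝ; Σ¹₂)` fails. -/
def MainStatement : Prop :=
  ∃ N : Set V, N.Countable ∧ IsTransModelZF N ∧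
    ACω N (IsPi (Reals N) 1) ∧ ¬ ACω N (IsSigma (Reals N) 2)

end Pool.Agent.NUC
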