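import Pool.Agent.Lib.MP_bf67b0_lc.NUC.Rec

/-!
# Forcing: definitions and definability

Conditions are ordered by inclusion: `q` is stronger than `p` iff `p ⊆ q`.
-/

namespace Pool.Agent.NUC

open ZFSet (pair)

/-! ### A general recursion operator -/

/-- The function defined by the recursion `F p x = H p x (gr (F p) (child p x))`. -/
noncomputable def recF (child : V → V → V) (H : V → V → V → V)
    (hr : ∀ p x, ∀ y ∈ child p x, y.rank < x.rank) (p x : V) : V :=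
  H p x (ZFSet.range (fun y : child p x => pair y.1 (recF child H hr p y.1)))
termination_by x.rank
decreasing_by exact hr p x _ y.2

theorem recF_eq (child : V → V → V) (H : V → V → V → V)
    (hr : ∀ p x, ∀ y ∈ child p x, y.rank < x.rank) (p x : V) :
    recF child H hr p x = H p x (gr (recF child H hr p) (child p x)) := by
  rw [recF]
  rfl

theorem d2_recF {child : V → V → V} {H : V → V → V → V}
    {hr : ∀ p x, ∀ y ∈ child p x, y.rank < x.rank} (hc : D2 child) (hH : D3 H) :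
    D2 (recF child H hr) := D2.of_rec hr (recF_eq child H hr) hc hH

/-! ### Generic filters, names -/

/-- `D` is a dense subset of `P`. -/
def IsDense (P D : V) : Prop := D ⊆ P ∧ ∀ p ∈ P, ∃ q ∈ D, p ⊆ q

/-- `G` is an `M`-generic filter on `P`. -/
structure IsGen (M : Set V) (P G : V) : Prop where
  sub : G ⊆ P
  empty : ∅ ∈ G
  down : ∀ p ∈ G, ∀ q ∈ P, q ⊆ p → q ∈ G
  dir : ∀ p ∈ G, ∀ q ∈ G, ∃ r ∈ G, p ⊆ r ∧ q ⊆ r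
  meets : ∀ D ∈ M, IsDense P D → ∃ p ∈ G, p ∈ D

/-- The value of the name `τ`. -/
noncomputable def val (G τ : V) : V :=
  ZFSet.range (fun σ : ZFSet.sep (fun σ => ∃ p ∈ G, pair σ p ∈ τ) (dom τ) => val G σ.1)
termination_by τ.rank
decreasing_by
  obtain ⟨p, _, hp⟩ := (ZFSet.mem_sep.1 σ.2).2
  have h1 : (σ.1 : V).rank < (pair σ.1 p : V).rank :=
    (ZFSet.rank_lt_of_mem (y := σ.1) (x := ({σ.1, p} : V)) (by simp)).trans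
      (ZFSet.rank_lt_of_mem (by simp [ZFSet.pair]))
  exact h1.trans (ZFSet.rank_lt_of_mem hp)

theorem rank_left_lt {x y z : V} (h : pair x y ∈ z) : x.rank < z.rank :=
  ((ZFSet.rank_lt_of_mem (y := x) (x := ({x, y} : V)) (by simp)).trans
      (ZFSet.rank_lt_of_mem (by simp [ZFSet.pair]))).trans (ZFSet.rank_lt_of_mem h)

theorem rank_right_lt {x y z : V} (h : pair x y ∈ z) : y.rank < z.rank :=
  ((ZFSet.rank_lt_of_mem (y := y) (x := ({x, y} : V)) (by simp)).trans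
      (ZFSet.rank_lt_of_mem (by simp [ZFSet.pair]))).trans (ZFSet.rank_lt_of_mem h)

theorem val_eq (G τ : V) :
    val G τ = img (val G) (ZFSet.sep (fun σ => ∃ p ∈ G, pair σ p ∈ τ) (dom τ)) := by
  rw [val]
  rfl

theorem mem_val {G τ x : V} : x ∈ val G τ ↔ ∃ σ, ∃ p ∈ G, pair σ p ∈ τ ∧ val G σ = x := by
  rw [val_eq]
  simp only [mem_img, ZFSet.mem_sep, mem_dom]
  constructor
  · rintro ⟨σ, ⟨_, p, hp, h⟩, rfl⟩
    exact ⟨σ, p, hp, h, rfl⟩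
  · rintro ⟨σ, p, hp, h, rfl⟩
    exact ⟨σ, ⟨⟨p, h⟩, p, hp, h⟩, rfl⟩

theorem d2_val : D2 val := by
  refine D2.of_rec (child := fun _ τ => dom τ)
    (H := fun G τ f => img (fun σ => app f σ)
      (ZFSet.sep (fun σ => ∃ p ∈ G, pair σ p ∈ τ) (dom τ))) ?_ ?_ ?_ ?_
  · intro G τ σ hσ
    obtain ⟨p, hp⟩ := mem_dom.1 hσ
    exact rank_left_lt hp
  · intro G τ
    rw [val_eq]
    exact img_congr fun σ hσ => by rw [app_gr (ZFSet.mem_sep.1 hσ).1]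
  · exact DT.dom (DT.var 1)
  · refine DT.img (F := fun W σ v => app (v 2) σ) ?_ (DT.app (DT.var 3) (DT.var 0))
    refine DT.sep (P := fun W σ v => ∃ p ∈ v 0, pair σ p ∈ v 1) (DT.dom (DT.var 1)) ?_
    exact Dfn.bex (P := fun W p v => pair (v 0) p ∈ v 2) (DT.var 1)
      (Dfn.mem (DT.pair (DT.var 1) (DT.var 0)) (DT.var 3))

/-- The generic extension. -/
def Ext (M : Set V) (G : V) : Set V := {x | ∃ τ ∈ M, val G τ = x}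

/-- Check names. -/
noncomputable def chk (x : V) : V := ZFSet.range (fun y : x => pair (chk y.1) ∅)
termination_by x
decreasing_by exact y.2

theorem chk_eq (x : V) : chk x = img (fun y => pair (chk y) ∅) x := by
  rw [chk]
  rfl

theorem d1_chk : D1 chk := by
  refine D1.of_memRec (H := fun x f => img (fun y => pair (app f y) ∅) x) ?_ ?_
  · exact DT.img (F := fun W y v => pair (app (v 1) y) ∅) (DT.var 0)
      (DT.pair (DT.app (DT.var 2) (DT.var 0)) DT.empty)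
  · intro x
    rw [chk_eq]
    exact img_congr fun y hy => by rw [app_gr hy]

/-! ### The forcing relation -/

/-- One half of the equality clause, with `f` giving the values at pairs of smaller names. -/
def EqHalf (P τ τ' f : V) (p : V) : Prop :=
  ∀ σ ∈ dom τ, ∀ r ∈ P, pair σ r ∈ τ → ∀ q ∈ P, p ⊆ q → r ⊆ q →
    ∃ q' ∈ P, q ⊆ q' ∧ ∃ σ' ∈ dom τ', ∃ s ∈ P, pair σ' s ∈ τ' ∧ s ⊆ q' ∧
      q' ∈ app f (pair σ σ')

/-- The other half. -/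
def EqHalf' (P τ τ' f : V) (p : V) : Prop :=
  ∀ σ' ∈ dom τ', ∀ s ∈ P, pair σ' s ∈ τ' → ∀ q ∈ P, p ⊆ q → s ⊆ q →
    ∃ q' ∈ P, q ⊆ q' ∧ ∃ σ ∈ dom τ, ∃ r ∈ P, pair σ r ∈ τ ∧ r ⊆ q' ∧
      q' ∈ app f (pair σ σ')

noncomputable def eqH (P z f : V) : V :=
  ZFSet.sep (fun p => EqHalf P (fst z) (snd z) f p ∧ EqHalf' P (fst z) (snd z) f p) P

theorem mem_eqH {P z f p : V} : p ∈ eqH P z f ↔
    p ∈ P ∧ EqHalf P (fst z) (snd z) f p ∧ EqHalf' P (fst z) (snd z) f p := ZFSet.mem_sep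

noncomputable def eqChild (_ z : V) : V :=
  ZFSet.sep (fun _ => z = pair (fst z) (snd z)) (ZFSet.prod (dom (fst z)) (dom (snd z)))

theorem eqChild_rank : ∀ P z, ∀ y ∈ eqChild P z, y.rank < z.rank := by
  intro P z y hy
  obtain ⟨hy, hz⟩ := ZFSet.mem_sep.1 hy
  obtain ⟨a, ha, b, hb, rfl⟩ := ZFSet.mem_prod.1 hy
  obtain ⟨p, hp⟩ := mem_dom.1 ha
  obtain ⟨q, hq⟩ := mem_dom.1 hb
  have h1 := rank_left_lt hp
  have h2 := rank_left_lt hq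
  rw [hz]
  simp only [ZFSet.pair, ZFSet.rank_pair, ZFSet.rank_singleton]
  have h3 : Order.succ a.rank < Order.succ (fst z).rank := Order.succ_lt_succ h1
  have h4 : Order.succ b.rank < Order.succ (snd z).rank := Order.succ_lt_succ h2
  simp only [max_lt_iff]
  refine ⟨?_, ?_⟩
  · exact lt_max_of_lt_left (Order.succ_lt_succ h3)
  · refine lt_max_of_lt_right (Order.succ_lt_succ ?_)
    exact max_lt (lt_max_of_lt_left h3) (lt_max_of_lt_right h4)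

/-- The conditions forcing `τ = τ'`. -/
noncomputable def EQ (P τ τ' : V) : V := recF eqChild eqH eqChild_rank P (pair τ τ')

theorem mem_EQ {P τ τ' p : V} : p ∈ EQ P τ τ' ↔ p ∈ P ∧
    (∀ σ r, pair σ r ∈ τ → r ∈ P → ∀ q ∈ P, p ⊆ q → r ⊆ q →
      ∃ q' ∈ P, q ⊆ q' ∧ ∃ σ' s, pair σ' s ∈ τ' ∧ s ∈ P ∧ s ⊆ q' ∧ q' ∈ EQ P σ σ') ∧
    (∀ σ' s, pair σ' s ∈ τ' → s ∈ P → ∀ q ∈ P, p ⊆ q → s ⊆ q →
      ∃ q' ∈ P, q ⊆ q' ∧ ∃ σ r, pair σ r ∈ τ ∧ r ∈ P ∧ r ⊆ q' ∧ q' ∈ EQ P σ σ') := by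
  have happ : ∀ {σ σ' : V}, σ ∈ dom τ → σ' ∈ dom τ' →
      app (gr (recF eqChild eqH eqChild_rank P) (eqChild P (pair τ τ'))) (pair σ σ') =
        EQ P σ σ' := by
    intro σ σ' h h'
    rw [app_gr]
    · rfl
    · unfold eqChild
      rw [ZFSet.mem_sep, fst_pair, snd_pair, ZFSet.pair_mem_prod]
      exact ⟨⟨h, h'⟩, rfl⟩
  rw [EQ, recF_eq, mem_eqH, fst_pair, snd_pair]
  refine and_congr_right fun hp => and_congr ?_ ?_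
  · constructor
    · intro h σ r hσ hr q hq hpq hrq
      obtain ⟨q', hq', hqq', σ', hσ', s, hs, h1, h2, h3⟩ :=
        h σ (mem_dom.2 ⟨r, hσ⟩) r hr hσ q hq hpq hrq
      rw [happ (mem_dom.2 ⟨r, hσ⟩) hσ'] at h3
      exact ⟨q', hq', hqq', σ', s, h1, hs, h2, h3⟩
    · intro h σ hσd r hr hσ q hq hpq hrq
      obtain ⟨q', hq', hqq', σ', s, h1, hs, h2, h3⟩ := h σ r hσ hr q hq hpq hrq
      refine ⟨q', hq', hqq', σ', mem_dom.2 ⟨s, h1⟩, s, hs, h1, h2, ?_⟩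
      rw [happ hσd (mem_dom.2 ⟨s, h1⟩)]
      exact h3
  · constructor
    · intro h σ' s hσ hr q hq hpq hrq
      obtain ⟨q', hq', hqq', σ, hσ', r, hs, h1, h2, h3⟩ :=
        h σ' (mem_dom.2 ⟨s, hσ⟩) s hr hσ q hq hpq hrq
      rw [happ hσ' (mem_dom.2 ⟨s, hσ⟩)] at h3
      exact ⟨q', hq', hqq', σ, r, h1, hs, h2, h3⟩
    · intro h σ' hσd s hr hσ q hq hpq hrq
      obtain ⟨q', hq', hqq', σ, r, h1, hs, h2, h3⟩ := h σ' s hσ hr q hq hpq hrq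
      refine ⟨q', hq', hqq', σ, mem_dom.2 ⟨r, h1⟩, r, hs, h1, h2, ?_⟩
      rw [happ (mem_dom.2 ⟨r, h1⟩) hσd]
      exact h3

theorem dfn_eqHalf : Dfn (fun _ v => EqHalf (v 0) (v 1) (v 2) (v 3) (v 4)) := by
  refine Dfn.ball (P := fun W σ v => ∀ r ∈ v 0, pair σ r ∈ v 1 → ∀ q ∈ v 0, v 4 ⊆ q → r ⊆ q →
    ∃ q' ∈ v 0, q ⊆ q' ∧ ∃ σ' ∈ dom (v 2), ∃ s ∈ v 0, pair σ' s ∈ v 2 ∧ s ⊆ q' ∧
      q' ∈ app (v 3) (pair σ σ')) (DT.dom (DT.var 1)) ?_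
  refine Dfn.ball (P := fun W r v => pair (v 0) r ∈ v 2 → ∀ q ∈ v 1, v 5 ⊆ q → r ⊆ q →
    ∃ q' ∈ v 1, q ⊆ q' ∧ ∃ σ' ∈ dom (v 3), ∃ s ∈ v 1, pair σ' s ∈ v 3 ∧ s ⊆ q' ∧
      q' ∈ app (v 4) (pair (v 0) σ')) (DT.var 1) ?_
  refine DC.imp (Dfn.mem (DT.pair (DT.var 1) (DT.var 0)) (DT.var 3)) ?_
  refine Dfn.ball (P := fun W q v => v 6 ⊆ q → v 0 ⊆ q →
    ∃ q' ∈ v 2, q ⊆ q' ∧ ∃ σ' ∈ dom (v 4), ∃ s ∈ v 2, pair σ' s ∈ v 4 ∧ s ⊆ q' ∧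
      q' ∈ app (v 5) (pair (v 1) σ')) (DT.var 2) ?_
  refine DC.imp (Dfn.subset (DT.var 7) (DT.var 0)) (DC.imp (Dfn.subset (DT.var 1) (DT.var 0)) ?_)
  refine Dfn.bex (P := fun W q' v => v 0 ⊆ q' ∧ ∃ σ' ∈ dom (v 5), ∃ s ∈ v 3, pair σ' s ∈ v 5 ∧
    s ⊆ q' ∧ q' ∈ app (v 6) (pair (v 2) σ')) (DT.var 3) ?_
  refine DC.and (Dfn.subset (DT.var 1) (DT.var 0)) ?_
  refine Dfn.bex (P := fun W σ' v => ∃ s ∈ v 4, pair σ' s ∈ v 6 ∧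
    s ⊆ v 0 ∧ v 0 ∈ app (v 7) (pair (v 3) σ')) (DT.dom (DT.var 6)) ?_
  refine Dfn.bex (P := fun W s v => pair (v 0) s ∈ v 7 ∧
    s ⊆ v 1 ∧ v 1 ∈ app (v 8) (pair (v 4) (v 0))) (DT.var 5) ?_
  exact DC.and (Dfn.mem (DT.pair (DT.var 1) (DT.var 0)) (DT.var 8))
    (DC.and (Dfn.subset (DT.var 0) (DT.var 2))
      (Dfn.mem (DT.var 2) (DT.app (DT.var 9) (DT.pair (DT.var 5) (DT.var 1)))))

theorem dfn_eqHalf' : Dfn (fun _ v => EqHalf' (v 0) (v 1) (v 2) (v 3) (v 4)) := by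
  refine Dfn.ball (P := fun W σ v => ∀ r ∈ v 0, pair σ r ∈ v 2 → ∀ q ∈ v 0, v 4 ⊆ q → r ⊆ q →
    ∃ q' ∈ v 0, q ⊆ q' ∧ ∃ σ' ∈ dom (v 1), ∃ s ∈ v 0, pair σ' s ∈ v 1 ∧ s ⊆ q' ∧
      q' ∈ app (v 3) (pair σ' σ)) (DT.dom (DT.var 2)) ?_
  refine Dfn.ball (P := fun W r v => pair (v 0) r ∈ v 3 → ∀ q ∈ v 1, v 5 ⊆ q → r ⊆ q →
    ∃ q' ∈ v 1, q ⊆ q' ∧ ∃ σ' ∈ dom (v 2), ∃ s ∈ v 1, pair σ' s ∈ v 2 ∧ s ⊆ q' ∧
      q' ∈ app (v 4) (pair σ' (v 0))) (DT.var 1) ?_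
  refine DC.imp (Dfn.mem (DT.pair (DT.var 1) (DT.var 0)) (DT.var 4)) ?_
  refine Dfn.ball (P := fun W q v => v 6 ⊆ q → v 0 ⊆ q →
    ∃ q' ∈ v 2, q ⊆ q' ∧ ∃ σ' ∈ dom (v 3), ∃ s ∈ v 2, pair σ' s ∈ v 3 ∧ s ⊆ q' ∧
      q' ∈ app (v 5) (pair σ' (v 1))) (DT.var 2) ?_
  refine DC.imp (Dfn.subset (DT.var 7) (DT.var 0)) (DC.imp (Dfn.subset (DT.var 1) (DT.var 0)) ?_)
  refine Dfn.bex (P := fun W q' v => v 0 ⊆ q' ∧ ∃ σ' ∈ dom (v 4), ∃ s ∈ v 3, pair σ' s ∈ v 4 ∧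
    s ⊆ q' ∧ q' ∈ app (v 6) (pair σ' (v 2))) (DT.var 3) ?_
  refine DC.and (Dfn.subset (DT.var 1) (DT.var 0)) ?_
  refine Dfn.bex (P := fun W σ' v => ∃ s ∈ v 4, pair σ' s ∈ v 5 ∧
    s ⊆ v 0 ∧ v 0 ∈ app (v 7) (pair σ' (v 3))) (DT.dom (DT.var 5)) ?_
  refine Dfn.bex (P := fun W s v => pair (v 0) s ∈ v 6 ∧
    s ⊆ v 1 ∧ v 1 ∈ app (v 8) (pair (v 0) (v 4))) (DT.var 5) ?_
  exact DC.and (Dfn.mem (DT.pair (DT.var 1) (DT.var 0)) (DT.var 7))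
    (DC.and (Dfn.subset (DT.var 0) (DT.var 2))
      (Dfn.mem (DT.var 2) (DT.app (DT.var 9) (DT.pair (DT.var 1) (DT.var 5)))))

theorem d3_eqH : D3 eqH := by
  refine DT.sep (P := fun W p v => EqHalf (v 0) (fst (v 1)) (snd (v 1)) (v 2) p ∧
    EqHalf' (v 0) (fst (v 1)) (snd (v 1)) (v 2) p) (DT.var 0) ?_
  exact DC.and
    (Dfn.app5 (F := fun _ => EqHalf) dfn_eqHalf (DT.var 1) (DT.fst (DT.var 2)) (DT.snd (DT.var 2))
      (DT.var 3) (DT.var 0))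
    (Dfn.app5 (F := fun _ => EqHalf') dfn_eqHalf' (DT.var 1) (DT.fst (DT.var 2))
      (DT.snd (DT.var 2)) (DT.var 3) (DT.var 0))

theorem d2_eqChild : D2 eqChild := by
  refine DT.sep (P := fun W _ v => v 1 = pair (fst (v 1)) (snd (v 1)))
    (DT.prod (DT.dom (DT.fst (DT.var 1))) (DT.dom (DT.snd (DT.var 1)))) ?_
  exact Dfn.eq (DT.var 2) (DT.pair (DT.fst (DT.var 2)) (DT.snd (DT.var 2)))

theorem d3_EQ : D3 EQ :=
  (d2_recF d2_eqChild d3_eqH).app (DT.var 0) (DT.pair (DT.var 1) (DT.var 2))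

/-- The conditions forcing `σ ∈ τ`. -/
noncomputable def MEM (P σ τ : V) : V :=
  ZFSet.sep (fun p => ∀ q ∈ P, p ⊆ q → ∃ q' ∈ P, q ⊆ q' ∧ ∃ σ' ∈ dom τ, ∃ s ∈ P,
    pair σ' s ∈ τ ∧ s ⊆ q' ∧ q' ∈ EQ P σ σ') P

theorem mem_MEM {P σ τ p : V} : p ∈ MEM P σ τ ↔ p ∈ P ∧ ∀ q ∈ P, p ⊆ q → ∃ q' ∈ P, q ⊆ q' ∧
    ∃ σ' s, pair σ' s ∈ τ ∧ s ∈ P ∧ s ⊆ q' ∧ q' ∈ EQ P σ σ' := by
  unfold MEM
  rw [ZFSet.mem_sep]
  refine and_congr_right fun _ => forall_congr' fun q => forall_congr' fun _ =>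
    forall_congr' fun _ => exists_congr fun q' => and_congr_right fun _ =>
      and_congr_right fun _ => ?_
  constructor
  · rintro ⟨σ', _, s, h1, h2, h3⟩
    exact ⟨σ', s, h2, h1, h3⟩
  · rintro ⟨σ', s, h1, h2, h3⟩
    exact ⟨σ', mem_dom.2 ⟨s, h1⟩, s, h2, h1, h3⟩

theorem d3_MEM : D3 MEM := by
  refine DT.sep (P := fun W p v => ∀ q ∈ v 0, p ⊆ q → ∃ q' ∈ v 0, q ⊆ q' ∧ ∃ σ' ∈ dom (v 2),
    ∃ s ∈ v 0, pair σ' s ∈ v 2 ∧ s ⊆ q' ∧ q' ∈ EQ (v 0) (v 1) σ') (DT.var 0) ?_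
  refine Dfn.ball (P := fun W q v => v 0 ⊆ q → ∃ q' ∈ v 1, q ⊆ q' ∧ ∃ σ' ∈ dom (v 3),
    ∃ s ∈ v 1, pair σ' s ∈ v 3 ∧ s ⊆ q' ∧ q' ∈ EQ (v 1) (v 2) σ') (DT.var 1) ?_
  refine DC.imp (Dfn.subset (DT.var 1) (DT.var 0)) ?_
  refine Dfn.bex (P := fun W q' v => v 0 ⊆ q' ∧ ∃ σ' ∈ dom (v 4),
    ∃ s ∈ v 2, pair σ' s ∈ v 4 ∧ s ⊆ q' ∧ q' ∈ EQ (v 2) (v 3) σ') (DT.var 2) ?_
  refine DC.and (Dfn.subset (DT.var 1) (DT.var 0)) ?_
  refine Dfn.bex (P := fun W σ' v =>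
    ∃ s ∈ v 3, pair σ' s ∈ v 5 ∧ s ⊆ v 0 ∧ v 0 ∈ EQ (v 3) (v 4) σ') (DT.dom (DT.var 5)) ?_
  refine Dfn.bex (P := fun W s v =>
    pair (v 0) s ∈ v 6 ∧ s ⊆ v 1 ∧ v 1 ∈ EQ (v 4) (v 5) (v 0)) (DT.var 4) ?_
  exact DC.and (Dfn.mem (DT.pair (DT.var 1) (DT.var 0)) (DT.var 7))
    (DC.and (Dfn.subset (DT.var 0) (DT.var 2))
      (Dfn.mem (DT.var 2) (d3_EQ.app (DT.var 5) (DT.var 6) (DT.var 1))))

/-- The forcing relation of the forcing notion `P ∈ M`. -/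
def Fc (M : Set V) (P : V) : Fml → V → (ℕ → V) → Prop
  | .mem i j, p, v => p ∈ MEM P (v i) (v j)
  | .eq i j, p, v => p ∈ EQ P (v i) (v j)
  | .neg φ, p, v => ∀ q ∈ P, p ⊆ q → ¬ Fc M P φ q v
  | .and φ ψ, p, v => Fc M P φ p v ∧ Fc M P ψ p v
  | .ex φ, p, v => ∀ q ∈ P, p ⊆ q → ∃ q' ∈ P, q ⊆ q' ∧ ∃ τ ∈ M, Fc M P φ q' (cons τ v)

/-- The forcing relation is definable over `M`; the assignment is `P, p, v`. -/
theorem dfn_Fc (φ : Fml) : Dfn (fun W v => Fc W (v 0) φ (v 1) (fun n => v (n + 2))) := by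
  induction φ with
  | mem i j => exact Dfn.mem (DT.var 1) (d3_MEM.app (DT.var 0) (DT.var (i + 2)) (DT.var (j + 2)))
  | eq i j => exact Dfn.mem (DT.var 1) (d3_EQ.app (DT.var 0) (DT.var (i + 2)) (DT.var (j + 2)))
  | neg φ ih =>
    refine Dfn.ball (P := fun W q v => v 1 ⊆ q → ¬ Fc W (v 0) φ q (fun n => v (n + 2)))
      (DT.var 0) ?_
    refine DC.imp (Dfn.subset (DT.var 2) (DT.var 0)) (DC.not ?_)
    exact DC.ren ih (fun n => match n with | 0 => 1 | 1 => 0 | n + 2 => n + 3)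
  | and φ ψ ih1 ih2 => exact DC.and ih1 ih2
  | ex φ ih =>
    refine Dfn.ball (P := fun W q v => v 1 ⊆ q → ∃ q' ∈ v 0, q ⊆ q' ∧ ∃ τ ∈ W,
      Fc W (v 0) φ q' (cons τ (fun n => v (n + 2)))) (DT.var 0) ?_
    refine DC.imp (Dfn.subset (DT.var 2) (DT.var 0)) ?_
    refine Dfn.bex (P := fun W q' v => v 0 ⊆ q' ∧ ∃ τ ∈ W,
      Fc W (v 1) φ q' (cons τ (fun n => v (n + 3)))) (DT.var 1) ?_
    refine DC.and (Dfn.subset (DT.var 1) (DT.var 0)) ?_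
    refine Dfn.ex (P := fun W τ v => Fc W (v 2) φ (v 0) (cons τ (fun n => v (n + 4)))) ?_
    refine (DC.ren ih (fun n => match n with | 0 => 3 | 1 => 1 | 2 => 0 | n + 3 => n + 5)).congr ?_
    intro W _ v _
    have : (fun n => (fun n => v (match n with
        | 0 => 3 | 1 => 1 | 2 => 0 | n + 3 => n + 5)) (n + 2)) = cons (v 0) (fun n => v (n + 5)) := by
      funext n
      cases n <;> rfl
    show Fc W (v 3) φ (v 1) (cons (v 0) (fun n => v (n + 5))) ↔ Fc W (v 3) φ (v 1)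
      (fun n => (fun n => v (match n with
        | 0 => 3 | 1 => 1 | 2 => 0 | n + 3 => n + 5)) (n + 2))
    rw [this]

end Pool.Agent.NUC
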