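import Pool.Agent.Lib.MP_bf67b0_lc.NUC.FDefs

/-!
# Forcing: the truth lemma
-/

namespace Pool.Agent.NUC

open ZFSet (pair)

/-- Quantifier-free conveniences about inclusion of conditions. -/
theorem sub_refl' (p : V) : p ⊆ p := fun _ h => h

theorem sub_trans' {p q r : V} (h : p ⊆ q) (h' : q ⊆ r) : p ⊆ r := fun _ hx => h' (h hx)

theorem EQ_subset {P τ τ' p : V} (h : p ∈ EQ P τ τ') : p ∈ P := (mem_EQ.1 h).1

theorem EQ_mono {P τ τ' p q : V} (h : p ∈ EQ P τ τ') (hq : q ∈ P) (hpq : p ⊆ q) :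
    q ∈ EQ P τ τ' := by
  rw [mem_EQ] at h ⊢
  exact ⟨hq, fun σ r h1 h2 q' h3 h4 h5 => h.2.1 σ r h1 h2 q' h3 (sub_trans' hpq h4) h5,
    fun σ r h1 h2 q' h3 h4 h5 => h.2.2 σ r h1 h2 q' h3 (sub_trans' hpq h4) h5⟩

theorem EQ_reg {P τ τ' p : V} (hp : p ∈ P)
    (h : ∀ q ∈ P, p ⊆ q → ∃ q' ∈ P, q ⊆ q' ∧ q' ∈ EQ P τ τ') : p ∈ EQ P τ τ' := by
  rw [mem_EQ]
  refine ⟨hp, fun σ r h1 h2 q h3 h4 h5 => ?_, fun σ r h1 h2 q h3 h4 h5 => ?_⟩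
  · obtain ⟨q', hq', hqq', h6⟩ := h q h3 h4
    obtain ⟨q'', hq'', h7, h8⟩ := (mem_EQ.1 h6).2.1 σ r h1 h2 q' hq' (sub_refl' _)
      (sub_trans' h5 hqq')
    exact ⟨q'', hq'', sub_trans' hqq' h7, h8⟩
  · obtain ⟨q', hq', hqq', h6⟩ := h q h3 h4
    obtain ⟨q'', hq'', h7, h8⟩ := (mem_EQ.1 h6).2.2 σ r h1 h2 q' hq' (sub_refl' _)
      (sub_trans' h5 hqq')
    exact ⟨q'', hq'', sub_trans' hqq' h7, h8⟩

theorem MEM_mono {P σ τ p q : V} (h : p ∈ MEM P σ τ) (hq : q ∈ P) (hpq : p ⊆ q) :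
    q ∈ MEM P σ τ := by
  rw [mem_MEM] at h ⊢
  exact ⟨hq, fun r hr hqr => h.2 r hr (sub_trans' hpq hqr)⟩

theorem MEM_reg {P σ τ p : V} (hp : p ∈ P)
    (h : ∀ q ∈ P, p ⊆ q → ∃ q' ∈ P, q ⊆ q' ∧ q' ∈ MEM P σ τ) : p ∈ MEM P σ τ := by
  rw [mem_MEM]
  refine ⟨hp, fun q hq hpq => ?_⟩
  obtain ⟨q', hq', hqq', h6⟩ := h q hq hpq
  obtain ⟨q'', hq'', h7, h8⟩ := (mem_MEM.1 h6).2 q' hq' (sub_refl' _)
  exact ⟨q'', hq'', sub_trans' hqq' h7, h8⟩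

section generic

variable {M : Set V} (hM : Nice M) {P G : V} (hP : P ∈ M) (hG : IsGen M P G)
include hM hP hG

omit hM hP in
theorem IsGen.memP {p : V} (hp : p ∈ G) : p ∈ P := hG.sub hp

/-- A generic filter meets every set of `M` that is dense below one of its elements. -/
theorem IsGen.meets_below {D : V} (hD : D ∈ M) {p : V} (hp : p ∈ G)
    (h : ∀ q ∈ P, p ⊆ q → ∃ r ∈ D, r ∈ P ∧ q ⊆ r) : ∃ r ∈ G, r ∈ D := by
  have hpM : p ∈ M := hM.memOf hP (hG.sub hp)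
  have hR : Dfn (fun _ v => v 0 ∈ v 1 ∨ ¬ ∃ r ∈ v 2, v 0 ⊆ r ∧ v 3 ⊆ r) := by
    refine DC.or (Dfn.mem (DT.var 0) (DT.var 1)) (DC.not ?_)
    exact Dfn.bex (P := fun W r v => v 0 ⊆ r ∧ v 3 ⊆ r) (DT.var 2)
      (DC.and (Dfn.subset (DT.var 1) (DT.var 0)) (Dfn.subset (DT.var 4) (DT.var 0)))
  have hE := hM.sepD hR (v := cons D (cons P (fun _ => p))) (In.cons hD (In.cons hP fun _ => hpM)) hP
  set E := ZFSet.sep (fun x => x ∈ D ∨ ¬ ∃ r ∈ P, x ⊆ r ∧ p ⊆ r) P with hEdef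
  have hE' : E ∈ M := hE
  obtain ⟨q, hq, hqE⟩ := hG.meets E hE' ⟨ZFSet.sep_subset, fun q hq => by
    by_cases hc : ∃ r ∈ P, q ⊆ r ∧ p ⊆ r
    · obtain ⟨r, hr, hqr, hpr⟩ := hc
      obtain ⟨s, hs, hsP, hrs⟩ := h r hr hpr
      exact ⟨s, ZFSet.mem_sep.2 ⟨hsP, Or.inl hs⟩, sub_trans' hqr hrs⟩
    · exact ⟨q, ZFSet.mem_sep.2 ⟨hq, Or.inr hc⟩, sub_refl' _⟩⟩
  rcases (ZFSet.mem_sep.1 hqE).2 with h1 | h1
  · exact ⟨q, hq, h1⟩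
  · obtain ⟨r, hr, h2, h3⟩ := hG.dir q hq p hp
    exact absurd ⟨r, hG.sub hr, h2, h3⟩ h1

/-- The truth lemma for equality. -/
theorem truth_EQ : ∀ τ ∈ M, ∀ τ' ∈ M, (val G τ = val G τ' ↔ ∃ p ∈ G, p ∈ EQ P τ τ') := by
  intro τ
  induction hτ : τ.rank using WellFoundedLT.induction generalizing τ with
  | _ o ih =>
    intro hτM τ' hτ'M
    have hsub : ∀ {x y : V}, pair x y ∈ τ → x ∈ M := fun h =>
      (hM.of_pair (hM.memOf hτM h)).1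
    have hsub' : ∀ {x y : V}, pair x y ∈ τ' → x ∈ M := fun h =>
      (hM.of_pair (hM.memOf hτ'M h)).1
    constructor
    · intro hval
      -- the dense set of conditions deciding
      have hR : Dfn (fun _ v => (v 0 ∈ EQ (v 1) (v 2) (v 3)) ∨
          (∃ σ ∈ dom (v 2), ∃ r ∈ v 1, pair σ r ∈ v 2 ∧ r ⊆ v 0 ∧ ∀ q' ∈ v 1, v 0 ⊆ q' →
            ∀ σ' ∈ dom (v 3), ∀ s ∈ v 1, pair σ' s ∈ v 3 → s ⊆ q' → q' ∉ EQ (v 1) σ σ') ∨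
          (∃ σ' ∈ dom (v 3), ∃ s ∈ v 1, pair σ' s ∈ v 3 ∧ s ⊆ v 0 ∧ ∀ q' ∈ v 1, v 0 ⊆ q' →
            ∀ σ ∈ dom (v 2), ∀ r ∈ v 1, pair σ r ∈ v 2 → r ⊆ q' → q' ∉ EQ (v 1) σ σ')) := by
        refine DC.or (Dfn.mem (DT.var 0) (d3_EQ.app (DT.var 1) (DT.var 2) (DT.var 3)))
          (DC.or ?_ ?_)
        · refine Dfn.bex (P := fun W σ v => ∃ r ∈ v 1, pair σ r ∈ v 2 ∧ r ⊆ v 0 ∧ ∀ q' ∈ v 1,
            v 0 ⊆ q' → ∀ σ' ∈ dom (v 3), ∀ s ∈ v 1, pair σ' s ∈ v 3 → s ⊆ q' →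
              q' ∉ EQ (v 1) σ σ') (DT.dom (DT.var 2)) ?_
          refine Dfn.bex (P := fun W r v => pair (v 0) r ∈ v 3 ∧ r ⊆ v 1 ∧ ∀ q' ∈ v 2,
            v 1 ⊆ q' → ∀ σ' ∈ dom (v 4), ∀ s ∈ v 2, pair σ' s ∈ v 4 → s ⊆ q' →
              q' ∉ EQ (v 2) (v 0) σ') (DT.var 2) ?_
          refine DC.and (Dfn.mem (DT.pair (DT.var 1) (DT.var 0)) (DT.var 4))
            (DC.and (Dfn.subset (DT.var 0) (DT.var 2)) ?_)
          refine Dfn.ball (P := fun W q' v => v 2 ⊆ q' → ∀ σ' ∈ dom (v 5), ∀ s ∈ v 3,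
            pair σ' s ∈ v 5 → s ⊆ q' → q' ∉ EQ (v 3) (v 1) σ') (DT.var 3) ?_
          refine DC.imp (Dfn.subset (DT.var 3) (DT.var 0)) ?_
          refine Dfn.ball (P := fun W σ' v => ∀ s ∈ v 4,
            pair σ' s ∈ v 6 → s ⊆ v 0 → v 0 ∉ EQ (v 4) (v 2) σ') (DT.dom (DT.var 6)) ?_
          refine Dfn.ball (P := fun W s v =>
            pair (v 0) s ∈ v 7 → s ⊆ v 1 → v 1 ∉ EQ (v 5) (v 3) (v 0)) (DT.var 5) ?_
          exact DC.imp (Dfn.mem (DT.pair (DT.var 1) (DT.var 0)) (DT.var 8))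
            (DC.imp (Dfn.subset (DT.var 0) (DT.var 2))
              (DC.not (Dfn.mem (DT.var 2) (d3_EQ.app (DT.var 6) (DT.var 4) (DT.var 1)))))
        · refine Dfn.bex (P := fun W σ' v => ∃ s ∈ v 1, pair σ' s ∈ v 3 ∧ s ⊆ v 0 ∧ ∀ q' ∈ v 1,
            v 0 ⊆ q' → ∀ σ ∈ dom (v 2), ∀ r ∈ v 1, pair σ r ∈ v 2 → r ⊆ q' →
              q' ∉ EQ (v 1) σ σ') (DT.dom (DT.var 3)) ?_
          refine Dfn.bex (P := fun W s v => pair (v 0) s ∈ v 4 ∧ s ⊆ v 1 ∧ ∀ q' ∈ v 2,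
            v 1 ⊆ q' → ∀ σ ∈ dom (v 3), ∀ r ∈ v 2, pair σ r ∈ v 3 → r ⊆ q' →
              q' ∉ EQ (v 2) σ (v 0)) (DT.var 2) ?_
          refine DC.and (Dfn.mem (DT.pair (DT.var 1) (DT.var 0)) (DT.var 5))
            (DC.and (Dfn.subset (DT.var 0) (DT.var 2)) ?_)
          refine Dfn.ball (P := fun W q' v => v 2 ⊆ q' → ∀ σ ∈ dom (v 4), ∀ r ∈ v 3,
            pair σ r ∈ v 4 → r ⊆ q' → q' ∉ EQ (v 3) σ (v 1)) (DT.var 3) ?_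
          refine DC.imp (Dfn.subset (DT.var 3) (DT.var 0)) ?_
          refine Dfn.ball (P := fun W σ v => ∀ r ∈ v 4,
            pair σ r ∈ v 5 → r ⊆ v 0 → v 0 ∉ EQ (v 4) σ (v 2)) (DT.dom (DT.var 5)) ?_
          refine Dfn.ball (P := fun W r v =>
            pair (v 0) r ∈ v 6 → r ⊆ v 1 → v 1 ∉ EQ (v 5) (v 0) (v 3)) (DT.var 5) ?_
          exact DC.imp (Dfn.mem (DT.pair (DT.var 1) (DT.var 0)) (DT.var 7))
            (DC.imp (Dfn.subset (DT.var 0) (DT.var 2))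
              (DC.not (Dfn.mem (DT.var 2) (d3_EQ.app (DT.var 6) (DT.var 1) (DT.var 4)))))
      have hD := hM.sepD hR (v := cons P (cons τ (fun _ => τ')))
        (In.cons hP (In.cons hτM fun _ => hτ'M)) hP
      obtain ⟨p, hp, hpD⟩ := hG.meets _ hD ⟨ZFSet.sep_subset, fun p hp => by
        by_cases hc : p ∈ EQ P τ τ'
        · exact ⟨p, ZFSet.mem_sep.2 ⟨hp, Or.inl hc⟩, sub_refl' _⟩
        · rw [mem_EQ] at hc
          push Not at hc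
          by_cases h1 : ∀ σ r, pair σ r ∈ τ → r ∈ P → ∀ q ∈ P, p ⊆ q → r ⊆ q →
              ∃ q' ∈ P, q ⊆ q' ∧ ∃ σ' s, pair σ' s ∈ τ' ∧ s ∈ P ∧ s ⊆ q' ∧ q' ∈ EQ P σ σ'
          · obtain ⟨σ', s, h2, h3, q, h4, h5, h6, h7⟩ := hc hp h1
            refine ⟨q, ZFSet.mem_sep.2 ⟨h4, Or.inr (Or.inr ⟨σ', mem_dom.2 ⟨s, h2⟩, s, h3, h2, h6,
              fun q' hq' hqq' σ _ r hr hσr hrq' hq'E => ?_⟩)⟩, h5⟩
            exact h7 q' hq' hqq' σ r hσr hr hrq' hq'E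
          · push Not at h1
            obtain ⟨σ, r, h2, h3, q, h4, h5, h6, h7⟩ := h1
            refine ⟨q, ZFSet.mem_sep.2 ⟨h4, Or.inr (Or.inl ⟨σ, mem_dom.2 ⟨r, h2⟩, r, h3, h2, h6,
              fun q' hq' hqq' σ' _ s hs hσs hsq' hq'E => ?_⟩)⟩, h5⟩
            exact h7 q' hq' hqq' σ' s hσs hs hsq' hq'E⟩
      have hpD' : p ∈ EQ P τ τ' ∨
          (∃ σ ∈ dom τ, ∃ r ∈ P, pair σ r ∈ τ ∧ r ⊆ p ∧ ∀ q' ∈ P, p ⊆ q' →
            ∀ σ' ∈ dom τ', ∀ s ∈ P, pair σ' s ∈ τ' → s ⊆ q' → q' ∉ EQ P σ σ') ∨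
          (∃ σ' ∈ dom τ', ∃ s ∈ P, pair σ' s ∈ τ' ∧ s ⊆ p ∧ ∀ q' ∈ P, p ⊆ q' →
            ∀ σ ∈ dom τ, ∀ r ∈ P, pair σ r ∈ τ → r ⊆ q' → q' ∉ EQ P σ σ') :=
        (ZFSet.mem_sep.1 hpD).2
      rcases hpD' with h1 | ⟨σ, _, r, hr, hσ, hrp, h1⟩ | ⟨σ', _, s, hs, hσ', hsp, h1⟩
      · exact ⟨p, hp, h1⟩
      · exfalso
        have hrG : r ∈ G := hG.down p hp r hr hrp
        have h2 : val G σ ∈ val G τ' := hval ▸ mem_val.2 ⟨σ, r, hrG, hσ, rfl⟩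
        obtain ⟨σ', s, hsG, hσ', h3⟩ := mem_val.1 h2
        obtain ⟨q, hqG, hq⟩ := (ih σ.rank (hτ ▸ rank_left_lt hσ) σ rfl (hsub hσ) σ'
          (hsub' hσ')).1 h3.symm
        obtain ⟨q1, hq1, h4, h5⟩ := hG.dir p hp q hqG
        obtain ⟨q2, hq2, h6, h7⟩ := hG.dir q1 hq1 s hsG
        exact h1 q2 (hG.sub hq2) (sub_trans' h4 h6) σ' (mem_dom.2 ⟨s, hσ'⟩) s (hG.sub hsG) hσ' h7
          (EQ_mono hq (hG.sub hq2) (sub_trans' h5 h6))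
      · exfalso
        have hsG : s ∈ G := hG.down p hp s hs hsp
        have h2 : val G σ' ∈ val G τ := hval ▸ mem_val.2 ⟨σ', s, hsG, hσ', rfl⟩
        obtain ⟨σ, r, hrG, hσ, h3⟩ := mem_val.1 h2
        obtain ⟨q, hqG, hq⟩ := (ih σ.rank (hτ ▸ rank_left_lt hσ) σ rfl (hsub hσ) σ'
          (hsub' hσ')).1 h3
        obtain ⟨q1, hq1, h4, h5⟩ := hG.dir p hp q hqG
        obtain ⟨q2, hq2, h6, h7⟩ := hG.dir q1 hq1 r hrG
        exact h1 q2 (hG.sub hq2) (sub_trans' h4 h6) σ (mem_dom.2 ⟨r, hσ⟩) r (hG.sub hrG) hσ h7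
          (EQ_mono hq (hG.sub hq2) (sub_trans' h5 h6))
    · rintro ⟨p, hp, hpE⟩
      have hmeet : ∀ {D : V} (_ : D ∈ M) {p : V} (_ : p ∈ G)
          (_ : ∀ q ∈ P, p ⊆ q → ∃ r ∈ D, r ∈ P ∧ q ⊆ r), ∃ r ∈ G, r ∈ D :=
        fun {_} hD {_} hp h => IsGen.meets_below hM hP hG hD hp h
      apply ZFSet.ext
      intro x
      constructor
      · intro hx
        obtain ⟨σ, r, hr, hσ, rfl⟩ := mem_val.1 hx
        obtain ⟨q0, hq0, h1, h2⟩ := hG.dir p hp r hr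
        have hR : Dfn (fun _ v => ∃ σ' ∈ dom (v 2), ∃ s ∈ v 1, pair σ' s ∈ v 2 ∧ s ⊆ v 0 ∧
            v 0 ∈ EQ (v 1) (v 3) σ') := by
          refine Dfn.bex (P := fun W σ' v => ∃ s ∈ v 1, pair σ' s ∈ v 2 ∧ s ⊆ v 0 ∧
            v 0 ∈ EQ (v 1) (v 3) σ') (DT.dom (DT.var 2)) ?_
          refine Dfn.bex (P := fun W s v => pair (v 0) s ∈ v 3 ∧ s ⊆ v 1 ∧
            v 1 ∈ EQ (v 2) (v 4) (v 0)) (DT.var 2) ?_
          exact DC.and (Dfn.mem (DT.pair (DT.var 1) (DT.var 0)) (DT.var 4))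
            (DC.and (Dfn.subset (DT.var 0) (DT.var 2))
              (Dfn.mem (DT.var 2) (d3_EQ.app (DT.var 3) (DT.var 5) (DT.var 1))))
        have hD := hM.sepD hR (v := cons P (cons τ' (fun _ => σ)))
          (In.cons hP (In.cons hτ'M fun _ => hsub hσ)) hP
        obtain ⟨q, hqG, hq⟩ := hmeet hD hq0 (fun q hq h3 => by
          obtain ⟨q', hq', h4, σ', s, h5, h6, h7, h8⟩ := (mem_EQ.1 hpE).2.1 σ r hσ (hG.sub hr) q hq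
            (sub_trans' h1 h3) (sub_trans' h2 h3)
          exact ⟨q', ZFSet.mem_sep.2 ⟨hq', σ', mem_dom.2 ⟨s, h5⟩, s, h6, h5, h7, h8⟩, hq', h4⟩)
        obtain ⟨σ', _, s, hs, hσ', hsq, hqE⟩ : ∃ σ' ∈ dom τ', ∃ s ∈ P, pair σ' s ∈ τ' ∧ s ⊆ q ∧
            q ∈ EQ P σ σ' := (ZFSet.mem_sep.1 hq).2
        have h9 := (ih σ.rank (hτ ▸ rank_left_lt hσ) σ rfl (hsub hσ) σ' (hsub' hσ')).2
          ⟨q, hqG, hqE⟩
        rw [h9]
        exact mem_val.2 ⟨σ', s, hG.down q hqG s hs hsq, hσ', rfl⟩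
      · intro hx
        obtain ⟨σ', s, hs, hσ', rfl⟩ := mem_val.1 hx
        obtain ⟨q0, hq0, h1, h2⟩ := hG.dir p hp s hs
        have hR : Dfn (fun _ v => ∃ σ ∈ dom (v 2), ∃ r ∈ v 1, pair σ r ∈ v 2 ∧ r ⊆ v 0 ∧
            v 0 ∈ EQ (v 1) σ (v 3)) := by
          refine Dfn.bex (P := fun W σ v => ∃ r ∈ v 1, pair σ r ∈ v 2 ∧ r ⊆ v 0 ∧
            v 0 ∈ EQ (v 1) σ (v 3)) (DT.dom (DT.var 2)) ?_
          refine Dfn.bex (P := fun W r v => pair (v 0) r ∈ v 3 ∧ r ⊆ v 1 ∧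
            v 1 ∈ EQ (v 2) (v 0) (v 4)) (DT.var 2) ?_
          exact DC.and (Dfn.mem (DT.pair (DT.var 1) (DT.var 0)) (DT.var 4))
            (DC.and (Dfn.subset (DT.var 0) (DT.var 2))
              (Dfn.mem (DT.var 2) (d3_EQ.app (DT.var 3) (DT.var 1) (DT.var 5))))
        have hD := hM.sepD hR (v := cons P (cons τ (fun _ => σ')))
          (In.cons hP (In.cons hτM fun _ => hsub' hσ')) hP
        obtain ⟨q, hqG, hq⟩ := hmeet hD hq0 (fun q hq h3 => by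
          obtain ⟨q', hq', h4, σ, r, h5, h6, h7, h8⟩ := (mem_EQ.1 hpE).2.2 σ' s hσ' (hG.sub hs) q hq
            (sub_trans' h1 h3) (sub_trans' h2 h3)
          exact ⟨q', ZFSet.mem_sep.2 ⟨hq', σ, mem_dom.2 ⟨r, h5⟩, r, h6, h5, h7, h8⟩, hq', h4⟩)
        obtain ⟨σ, _, r, hr, hσ, hrq, hqE⟩ : ∃ σ ∈ dom τ, ∃ r ∈ P, pair σ r ∈ τ ∧ r ⊆ q ∧
            q ∈ EQ P σ σ' := (ZFSet.mem_sep.1 hq).2
        have h9 := (ih σ.rank (hτ ▸ rank_left_lt hσ) σ rfl (hsub hσ) σ' (hsub' hσ')).2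
          ⟨q, hqG, hqE⟩
        rw [← h9]
        exact mem_val.2 ⟨σ, r, hG.down q hqG r hr hrq, hσ, rfl⟩

/-- The truth lemma for membership. -/
theorem truth_MEM {σ τ : V} (hσ : σ ∈ M) (hτ : τ ∈ M) :
    val G σ ∈ val G τ ↔ ∃ p ∈ G, p ∈ MEM P σ τ := by
  constructor
  · intro h
    obtain ⟨σ', s, hs, hσ', h1⟩ := mem_val.1 h
    have hσ'M : σ' ∈ M := (hM.of_pair (hM.memOf hτ hσ')).1
    obtain ⟨p, hp, hpE⟩ := (truth_EQ hM hP hG σ hσ σ' hσ'M).1 h1.symm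
    obtain ⟨q, hq, h2, h3⟩ := hG.dir p hp s hs
    refine ⟨q, hq, mem_MEM.2 ⟨hG.sub hq, fun r hr hqr => ⟨r, hr, sub_refl' _, σ', s, hσ', hG.sub hs,
      sub_trans' h3 hqr, EQ_mono hpE hr (sub_trans' h2 hqr)⟩⟩⟩
  · rintro ⟨p, hp, hpM⟩
    have hR : Dfn (fun _ v => ∃ σ' ∈ dom (v 2), ∃ s ∈ v 1, pair σ' s ∈ v 2 ∧ s ⊆ v 0 ∧
        v 0 ∈ EQ (v 1) (v 3) σ') := by
      refine Dfn.bex (P := fun W σ' v => ∃ s ∈ v 1, pair σ' s ∈ v 2 ∧ s ⊆ v 0 ∧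
        v 0 ∈ EQ (v 1) (v 3) σ') (DT.dom (DT.var 2)) ?_
      refine Dfn.bex (P := fun W s v => pair (v 0) s ∈ v 3 ∧ s ⊆ v 1 ∧
        v 1 ∈ EQ (v 2) (v 4) (v 0)) (DT.var 2) ?_
      exact DC.and (Dfn.mem (DT.pair (DT.var 1) (DT.var 0)) (DT.var 4))
        (DC.and (Dfn.subset (DT.var 0) (DT.var 2))
          (Dfn.mem (DT.var 2) (d3_EQ.app (DT.var 3) (DT.var 5) (DT.var 1))))
    have hD := hM.sepD hR (v := cons P (cons τ (fun _ => σ)))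
      (In.cons hP (In.cons hτ fun _ => hσ)) hP
    obtain ⟨q, hqG, hq⟩ := IsGen.meets_below hM hP hG hD hp (fun q hq h3 => by
      obtain ⟨q', hq', h4, σ', s, h5, h6, h7, h8⟩ := (mem_MEM.1 hpM).2 q hq h3
      exact ⟨q', ZFSet.mem_sep.2 ⟨hq', σ', mem_dom.2 ⟨s, h5⟩, s, h6, h5, h7, h8⟩, hq', h4⟩)
    obtain ⟨σ', _, s, hs, hσ', hsq, hqE⟩ : ∃ σ' ∈ dom τ, ∃ s ∈ P, pair σ' s ∈ τ ∧ s ⊆ q ∧
        q ∈ EQ P σ σ' := (ZFSet.mem_sep.1 hq).2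
    have hσ'M : σ' ∈ M := (hM.of_pair (hM.memOf hτ hσ')).1
    rw [(truth_EQ hM hP hG σ hσ σ' hσ'M).2 ⟨q, hqG, hqE⟩]
    exact mem_val.2 ⟨σ', s, hG.down q hqG s hs hsq, hσ', rfl⟩

omit hM hP hG in
theorem Fc_mono {M : Set V} {P : V} (φ : Fml) : ∀ {p q : V} {v : ℕ → V}, Fc M P φ p v → q ∈ P →
    p ⊆ q → Fc M P φ q v := by
  induction φ with
  | mem i j => intro p q v h hq hpq; exact MEM_mono h hq hpq
  | eq i j => intro p q v h hq hpq; exact EQ_mono h hq hpq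
  | neg φ _ => intro p q v h _ hpq r hr hqr; exact h r hr (sub_trans' hpq hqr)
  | and φ ψ ih1 ih2 => intro p q v h hq hpq; exact ⟨ih1 h.1 hq hpq, ih2 h.2 hq hpq⟩
  | ex φ _ => intro p q v h _ hpq r hr hqr; exact h r hr (sub_trans' hpq hqr)

omit hM hP hG in
theorem Fc_reg {M : Set V} {P : V} (φ : Fml) : ∀ {p : V} {v : ℕ → V}, p ∈ P →
    (∀ q ∈ P, p ⊆ q → ∃ q' ∈ P, q ⊆ q' ∧ Fc M P φ q' v) → Fc M P φ p v := by
  induction φ with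
  | mem i j => intro p v hp h; exact MEM_reg hp h
  | eq i j => intro p v hp h; exact EQ_reg hp h
  | neg φ _ =>
    intro p v _ h q hq hpq hF
    obtain ⟨q', hq', h1, h2⟩ := h q hq hpq
    exact h2 q' hq' (sub_refl' _) (Fc_mono φ hF hq' h1)
  | and φ ψ ih1 ih2 =>
    intro p v hp h
    refine ⟨ih1 hp fun q hq hpq => ?_, ih2 hp fun q hq hpq => ?_⟩
    · obtain ⟨q', hq', h1, h2⟩ := h q hq hpq
      exact ⟨q', hq', h1, h2.1⟩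
    · obtain ⟨q', hq', h1, h2⟩ := h q hq hpq
      exact ⟨q', hq', h1, h2.2⟩
  | ex φ _ =>
    intro p v _ h q hq hpq
    obtain ⟨q', hq', h1, h2⟩ := h q hq hpq
    obtain ⟨q'', hq'', h3, h4⟩ := h2 q' hq' (sub_refl' _)
    exact ⟨q'', hq'', sub_trans' h1 h3, h4⟩

/-- **Truth lemma**. -/
theorem truth (φ : Fml) : ∀ v : ℕ → V, In M v →
    (Sat (Ext M G) φ (fun n => val G (v n)) ↔ ∃ p ∈ G, Fc M P φ p v) := by
  induction φ with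
  | mem i j => intro v hv; exact truth_MEM hM hP hG (hv i) (hv j)
  | eq i j => intro v hv; exact truth_EQ hM hP hG _ (hv i) _ (hv j)
  | neg φ ih =>
    intro v hv
    constructor
    · intro h
      have hR : Dfn (fun W v => Fc W (v 1) φ (v 0) (fun n => v (n + 2)) ∨
          ∀ q ∈ v 1, v 0 ⊆ q → ¬ Fc W (v 1) φ q (fun n => v (n + 2))) := by
        refine DC.or (DC.ren (dfn_Fc φ) (fun n => match n with | 0 => 1 | 1 => 0 | n + 2 => n + 2)) ?_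
        refine Dfn.ball (P := fun W q v => v 0 ⊆ q → ¬ Fc W (v 1) φ q (fun n => v (n + 2)))
          (DT.var 1) (DC.imp (Dfn.subset (DT.var 1) (DT.var 0)) (DC.not ?_))
        exact DC.ren (dfn_Fc φ) (fun n => match n with | 0 => 2 | 1 => 0 | n + 2 => n + 3)
      have hD := hM.sepD hR (v := cons P v) (In.cons hP hv) hP
      obtain ⟨p, hp, hpD⟩ := hG.meets _ hD ⟨ZFSet.sep_subset, fun p hp => by
        by_cases hc : ∃ q ∈ P, p ⊆ q ∧ Fc M P φ q v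
        · obtain ⟨q, hq, hpq, hF⟩ := hc
          exact ⟨q, ZFSet.mem_sep.2 ⟨hq, Or.inl hF⟩, hpq⟩
        · push Not at hc
          exact ⟨p, ZFSet.mem_sep.2 ⟨hp, Or.inr hc⟩, sub_refl' _⟩⟩
      have hpD' : Fc M P φ p v ∨ ∀ q ∈ P, p ⊆ q → ¬ Fc M P φ q v := (ZFSet.mem_sep.1 hpD).2
      rcases hpD' with h1 | h1
      · exact absurd ((ih v hv).2 ⟨p, hp, h1⟩) h
      · exact ⟨p, hp, h1⟩
    · rintro ⟨p, hp, h⟩ hS
      obtain ⟨q, hq, hF⟩ := (ih v hv).1 hS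
      obtain ⟨r, hr, h1, h2⟩ := hG.dir p hp q hq
      exact h r (hG.sub hr) h1 (Fc_mono φ hF (hG.sub hr) h2)
  | and φ ψ ih1 ih2 =>
    intro v hv
    constructor
    · rintro ⟨h1, h2⟩
      obtain ⟨p, hp, hp'⟩ := (ih1 v hv).1 h1
      obtain ⟨q, hq, hq'⟩ := (ih2 v hv).1 h2
      obtain ⟨r, hr, h3, h4⟩ := hG.dir p hp q hq
      exact ⟨r, hr, Fc_mono φ hp' (hG.sub hr) h3, Fc_mono ψ hq' (hG.sub hr) h4⟩
    · rintro ⟨p, hp, h1, h2⟩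
      exact ⟨(ih1 v hv).2 ⟨p, hp, h1⟩, (ih2 v hv).2 ⟨p, hp, h2⟩⟩
  | ex φ ih =>
    intro v hv
    have hcons : ∀ τ, (fun n => val G (cons τ v n)) = cons (val G τ) (fun n => val G (v n)) := by
      intro τ
      funext n
      cases n <;> rfl
    constructor
    · rintro ⟨x, ⟨τ, hτ, rfl⟩, h⟩
      rw [← hcons] at h
      obtain ⟨p, hp, hF⟩ := (ih (cons τ v) (In.cons hτ hv)).1 h
      exact ⟨p, hp, fun q hq hpq => ⟨q, hq, sub_refl' _, τ, hτ, Fc_mono φ hF hq hpq⟩⟩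
    · rintro ⟨p, hp, h⟩
      have hR : Dfn (fun W v => ∃ τ ∈ W, Fc W (v 1) φ (v 0) (cons τ (fun n => v (n + 2)))) := by
        refine Dfn.ex (P := fun W τ v => Fc W (v 1) φ (v 0) (cons τ (fun n => v (n + 2)))) ?_
        refine (DC.ren (dfn_Fc φ)
          (fun n => match n with | 0 => 2 | 1 => 1 | 2 => 0 | n + 3 => n + 3)).congr ?_
        intro W _ v _
        have : (fun n => (fun n => v (match n with
            | 0 => 2 | 1 => 1 | 2 => 0 | n + 3 => n + 3)) (n + 2)) =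
            cons (v 0) (fun n => v (n + 3)) := by
          funext n
          cases n <;> rfl
        show Fc W (v 2) φ (v 1) (cons (v 0) (fun n => v (n + 3))) ↔ Fc W (v 2) φ (v 1)
          (fun n => (fun n => v (match n with
            | 0 => 2 | 1 => 1 | 2 => 0 | n + 3 => n + 3)) (n + 2))
        rw [this]
      have hD := hM.sepD hR (v := cons P v) (In.cons hP hv) hP
      obtain ⟨q, hqG, hq⟩ := IsGen.meets_below hM hP hG hD hp (fun q hq hpq => by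
        obtain ⟨q', hq', h1, τ, hτ, h2⟩ := h q hq hpq
        exact ⟨q', ZFSet.mem_sep.2 ⟨hq', τ, hτ, h2⟩, hq', h1⟩)
      obtain ⟨τ, hτ, hF⟩ : ∃ τ ∈ M, Fc M P φ q (cons τ v) := (ZFSet.mem_sep.1 hq).2
      have h3 := (ih (cons τ v) (In.cons hτ hv)).2 ⟨q, hqG, hF⟩
      rw [hcons] at h3
      exact ⟨val G τ, ⟨τ, hτ, rfl⟩, h3⟩

end generic

/-- If generic filters exist below every condition, then forcing is truth in all generic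
extensions. -/
theorem Fc_iff {M : Set V} (hM : Nice M) {P : V} (hP : P ∈ M) (𝒢 : Set V)
    (h𝒢 : ∀ G ∈ 𝒢, IsGen M P G)
    (hex : ∀ p ∈ P, ∃ G ∈ 𝒢, p ∈ G) (φ : Fml) {p : V} (hp : p ∈ P) {v : ℕ → V}
    (hv : In M v) : Fc M P φ p v ↔
      ∀ G ∈ 𝒢, p ∈ G → Sat (Ext M G) φ (fun n => val G (v n)) := by
  constructor
  · intro h G hG hpG
    exact (truth hM hP (h𝒢 G hG) φ v hv).2 ⟨p, hpG, h⟩
  · intro h
    by_contra hc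
    have h1 : ¬ ∀ q ∈ P, p ⊆ q → ∃ q' ∈ P, q ⊆ q' ∧ Fc M P φ q' v := fun h2 => hc (Fc_reg φ hp h2)
    push Not at h1
    obtain ⟨q, hq, hpq, h2⟩ := h1
    obtain ⟨G, hG', hqG⟩ := hex q hq
    have hG := h𝒢 G hG'
    obtain ⟨r, hr, h3⟩ := (truth hM hP hG φ v hv).1 (h G hG' (hG.down q hqG p hp hpq))
    obtain ⟨s, hs, h4, h5⟩ := hG.dir q hqG r hr
    exact h2 s (hG.sub hs) h4 (Fc_mono φ h3 (hG.sub hs) h5)

end Pool.Agent.NUC
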