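import Pool.Agent.Lib.MP_bf67b0_lc.NUC.NormalForm
import Pool.Agent.Lib.MP_bf67b0_lc.NUC.Arith
import Pool.Agent.Lib.MP_bf67b0_lc.NUC.Ext

/-!
# Reflection and `LL X W` is a model of `ZF`
-/

namespace Pool.Agent.NUC

open ZFSet (pair)

/-! ### Satisfaction and free variables -/

theorem sat_bd (W : Set V) (φ : Fml) : ∀ {v w : ℕ → V}, (∀ i < φ.bd, v i = w i) →
    (Sat W φ v ↔ Sat W φ w) := by
  induction φ with
  | mem i j =>
    intro v w h
    have h1 : v i = w i := h i (by simp only [Fml.bd]; omega)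
    have h2 : v j = w j := h j (by simp only [Fml.bd]; omega)
    simp only [Sat, h1, h2]
  | eq i j =>
    intro v w h
    have h1 : v i = w i := h i (by simp only [Fml.bd]; omega)
    have h2 : v j = w j := h j (by simp only [Fml.bd]; omega)
    simp only [Sat, h1, h2]
  | neg φ ih => intro v w h; exact not_congr (ih h)
  | and φ ψ ih1 ih2 =>
    intro v w h
    exact and_congr (ih1 fun i hi => h i (by simp only [Fml.bd]; omega))
      (ih2 fun i hi => h i (by simp only [Fml.bd]; omega))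
  | ex φ ih =>
    intro v w h
    refine exists_congr fun x => and_congr_right fun _ => ih ?_
    intro i hi
    cases i with
    | zero => rfl
    | succ i => exact h i (by simp only [Fml.bd]; omega)

/-- The formulas under the quantifiers of `φ`. -/
def Fml.exs : Fml → List Fml
  | .mem _ _ => []
  | .eq _ _ => []
  | .neg φ => φ.exs
  | .and φ ψ => φ.exs ++ ψ.exs
  | .ex φ => φ :: φ.exs

/-- The Tarski–Vaught criterion. -/
theorem tarskiVaught {A U : Set V} (hAU : A ⊆ U) (φ : Fml)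
    (h : ∀ ψ ∈ φ.exs, ∀ v, In A v → (∃ y ∈ U, Sat U ψ (cons y v)) →
      ∃ y ∈ A, Sat U ψ (cons y v)) : ∀ v, In A v → (Sat U φ v ↔ Sat A φ v) := by
  induction φ with
  | mem i j => intro v _; exact Iff.rfl
  | eq i j => intro v _; exact Iff.rfl
  | neg φ ih => intro v hv; exact not_congr (ih h v hv)
  | and φ ψ ih1 ih2 =>
    intro v hv
    exact and_congr (ih1 (fun χ hχ => h χ (List.mem_append_left _ hχ)) v hv)
      (ih2 (fun χ hχ => h χ (List.mem_append_right _ hχ)) v hv)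
  | ex φ ih =>
    intro v hv
    have ih' := ih fun χ hχ => h χ (List.mem_cons_of_mem _ hχ)
    constructor
    · intro hS
      obtain ⟨y, hy, hy'⟩ := h φ List.mem_cons_self v hv hS
      exact ⟨y, hy, (ih' _ (In.cons hy hv)).1 hy'⟩
    · rintro ⟨y, hy, hy'⟩
      exact ⟨y, hAU hy, (ih' _ (In.cons hy hv)).2 hy'⟩

/-! ### Components of tuples -/

/-- The `i`-th component of a tuple. -/
noncomputable def cmp : ℕ → V → V
  | 0, t => fst t
  | i + 1, t => cmp i (snd t)

theorem cmp_tup {n : ℕ} : ∀ {i : ℕ}, i < n → ∀ v, cmp i (tup n v) = v i := by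
  induction n with
  | zero => intro i hi; omega
  | succ n ih =>
    intro i hi v
    cases i with
    | zero => exact fst_pair _ _
    | succ i =>
      show cmp i (snd (pair (v 0) (tup n (tl v)))) = v (i + 1)
      rw [snd_pair]
      exact ih (by omega) (tl v)

theorem d1_cmp (i : ℕ) : D1 (cmp i) := by
  induction i with
  | zero => exact DT.fst (DT.var 0)
  | succ i ih => exact ih.app (DT.snd (DT.var 0))

theorem d1_An (n : ℕ) : D1 (fun A => An A n) := by
  induction n with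
  | zero => exact DT.singleton DT.empty
  | succ n ih => exact DT.prod (DT.var 0) (ih.app (DT.var 0))

/-! ### Ordinals -/

/-- The rank, as an ordinal. -/
noncomputable def rk (x : V) : V := x.rank.toZFSet

theorem rk_eq (x : V) : rk x = bU x (fun y => suc (rk y)) := by
  apply ZFSet.ext
  intro z
  unfold rk suc
  simp only [mem_bU, ZFSet.mem_insert_iff, Ordinal.mem_toZFSet_iff]
  constructor
  · rintro ⟨a, ha, rfl⟩
    obtain ⟨y, hy, hay⟩ := ZFSet.lt_rank_iff.1 ha
    rcases hay.lt_or_eq with h | h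
    · exact ⟨y, hy, Or.inr ⟨a, h, rfl⟩⟩
    · exact ⟨y, hy, Or.inl (by rw [h])⟩
  · rintro ⟨y, hy, rfl | ⟨a, ha, rfl⟩⟩
    · exact ⟨y.rank, ZFSet.rank_lt_of_mem hy, rfl⟩
    · exact ⟨a, ha.trans (ZFSet.rank_lt_of_mem hy), rfl⟩

theorem d1_rk : D1 rk := by
  refine D1.of_memRec (H := fun x f => bU x (fun y => suc (app f y))) ?_ ?_
  · exact DT.bU (F := fun W y v => suc (app (v 1) y)) (DT.var 0)
      (d1_suc.app (DT.app (DT.var 2) (DT.var 0)))
  · intro x
    rw [rk_eq]
    unfold bU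
    congr 1
    exact img_congr fun y hy => by rw [app_gr hy]

@[simp] theorem rank_rk (x : V) : (rk x).rank = x.rank := Ordinal.rank_toZFSet _

/-- Ordinals of `W`. -/
theorem Nice.toZFSet {W : Set V} (hW : Nice W) {x : V} (hx : x ∈ W) {o : Ordinal.{0}}
    (ho : o ≤ x.rank) : o.toZFSet ∈ W := by
  have h := d1_rk.mem hW hx
  rcases ho.lt_or_eq with h1 | h1
  · exact hW.memOf h (Ordinal.mem_toZFSet_iff.2 ⟨o, h1, rfl⟩)
  · rw [h1]
    exact h

theorem rk_eq_self_iff {x : V} : rk x = x ↔ ∃ o : Ordinal.{0}, x = o.toZFSet := by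
  constructor
  · intro h
    exact ⟨_, h.symm⟩
  · rintro ⟨o, rfl⟩
    unfold rk
    rw [Ordinal.rank_toZFSet]

/-! ### Iteration of a definable class function inside `W` -/

theorem iterW {W : Set V} (hW : Nice W) {R : Set V → (ℕ → V) → Prop} (hR : Dfn R) {v : ℕ → V}
    (hv : In W v) {f : ℕ → V} (hf : ∀ n, f n ∈ W)
    (hstep : ∀ n, ∀ y ∈ W, R W (cons y (cons (f n) v)) ↔ y = f (n + 1)) :
    ∃ g ∈ W, ∀ z, z ∈ g ↔ ∃ n, z = pair (nat n) (f n) := by
  -- justified sets of pairs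
  let J : Set V → (ℕ → V) → V → V → Prop := fun W v a g => ∀ z ∈ g, z = pair ∅ a ∨
    ∃ k ∈ ZFSet.omega, ∃ y ∈ ran g, pair k y ∈ g ∧ ∃ y' ∈ ran g,
      R W (cons y' (cons y v)) ∧ z = pair (suc k) y'
  have hJ : Dfn (fun W v => J W (fun n => v (n + 2)) (v 1) (v 0)) := by
    refine Dfn.ball (P := fun W z v => z = pair ∅ (v 1) ∨
      ∃ k ∈ ZFSet.omega, ∃ y ∈ ran (v 0), pair k y ∈ v 0 ∧ ∃ y' ∈ ran (v 0),
        R W (cons y' (cons y (fun n => v (n + 2)))) ∧ z = pair (suc k) y') (DT.var 0) ?_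
    refine DC.or (Dfn.eq (DT.var 0) (DT.pair DT.empty (DT.var 2))) ?_
    refine Dfn.bex (P := fun W k v => ∃ y ∈ ran (v 1), pair k y ∈ v 1 ∧ ∃ y' ∈ ran (v 1),
      R W (cons y' (cons y (fun n => v (n + 3)))) ∧ v 0 = pair (suc k) y') DT.omega ?_
    refine Dfn.bex (P := fun W y v => pair (v 0) y ∈ v 2 ∧ ∃ y' ∈ ran (v 2),
      R W (cons y' (cons y (fun n => v (n + 4)))) ∧ v 1 = pair (suc (v 0)) y')
      (DT.ran (DT.var 2)) ?_
    refine DC.and (Dfn.mem (DT.pair (DT.var 1) (DT.var 0)) (DT.var 3)) ?_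
    refine Dfn.bex (P := fun W y' v =>
      R W (cons y' (cons (v 0) (fun n => v (n + 5)))) ∧ v 2 = pair (suc (v 1)) y')
      (DT.ran (DT.var 3)) ?_
    refine DC.and ?_ (Dfn.eq (DT.var 3) (DT.pair (d1_suc.app (DT.var 2)) (DT.var 0)))
    refine (DC.ren hR (fun n => match n with | 0 => 0 | 1 => 1 | n + 2 => n + 6)).congr ?_
    intro W _ v _
    have : (fun n => v (match n with | 0 => 0 | 1 => 1 | n + 2 => n + 6)) =
        cons (v 0) (cons (v 1) (fun n => v (n + 6))) := by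
      funext n
      match n with
      | 0 => rfl
      | 1 => rfl
      | n + 2 => rfl
    rw [this]
  have hsound : ∀ g ∈ W, J W v (f 0) g → ∀ z ∈ g, ∃ n, z = pair (nat n) (f n) := by
    intro g hg hJg
    have h1 : ∀ n : ℕ, ∀ y, pair (nat n) y ∈ g → y = f n := by
      intro n
      induction n with
      | zero =>
        intro y hy
        rcases hJg _ hy with h | ⟨k, hk, _, _, _, y', _, _, h⟩
        · exact (ZFSet.pair_inj.1 h).2
        · obtain ⟨m, rfl⟩ := mem_omega.1 hk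
          exact absurd (ZFSet.pair_inj.1 h).1.symm (nat_succ_ne m)
      | succ n ih =>
        intro y hy
        rcases hJg _ hy with h | ⟨k, hk, y0, _, hy0, y', hy', hR', h⟩
        · exact absurd (ZFSet.pair_inj.1 h).1 (nat_succ_ne n)
        · obtain ⟨m, rfl⟩ := mem_omega.1 hk
          obtain ⟨h2, h3⟩ := ZFSet.pair_inj.1 h
          rw [suc_nat, nat_inj] at h2
          have hm : m = n := by omega
          subst hm
          have h4 := ih y0 hy0
          subst h4
          have hy'W : y' ∈ W := by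
            obtain ⟨x, hx⟩ := mem_ran.1 hy'
            exact (hW.of_pair (hW.memOf hg hx)).2
          rw [h3]
          exact (hstep m y' hy'W).1 hR'
    intro z hz
    rcases hJg z hz with h | ⟨k, hk, _, _, _, y', _, _, h⟩
    · subst h
      exact ⟨0, rfl⟩
    · obtain ⟨m, rfl⟩ := mem_omega.1 hk
      subst h
      exact ⟨m + 1, by rw [← h1 (m + 1) y' hz]; rfl⟩
  have hatt : ∀ n : ℕ, ∃ g ∈ W, J W v (f 0) g ∧ pair (nat n) (f n) ∈ g := by
    intro n
    induction n with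
    | zero =>
      refine ⟨{pair ∅ (f 0)}, hW.singleton (hW.pair hW.empty_mem (hf 0)), ?_, ?_⟩
      · intro z hz
        exact Or.inl (ZFSet.mem_singleton.1 hz)
      · exact ZFSet.mem_singleton.2 rfl
    | succ n ih =>
      obtain ⟨g, hg, hJg, hn⟩ := ih
      refine ⟨insert (pair (nat (n + 1)) (f (n + 1))) g,
        hW.insert (hW.pair (hW.nat _) (hf _)) hg, ?_, ZFSet.mem_insert _ _⟩
      have hran : ∀ y, y ∈ ran g → y ∈ ran (insert (pair (nat (n + 1)) (f (n + 1))) g) := by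
        intro y hy
        obtain ⟨x, hx⟩ := mem_ran.1 hy
        exact mem_ran.2 ⟨x, ZFSet.mem_insert_of_mem _ hx⟩
      intro z hz
      rcases ZFSet.mem_insert_iff.1 hz with rfl | hz
      · refine Or.inr ⟨nat n, nat_mem_omega n, f n, hran _ (mem_ran.2 ⟨_, hn⟩),
          ZFSet.mem_insert_of_mem _ hn, f (n + 1), mem_ran.2 ⟨_, ZFSet.mem_insert _ _⟩, ?_, rfl⟩
        exact (hstep n _ (hf _)).2 rfl
      · rcases hJg z hz with h | ⟨k, hk, y, hy, hky, y', hy', h1, h2⟩
        · exact Or.inl h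
        · exact Or.inr ⟨k, hk, y, hran _ hy, ZFSet.mem_insert_of_mem _ hky, y', hran _ hy', h1, h2⟩
  -- collect
  have hR2 : Dfn (fun W v => J W (fun n => v (n + 3)) (v 2) (v 0) ∧ v 1 ∈ dom (v 0)) := by
    refine DC.and ?_ (Dfn.mem (DT.var 1) (DT.dom (DT.var 0)))
    exact DC.ren hJ (fun n => match n with | 0 => 0 | n + 1 => n + 2)
  obtain ⟨b, hb, hb'⟩ := hW.collD hR2 (v := cons (f 0) v) (In.cons (hf 0) hv) hW.omega (by
    intro x hx
    obtain ⟨n, rfl⟩ := mem_omega.1 hx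
    obtain ⟨g, hg, h1, h2⟩ := hatt n
    exact ⟨g, hg, h1, mem_dom.2 ⟨_, h2⟩⟩)
  have hR3 : Dfn (fun W v => J W (fun n => v (n + 2)) (v 1) (v 0)) := hJ
  have hG := hW.sUnion _ (hW.sepD hR3 (v := cons (f 0) v) (In.cons (hf 0) hv) hb)
  refine ⟨_, hG, fun z => ?_⟩
  rw [ZFSet.mem_sUnion]
  constructor
  · rintro ⟨g, hg, hz⟩
    rw [ZFSet.mem_sep] at hg
    exact hsound g (hW.memOf hb hg.1) hg.2 z hz
  · rintro ⟨n, rfl⟩
    obtain ⟨g, hg, h1⟩ := hb' (nat n) (nat_mem_omega n)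
    have h2 : J W v (f 0) g := h1.1
    obtain ⟨y, hy⟩ := mem_dom.1 (show nat n ∈ dom g from h1.2)
    refine ⟨g, ZFSet.mem_sep.2 ⟨hg, h2⟩, ?_⟩
    obtain ⟨m, hm⟩ := hsound g (hW.memOf hb hg) h2 _ hy
    obtain ⟨h3, h4⟩ := ZFSet.pair_inj.1 hm
    rw [nat_inj] at h3
    subst h3
    rw [← h4]
    exact hy

/-! ### Satisfaction in `LL X W` -/

/-- Satisfaction in `LL X W` is definable over `W`. -/
theorem dfn_satLL (φ : Fml) : Dfn (fun W v => Sat (LL (v 0) W) φ (tl v)) := by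
  have hK : Dfn (fun W v => ∃ y ∈ W, v 0 ∈ S (v 1) y) := by
    refine Dfn.ex (P := fun W y v => v 0 ∈ S (v 1) y) ?_
    exact Dfn.mem (DT.var 1) (d2_S.app (DT.var 2) (DT.var 0))
  refine (Dfn.relSat (K := fun W x X => ∃ y ∈ W, x ∈ S X y) hK φ).congr fun W hW v hv => ?_
  have : LL (v 0) W = {x | x ∈ W ∧ ∃ y ∈ W, x ∈ S (v 0) y} := by
    apply Set.ext
    intro x
    constructor
    · intro hx
      exact ⟨LL_subset hW (hv 0) hx, hx⟩
    · intro hx
      exact hx.2
  rw [this]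

theorem exists_mem_LL_iff {X : V} {W : Set V} {P : V → Prop} :
    (∃ y ∈ LL X W, P y) ↔ ∃ x ∈ W, ∃ y ∈ S X x, P y := by
  constructor
  · rintro ⟨y, ⟨x, hx, hy⟩, h⟩
    exact ⟨x, hx, y, hy, h⟩
  · rintro ⟨x, hx, y, hy, h⟩
    exact ⟨y, ⟨x, hx, hy⟩, h⟩

section reflection

variable {W : Set V} (hW : Nice W) {X : V} (hX : X ∈ W)
include hW hX

/-- `β` is good for `x` and the formulas in `L`: witnesses for parameters (tuples of length `n`)
in `S X x` can be found in `S X β`. -/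
def GoodFor (L : List Fml) (n : ℕ) (W : Set V) (X β x : V) : Prop :=
  x.rank < β.rank ∧ ∀ ψ ∈ L, ∀ t ∈ An (S X x) n,
    (∃ y ∈ LL X W, Sat (LL X W) ψ (cons y (fun i => cmp i t))) →
      ∃ y ∈ S X β, Sat (LL X W) ψ (cons y (fun i => cmp i t))

omit hW hX in
theorem GoodFor.mono {L : List Fml} {n : ℕ} {W : Set V} {X β β' x : V} (h : GoodFor L n W X β x)
    (hβ : β.rank ≤ β'.rank) : GoodFor L n W X β' x := by
  refine ⟨h.1.trans_le hβ, fun ψ hψ t ht hy => ?_⟩
  obtain ⟨y, hy, h1⟩ := h.2 ψ hψ t ht hy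
  exact ⟨y, S_mono hβ hy, h1⟩

omit hW hX in
/-- The relation `y ∈ LL` and `ψ (y, t)`; assignment `y, t, X`. -/
theorem dfn_satLL' (ψ : Fml) :
    Dfn (fun W v => Sat (LL (v 2) W) ψ (cons (v 0) (fun i => cmp i (v 1)))) := by
  have ht : ∀ i, DT ((fun i : ℕ => match i with
      | 0 => fun _ v => v 2
      | 1 => fun _ v => v 0
      | n + 2 => fun _ v => cmp n (v 1) : ℕ → Set V → (ℕ → V) → V) i) := by
    intro i
    match i with
    | 0 => exact DT.var 2
    | 1 => exact DT.var 0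
    | n + 2 => exact (d1_cmp n).app (DT.var 1)
  refine (Dfn.comp (dfn_satLL ψ) ht).congr fun W _ v _ => ?_
  have : cons (v 0) (fun i => cmp i (v 1)) = tl (fun i => ((fun i : ℕ => match i with
      | 0 => fun _ v => v 2
      | 1 => fun _ v => v 0
      | n + 2 => fun _ v => cmp n (v 1) : ℕ → Set V → (ℕ → V) → V) i) W v) := by
    funext n
    cases n <;> rfl
  rw [this]

omit hW hX in
/-- `GoodFor` is definable; assignment `β, x, X`. -/
theorem dfn_goodFor (L : List Fml) (n : ℕ) :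
    Dfn (fun W v => GoodFor L n W (v 2) (v 0) (v 1)) := by
  have h1 : Dfn (fun _ v => (v 1).rank < (v 0).rank) := by
    refine (Dfn.mem (d1_rk.app (DT.var 1)) (d1_rk.app (DT.var 0))).congr fun W _ v _ => ?_
    unfold rk
    exact Ordinal.toZFSet_mem_toZFSet_iff.symm
  have h2 : Dfn (fun W v => ∀ ψ ∈ L, ∀ t ∈ An (S (v 2) (v 1)) n,
    (∃ y ∈ LL (v 2) W, Sat (LL (v 2) W) ψ (cons y (fun i => cmp i t))) →
      ∃ y ∈ S (v 2) (v 0), Sat (LL (v 2) W) ψ (cons y (fun i => cmp i t))) := by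
    induction L with
    | nil => exact DC.true.congr fun W _ v _ => by simp
    | cons ψ L ih =>
      have h3 : Dfn (fun W v => ∀ t ∈ An (S (v 2) (v 1)) n,
          (∃ y ∈ LL (v 2) W, Sat (LL (v 2) W) ψ (cons y (fun i => cmp i t))) →
            ∃ y ∈ S (v 2) (v 0), Sat (LL (v 2) W) ψ (cons y (fun i => cmp i t))) := by
        refine Dfn.ball (P := fun W t v =>
          (∃ y ∈ LL (v 2) W, Sat (LL (v 2) W) ψ (cons y (fun i => cmp i t))) →
            ∃ y ∈ S (v 2) (v 0), Sat (LL (v 2) W) ψ (cons y (fun i => cmp i t)))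
          ((d1_An n).app (d2_S.app (DT.var 2) (DT.var 1))) ?_
        refine DC.imp ?_ ?_
        · have h4 : Dfn (fun W v => ∃ x ∈ W, ∃ y ∈ S (v 3) x,
              Sat (LL (v 3) W) ψ (cons y (fun i => cmp i (v 0)))) := by
            refine Dfn.ex (P := fun W x v => ∃ y ∈ S (v 3) x,
              Sat (LL (v 3) W) ψ (cons y (fun i => cmp i (v 0)))) ?_
            refine Dfn.bex (P := fun W y v =>
              Sat (LL (v 4) W) ψ (cons y (fun i => cmp i (v 1))))
              (d2_S.app (DT.var 4) (DT.var 0)) ?_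
            exact DC.ren (dfn_satLL' ψ) (fun n => match n with | 0 => 0 | 1 => 2 | _ => 5)
          exact h4.congr fun W _ v _ => exists_mem_LL_iff
        · refine Dfn.bex (P := fun W y v => Sat (LL (v 3) W) ψ (cons y (fun i => cmp i (v 0))))
            (d2_S.app (DT.var 3) (DT.var 1)) ?_
          exact DC.ren (dfn_satLL' ψ) (fun n => match n with | 0 => 0 | 1 => 1 | _ => 4)
      exact (DC.and h3 ih).congr fun W _ v _ => by simp only [List.forall_mem_cons]
  exact DC.and h1 h2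

/-- There are good indices. -/
theorem exists_goodFor (L : List Fml) (n : ℕ) {x : V} (hx : x ∈ W) :
    ∃ β ∈ W, GoodFor L n W X β x := by
  induction L with
  | nil =>
    exact ⟨suc x, hW.insert hx hx, ZFSet.rank_lt_of_mem (ZFSet.mem_insert _ _),
      fun ψ hψ => absurd hψ (by simp)⟩
  | cons ψ L ih =>
    obtain ⟨β, hβ, hβ'⟩ := ih
    have hR : Dfn (fun W v => (∃ y ∈ LL (v 2) W, Sat (LL (v 2) W) ψ
        (cons y (fun i => cmp i (v 1)))) → ∃ y ∈ S (v 2) (v 0), Sat (LL (v 2) W) ψ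
          (cons y (fun i => cmp i (v 1)))) := by
      refine DC.imp ?_ ?_
      · have h4 : Dfn (fun W v => ∃ x ∈ W, ∃ y ∈ S (v 2) x,
            Sat (LL (v 2) W) ψ (cons y (fun i => cmp i (v 1)))) := by
          refine Dfn.ex (P := fun W x v => ∃ y ∈ S (v 2) x,
            Sat (LL (v 2) W) ψ (cons y (fun i => cmp i (v 1)))) ?_
          refine Dfn.bex (P := fun W y v =>
            Sat (LL (v 3) W) ψ (cons y (fun i => cmp i (v 2))))
            (d2_S.app (DT.var 3) (DT.var 0)) ?_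
          exact DC.ren (dfn_satLL' ψ) (fun n => match n with | 0 => 0 | 1 => 3 | _ => 4)
        exact h4.congr fun W _ v _ => exists_mem_LL_iff
      · refine Dfn.bex (P := fun W y v => Sat (LL (v 2) W) ψ (cons y (fun i => cmp i (v 1))))
          (d2_S.app (DT.var 2) (DT.var 0)) ?_
        exact DC.ren (dfn_satLL' ψ) (fun n => match n with | 0 => 0 | 1 => 2 | _ => 3)
    have hAn : An (S X x) n ∈ W := (d1_An n).mem hW (d2_S.mem hW hX hx)
    obtain ⟨b, hb, hb'⟩ := hW.collD hR (v := fun _ => X) (fun _ => hX) hAn (by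
      intro t ht
      by_cases h : ∃ y ∈ LL X W, Sat (LL X W) ψ (cons y (fun i => cmp i t))
      · obtain ⟨y, ⟨x', hx', hy⟩, h'⟩ := h
        exact ⟨x', hx', fun _ => ⟨y, hy, h'⟩⟩
      · exact ⟨∅, hW.empty_mem, fun h' => absurd h' h⟩)
    refine ⟨β ∪ b, hW.union hβ hb, ?_⟩
    have h1 : GoodFor L n W X (β ∪ b) x := hβ'.mono (by simp [ZFSet.rank_union])
    refine ⟨h1.1, fun χ hχ t ht hy => ?_⟩
    rcases List.mem_cons.1 hχ with rfl | hχ
    · obtain ⟨x', hx', h2⟩ := hb' t ht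
      have h3 : (∃ y ∈ LL X W, Sat (LL X W) χ (cons y (fun i => cmp i t))) →
          ∃ y ∈ S X x', Sat (LL X W) χ (cons y (fun i => cmp i t)) := h2
      obtain ⟨y, hy, h4⟩ := h3 hy
      refine ⟨y, S_mono ?_ hy, h4⟩
      exact (ZFSet.rank_lt_of_mem (ZFSet.mem_union.2 (Or.inr hx'))).le
    · exact h1.2 χ hχ t ht hy

/-- Every element of `W` is in the closure: a closed index for the list `L`. -/
theorem exists_closed (L : List Fml) (n : ℕ) {x₀ : V} (hx₀ : x₀ ∈ W) :
    ∃ x ∈ W, x₀.rank ≤ x.rank ∧ ∀ ψ ∈ L, ∀ v, (∀ i < n, v i ∈ S X x) →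
      (∃ y ∈ LL X W, Sat (LL X W) ψ (cons y (fun i => cmp i (tup n v)))) →
        ∃ y ∈ S X x, Sat (LL X W) ψ (cons y (fun i => cmp i (tup n v))) := by
  -- the least ordinal good for `x`
  have hleast : ∀ x ∈ W, ∃ β ∈ W, rk β = β ∧ GoodFor L n W X β x ∧ ∀ z ∈ β, ¬ GoodFor L n W X z x := by
    intro x hx
    obtain ⟨β, hβ, hβ'⟩ := exists_goodFor hW hX L n hx
    have hex : ∃ o : Ordinal.{0}, GoodFor L n W X o.toZFSet x :=
      ⟨β.rank, hβ'.mono (by rw [Ordinal.rank_toZFSet])⟩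
    obtain ⟨o, ho, hmin⟩ : ∃ o : Ordinal.{0}, GoodFor L n W X o.toZFSet x ∧
        ∀ o' < o, ¬ GoodFor L n W X o'.toZFSet x :=
      ⟨WellFounded.min Ordinal.lt_wf {o | GoodFor L n W X o.toZFSet x} hex,
        WellFounded.min_mem Ordinal.lt_wf {o | GoodFor L n W X o.toZFSet x} hex,
        fun o' ho' h => WellFounded.not_lt_min Ordinal.lt_wf
          {o | GoodFor L n W X o.toZFSet x} h ho'⟩
    refine ⟨o.toZFSet, ?_, rk_eq_self_iff.2 ⟨o, rfl⟩, ho, ?_⟩
    · refine hW.toZFSet hβ (le_of_not_gt fun h => hmin _ h (hβ'.mono ?_))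
      rw [Ordinal.rank_toZFSet]
    · intro z hz
      obtain ⟨a, ha, rfl⟩ := Ordinal.mem_toZFSet_iff.1 hz
      exact hmin a ha
  choose! G hGW hG1 hG2 hG3 using hleast
  let f : ℕ → V := fun k => Nat.rec x₀ (fun _ x => G x) k
  have hf0 : f 0 = x₀ := rfl
  have hfs : ∀ k, f (k + 1) = G (f k) := fun k => rfl
  have hf : ∀ k, f k ∈ W := by
    intro k
    induction k with
    | zero => exact hx₀
    | succ k ih => exact hGW _ ih
  have hR : Dfn (fun W v => rk (v 0) = v 0 ∧ GoodFor L n W (v 2) (v 0) (v 1) ∧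
      ∀ z ∈ v 0, ¬ GoodFor L n W (v 2) z (v 1)) := by
    refine DC.and (Dfn.eq (d1_rk.app (DT.var 0)) (DT.var 0)) (DC.and (dfn_goodFor L n) ?_)
    refine Dfn.ball (P := fun W z v => ¬ GoodFor L n W (v 2) z (v 1)) (DT.var 0) (DC.not ?_)
    exact DC.ren (dfn_goodFor L n) (fun n => match n with | 0 => 0 | 1 => 2 | _ => 3)
  obtain ⟨g, hg, hg'⟩ := iterW hW hR (v := fun _ => X) (fun _ => hX) hf (by
    intro k y hy
    show (rk y = y ∧ GoodFor L n W X y (f k) ∧ ∀ z ∈ y, ¬ GoodFor L n W X z (f k)) ↔ y = f (k + 1)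
    rw [hfs]
    constructor
    · rintro ⟨h1, h2, h3⟩
      obtain ⟨o, ho⟩ := rk_eq_self_iff.1 h1
      obtain ⟨o', ho'⟩ := rk_eq_self_iff.1 (hG1 _ (hf k))
      rcases lt_trichotomy o o' with h | h | h
      · refine absurd h2 (hG3 _ (hf k) y ?_)
        rw [ho, ho']
        exact Ordinal.toZFSet_mem_toZFSet_iff.2 h
      · rw [ho, ho', h]
      · refine absurd (hG2 _ (hf k)) (h3 _ ?_)
        rw [ho, ho']
        exact Ordinal.toZFSet_mem_toZFSet_iff.2 h
    · rintro rfl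
      exact ⟨hG1 _ (hf k), hG2 _ (hf k), hG3 _ (hf k)⟩)
  have hran : ran g ∈ W := d1_ran.mem hW hg
  have hmem : ∀ k, f k ∈ ran g := fun k => mem_ran.2 ⟨nat k, (hg' _).2 ⟨k, rfl⟩⟩
  have hrk : ∀ k, (f k).rank < (f (k + 1)).rank := fun k => (hG2 _ (hf k)).1
  have hrkm : ∀ k l, k ≤ l → (f k).rank ≤ (f l).rank := by
    intro k l hkl
    induction hkl with
    | refl => exact le_rfl
    | step _ ih => exact ih.trans (hrk _).le
  have hS : ∀ z, z ∈ S X (ran g) → ∃ k, z ∈ S X (f k) := by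
    intro z hz
    rcases mem_S.1 hz with hz | ⟨y, hy, hz⟩
    · exact ⟨0, subset_S _ _ hz⟩
    · obtain ⟨a, ha⟩ := mem_ran.1 hy
      obtain ⟨k, hk⟩ := (hg' _).1 ha
      rw [(ZFSet.pair_inj.1 hk).2] at hz
      exact ⟨k + 1, Step_subset_of_rank (hrk k) hz⟩
  have hS' : ∀ k, S X (f k) ⊆ S X (ran g) := fun k => S_mono (ZFSet.rank_lt_of_mem (hmem k)).le
  refine ⟨ran g, hran, (ZFSet.rank_lt_of_mem (hmem 0)).le, ?_⟩
  intro ψ hψ v hv hex
  -- all parameters are in one level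
  have hk : ∀ m, m ≤ n → ∃ k, ∀ i < m, v i ∈ S X (f k) := by
    intro m
    induction m with
    | zero => intro _; exact ⟨0, fun i hi => by omega⟩
    | succ m ih =>
      intro hm
      obtain ⟨k, hk⟩ := ih (by omega)
      obtain ⟨l, hl⟩ := hS _ (hv m (by omega))
      refine ⟨max k l, fun i hi => ?_⟩
      rcases Nat.lt_succ_iff_lt_or_eq.1 hi with h | rfl
      · exact S_mono (hrkm _ _ (le_max_left _ _)) (hk i h)
      · exact S_mono (hrkm _ _ (le_max_right _ _)) hl
  obtain ⟨k, hk⟩ := hk n le_rfl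
  obtain ⟨y, hy, h1⟩ := (hG2 _ (hf k)).2 ψ hψ (tup n v) (mem_An.2 ⟨v, hk, rfl⟩) hex
  exact ⟨y, hS' (k + 1) hy, h1⟩

/-- **Reflection.** -/
theorem reflection (φ : Fml) {x₀ : V} (hx₀ : x₀ ∈ W) :
    ∃ x ∈ W, x₀.rank ≤ x.rank ∧ ∀ v, (∀ n, v n ∈ S X x) →
      (Sat (LL X W) φ v ↔ Sat {z | z ∈ S X x} φ v) := by
  -- a bound for the variables of all formulas in `φ.exs`
  obtain ⟨n, hn⟩ : ∃ n, ∀ ψ ∈ φ.exs, ψ.bd ≤ n + 1 := by
    induction φ.exs with
    | nil => exact ⟨0, by simp⟩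
    | cons ψ L ih =>
      obtain ⟨n, hn⟩ := ih
      refine ⟨max n ψ.bd, fun χ hχ => ?_⟩
      rcases List.mem_cons.1 hχ with rfl | hχ
      · omega
      · have := hn χ hχ
        omega
  obtain ⟨x, hx, hr, hc⟩ := exists_closed hW hX φ.exs n hx₀
  refine ⟨x, hx, hr, ?_⟩
  have hsub : {z | z ∈ S X x} ⊆ LL X W := fun z hz => ⟨x, hx, hz⟩
  refine tarskiVaught hsub φ ?_
  intro ψ hψ v hv hex
  have hcongr : ∀ y, Sat (LL X W) ψ (cons y v) ↔
      Sat (LL X W) ψ (cons y (fun i => cmp i (tup n v))) := by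
    intro y
    refine sat_bd _ ψ fun i hi => ?_
    cases i with
    | zero => rfl
    | succ i =>
      have := hn ψ hψ
      exact (cmp_tup (n := n) (by omega) v).symm
  obtain ⟨y, hy, h1⟩ := hc ψ hψ v (fun i _ => hv i) (by
    obtain ⟨y, hy, h1⟩ := hex
    exact ⟨y, hy, (hcongr y).1 h1⟩)
  exact ⟨y, hy, (hcongr y).2 h1⟩

/-- The constructible sets over `X` of a nice class form a nice class. -/
theorem LL_nice (hXt : TrS X) : Nice (LL X W) := by
  have hU : OpClosed (LL X W) := LL_opClosed hW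
  have htr : Trans (LL X W) := LL_trans hXt W
  have hsep : ∀ (φ : Fml) (v : ℕ → V), In (LL X W) v → ∀ a ∈ LL X W,
      ZFSet.sep (fun x => Sat (LL X W) φ (cons x v)) a ∈ LL X W := by
    intro φ v hv a ha
    -- a level containing the parameters
    obtain ⟨x₀, hx₀, hax₀, hvx₀⟩ : ∃ x₀ ∈ W, a ∈ S X x₀ ∧ ∀ i < φ.bd, v i ∈ S X x₀ := by
      obtain ⟨y, hy, hay⟩ := ha
      have h : ∀ m, ∃ x₀ ∈ W, ∀ i < m, v i ∈ S X x₀ := by
        intro m
        induction m with
        | zero => exact ⟨∅, hW.empty_mem, fun i hi => by omega⟩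
        | succ m ih =>
          obtain ⟨x₁, hx₁, h1⟩ := ih
          obtain ⟨x₂, hx₂, h2⟩ := hv m
          refine ⟨x₁ ∪ x₂, hW.union hx₁ hx₂, fun i hi => ?_⟩
          rcases Nat.lt_succ_iff_lt_or_eq.1 hi with h | rfl
          · exact S_mono (by simp [ZFSet.rank_union]) (h1 i h)
          · exact S_mono (by simp [ZFSet.rank_union]) h2
      obtain ⟨x₁, hx₁, h1⟩ := h φ.bd
      exact ⟨x₁ ∪ y, hW.union hx₁ hy, S_mono (by simp [ZFSet.rank_union]) hay,
        fun i hi => S_mono (by simp [ZFSet.rank_union]) (h1 i hi)⟩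
    obtain ⟨x, hx, hr, hrefl⟩ := reflection hW hX φ hx₀
    have haS : a ∈ S X x := S_mono hr hax₀
    -- replace the irrelevant parameters
    let v' : ℕ → V := fun i => if i < φ.bd then v i else a
    have hv' : ∀ n, v' n ∈ S X x := by
      intro n
      show (if n < φ.bd then v n else a) ∈ S X x
      split_ifs with h
      · exact S_mono hr (hvx₀ n h)
      · exact haS
    have haA : ∀ y ∈ a, y ∈ S X x := fun y hy => hXt.S x a haS y hy
    have h1 := OpClosed.sep hU (S_mem_LL hW hx) (fun y hy => ⟨x, hx, hy⟩) φ hv' ha haA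
    convert h1 using 1
    apply ZFSet.ext
    intro y
    rw [ZFSet.mem_sep, ZFSet.mem_sep]
    refine and_congr_right fun hy => ?_
    have h2 : Sat (LL X W) φ (cons y v) ↔ Sat (LL X W) φ (cons y v') := by
      refine sat_bd _ φ fun i hi => ?_
      cases i with
      | zero => rfl
      | succ i =>
        show v i = if i < φ.bd then v i else a
        rw [if_pos (by omega)]
    rw [h2]
    exact hrefl _ (by
      intro n
      cases n with
      | zero => exact haA y hy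
      | succ n => exact hv' n)
  have hL : Dfn (fun W v => v 0 ∈ LL (v 1) W) := by
    have h4 : Dfn (fun W v => ∃ y ∈ W, v 0 ∈ S (v 1) y) := by
      refine Dfn.ex (P := fun W y v => v 0 ∈ S (v 1) y) ?_
      exact Dfn.mem (DT.var 1) (d2_S.app (DT.var 2) (DT.var 0))
    exact h4.congr fun W _ v _ => Iff.rfl
  refine Nice.mk' htr ?_ ?_ ?_ ?_ hsep ?_
  · intro x hx y hy
    exact ⟨{x, y}, hU.upair hx hy, by simp, by simp⟩
  · intro x hx
    exact ⟨_, hU.sUnion hx, fun _ h => h⟩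
  · intro x hx
    have hxW : x ∈ W := LL_subset hW hX hx
    obtain ⟨y, hy, hy'⟩ := hW.pow x hxW
    -- collect indices of levels for the elements of `y` in `LL`
    have hR : Dfn (fun W v => v 1 ∈ LL (v 2) W → v 1 ∈ S (v 2) (v 0)) := by
      refine DC.imp ?_ (Dfn.mem (DT.var 1) (d2_S.app (DT.var 2) (DT.var 0)))
      exact DC.ren hL (fun n => match n with | 0 => 1 | _ => 2)
    obtain ⟨b, hb, hb'⟩ := hW.collD hR (v := fun _ => X) (fun _ => hX) hy (by
      intro z _
      by_cases h : z ∈ LL X W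
      · obtain ⟨x', hx', h1⟩ := h
        exact ⟨x', hx', fun _ => h1⟩
      · exact ⟨∅, hW.empty_mem, fun h' => absurd h' h⟩)
    refine ⟨S X b, S_mem_LL hW hb, fun z hz hzx => ?_⟩
    obtain ⟨x', hx', h1⟩ := hb' z (hy' z (LL_subset hW hX hz) hzx)
    have h2 : z ∈ LL X W → z ∈ S X x' := h1
    exact S_mono (ZFSet.rank_lt_of_mem hx').le (h2 hz)
  · -- the natural numbers
    have hnat : ∀ n, nat n ∈ LL X W := by
      have h0 : (∅ : V) ∈ LL X W := hU.empty (S_mem_LL hW hW.empty_mem)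
      intro n
      induction n with
      | zero => exact h0
      | succ n ih =>
        have h1 : nat (n + 1) = ZFSet.sUnion {nat n, {nat n}} := by
          apply ZFSet.ext
          intro z
          rw [ZFSet.mem_sUnion, nat, ZFSet.mem_insert_iff]
          constructor
          · rintro (rfl | h)
            · exact ⟨{nat n}, by simp, by simp⟩
            · exact ⟨nat n, by simp, h⟩
          · rintro ⟨y, hy, hz⟩
            rcases ZFSet.mem_pair.1 hy with rfl | rfl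
            · exact Or.inr hz
            · exact Or.inl (ZFSet.mem_singleton.1 hz)
        rw [h1]
        exact hU.sUnion (hU.upair ih (hU.singleton ih))
    have hR : Dfn (fun W v => v 1 ∈ S (v 2) (v 0)) :=
      Dfn.mem (DT.var 1) (d2_S.app (DT.var 2) (DT.var 0))
    obtain ⟨b, hb, hb'⟩ := hW.collD hR (v := fun _ => X) (fun _ => hX) hW.omega (by
      intro z hz
      obtain ⟨n, rfl⟩ := mem_omega.1 hz
      obtain ⟨x', hx', h1⟩ := hnat n
      exact ⟨x', hx', h1⟩)
    refine ⟨S X b, S_mem_LL hW hb, fun z hz => ?_⟩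
    obtain ⟨x', hx', h1⟩ := hb' z hz
    exact S_mono (ZFSet.rank_lt_of_mem hx').le h1
  · intro φ v hv a ha hex
    have haW : a ∈ W := LL_subset hW hX ha
    have hvW : In W v := fun n => LL_subset hW hX (hv n)
    have hR : Dfn (fun W v => ∃ y ∈ S (v 2) (v 0), Sat (LL (v 2) W) φ
        (cons y (cons (v 1) (fun n => v (n + 3))))) := by
      refine Dfn.bex (P := fun W y v => Sat (LL (v 2) W) φ
        (cons y (cons (v 1) (fun n => v (n + 3))))) (d2_S.app (DT.var 2) (DT.var 0)) ?_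
      refine (DC.ren (dfn_satLL φ) (fun n => match n with
        | 0 => 3 | 1 => 0 | 2 => 2 | n + 3 => n + 4)).congr fun W _ v _ => ?_
      have : cons (v 0) (cons (v 2) (fun n => v (n + 4))) =
          tl (fun n => v (match n with | 0 => 3 | 1 => 0 | 2 => 2 | n + 3 => n + 4)) := by
        funext n
        match n with
        | 0 => rfl
        | 1 => rfl
        | n + 2 => rfl
      show Sat (LL (v 3) W) φ (cons (v 0) (cons (v 2) (fun n => v (n + 4)))) ↔
        Sat (LL (v 3) W) φ (tl (fun n => v (match n with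
          | 0 => 3 | 1 => 0 | 2 => 2 | n + 3 => n + 4)))
      rw [this]
    obtain ⟨b, hb, hb'⟩ := hW.collD hR (v := cons X v) (In.cons hX hvW) haW (by
      intro x hx
      obtain ⟨y, ⟨x', hx', hy⟩, h1⟩ := hex x hx
      exact ⟨x', hx', y, hy, h1⟩)
    refine ⟨S X b, S_mem_LL hW hb, fun x hx => ?_⟩
    obtain ⟨x', hx', h1⟩ := hb' x hx
    obtain ⟨y, hy, h2⟩ : ∃ y ∈ S X x', Sat (LL X W) φ (cons y (cons x v)) := h1
    exact ⟨y, S_mono (ZFSet.rank_lt_of_mem hx').le hy, h2⟩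

end reflection

end Pool.Agent.NUC
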