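import Pool.Agent.Lib.MP_bf67b0_lc.NUC.Cohen
import Pool.Agent.Lib.MP_bf67b0_lc.NUC.LNice

/-!
# The forcing interface for Cohen forcing
-/

namespace Pool.Agent.NUC

open ZFSet (pair)

/-- The generic extension `M[h]`. -/
def MG (M : Set V) (h : HH) : Set V := Ext M (Gn h)

section

variable {M : Set V} (hM : Nice M)
include hM

theorem MG_nice {h : HH} (hh : Gen M h) : Nice (MG M h) := Ext_nice hM hM.PP hh.isGen

theorem subset_MG {h : HH} (hh : Gen M h) : M ⊆ MG M h := subset_Ext hM hh.isGen.empty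

theorem Gn_mem_MG {h : HH} (hh : Gen M h) : Gn h ∈ MG M h := gen_mem_Ext hM hM.PP hh.isGen

theorem hs_mem_MG {h : HH} (hh : Gen M h) : hs h ∈ MG M h := by
  rw [hs_eq]
  exact (MG_nice hM hh).sUnion _ (Gn_mem_MG hM hh)

/-- The names of `Gn h` and of elements of `M`. -/
noncomputable def nm (v : ℕ → V) : ℕ → V := cons (gnm PP) (fun n => chk (v n))

theorem nm_in {v : ℕ → V} (hv : In M v) : In M (nm v) :=
  In.cons (d1_gnm.mem hM hM.PP) fun n => d1_chk.mem hM (hv n)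

omit hM in
theorem val_nm {h : HH} (hh : Gen M h) (v : ℕ → V) :
    (fun n => val (Gn h) (nm v n)) = cons (Gn h) v := by
  funext n
  cases n with
  | zero => exact val_gnm hh.isGen
  | succ n => exact val_chk hh.isGen.empty (v n)

/-- Truth lemma: everything true in `M[h]` is forced by a finite part of `h`. -/
theorem TL {R : Set V → (ℕ → V) → Prop} (hR : Dfn R) {v : ℕ → V} (hv : In M v) {h : HH}
    (hh : Gen M h) (H : R (MG M h) (cons (Gn h) v)) :
    ∃ F : Finset (ℕ × ℕ), ∀ h', Gen M h' → (∀ a b, (a, b) ∈ F → h' a b = h a b) →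
      R (MG M h') (cons (Gn h') v) := by
  obtain ⟨φ, hφ⟩ := hR
  have hin : ∀ {h'}, Gen M h' → In (MG M h') (cons (Gn h') v) := fun hh' =>
    In.cons (Gn_mem_MG hM hh') fun n => subset_MG hM hh' (hv n)
  have h1 := (hφ _ (MG_nice hM hh) _ (hin hh)).1 H
  rw [← val_nm hh] at h1
  obtain ⟨p, hp, h2⟩ := (truth hM hM.PP hh.isGen φ (nm v) (nm_in hM hv)).1 h1
  obtain ⟨F, rfl⟩ := mem_Gn.1 hp
  refine ⟨F, fun h' hh' hF => ?_⟩
  refine (hφ _ (MG_nice hM hh') _ (hin hh')).2 ?_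
  rw [← val_nm hh']
  refine (truth hM hM.PP hh'.isGen φ (nm v) (nm_in hM hv)).2 ⟨cd F h, ?_, h2⟩
  exact mem_Gn.2 ⟨F, cd_congr fun a b hab => (hF a b hab).symm⟩

omit hM in
/-- Definability of forcing. -/
theorem DL {R : Set V → (ℕ → V) → Prop} (hR : Dfn R) :
    ∃ R' : Set V → (ℕ → V) → Prop, Dfn R' ∧ ∀ M : Set V, Nice M → M.Countable →
      ∀ v, In M v → ∀ (F : Finset (ℕ × ℕ)) (g : HH), R' M (cons (cd F g) v) ↔
        ∀ h', Gen M h' → (∀ a b, (a, b) ∈ F → h' a b = g a b) → R (MG M h') (cons (Gn h') v) := by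
  obtain ⟨φ, hφ⟩ := hR
  refine ⟨fun W u => Fc W PP φ (u 0) (nm (fun n => u (n + 1))), ?_, ?_⟩
  · have ht : ∀ i, DT ((fun i : ℕ => match i with
        | 0 => fun _ _ => PP
        | 1 => fun _ v => v 0
        | 2 => fun _ _ => gnm PP
        | n + 3 => fun _ v => chk (v (n + 1)) : ℕ → Set V → (ℕ → V) → V) i) := by
      intro i
      match i with
      | 0 => exact DT.PP
      | 1 => exact DT.var 0
      | 2 => exact d1_gnm.app DT.PP
      | n + 3 => exact d1_chk.app (DT.var (n + 1))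
    refine (Dfn.comp (dfn_Fc φ) ht).congr fun W _ v _ => ?_
    have : nm (fun n => v (n + 1)) = fun n => ((fun i : ℕ => match i with
        | 0 => fun _ _ => PP
        | 1 => fun _ v => v 0
        | 2 => fun _ _ => gnm PP
        | n + 3 => fun _ v => chk (v (n + 1)) : ℕ → Set V → (ℕ → V) → V) (n + 2)) W v := by
      funext n
      cases n <;> rfl
    rw [this]
  · intro M hM hc v hv F g
    have hin : ∀ {h'}, Gen M h' → In (MG M h') (cons (Gn h') v) := fun hh' =>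
      In.cons (Gn_mem_MG hM hh') fun n => subset_MG hM hh' (hv n)
    show Fc M PP φ (cd F g) (nm v) ↔ _
    rw [Fc_iff hM hM.PP {G | ∃ h, Gen M h ∧ G = Gn h} (by
      rintro _ ⟨h, hh, rfl⟩
      exact hh.isGen) (by
      intro p hp
      obtain ⟨F, g, rfl⟩ := mem_PP.1 hp
      obtain ⟨h, hh, hF⟩ := exists_gen hM hc F g
      exact ⟨Gn h, ⟨h, hh, rfl⟩, mem_Gn.2 ⟨F, cd_congr fun a b hab => (hF a b hab).symm⟩⟩)
      φ (cd_mem_PP F g) (nm_in hM hv)]
    constructor
    · intro H h' hh' hF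
      refine (hφ _ (MG_nice hM hh') _ (hin hh')).2 ?_
      rw [← val_nm hh']
      exact H _ ⟨h', hh', rfl⟩ (mem_Gn.2 ⟨F, cd_congr fun a b hab => (hF a b hab).symm⟩)
    · rintro H _ ⟨h', hh', rfl⟩ hp
      obtain ⟨F', hF'⟩ := mem_Gn.1 hp
      obtain ⟨rfl, h1⟩ := cd_eq_cd hF'
      have h2 := (hφ _ (MG_nice hM hh') _ (hin hh')).1
        (H h' hh' fun a b hab => (h1 a b hab).symm)
      rw [← val_nm hh'] at h2
      exact h2

/-- `M[h]` is the least nice class containing `M` and `h`. -/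
theorem MG_subset {h : HH} {W : Set V} (hW : Nice W) (hMW : M ⊆ W) (hh : hs h ∈ W) :
    MG M h ⊆ W := by
  refine Ext_subset hW hMW ?_
  rw [Gn_eq]
  exact hW.sepD (R := fun _ v => v 0 ⊆ v 1) (Dfn.subset (DT.var 0) (DT.var 1)) (v := fun _ => hs h)
    (fun _ => hh) hW.PP

theorem MG_add {h z : HH} (hh : Gen M h) (hz : hs z ∈ M) : MG M (hadd h z) = MG M h := by
  have key : ∀ {h : HH}, Gen M h → MG M (hadd h z) ⊆ MG M h := by
    intro h hh
    refine MG_subset hM (MG_nice hM hh) (subset_MG hM hh) ?_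
    rw [← trV_hs]
    exact d2_trV.mem (MG_nice hM hh) (subset_MG hM hh hz) (hs_mem_MG hM hh)
  refine Set.Subset.antisymm (key hh) ?_
  have := key (hh.add hM hz)
  rwa [hadd_hadd] at this

omit hM in
/-- `M` and `M[h]` have the same ordinals. -/
theorem MG_rank {h : HH} {x : V} (hx : x ∈ MG M h) : ∃ y ∈ M, x.rank ≤ y.rank := by
  obtain ⟨τ, hτ, rfl⟩ := hx
  exact ⟨τ, hτ, rank_val_le _ _⟩

theorem rk_mem_of_MG {h : HH} {x : V} (hx : x ∈ MG M h) : rk x ∈ M := by
  obtain ⟨y, hy, hxy⟩ := MG_rank hx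
  exact hM.toZFSet hy hxy

end

end Pool.Agent.NUC
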