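import Pool.Agent.Lib.MP_bf67b0_lc.NUC.Rec

/-!
# The constructible hierarchy over a transitive set
-/

namespace Pool.Agent.NUC

open ZFSet (pair)

/-- `{⟨a,⟨b,t⟩⟩ : b ∈ u, ⟨a,t⟩ ∈ v}`. -/
noncomputable def insOp (u v : V) : V :=
  bU u (fun b => img (fun z => pair (fst z) (pair b (snd z)))
    (ZFSet.sep (fun z => z = pair (fst z) (snd z)) v))

theorem mem_insOp {u v x : V} :
    x ∈ insOp u v ↔ ∃ a, ∃ b ∈ u, ∃ t, pair a t ∈ v ∧ x = pair a (pair b t) := by
  unfold insOp
  simp only [mem_bU, mem_img, ZFSet.mem_sep]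
  constructor
  · rintro ⟨b, hb, z, ⟨hz, hz'⟩, rfl⟩
    exact ⟨fst z, b, hb, snd z, hz' ▸ hz, rfl⟩
  · rintro ⟨a, b, hb, t, h, rfl⟩
    exact ⟨b, hb, pair a t, ⟨h, by simp⟩, by simp⟩

/-- `{⟨a,⟨b,t⟩⟩ : a, b ∈ u, t ∈ v, r a b}`. -/
noncomputable def relOp (r : V → V → Prop) (u v : V) : V :=
  bU u (fun a => bU (ZFSet.sep (fun b => r a b) u) (fun b => img (fun t => pair a (pair b t)) v))

theorem mem_relOp {r : V → V → Prop} {u v x : V} :
    x ∈ relOp r u v ↔ ∃ a ∈ u, ∃ b ∈ u, ∃ t ∈ v, r a b ∧ x = pair a (pair b t) := by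
  unfold relOp
  simp only [mem_bU, mem_img, ZFSet.mem_sep]
  constructor
  · rintro ⟨a, ha, b, ⟨hb, hr⟩, t, ht, rfl⟩
    exact ⟨a, ha, b, hb, t, ht, hr, rfl⟩
  · rintro ⟨a, ha, b, hb, t, ht, hr, rfl⟩
    exact ⟨a, ha, b, ⟨hb, hr⟩, t, ht, rfl⟩

/-- The basic operations. -/
noncomputable def op : ℕ → V → V → V → V
  | 0, u, v, _ => {u, v}
  | 1, u, v, _ => pair u v
  | 2, u, v, w => {u, pair v w}
  | 3, u, v, w => pair u (pair v w)
  | 4, u, _, _ => ZFSet.sUnion u
  | 5, u, v, _ => u \ v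
  | 6, u, v, _ => ZFSet.prod u v
  | 7, u, _, _ => dom u
  | 8, u, _, _ => ran u
  | 9, u, v, _ => insOp u v
  | 10, u, v, _ => relOp (fun a b => a ∈ b) u v
  | 11, u, v, _ => relOp (fun a b => b ∈ a) u v
  | _, u, v, _ => relOp (fun a b => a = b) u v

theorem d2_insOp : D2 insOp := by
  refine DT.bU (F := fun W b v => img (fun z => pair (fst z) (pair b (snd z)))
    (ZFSet.sep (fun z => z = pair (fst z) (snd z)) (v 1))) (DT.var 0) ?_
  refine DT.img (F := fun W z v => pair (fst z) (pair (v 0) (snd z))) ?_ ?_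
  · exact DT.sep (P := fun W z v => z = pair (fst z) (snd z)) (DT.var 2)
      (Dfn.eq (DT.var 0) (DT.pair (DT.fst (DT.var 0)) (DT.snd (DT.var 0))))
  · exact DT.pair (DT.fst (DT.var 0)) (DT.pair (DT.var 1) (DT.snd (DT.var 0)))

theorem d2_relOp {r : V → V → Prop} (hr : R2 r) : D2 (relOp r) := by
  refine DT.bU (F := fun W a v => bU (ZFSet.sep (fun b => r a b) (v 0))
    (fun b => img (fun t => pair a (pair b t)) (v 1))) (DT.var 0) ?_
  refine DT.bU (F := fun W b v => img (fun t => pair (v 0) (pair b t)) (v 2)) ?_ ?_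
  · exact DT.sep (P := fun W b v => r (v 0) b) (DT.var 1) (hr.app (DT.var 1) (DT.var 0))
  · exact DT.img (F := fun W t v => pair (v 1) (pair (v 0) t)) (DT.var 3)
      (DT.pair (DT.var 2) (DT.pair (DT.var 1) (DT.var 0)))

theorem d3_op (i : ℕ) : D3 (op i) := by
  match i with
  | 0 => exact DT.upair (DT.var 0) (DT.var 1)
  | 1 => exact DT.pair (DT.var 0) (DT.var 1)
  | 2 => exact DT.upair (DT.var 0) (DT.pair (DT.var 1) (DT.var 2))
  | 3 => exact DT.pair (DT.var 0) (DT.pair (DT.var 1) (DT.var 2))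
  | 4 => exact DT.sUnion (DT.var 0)
  | 5 => exact DT.diff (DT.var 0) (DT.var 1)
  | 6 => exact DT.prod (DT.var 0) (DT.var 1)
  | 7 => exact DT.dom (DT.var 0)
  | 8 => exact DT.ran (DT.var 0)
  | 9 => exact d2_insOp.app (DT.var 0) (DT.var 1)
  | 10 => exact (d2_relOp (r := fun a b => a ∈ b) (Dfn.mem (DT.var 0) (DT.var 1))).app (DT.var 0) (DT.var 1)
  | 11 => exact (d2_relOp (r := fun a b => b ∈ a) (Dfn.mem (DT.var 1) (DT.var 0))).app (DT.var 0) (DT.var 1)
  | _ + 12 => exact (d2_relOp (r := fun a b => a = b) (Dfn.eq (DT.var 0) (DT.var 1))).app (DT.var 0) (DT.var 1)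

/-- Auxiliary: the first `n` operations applied to `A ∪ {A}`. -/
noncomputable def stepN : ℕ → V → V
  | 0, A => insert A A
  | n + 1, A => stepN n A ∪ bU (insert A A) (fun u => bU (insert A A) (fun v =>
      img (fun w => op n u v w) (insert A A)))

/-- One step of the hierarchy. -/
noncomputable def Step (A : V) : V := stepN 13 A

theorem mem_stepN {n : ℕ} {A z : V} : z ∈ stepN n A ↔ z ∈ (insert A A : V) ∨
    ∃ i < n, ∃ u ∈ (insert A A : V), ∃ v ∈ (insert A A : V), ∃ w ∈ (insert A A : V),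
      z = op i u v w := by
  induction n with
  | zero => simp [stepN]
  | succ n ih =>
    rw [stepN, ZFSet.mem_union, ih]
    simp only [mem_bU, mem_img]
    constructor
    · rintro ((h | ⟨i, hi, u, hu, v, hv, w, hw, h⟩) | ⟨u, hu, v, hv, w, hw, h⟩)
      · exact Or.inl h
      · exact Or.inr ⟨i, by omega, u, hu, v, hv, w, hw, h⟩
      · exact Or.inr ⟨n, by omega, u, hu, v, hv, w, hw, h.symm⟩
    · rintro (h | ⟨i, hi, u, hu, v, hv, w, hw, h⟩)
      · exact Or.inl (Or.inl h)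
      · rcases Nat.lt_succ_iff_lt_or_eq.1 hi with h1 | rfl
        · exact Or.inl (Or.inr ⟨i, h1, u, hu, v, hv, w, hw, h⟩)
        · exact Or.inr ⟨u, hu, v, hv, w, hw, h.symm⟩

theorem mem_Step {A z : V} : z ∈ Step A ↔ z ∈ (insert A A : V) ∨
    ∃ i < 13, ∃ u ∈ (insert A A : V), ∃ v ∈ (insert A A : V), ∃ w ∈ (insert A A : V),
      z = op i u v w := mem_stepN

theorem subset_Step (A : V) : A ⊆ Step A := fun _ hx =>
  mem_Step.2 (Or.inl (ZFSet.mem_insert_of_mem _ hx))

theorem self_mem_Step (A : V) : A ∈ Step A := mem_Step.2 (Or.inl (ZFSet.mem_insert _ _))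

theorem op_mem_Step {A : V} {i : ℕ} (hi : i < 13) {u v w : V} (hu : u ∈ (insert A A : V))
    (hv : v ∈ (insert A A : V)) (hw : w ∈ (insert A A : V)) : op i u v w ∈ Step A :=
  mem_Step.2 (Or.inr ⟨i, hi, u, hu, v, hv, w, hw, rfl⟩)

theorem d1_stepN (n : ℕ) : D1 (stepN n) := by
  induction n with
  | zero => exact DT.insert (DT.var 0) (DT.var 0)
  | succ n ih =>
    refine DT.union ih ?_
    refine DT.bU (F := fun W u v => bU (insert (v 0) (v 0)) (fun v' =>
      img (fun w => op n u v' w) (insert (v 0) (v 0)))) (DT.insert (DT.var 0) (DT.var 0)) ?_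
    refine DT.bU (F := fun W v' v => img (fun w => op n (v 0) v' w) (insert (v 1) (v 1)))
      (DT.insert (DT.var 1) (DT.var 1)) ?_
    exact DT.img (F := fun W w v => op n (v 1) (v 0) w) (DT.insert (DT.var 2) (DT.var 2))
      ((d3_op n).app (DT.var 2) (DT.var 1) (DT.var 0))

theorem d1_Step : D1 Step := d1_stepN 13

/-- `A` is a transitive set. -/
def TrS (A : V) : Prop := ∀ x ∈ A, ∀ y ∈ x, y ∈ A

theorem TrS.subset {A : V} (hA : TrS A) {u : V} (hu : u ∈ (insert A A : V)) {x : V} (hx : x ∈ u) :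
    x ∈ A := by
  rcases ZFSet.mem_insert_iff.1 hu with rfl | hu
  · exact hx
  · exact hA u hu x hx

theorem TrS.of_pair {A : V} (hA : TrS A) {x y : V} (h : pair x y ∈ A) : x ∈ A ∧ y ∈ A := by
  have h1 : ({x, y} : V) ∈ A := hA _ h _ (by simp [ZFSet.pair])
  exact ⟨hA _ h1 _ (by simp), hA _ h1 _ (by simp)⟩

theorem TrS.Step {A : V} (hA : TrS A) : TrS (Step A) := by
  have hsub : ∀ {x}, x ∈ A → x ∈ (insert A A : V) := fun h => ZFSet.mem_insert_of_mem _ h
  have hA' : A ∈ (insert A A : V) := ZFSet.mem_insert _ _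
  have hP : ∀ {u v}, u ∈ (insert A A : V) → v ∈ (insert A A : V) → ({u, v} : V) ∈ NUC.Step A :=
    fun hu hv => op_mem_Step (i := 0) (by omega) hu hv hA'
  have hS : ∀ {u}, u ∈ (insert A A : V) → ({u} : V) ∈ NUC.Step A := fun hu => by
    have := hP hu hu
    rwa [ZFSet.pair_eq_singleton] at this
  have hO : ∀ {u v}, u ∈ (insert A A : V) → v ∈ (insert A A : V) → pair u v ∈ NUC.Step A :=
    fun hu hv => op_mem_Step (i := 1) (by omega) hu hv hA'
  have hT : ∀ {u v w}, u ∈ (insert A A : V) → v ∈ (insert A A : V) → w ∈ (insert A A : V) →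
      pair u (pair v w) ∈ NUC.Step A :=
    fun hu hv hw => op_mem_Step (i := 3) (by omega) hu hv hw
  intro x hx y hy
  rcases mem_Step.1 hx with hx | ⟨i, hi, u, hu, v, hv, w, hw, rfl⟩
  · exact subset_Step A (hA.subset hx hy)
  · have hr : ∀ r : V → V → Prop, y ∈ relOp r u v → y ∈ NUC.Step A := by
      intro r hy
      obtain ⟨a, ha, b, hb, t, ht, _, rfl⟩ := mem_relOp.1 hy
      exact hT (hsub (hA.subset hu ha)) (hsub (hA.subset hu hb)) (hsub (hA.subset hv ht))
    match i with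
    | 0 =>
      rcases ZFSet.mem_pair.1 (show y ∈ ({u, v} : V) from hy) with rfl | rfl
      · exact mem_Step.2 (Or.inl hu)
      · exact mem_Step.2 (Or.inl hv)
    | 1 =>
      rcases ZFSet.mem_pair.1 (show y ∈ ({{u}, {u, v}} : V) from hy) with rfl | rfl
      · exact hS hu
      · exact hP hu hv
    | 2 =>
      rcases ZFSet.mem_pair.1 (show y ∈ ({u, pair v w} : V) from hy) with rfl | rfl
      · exact mem_Step.2 (Or.inl hu)
      · exact hO hv hw
    | 3 =>
      rcases ZFSet.mem_pair.1 (show y ∈ ({{u}, {u, pair v w}} : V) from hy) with rfl | rfl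
      · exact hS hu
      · exact op_mem_Step (i := 2) (by omega) hu hv hw
    | 4 =>
      obtain ⟨z, hz, hyz⟩ := ZFSet.mem_sUnion.1 (show y ∈ ZFSet.sUnion u from hy)
      exact subset_Step A (hA z (hA.subset hu hz) y hyz)
    | 5 =>
      exact subset_Step A (hA.subset hu (ZFSet.mem_sdiff.1 (show y ∈ u \ v from hy)).1)
    | 6 =>
      obtain ⟨a, ha, b, hb, rfl⟩ := ZFSet.mem_prod.1 (show y ∈ ZFSet.prod u v from hy)
      exact hO (hsub (hA.subset hu ha)) (hsub (hA.subset hv hb))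
    | 7 =>
      obtain ⟨b, hb⟩ := mem_dom.1 (show y ∈ dom u from hy)
      exact subset_Step A (hA.of_pair (hA.subset hu hb)).1
    | 8 =>
      obtain ⟨b, hb⟩ := mem_ran.1 (show y ∈ ran u from hy)
      exact subset_Step A (hA.of_pair (hA.subset hu hb)).2
    | 9 =>
      obtain ⟨a, b, hb, t, ht, rfl⟩ := mem_insOp.1 (show y ∈ insOp u v from hy)
      have h1 := hA.of_pair (hA.subset hv ht)
      exact hT (hsub h1.1) (hsub (hA.subset hu hb)) (hsub h1.2)
    | 10 => exact hr _ hy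
    | 11 => exact hr _ hy
    | 12 => exact hr _ hy

/-- The levels of the constructible hierarchy over `X`, indexed by arbitrary sets (the level only
depends on the rank of the index). -/
noncomputable def S (X x : V) : V :=
  X ∪ ZFSet.sUnion (ZFSet.range (fun y : x => Step (S X y.1)))
termination_by x
decreasing_by exact y.2

theorem S_eq (X x : V) : S X x = X ∪ bU x (fun y => Step (S X y)) := by
  rw [S]
  rfl

theorem mem_S {X x z : V} : z ∈ S X x ↔ z ∈ X ∨ ∃ y ∈ x, z ∈ Step (S X y) := by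
  rw [S_eq, ZFSet.mem_union, mem_bU]

theorem d2_S : D2 S := by
  refine D2.of_memRec (H := fun X x f => X ∪ bU x (fun y => Step (app f y))) ?_ ?_
  · refine DT.union (DT.var 0) ?_
    exact DT.bU (F := fun W y v => Step (app (v 2) y)) (DT.var 1)
      (d1_Step.app (DT.app (DT.var 3) (DT.var 0)))
  · intro X x
    rw [S_eq]
    congr 1
    unfold bU
    congr 1
    exact img_congr fun y hy => by rw [app_gr hy]

theorem subset_S (X x : V) : X ⊆ S X x := fun _ h => mem_S.2 (Or.inl h)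

theorem Step_subset_S {X x y : V} (h : y ∈ x) : Step (S X y) ⊆ S X x :=
  fun _ hz => mem_S.2 (Or.inr ⟨y, h, hz⟩)

theorem S_rank_aux (X : V) (o : Ordinal.{0}) :
    (∀ x y : V, x.rank < y.rank → y.rank = o → Step (S X x) ⊆ S X y) ∧
    (∀ x y : V, x.rank = o → y.rank = o → S X x ⊆ S X y) := by
  induction o using WellFoundedLT.induction with
  | _ o ih =>
    have h1 : ∀ x y : V, x.rank < y.rank → y.rank = o → Step (S X x) ⊆ S X y := by
      intro x y hxy hy
      obtain ⟨y', hy', hr⟩ := ZFSet.lt_rank_iff.1 hxy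
      have hlt : y'.rank < o := hy ▸ ZFSet.rank_lt_of_mem hy'
      rcases hr.lt_or_eq with hr | hr
      · intro z hz
        exact Step_subset_S hy' (subset_Step _ ((ih _ hlt).1 x y' hr rfl hz))
      · have h2 : S X x = S X y' := by
          apply ZFSet.ext
          intro z
          exact ⟨fun hz => (ih _ hlt).2 x y' hr rfl hz, fun hz => (ih _ hlt).2 y' x rfl hr hz⟩
        rw [h2]
        exact Step_subset_S hy'
    refine ⟨h1, fun x y hx hy z hz => ?_⟩
    rcases mem_S.1 hz with hz | ⟨x', hx', hz⟩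
    · exact subset_S X y hz
    · refine h1 x' y ?_ hy hz
      rw [hy, ← hx]
      exact ZFSet.rank_lt_of_mem hx'

theorem Step_subset_of_rank {X x y : V} (h : x.rank < y.rank) : Step (S X x) ⊆ S X y :=
  (S_rank_aux X _).1 x y h rfl

theorem S_mono {X x y : V} (h : x.rank ≤ y.rank) : S X x ⊆ S X y := by
  rcases h.lt_or_eq with h | h
  · exact fun z hz => Step_subset_of_rank h (subset_Step _ hz)
  · exact (S_rank_aux X _).2 x y h rfl

theorem S_congr {X x y : V} (h : x.rank = y.rank) : S X x = S X y := by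
  apply ZFSet.ext
  intro z
  exact ⟨fun hz => S_mono h.le hz, fun hz => S_mono h.ge hz⟩

theorem S_mem_S {X x y : V} (h : x.rank < y.rank) : S X x ∈ S X y :=
  Step_subset_of_rank h (self_mem_Step _)

theorem TrS.S {X : V} (hX : TrS X) (x : V) : TrS (S X x) := by
  induction x using ZFSet.inductionOn with
  | _ x ih =>
    intro z hz y hy
    rcases mem_S.1 hz with hz | ⟨x', hx', hz⟩
    · exact subset_S X x (hX z hz y hy)
    · exact Step_subset_S hx' ((ih x' hx').Step z hz y hy)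

theorem rank_le_rank_S (X x : V) : x.rank ≤ (S X x).rank := by
  induction x using ZFSet.inductionOn with
  | _ x ih =>
    rw [ZFSet.rank_le_iff]
    intro y hy
    exact (ih y hy).trans_lt (ZFSet.rank_lt_of_mem (S_mem_S (ZFSet.rank_lt_of_mem hy)))

/-- The class of sets constructible over `X` with the ordinals (ranks) of `W`. -/
def LL (X : V) (W : Set V) : Set V := {z | ∃ x ∈ W, z ∈ S X x}

theorem LL_mono {X : V} {W W' : Set V} (h : ∀ x ∈ W, ∃ y ∈ W', x.rank ≤ y.rank) :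
    LL X W ⊆ LL X W' := by
  rintro z ⟨x, hx, hz⟩
  obtain ⟨y, hy, hxy⟩ := h x hx
  exact ⟨y, hy, S_mono hxy hz⟩

theorem LL_trans {X : V} (hX : TrS X) (W : Set V) : Trans (LL X W) := by
  rintro z ⟨x, hx, hz⟩ y hy
  exact ⟨x, hx, hX.S x z hz y hy⟩

theorem LL_subset {X : V} {W : Set V} (hW : Nice W) (hX : X ∈ W) : LL X W ⊆ W := by
  rintro z ⟨x, hx, hz⟩
  exact hW.memOf (d2_S.mem hW hX hx) hz

theorem S_mem_LL {X : V} {W : Set V} (hW : Nice W) {x : V} (hx : x ∈ W) : S X x ∈ LL X W := by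
  refine ⟨insert x x, hW.insert hx hx, S_mem_S ?_⟩
  exact ZFSet.rank_lt_of_mem (ZFSet.mem_insert _ _)

theorem subset_LL {X : V} {W : Set V} (hW : Nice W) {x : V} (hx : x ∈ X) : x ∈ LL X W :=
  ⟨∅, hW.empty_mem, subset_S _ _ hx⟩

/-- Ranks in `LL X W` are cofinal in the ranks of `W`. -/
theorem exists_LL_rank {X : V} {W : Set V} (hW : Nice W) {x : V} (hx : x ∈ W) :
    ∃ y ∈ LL X W, x.rank ≤ y.rank := ⟨_, S_mem_LL hW hx, rank_le_rank_S X x⟩

end Pool.Agent.NUC
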