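import Pool.Agent.Lib.MP_bf67b0_lc.NUC.Inter

/-!
# The model `N`
-/

namespace Pool.Agent.NUC

open ZFSet (pair)

/-- `0-1`-valued real of a Boolean sequence. -/
def bt (z : ℕ → Bool) : ℕ → ℕ := fun n => (z n).toNat

theorem bt_inj {z w : ℕ → Bool} : bt z = bt w ↔ z = w := by
  constructor
  · intro h
    funext n
    exact toNat_inj.1 (congrFun h n)
  · rintro rfl
    rfl

/-- The set of the codes of the `0-1`-valued reals of `M`. -/
noncomputable def DM (M : Set V) : V :=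
  ZFSet.range (fun z : {z : ℕ → Bool // rl (bt z) ∈ M} => rl (bt z.1))

theorem mem_DM {M : Set V} {t : V} : t ∈ DM M ↔ ∃ z, rl (bt z) ∈ M ∧ t = rl (bt z) := by
  unfold DM
  rw [ZFSet.mem_range]
  constructor
  · rintro ⟨⟨z, hz⟩, rfl⟩
    exact ⟨z, hz, rfl⟩
  · rintro ⟨z, hz, rfl⟩
    exact ⟨⟨z, hz⟩, rfl⟩

/-- The set of all codes of reals of `W`. -/
theorem exists_reals_set {W : Set V} (hW : Nice W) : ∃ y ∈ W, ∀ x, x ∈ Reals W → rl x ∈ y := by
  have h : ZFSet.prod ZFSet.omega ZFSet.omega ∈ W :=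
    (DT.prod DT.omega DT.omega).mem W hW (fun _ => ∅) hW.in_const
  obtain ⟨y, hy, hy'⟩ := hW.pow _ h
  refine ⟨y, hy, fun x hx => hy' _ hx ?_⟩
  intro z hz
  obtain ⟨n, rfl⟩ := mem_rl.1 hz
  exact ZFSet.pair_mem_prod.2 ⟨nat_mem_omega _, nat_mem_omega _⟩

theorem DM_mem {M : Set V} (hM : Nice M) : DM M ∈ M := by
  obtain ⟨y, hy, hy'⟩ := exists_reals_set hM
  have hR : Dfn (fun _ v => IsRl (v 0) ∧ ∀ n ∈ ZFSet.omega, app (v 0) n ∈ nat 2) := by
    refine DC.and (r1_isRl.app (DT.var 0)) ?_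
    exact Dfn.ball (P := fun W n v => app (v 0) n ∈ nat 2) DT.omega
      (Dfn.mem (DT.app (DT.var 1) (DT.var 0)) (DT.nat 2))
  have h := hM.sepD hR (v := fun _ => ∅) hM.in_const hy
  convert h using 1
  apply ZFSet.ext
  intro t
  rw [mem_DM, ZFSet.mem_sep]
  constructor
  · rintro ⟨z, hz, rfl⟩
    refine ⟨hy' _ hz, ⟨_, rfl⟩, ?_⟩
    intro n hn
    obtain ⟨n, rfl⟩ := mem_omega.1 hn
    show app (rl (bt z)) (nat n) ∈ nat 2
    rw [app_rl, nat_mem_nat]
    unfold bt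
    cases z n <;> simp
  · rintro ⟨ht, ⟨x, hx⟩, h1⟩
    have hx' : t = rl x := hx
    subst hx'
    have h2 : ∀ n, x n < 2 := by
      intro n
      have h3 : app (rl x) (nat n) ∈ nat 2 := h1 (nat n) (nat_mem_omega n)
      rwa [app_rl, nat_mem_nat] at h3
    refine ⟨fun n => x n == 1, ?_, ?_⟩
    · have : bt (fun n => x n == 1) = x := by
        funext n
        have h4 := h2 n
        have h5 : x n = 0 ∨ x n = 1 := by omega
        rcases h5 with h5 | h5 <;> simp [bt, h5]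
      rw [this]
      exact hM.memOf hy ht
    · congr 1
      funext n
      have h4 := h2 n
      have h5 : x n = 0 ∨ x n = 1 := by omega
      rcases h5 with h5 | h5 <;> simp [bt, h5]

/-- The code of column `k` of `H` plus `Z`. -/
noncomputable def colx (H k Z : V) : V :=
  gr (fun n => xorV (app H (pair k n)) (app Z n)) ZFSet.omega

theorem d3_colx : D3 colx :=
  DT.gr (F := fun W n v => xorV (app (v 0) (pair (v 1) n)) (app (v 2) n)) DT.omega
    (d2_xorV.app (DT.app (DT.var 1) (DT.pair (DT.var 2) (DT.var 0)))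
      (DT.app (DT.var 3) (DT.var 0)))

theorem colx_eq {H : V} {h : HH} {k : ℕ} (hH : ∀ n, app H (pair (nat k) (nat n)) =
    nat (h k n).toNat) (z : ℕ → Bool) :
    colx H (nat k) (rl (bt z)) = rl (bt (fun n => xor (h k n) (z n))) := by
  symm
  apply rl_eq_gr
  intro n
  rw [hH, app_rl]
  exact xorV_nat _ _

theorem colx_hs (h : HH) (k : ℕ) (z : ℕ → Bool) :
    colx (hs h) (nat k) (rl (bt z)) = rl (bt (fun n => xor (h k n) (z n))) :=
  colx_eq (fun n => app_hs h k n) z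

/-- The code of the sequence of the sets `A_k`, as a function of the graph of `h` and `D_M`. -/
noncomputable def AAF (H D : V) : V := bU ZFSet.omega (fun k => img (fun Z => pair k (colx H k Z)) D)

theorem d2_AAF : D2 AAF := by
  refine DT.bU (F := fun W k v => img (fun Z => pair k (colx (v 0) k Z)) (v 1)) DT.omega ?_
  exact DT.img (F := fun W Z v => pair (v 0) (colx (v 1) (v 0) Z)) (DT.var 2)
    (DT.pair (DT.var 1) (d3_colx.app (DT.var 2) (DT.var 1) (DT.var 0)))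

noncomputable def AA (M : Set V) (h : HH) : V := AAF (hs h) (DM M)

theorem mem_AA {M : Set V} {h : HH} {t : V} : t ∈ AA M h ↔ ∃ (k : ℕ) (z : ℕ → Bool),
    rl (bt z) ∈ M ∧ t = pair (nat k) (rl (bt (fun n => xor (h k n) (z n)))) := by
  unfold AA AAF
  simp only [mem_bU, mem_img, mem_DM]
  constructor
  · rintro ⟨_, hk, _, ⟨z, hz, rfl⟩, rfl⟩
    obtain ⟨k, rfl⟩ := mem_omega.1 hk
    exact ⟨k, z, hz, by rw [colx_hs]⟩
  · rintro ⟨k, z, hz, rfl⟩
    exact ⟨_, nat_mem_omega k, _, ⟨z, hz, rfl⟩, by rw [colx_hs]⟩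

/-- The sets `A_k`. -/
def Ak (M : Set V) (h : HH) (k : ℕ) : Set (ℕ → ℕ) :=
  {x | ∃ z : ℕ → Bool, rl (bt z) ∈ M ∧ x = bt (fun n => xor (h k n) (z n))}

theorem seqCode_Ak (M : Set V) (h : HH) : seqCode (Ak M h) = AA M h := by
  apply ZFSet.ext
  intro t
  unfold seqCode
  rw [ZFSet.mem_range, mem_AA]
  constructor
  · rintro ⟨⟨⟨k, x⟩, hx⟩, rfl⟩
    obtain ⟨z, hz, hx⟩ := hx
    refine ⟨k, z, hz, ?_⟩
    show pair (nat k) (rl x) = _
    have hx' : x = bt (fun n => xor (h k n) (z n)) := hx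
    rw [hx']
  · rintro ⟨k, z, hz, rfl⟩
    exact ⟨⟨⟨k, _⟩, z, hz, rfl⟩, rfl⟩

/-! ### Transitive closure -/

/-- The transitive closure of `{x}`. -/
noncomputable def tcl (x : V) : V :=
  insert x (ZFSet.sUnion (ZFSet.range (fun y : x => tcl y.1)))
termination_by x
decreasing_by exact y.2

theorem tcl_eq (x : V) : tcl x = insert x (bU x tcl) := by
  rw [tcl]
  rfl

theorem mem_tcl {x z : V} : z ∈ tcl x ↔ z = x ∨ ∃ y ∈ x, z ∈ tcl y := by
  rw [tcl_eq, ZFSet.mem_insert_iff, mem_bU]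

theorem self_mem_tcl (x : V) : x ∈ tcl x := mem_tcl.2 (Or.inl rfl)

theorem d1_tcl : D1 tcl := by
  refine D1.of_memRec (H := fun x f => insert x (bU x (fun y => app f y))) ?_ ?_
  · exact DT.insert (DT.var 0) (DT.bU (F := fun W y v => app (v 1) y) (DT.var 0)
      (DT.app (DT.var 2) (DT.var 0)))
  · intro x
    rw [tcl_eq]
    unfold bU
    congr 2
    exact img_congr fun y hy => by rw [app_gr hy]

theorem tcl_trS (x : V) : TrS (tcl x) := by
  induction x using ZFSet.inductionOn with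
  | _ x ih =>
    intro z hz y hy
    rcases mem_tcl.1 hz with rfl | ⟨w, hw, hz⟩
    · exact mem_tcl.2 (Or.inr ⟨y, hy, self_mem_tcl y⟩)
    · exact mem_tcl.2 (Or.inr ⟨w, hw, ih w hw z hz y hy⟩)

theorem tcl_subset {W : Set V} (hW : Trans W) {x : V} (hx : x ∈ W) {z : V} (hz : z ∈ tcl x) :
    z ∈ W := by
  induction x using ZFSet.inductionOn with
  | _ x ih =>
    rcases mem_tcl.1 hz with rfl | ⟨w, hw, hz⟩
    · exact hx
    · exact ih w hw (hW x hx w hw) hz

/-! ### The model -/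

noncomputable def XX (M : Set V) (h : HH) : V := tcl (AA M h)

/-- The model `N`. -/
def NN (M : Set V) (h : HH) : Set V := LL (XX M h) (MG M h)

/-- The graph of the columns below `j`. -/
noncomputable def gsF (H j : V) : V := ZFSet.sep (fun t => fst (fst t) ∈ j) H

theorem d2_gsF : D2 gsF :=
  DT.sep (P := fun W t v => fst (fst t) ∈ v 1) (DT.var 0)
    (Dfn.mem (DT.fst (DT.fst (DT.var 0))) (DT.var 2))

noncomputable def gs (h : HH) (j : ℕ) : V := gsF (hs h) (nat j)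

theorem mem_gs {h : HH} {j : ℕ} {t : V} : t ∈ gs h j ↔ ∃ a b, a < j ∧ t = pt a b (h a b) := by
  unfold gs gsF
  rw [ZFSet.mem_sep, mem_hs]
  constructor
  · rintro ⟨⟨a, b, rfl⟩, h1⟩
    unfold pt at h1
    rw [fst_pair, fst_pair, nat_mem_nat] at h1
    exact ⟨a, b, h1, rfl⟩
  · rintro ⟨a, b, h1, rfl⟩
    refine ⟨⟨a, b, rfl⟩, ?_⟩
    unfold pt
    rw [fst_pair, fst_pair, nat_mem_nat]
    exact h1

theorem pt_mem_gs {h : HH} {j a b : ℕ} {c : Bool} : pt a b c ∈ gs h j ↔ a < j ∧ h a b = c := by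
  rw [mem_gs]
  constructor
  · rintro ⟨a', b', h1, h2⟩
    obtain ⟨rfl, rfl, rfl⟩ := pt_inj.1 h2
    exact ⟨h1, rfl⟩
  · rintro ⟨h1, rfl⟩
    exact ⟨a, b, h1, rfl⟩

theorem gs_congr {h h' : HH} {j : ℕ} (H : ∀ a b, a < j → h a b = h' a b) : gs h j = gs h' j := by
  apply ZFSet.ext
  intro t
  rw [mem_gs, mem_gs]
  constructor
  · rintro ⟨a, b, ha, rfl⟩
    exact ⟨a, b, ha, by rw [H a b ha]⟩
  · rintro ⟨a, b, ha, rfl⟩
    exact ⟨a, b, ha, by rw [H a b ha]⟩

theorem gsF_gs {h : HH} {j j' : ℕ} (hj : j ≤ j') : gsF (gs h j') (nat j) = gs h j := by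
  apply ZFSet.ext
  intro t
  unfold gsF
  rw [ZFSet.mem_sep, mem_gs, mem_gs]
  constructor
  · rintro ⟨⟨a, b, _, rfl⟩, h1⟩
    unfold pt at h1
    rw [fst_pair, fst_pair, nat_mem_nat] at h1
    exact ⟨a, b, h1, rfl⟩
  · rintro ⟨a, b, h1, rfl⟩
    refine ⟨⟨a, b, by omega, rfl⟩, ?_⟩
    unfold pt
    rw [fst_pair, fst_pair, nat_mem_nat]
    exact h1

theorem app_gs {h : HH} {j k : ℕ} (hk : k < j) (n : ℕ) :
    app (gs h j) (pair (nat k) (nat n)) = nat (h k n).toNat := by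
  refine app_eq (pt_mem_gs.2 ⟨hk, rfl⟩) fun y hy => ?_
  obtain ⟨a', b', _, h1⟩ := mem_gs.1 hy
  unfold pt at h1
  obtain ⟨h2, h3⟩ := ZFSet.pair_inj.1 h1
  obtain ⟨h4, h5⟩ := ZFSet.pair_inj.1 h2
  rw [h3, nat_inj.1 h4, nat_inj.1 h5]

/-- The ground models. -/
structure Ground (M : Set V) : Prop where
  nice : Nice M
  count : M.Countable
  cons : ∀ x ∈ M, x ∈ LL ∅ M

section

variable {M : Set V} (hM : Ground M) {h : HH} (hh : Gen M h)
include hM hh

theorem DM_mem_MG : DM M ∈ MG M h := subset_MG hM.nice hh (DM_mem hM.nice)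

theorem AA_mem_MG : AA M h ∈ MG M h :=
  d2_AAF.mem (MG_nice hM.nice hh) (hs_mem_MG hM.nice hh) (DM_mem_MG hM hh)

theorem XX_mem_MG : XX M h ∈ MG M h := d1_tcl.mem (MG_nice hM.nice hh) (AA_mem_MG hM hh)

omit hM hh in
theorem XX_trS : TrS (XX M h) := tcl_trS _

theorem NN_nice : Nice (NN M h) := LL_nice (MG_nice hM.nice hh) (XX_mem_MG hM hh) (tcl_trS _)

theorem NN_subset_MG : NN M h ⊆ MG M h := LL_subset (MG_nice hM.nice hh) (XX_mem_MG hM hh)

theorem AA_mem_NN : AA M h ∈ NN M h :=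
  subset_LL (MG_nice hM.nice hh) (self_mem_tcl _)

theorem NN_rank {x : V} (hx : x ∈ M) : ∃ y ∈ NN M h, x.rank ≤ y.rank :=
  exists_LL_rank (MG_nice hM.nice hh) (subset_MG hM.nice hh hx)

theorem M_subset_NN : M ⊆ NN M h := by
  intro x hx
  obtain ⟨y, hy, hxy⟩ := hM.cons x hx
  obtain ⟨y', hy', hr⟩ := NN_rank hM hh hy
  have hN := NN_nice hM hh
  exact hN.memOf (d2_S.mem hN hN.empty_mem hy') (S_mono hr hxy)

theorem rl_col_mem_NN (k : ℕ) : rl (bt (h k)) ∈ NN M h := by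
  have hN := NN_nice hM hh
  have h0 : rl (bt (fun _ => false)) ∈ M :=
    Reals.of_D1 hM.nice (F := fun _ => ∅) DT.empty (fun n => rfl)
  have h1 : pair (nat k) (rl (bt (h k))) ∈ AA M h :=
    mem_AA.2 ⟨k, fun _ => false, h0, by simp⟩
  exact (hN.of_pair (hN.memOf (AA_mem_NN hM hh) h1)).2

theorem gs_mem_NN (j : ℕ) : gs h j ∈ NN M h := by
  have hN := NN_nice hM hh
  induction j with
  | zero =>
    have : gs h 0 = ∅ := by
      apply ZFSet.ext
      intro t
      rw [mem_gs]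
      simp
    rw [this]
    exact hN.empty_mem
  | succ j ih =>
    have h1 : gs h (j + 1) = gs h j ∪
        img (fun n => pair (pair (nat j) n) (app (rl (bt (h j))) n)) ZFSet.omega := by
      apply ZFSet.ext
      intro t
      rw [ZFSet.mem_union, mem_gs, mem_gs, mem_img]
      constructor
      · rintro ⟨a, b, ha, rfl⟩
        rcases Nat.lt_succ_iff_lt_or_eq.1 ha with h2 | rfl
        · exact Or.inl ⟨a, b, h2, rfl⟩
        · exact Or.inr ⟨nat b, nat_mem_omega b, by rw [app_rl]; rfl⟩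
      · rintro (⟨a, b, ha, rfl⟩ | ⟨x, hx, rfl⟩)
        · exact ⟨a, b, by omega, rfl⟩
        · obtain ⟨b, rfl⟩ := mem_omega.1 hx
          exact ⟨j, b, by omega, by rw [app_rl]; rfl⟩
    have h2 : DT (fun _ v => img (fun n => pair (pair (v 0) n) (app (v 1) n)) ZFSet.omega) :=
      DT.img (F := fun W n v => pair (pair (v 0) n) (app (v 1) n)) DT.omega
        (DT.pair (DT.pair (DT.var 1) (DT.var 0)) (DT.app (DT.var 2) (DT.var 0)))
    rw [h1]
    exact hN.union ih (h2.mem _ hN (cons (nat j) fun _ => rl (bt (h j)))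
      (In.cons (hN.nat j) fun _ => rl_col_mem_NN hM hh j))

omit hh in
/-- Columns of elements of `M` are in `M`. -/
theorem col_mem {z : HH} (hz : hs z ∈ M) (k : ℕ) : rl (bt (z k)) ∈ M := by
  have h1 : rl (bt (z k)) = gr (fun n => app (hs z) (pair (nat k) n)) ZFSet.omega :=
    rl_eq_gr fun n => by rw [app_hs]; rfl
  have h2 : DT (fun _ v => gr (fun n => app (v 0) (pair (v 1) n)) ZFSet.omega) :=
    DT.gr (F := fun W n v => app (v 0) (pair (v 1) n)) DT.omega
      (DT.app (DT.var 1) (DT.pair (DT.var 2) (DT.var 0)))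
  rw [h1]
  exact h2.mem M hM.nice (cons (hs z) fun _ => nat k) (In.cons hz fun _ => hM.nice.nat k)

omit hh in
theorem xor_mem {z w : ℕ → Bool} (hz : rl (bt z) ∈ M) (hw : rl (bt w) ∈ M) :
    rl (bt (fun n => xor (z n) (w n))) ∈ M := by
  have h1 : rl (bt (fun n => xor (z n) (w n))) =
      gr (fun n => xorV (app (rl (bt z)) n) (app (rl (bt w)) n)) ZFSet.omega :=
    rl_eq_gr fun n => by rw [app_rl, app_rl]; exact xorV_nat _ _
  have h2 : DT (fun _ v => gr (fun n => xorV (app (v 0) n) (app (v 1) n)) ZFSet.omega) :=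
    DT.gr (F := fun W n v => xorV (app (v 0) n) (app (v 1) n)) DT.omega
      (d2_xorV.app (DT.app (DT.var 1) (DT.var 0)) (DT.app (DT.var 2) (DT.var 0)))
  rw [h1]
  exact h2.mem M hM.nice (cons _ fun _ => _) (In.cons hz fun _ => hw)

omit hh in
theorem AA_add {z : HH} (hz : hs z ∈ M) (h : HH) : AA M (hadd h z) = AA M h := by
  have key : ∀ h : HH, AA M (hadd h z) ⊆ AA M h := by
    intro h t ht
    obtain ⟨k, w, hw, rfl⟩ := mem_AA.1 ht
    refine mem_AA.2 ⟨k, fun n => xor (z k n) (w n), xor_mem hM (col_mem hM hz k) hw, ?_⟩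
    simp [hadd]
  apply ZFSet.ext
  intro t
  refine ⟨fun ht => key h ht, fun ht => ?_⟩
  have := key (hadd h z)
  rw [hadd_hadd] at this
  exact this ht

theorem NN_add {z : HH} (hz : hs z ∈ M) : NN M (hadd h z) = NN M h := by
  unfold NN XX
  rw [AA_add hM hz, MG_add hM.nice hh hz]

end

/-! ### Support -/

/-- `y` is a definable function of `AA h`, `gs h j` and a parameter in `M`. -/
def Supp (M : Set V) (h : HH) (j : ℕ) (y : V) : Prop :=
  ∃ F : V → V → V → V, D3 F ∧ ∃ a ∈ M, y = F (AA M h) (gs h j) a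

section

variable {M : Set V} (hM : Ground M) {h : HH}
include hM

theorem Supp.mono {j j' : ℕ} (hj : j ≤ j') {y : V} (hy : Supp M h j y) : Supp M h j' y := by
  obtain ⟨F, hF, a, ha, rfl⟩ := hy
  refine ⟨fun A g p => F A (gsF g (snd p)) (fst p), ?_, pair a (nat j),
    hM.nice.pair ha (hM.nice.nat j), ?_⟩
  · exact hF.app (DT.var 0) (d2_gsF.app (DT.var 1) (DT.snd (DT.var 2))) (DT.fst (DT.var 2))
  · simp only [fst_pair, snd_pair, gsF_gs hj]

theorem Supp.of_mem {j : ℕ} {y : V} (hy : y ∈ M) : Supp M h j y :=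
  ⟨fun _ _ a => a, DT.var 2, y, hy, rfl⟩

theorem Supp.map3 {G : V → V → V → V} (hG : D3 G) {j : ℕ} {x y z : V} (hx : Supp M h j x)
    (hy : Supp M h j y) (hz : Supp M h j z) : Supp M h j (G x y z) := by
  obtain ⟨F1, hF1, a1, ha1, rfl⟩ := hx
  obtain ⟨F2, hF2, a2, ha2, rfl⟩ := hy
  obtain ⟨F3, hF3, a3, ha3, rfl⟩ := hz
  refine ⟨fun A g p => G (F1 A g (fst p)) (F2 A g (fst (snd p))) (F3 A g (snd (snd p))), ?_,
    pair a1 (pair a2 a3), hM.nice.pair ha1 (hM.nice.pair ha2 ha3), ?_⟩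
  · exact hG.app (hF1.app (DT.var 0) (DT.var 1) (DT.fst (DT.var 2)))
      (hF2.app (DT.var 0) (DT.var 1) (DT.fst (DT.snd (DT.var 2))))
      (hF3.app (DT.var 0) (DT.var 1) (DT.snd (DT.snd (DT.var 2))))
  · simp only [fst_pair, snd_pair]

theorem Supp.map3' {G : V → V → V → V} (hG : D3 G) {x y z : V} (hx : ∃ j, Supp M h j x)
    (hy : ∃ j, Supp M h j y) (hz : ∃ j, Supp M h j z) : ∃ j, Supp M h j (G x y z) := by
  obtain ⟨j1, h1⟩ := hx
  obtain ⟨j2, h2⟩ := hy
  obtain ⟨j3, h3⟩ := hz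
  exact ⟨max j1 (max j2 j3), Supp.map3 hM hG (h1.mono hM (by omega)) (h2.mono hM (by omega))
    (h3.mono hM (by omega))⟩

theorem supp_XX {y : V} (hy : y ∈ XX M h) : ∃ j, Supp M h j y := by
  have hA : ∃ j, Supp M h j (AA M h) :=
    ⟨0, fun A _ _ => A, DT.var 0, ∅, hM.nice.empty_mem, rfl⟩
  rcases mem_tcl.1 hy with rfl | ⟨t, ht, hy⟩
  · exact hA
  · obtain ⟨k, z, hz, rfl⟩ := mem_AA.1 ht
    have hr : ∃ j, Supp M h j (rl (bt (fun n => xor (h k n) (z n)))) := by
      refine ⟨k + 1, fun _ g p => colx g (fst p) (snd p), ?_, pair (nat k) (rl (bt z)),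
        hM.nice.pair (hM.nice.nat k) hz, ?_⟩
      · exact d3_colx.app (DT.var 1) (DT.fst (DT.var 2)) (DT.snd (DT.var 2))
      · simp only [fst_pair, snd_pair, colx_eq (fun n => app_gs (Nat.lt_succ_self k) n)]
    have hk : ∃ j, Supp M h j (nat k) := ⟨0, Supp.of_mem hM (hM.nice.nat k)⟩
    have hyr : ∀ y, y ∈ tcl (rl (bt (fun n => xor (h k n) (z n)))) → ∃ j, Supp M h j y := by
      intro y hy
      rcases mem_tcl.1 hy with rfl | ⟨t', ht', hy⟩
      · exact hr
      · obtain ⟨n, rfl⟩ := mem_rl.1 ht'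
        exact ⟨0, Supp.of_mem hM (tcl_subset hM.nice.trans
          (hM.nice.pair (hM.nice.nat _) (hM.nice.nat _)) hy)⟩
    have hyk : ∀ y, y ∈ tcl (nat k) → ∃ j, Supp M h j y := fun y hy =>
      ⟨0, Supp.of_mem hM (tcl_subset hM.nice.trans (hM.nice.nat k) hy)⟩
    rcases mem_tcl.1 hy with rfl | ⟨s, hs', hy⟩
    · exact Supp.map3' hM (G := fun x y _ => pair x y) (DT.pair (DT.var 0) (DT.var 1)) hk hr hr
    · rcases ZFSet.mem_pair.1 (show s ∈ ({{nat k}, {nat k, rl (bt (fun n =>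
        xor (h k n) (z n)))}} : V) from hs') with rfl | rfl
      · rcases mem_tcl.1 hy with rfl | ⟨u, hu, hy⟩
        · exact Supp.map3' hM (G := fun x _ _ => {x}) (DT.singleton (DT.var 0)) hk hk hk
        · rw [ZFSet.mem_singleton.1 hu] at hy
          exact hyk y hy
      · rcases mem_tcl.1 hy with rfl | ⟨u, hu, hy⟩
        · exact Supp.map3' hM (G := fun x y _ => {x, y}) (DT.upair (DT.var 0) (DT.var 1)) hk hr hr
        · rcases ZFSet.mem_pair.1 hu with rfl | rfl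
          · exact hyk y hy
          · exact hyr y hy

/-- (S1) Every element of `N` has a finite support. -/
theorem supp_NN (hh : Gen M h) {y : V} (hy : y ∈ NN M h) : ∃ j, Supp M h j y := by
  have key : ∀ x : V, x ∈ M → ∀ z ∈ S (XX M h) x, ∃ j, Supp M h j z := by
    intro x
    induction x using ZFSet.inductionOn with
    | _ x ih =>
      intro hx z hz
      rcases mem_S.1 hz with hz | ⟨y, hy, hz⟩
      · exact supp_XX hM hz
      · have hyM : y ∈ M := hM.nice.memOf hx hy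
        have hA : ∃ j, Supp M h j (S (XX M h) y) :=
          ⟨0, fun A _ a => S (tcl A) a, d2_S.app (d1_tcl.app (DT.var 0)) (DT.var 2), y, hyM, rfl⟩
        have hu : ∀ u ∈ (insert (S (XX M h) y) (S (XX M h) y) : V), ∃ j, Supp M h j u := by
          intro u hu
          rcases ZFSet.mem_insert_iff.1 hu with rfl | hu
          · exact hA
          · exact ih y hy hyM u hu
        rcases mem_Step.1 hz with hz | ⟨i, _, u, hu', v, hv, w, hw, rfl⟩
        · exact hu z hz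
        · exact Supp.map3' hM (d3_op i) (hu u hu') (hu v hv) (hu w hw)
  obtain ⟨x, hx, hy⟩ := hy
  obtain ⟨x', hx', hr⟩ := MG_rank hx
  exact key x' hx' y (S_mono hr hy)

end

end Pool.Agent.NUC
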