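import Pool.Agent.Lib.MP_bf67b0_lc.NUC.NModel

/-!
# Truth in `N`, reals of `N`, and the failure of choice for the sets `A_k`
-/

namespace Pool.Agent.NUC

open ZFSet (pair)

/-- Evaluation of a simple name. -/
noncomputable def ev (X g : V) : V :=
  ZFSet.sep (fun e => ∃ p ∈ PP, p ⊆ g ∧ pair e p ∈ X) (dom X)

theorem mem_ev {X g e : V} : e ∈ ev X g ↔ ∃ p ∈ PP, p ⊆ g ∧ pair e p ∈ X := by
  unfold ev
  rw [ZFSet.mem_sep]
  constructor
  · exact fun h => h.2
  · rintro ⟨p, hp, hg, h⟩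
    exact ⟨mem_dom.2 ⟨p, h⟩, p, hp, hg, h⟩

theorem d2_ev : D2 ev := by
  refine DT.sep (P := fun W e v => ∃ p ∈ PP, p ⊆ v 1 ∧ pair e p ∈ v 0) (DT.dom (DT.var 0)) ?_
  refine Dfn.bex (P := fun W p v => p ⊆ v 2 ∧ pair (v 0) p ∈ v 1) DT.PP ?_
  exact DC.and (Dfn.subset (DT.var 0) (DT.var 3)) (Dfn.mem (DT.pair (DT.var 1) (DT.var 0)) (DT.var 2))

/-- A simple name `X` lives on the columns below `j`. -/
def OnCols (j : ℕ) (X : V) : Prop := ∀ e (F : Finset (ℕ × ℕ)) (g : HH), pair e (cd F g) ∈ X →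
  ∀ a b, (a, b) ∈ F → a < j

theorem ev_mono {X g g' : V} (h : g ⊆ g') : ev X g ⊆ ev X g' := by
  intro e he
  obtain ⟨p, hp, hg, h1⟩ := mem_ev.1 he
  exact mem_ev.2 ⟨p, hp, fun _ hx => h (hg hx), h1⟩

theorem gs_subset_hs (h : HH) (j : ℕ) : gs h j ⊆ hs h := by
  intro t ht
  obtain ⟨a, b, _, rfl⟩ := mem_gs.1 ht
  exact mem_hs.2 ⟨a, b, rfl⟩

theorem gs_subset_gs (h : HH) {j j' : ℕ} (hj : j ≤ j') : gs h j ⊆ gs h j' := by
  intro t ht
  obtain ⟨a, b, ha, rfl⟩ := mem_gs.1 ht
  exact mem_gs.2 ⟨a, b, by omega, rfl⟩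

/-- Names on the columns `< j` can be evaluated with the columns `< j` only. -/
theorem ev_onCols {j : ℕ} {X : V} (hX : OnCols j X) {h : HH} {g : V} (hg : gs h j ⊆ g)
    (hg' : g ⊆ hs h) : ev X g = ev X (gs h j) := by
  apply ZFSet.ext
  intro e
  refine ⟨fun he => ?_, fun he => ev_mono hg he⟩
  obtain ⟨p, hp, hpg, h1⟩ := mem_ev.1 he
  obtain ⟨F, g', rfl⟩ := mem_PP.1 hp
  refine mem_ev.2 ⟨_, hp, fun t ht => ?_, h1⟩
  obtain ⟨a, b, hab, rfl⟩ := mem_cd.1 ht
  have h2 := hg' (hpg ht)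
  rw [pt_mem_hs] at h2
  exact pt_mem_gs.2 ⟨hX e F g' h1 a b hab, h2⟩

section

variable {M : Set V} (hM : Ground M)
include hM

/-- The truth lemma for statements about `M[h]` with parameters `AA h`, `gs h j` and elements
of `M`. -/
theorem TLA {R : Set V → (ℕ → V) → Prop} (hR : Dfn R) {v : ℕ → V} (hv : In M v) {h : HH}
    (hh : Gen M h) (j : ℕ) (H : R (MG M h) (cons (hs h) (cons (AA M h) (cons (gs h j) v)))) :
    ∃ F : Finset (ℕ × ℕ), ∀ h', Gen M h' → (∀ a b, (a, b) ∈ F → h' a b = h a b) →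
      R (MG M h') (cons (hs h') (cons (AA M h') (cons (gs h' j) v))) := by
  have ht : ∀ i, DT ((fun i : ℕ => match i with
      | 0 => fun _ u => ZFSet.sUnion (u 0)
      | 1 => fun _ u => AAF (ZFSet.sUnion (u 0)) (u 1)
      | 2 => fun _ u => gsF (ZFSet.sUnion (u 0)) (u 2)
      | n + 3 => fun _ u => u (n + 3) : ℕ → Set V → (ℕ → V) → V) i) := by
    intro i
    match i with
    | 0 => exact DT.sUnion (DT.var 0)
    | 1 => exact d2_AAF.app (DT.sUnion (DT.var 0)) (DT.var 1)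
    | 2 => exact d2_gsF.app (DT.sUnion (DT.var 0)) (DT.var 2)
    | n + 3 => exact DT.var (n + 3)
  have hR' := Dfn.comp hR ht
  have key : ∀ h : HH, (fun i => ((fun i : ℕ => match i with
      | 0 => fun _ u => ZFSet.sUnion (u 0)
      | 1 => fun _ u => AAF (ZFSet.sUnion (u 0)) (u 1)
      | 2 => fun _ u => gsF (ZFSet.sUnion (u 0)) (u 2)
      | n + 3 => fun _ u => u (n + 3) : ℕ → Set V → (ℕ → V) → V) i) (MG M h)
        (cons (Gn h) (cons (DM M) (cons (nat j) v)))) =
      cons (hs h) (cons (AA M h) (cons (gs h j) v)) := by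
    intro h
    funext i
    match i with
    | 0 => exact (hs_eq h).symm
    | 1 =>
      show AAF (ZFSet.sUnion (Gn h)) (DM M) = AA M h
      rw [← hs_eq]
      rfl
    | 2 =>
      show gsF (ZFSet.sUnion (Gn h)) (nat j) = gs h j
      rw [← hs_eq]
      rfl
    | n + 3 => rfl
  obtain ⟨F, hF⟩ := TL hM.nice hR' (v := cons (DM M) (cons (nat j) v))
    (In.cons (DM_mem hM.nice) (In.cons (hM.nice.nat j) hv)) hh (by
      show R (MG M h) _
      rw [key]
      exact H)
  refine ⟨F, fun h' hh' hF' => ?_⟩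
  have := hF h' hh' hF'
  rw [key] at this
  exact this

omit hM in
/-- Definability of forcing for such statements. -/
theorem DLA {R : Set V → (ℕ → V) → Prop} (hR : Dfn R) :
    ∃ R' : Set V → (ℕ → V) → Prop, Dfn R' ∧ ∀ M : Set V, Ground M →
      ∀ v, In M v → ∀ (j : ℕ) (F : Finset (ℕ × ℕ)) (g : HH),
      R' M (cons (cd F g) (cons (DM M) (cons (nat j) v))) ↔
        ∀ h', Gen M h' → (∀ a b, (a, b) ∈ F → h' a b = g a b) →
          R (MG M h') (cons (hs h') (cons (AA M h') (cons (gs h' j) v))) := by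
  have ht : ∀ i, DT ((fun i : ℕ => match i with
      | 0 => fun _ u => ZFSet.sUnion (u 0)
      | 1 => fun _ u => AAF (ZFSet.sUnion (u 0)) (u 1)
      | 2 => fun _ u => gsF (ZFSet.sUnion (u 0)) (u 2)
      | n + 3 => fun _ u => u (n + 3) : ℕ → Set V → (ℕ → V) → V) i) := by
    intro i
    match i with
    | 0 => exact DT.sUnion (DT.var 0)
    | 1 => exact d2_AAF.app (DT.sUnion (DT.var 0)) (DT.var 1)
    | 2 => exact d2_gsF.app (DT.sUnion (DT.var 0)) (DT.var 2)
    | n + 3 => exact DT.var (n + 3)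
  have hR' := Dfn.comp hR ht
  obtain ⟨R', hR'd, hR''⟩ := DL hR'
  refine ⟨R', hR'd, fun M hM v hv j F g => ?_⟩
  have key : ∀ h : HH, (fun i => ((fun i : ℕ => match i with
      | 0 => fun _ u => ZFSet.sUnion (u 0)
      | 1 => fun _ u => AAF (ZFSet.sUnion (u 0)) (u 1)
      | 2 => fun _ u => gsF (ZFSet.sUnion (u 0)) (u 2)
      | n + 3 => fun _ u => u (n + 3) : ℕ → Set V → (ℕ → V) → V) i) (MG M h)
        (cons (Gn h) (cons (DM M) (cons (nat j) v)))) =
      cons (hs h) (cons (AA M h) (cons (gs h j) v)) := by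
    intro h
    funext i
    match i with
    | 0 => exact (hs_eq h).symm
    | 1 =>
      show AAF (ZFSet.sUnion (Gn h)) (DM M) = AA M h
      rw [← hs_eq]
      rfl
    | 2 =>
      show gsF (ZFSet.sUnion (Gn h)) (nat j) = gs h j
      rw [← hs_eq]
      rfl
    | n + 3 => rfl
  rw [hR'' M hM.nice hM.count (cons (DM M) (cons (nat j) v))
    (In.cons (DM_mem hM.nice) (In.cons (hM.nice.nat j) hv)) F g]
  refine forall_congr' fun h' => forall_congr' fun _ => forall_congr' fun _ => ?_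
  rw [key]

omit hM in
/-- Relativisation of a definable relation to `LL X W`. -/
theorem Dfn.relLL {R : Set V → (ℕ → V) → Prop} (hR : Dfn R) :
    ∃ R' : Set V → (ℕ → V) → Prop, Dfn R' ∧ ∀ W : Set V, Nice W → ∀ X ∈ W, TrS X →
      ∀ v, In (LL X W) v → (R' W (cons X v) ↔ R (LL X W) v) := by
  obtain ⟨φ, hφ⟩ := hR
  refine ⟨fun W v => Sat (LL (v 0) W) φ (tl v), dfn_satLL φ, fun W hW X hX hXt v hv => ?_⟩
  exact (hφ _ (LL_nice hW hX hXt) v hv).symm

/-- The truth lemma for `N`. -/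
theorem TLN {R : Set V → (ℕ → V) → Prop} (hR : Dfn R) {v : ℕ → V} (hv : In M v) {h : HH}
    (hh : Gen M h) (j : ℕ) (H : R (NN M h) (cons (AA M h) (cons (gs h j) v))) :
    ∃ F : Finset (ℕ × ℕ), ∀ h', Gen M h' → (∀ a b, (a, b) ∈ F → h' a b = h a b) →
      R (NN M h') (cons (AA M h') (cons (gs h' j) v)) := by
  obtain ⟨R', hR', hR''⟩ := Dfn.relLL hR
  have ht : ∀ i, DT ((fun i : ℕ => match i with
      | 0 => fun _ u => tcl (u 1)
      | n + 1 => fun _ u => u (n + 1) : ℕ → Set V → (ℕ → V) → V) i) := by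
    intro i
    match i with
    | 0 => exact d1_tcl.app (DT.var 1)
    | n + 1 => exact DT.var (n + 1)
  have hR2 := Dfn.comp hR' ht
  have key : ∀ h' : HH, Gen M h' → (R' (MG M h') (fun i => ((fun i : ℕ => match i with
      | 0 => fun _ u => tcl (u 1)
      | n + 1 => fun _ u => u (n + 1) : ℕ → Set V → (ℕ → V) → V) i) (MG M h')
        (cons (hs h') (cons (AA M h') (cons (gs h' j) v)))) ↔
      R (NN M h') (cons (AA M h') (cons (gs h' j) v))) := by
    intro h' hh'
    have h1 : (fun i => ((fun i : ℕ => match i with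
      | 0 => fun _ u => tcl (u 1)
      | n + 1 => fun _ u => u (n + 1) : ℕ → Set V → (ℕ → V) → V) i) (MG M h')
        (cons (hs h') (cons (AA M h') (cons (gs h' j) v)))) =
        cons (XX M h') (cons (AA M h') (cons (gs h' j) v)) := by
      funext i
      cases i <;> rfl
    rw [h1]
    exact hR'' _ (MG_nice hM.nice hh') _ (XX_mem_MG hM hh') (tcl_trS _) _
      (In.cons (AA_mem_NN hM hh') (In.cons (gs_mem_NN hM hh' j) fun n =>
        M_subset_NN hM hh' (hv n)))
  obtain ⟨F, hF⟩ := TLA hM hR2 hv hh j ((key h hh).2 H)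
  exact ⟨F, fun h' hh' hF' => (key h' hh').1 (hF h' hh' hF')⟩

/-- (S3) The reals of `N`, with the support: a real that is a definable function of `AA h`,
`gs h j` and a parameter in `M` is given by a simple name on the columns `< j`. -/
theorem exists_name {h : HH} (hh : Gen M h) {x : ℕ → ℕ} {j : ℕ} (hx : Supp M h j (rl x)) :
    ∃ X ∈ M, X ⊆ ZFSet.prod (ZFSet.prod ZFSet.omega ZFSet.omega) PP ∧ OnCols j X ∧
      rl x = ev X (gs h j) := by
  classical
  obtain ⟨F, hF, a, ha, hxF⟩ := hx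
  -- `e ∈ F (AA) (gs) a`; assignment `hs, AA, gs, e, a`
  have hR : Dfn (fun _ v => v 3 ∈ F (v 1) (v 2) (v 4)) :=
    Dfn.mem (DT.var 3) (hF.app (DT.var 1) (DT.var 2) (DT.var 4))
  obtain ⟨R', hR', hR''⟩ := DLA hR
  -- the name
  have hRX : Dfn (fun W v => R' W (cons (snd (v 0)) (cons (v 1) (cons (v 2)
      (cons (fst (v 0)) (fun n => v (n + 3)))))) ∧
      ∀ t ∈ snd (v 0), fst (fst t) ∈ v 2) := by
    refine DC.and ?_ ?_
    · have ht : ∀ i, DT ((fun i : ℕ => match i with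
          | 0 => fun _ v => snd (v 0)
          | 1 => fun _ v => v 1
          | 2 => fun _ v => v 2
          | 3 => fun _ v => fst (v 0)
          | n + 4 => fun _ v => v (n + 3) : ℕ → Set V → (ℕ → V) → V) i) := by
        intro i
        match i with
        | 0 => exact DT.snd (DT.var 0)
        | 1 => exact DT.var 1
        | 2 => exact DT.var 2
        | 3 => exact DT.fst (DT.var 0)
        | n + 4 => exact DT.var (n + 3)
      refine (Dfn.comp hR' ht).congr fun W _ v _ => ?_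
      have : (cons (snd (v 0)) (cons (v 1) (cons (v 2) (cons (fst (v 0)) (fun n => v (n + 3)))))) =
          fun i => ((fun i : ℕ => match i with
          | 0 => fun _ v => snd (v 0)
          | 1 => fun _ v => v 1
          | 2 => fun _ v => v 2
          | 3 => fun _ v => fst (v 0)
          | n + 4 => fun _ v => v (n + 3) : ℕ → Set V → (ℕ → V) → V) i) W v := by
        funext n
        match n with
        | 0 => rfl
        | 1 => rfl
        | 2 => rfl
        | 3 => rfl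
        | n + 4 => rfl
      rw [this]
    · exact Dfn.ball (P := fun W t v => fst (fst t) ∈ v 2) (DT.snd (DT.var 0))
        (Dfn.mem (DT.fst (DT.fst (DT.var 0))) (DT.var 3))
  have hprod : ZFSet.prod (ZFSet.prod ZFSet.omega ZFSet.omega) PP ∈ M :=
    (DT.prod (DT.prod DT.omega DT.omega) DT.PP).mem M hM.nice (fun _ => ∅) hM.nice.in_const
  have hX := hM.nice.sepD hRX (v := cons (DM M) (cons (nat j) (fun _ => a)))
    (In.cons (DM_mem hM.nice) (In.cons (hM.nice.nat j) fun _ => ha)) hprod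
  set X := ZFSet.sep (fun t => R' M (cons (snd t) (cons (DM M) (cons (nat j)
      (cons (fst t) (fun _ => a))))) ∧ ∀ u ∈ snd t, fst (fst u) ∈ nat j)
      (ZFSet.prod (ZFSet.prod ZFSet.omega ZFSet.omega) PP) with hXdef
  have hXM : X ∈ M := hX
  -- membership in the name
  have hmem : ∀ (e : V) (F₁ : Finset (ℕ × ℕ)) (g : HH), e ∈ ZFSet.prod ZFSet.omega ZFSet.omega →
      (pair e (cd F₁ g) ∈ X ↔ (∀ h', Gen M h' → (∀ a b, (a, b) ∈ F₁ → h' a b = g a b) →
        e ∈ F (AA M h') (gs h' j) a) ∧ ∀ a b, (a, b) ∈ F₁ → a < j) := by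
    intro e F₁ g he
    have heM : e ∈ M := by
      obtain ⟨x, hx, y, hy, rfl⟩ := ZFSet.mem_prod.1 he
      exact hM.nice.pair (hM.nice.memOf hM.nice.omega hx) (hM.nice.memOf hM.nice.omega hy)
    rw [hXdef, ZFSet.mem_sep, ZFSet.pair_mem_prod]
    have h1 : R' M (cons (snd (pair e (cd F₁ g))) (cons (DM M) (cons (nat j)
        (cons (fst (pair e (cd F₁ g))) (fun _ => a))))) ↔
        ∀ h', Gen M h' → (∀ a b, (a, b) ∈ F₁ → h' a b = g a b) → e ∈ F (AA M h') (gs h' j) a := by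
      rw [fst_pair, snd_pair]
      exact hR'' M hM (cons e (fun _ => a)) (In.cons heM fun _ => ha) j F₁ g
    rw [h1, snd_pair]
    constructor
    · rintro ⟨_, h2, h3⟩
      refine ⟨h2, fun a b hab => ?_⟩
      have h4 := h3 (pt a b (g a b)) (pt_mem_cd.2 ⟨hab, rfl⟩)
      unfold pt at h4
      rw [fst_pair, fst_pair, nat_mem_nat] at h4
      exact h4
    · rintro ⟨h2, h3⟩
      refine ⟨⟨he, cd_mem_PP _ _⟩, h2, fun u hu => ?_⟩
      obtain ⟨a, b, hab, rfl⟩ := mem_cd.1 hu
      unfold pt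
      rw [fst_pair, fst_pair, nat_mem_nat]
      exact h3 a b hab
  have hXsub : X ⊆ ZFSet.prod (ZFSet.prod ZFSet.omega ZFSet.omega) PP := ZFSet.sep_subset
  refine ⟨X, hXM, hXsub, ?_, ?_⟩
  · intro e F₁ g h1 a b hab
    have he := (ZFSet.pair_mem_prod.1 (hXsub h1)).1
    exact ((hmem e F₁ g he).1 h1).2 a b hab
  · apply ZFSet.ext
    intro e
    rw [mem_ev]
    constructor
    · intro he
      have heω : e ∈ ZFSet.prod ZFSet.omega ZFSet.omega := by
        obtain ⟨n, rfl⟩ := mem_rl.1 he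
        exact ZFSet.pair_mem_prod.2 ⟨nat_mem_omega _, nat_mem_omega _⟩
      have heM : e ∈ M := by
        obtain ⟨n, rfl⟩ := mem_rl.1 he
        exact hM.nice.pair (hM.nice.nat _) (hM.nice.nat _)
      obtain ⟨F₁, hF₁⟩ := TLA hM hR (v := cons e (fun _ => a)) (In.cons heM fun _ => ha) hh j (by
        show e ∈ F (AA M h) (gs h j) a
        rw [← hxF]
        exact he)
      let F₂ := F₁.filter (fun x => x.1 < j)
      refine ⟨cd F₂ h, cd_mem_PP _ _, ?_, (hmem e F₂ h heω).2 ⟨?_, ?_⟩⟩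
      · intro t ht
        obtain ⟨a, b, hab, rfl⟩ := mem_cd.1 ht
        exact pt_mem_gs.2 ⟨(Finset.mem_filter.1 hab).2, rfl⟩
      · intro h' hh' hF₂
        let h'' : HH := fun a b => if (a, b) ∈ F₁ ∧ ¬ a < j then h a b else h' a b
        have h1 : h'' = hadd h' (fun a b => xor (h' a b) (h'' a b)) := by
          funext a b
          simp [hadd]
        have h2 : hs (fun a b => xor (h' a b) (h'' a b)) ∈ M := by
          refine hM.nice.hs_finite hM.nice.hs_zero F₁ fun a b hab => ?_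
          have : h'' a b = h' a b := if_neg fun h => hab h.1
          rw [this]
          simp
        have hh'' : Gen M h'' := h1 ▸ hh'.add hM.nice h2
        have h3 : AA M h'' = AA M h' := by rw [h1, AA_add hM h2]
        have h4 : gs h'' j = gs h' j := gs_congr fun a b ha => if_neg fun h => h.2 ha
        have h5 := hF₁ h'' hh'' (by
          intro a b hab
          by_cases haj : a < j
          · have : h'' a b = h' a b := if_neg fun h => h.2 haj
            rw [this]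
            exact hF₂ a b (Finset.mem_filter.2 ⟨hab, haj⟩)
          · exact if_pos ⟨hab, haj⟩)
        have h6 : e ∈ F (AA M h'') (gs h'' j) a := h5
        rw [h3, h4] at h6
        exact h6
      · intro a b hab
        exact (Finset.mem_filter.1 hab).2
    · rintro ⟨p, hp, hpg, h1⟩
      obtain ⟨F₁, g, rfl⟩ := mem_PP.1 hp
      have he := (ZFSet.pair_mem_prod.1 (hXsub h1)).1
      rw [hxF]
      refine ((hmem e F₁ g he).1 h1).1 h hh fun a b hab => ?_
      exact (pt_mem_gs.1 (hpg (pt_mem_cd.2 ⟨hab, rfl⟩))).2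

/-- Reals of `M[h]` also have simple names. -/
theorem exists_name_MG {h : HH} (hh : Gen M h) {x : ℕ → ℕ} (hx : x ∈ Reals (MG M h)) :
    ∃ X ∈ M, X ⊆ ZFSet.prod (ZFSet.prod ZFSet.omega ZFSet.omega) PP ∧ rl x = ev X (hs h) := by
  obtain ⟨τ, hτ, hxτ⟩ := hx
  -- `e ∈ val (Gn h) τ`; assignment `Gn, e, τ`
  have hR : Dfn (fun _ v => v 1 ∈ val (v 0) (v 2)) :=
    Dfn.mem (DT.var 1) (d2_val.app (DT.var 0) (DT.var 2))
  obtain ⟨R', hR', hR''⟩ := DL hR
  have hRX : Dfn (fun W v => R' W (cons (snd (v 0)) (cons (fst (v 0)) (fun n => v (n + 1))))) := by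
    have ht : ∀ i, DT ((fun i : ℕ => match i with
        | 0 => fun _ v => snd (v 0)
        | 1 => fun _ v => fst (v 0)
        | n + 2 => fun _ v => v (n + 1) : ℕ → Set V → (ℕ → V) → V) i) := by
      intro i
      match i with
      | 0 => exact DT.snd (DT.var 0)
      | 1 => exact DT.fst (DT.var 0)
      | n + 2 => exact DT.var (n + 1)
    refine (Dfn.comp hR' ht).congr fun W _ v _ => ?_
    have : (cons (snd (v 0)) (cons (fst (v 0)) (fun n => v (n + 1)))) =
        fun i => ((fun i : ℕ => match i with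
        | 0 => fun _ v => snd (v 0)
        | 1 => fun _ v => fst (v 0)
        | n + 2 => fun _ v => v (n + 1) : ℕ → Set V → (ℕ → V) → V) i) W v := by
      funext n
      match n with
      | 0 => rfl
      | 1 => rfl
      | n + 2 => rfl
    rw [this]
  have hprod : ZFSet.prod (ZFSet.prod ZFSet.omega ZFSet.omega) PP ∈ M :=
    (DT.prod (DT.prod DT.omega DT.omega) DT.PP).mem M hM.nice (fun _ => ∅) hM.nice.in_const
  have hX := hM.nice.sepD hRX (v := fun _ => τ) (fun _ => hτ) hprod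
  set X := ZFSet.sep (fun t => R' M (cons (snd t) (cons (fst t) (fun _ => τ))))
      (ZFSet.prod (ZFSet.prod ZFSet.omega ZFSet.omega) PP) with hXdef
  have hXM : X ∈ M := hX
  have hmem : ∀ (e : V) (F₁ : Finset (ℕ × ℕ)) (g : HH), e ∈ ZFSet.prod ZFSet.omega ZFSet.omega →
      (pair e (cd F₁ g) ∈ X ↔ ∀ h', Gen M h' → (∀ a b, (a, b) ∈ F₁ → h' a b = g a b) →
        e ∈ val (Gn h') τ) := by
    intro e F₁ g he
    have heM : e ∈ M := by
      obtain ⟨x, hx, y, hy, rfl⟩ := ZFSet.mem_prod.1 he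
      exact hM.nice.pair (hM.nice.memOf hM.nice.omega hx) (hM.nice.memOf hM.nice.omega hy)
    rw [hXdef, ZFSet.mem_sep, ZFSet.pair_mem_prod, fst_pair, snd_pair]
    refine (and_iff_right ⟨he, cd_mem_PP _ _⟩).trans ?_
    exact hR'' M hM.nice hM.count (cons e (fun _ => τ)) (In.cons heM fun _ => hτ) F₁ g
  have hXsub : X ⊆ ZFSet.prod (ZFSet.prod ZFSet.omega ZFSet.omega) PP := ZFSet.sep_subset
  refine ⟨X, hXM, hXsub, ?_⟩
  apply ZFSet.ext
  intro e
  rw [mem_ev]
  constructor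
  · intro he
    have heω : e ∈ ZFSet.prod ZFSet.omega ZFSet.omega := by
      obtain ⟨n, rfl⟩ := mem_rl.1 he
      exact ZFSet.pair_mem_prod.2 ⟨nat_mem_omega _, nat_mem_omega _⟩
    have heM : e ∈ M := by
      obtain ⟨n, rfl⟩ := mem_rl.1 he
      exact hM.nice.pair (hM.nice.nat _) (hM.nice.nat _)
    obtain ⟨F₁, hF₁⟩ := TL hM.nice hR (v := cons e (fun _ => τ)) (In.cons heM fun _ => hτ) hh (by
      show e ∈ val (Gn h) τ
      rw [hxτ]
      exact he)
    refine ⟨cd F₁ h, cd_mem_PP _ _, cd_subset_hs.2 fun _ _ _ => rfl, (hmem e F₁ h heω).2 ?_⟩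
    intro h' hh' hF₁'
    exact hF₁ h' hh' hF₁'
  · rintro ⟨p, hp, hpg, h1⟩
    obtain ⟨F₁, g, rfl⟩ := mem_PP.1 hp
    have he := (ZFSet.pair_mem_prod.1 (hXsub h1)).1
    rw [← hxτ]
    refine (hmem e F₁ g he).1 h1 h hh fun a b hab => ?_
    exact (cd_subset_hs.1 hpg) a b hab

/-! ### No choice function for `A_k` -/

theorem no_choice {h : HH} (hh : Gen M h) (f : ℕ → ℕ → ℕ)
    (hf : seqCode (fun k => {f k}) ∈ NN M h) : ¬ ∀ k, f k ∈ Ak M h k := by
  classical
  intro hfA
  obtain ⟨m, F, hF, a, ha, hfF⟩ := supp_NN hM hh hf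
  obtain ⟨z, hz, hfm⟩ := hfA m
  -- `⟨m, h_m + z⟩ ∈ F AA gs a` ; assignment `hs, AA, gs, m, z, a`
  have hR : Dfn (fun _ v => pair (v 3) (colx (v 0) (v 3) (v 4)) ∈ F (v 1) (v 2) (v 5)) :=
    Dfn.mem (DT.pair (DT.var 3) (d3_colx.app (DT.var 0) (DT.var 3) (DT.var 4)))
      (hF.app (DT.var 1) (DT.var 2) (DT.var 5))
  obtain ⟨F₁, hF₁⟩ := TLA hM hR (v := cons (nat m) (cons (rl (bt z)) (fun _ => a)))
    (In.cons (hM.nice.nat m) (In.cons hz fun _ => ha)) hh m (by
      show pair (nat m) (colx (hs h) (nat m) (rl (bt z))) ∈ F (AA M h) (gs h m) a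
      rw [← hfF, colx_hs, ← hfm]
      unfold seqCode
      rw [ZFSet.mem_range]
      exact ⟨⟨⟨m, f m⟩, rfl⟩, rfl⟩)
  -- a new bit of column `m`
  obtain ⟨n, hn⟩ : ∃ n, (m, n) ∉ F₁ := by
    by_contra hc
    push Not at hc
    have : Set.Infinite (F₁ : Set (ℕ × ℕ)) :=
      (Set.infinite_range_of_injective (f := fun n : ℕ => (m, n)) (fun a b h => (Prod.mk.inj h).2)).mono
        (by
          rintro _ ⟨n, rfl⟩
          exact hc n)
    exact this F₁.finite_toSet
  let h' : HH := upd h (m, n) (!(h m n))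
  have h1 : h' = hadd h (fun a b => xor (h a b) (h' a b)) := by
    funext a b
    simp [hadd]
  have hne : ∀ a b, (a, b) ≠ (m, n) → h' a b = h a b := fun a b hab => if_neg hab
  have h2 : hs (fun a b => xor (h a b) (h' a b)) ∈ M := by
    refine hM.nice.hs_finite hM.nice.hs_zero {(m, n)} fun a b hab => ?_
    rw [hne a b (by simpa using hab)]
    simp
  have hh' : Gen M h' := h1 ▸ hh.add hM.nice h2
  have h3 : AA M h' = AA M h := by rw [h1, AA_add hM h2]
  have h4 : gs h' m = gs h m := gs_congr fun a b hab => hne a b fun h5 => by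
    have := (Prod.mk.inj h5).1
    omega
  have h5 : pair (nat m) (colx (hs h') (nat m) (rl (bt z))) ∈ F (AA M h') (gs h' m) a :=
    hF₁ h' hh' fun a b hab => hne a b fun h6 => hn (h6 ▸ hab)
  rw [h3, h4, ← hfF, colx_hs] at h5
  unfold seqCode at h5
  rw [ZFSet.mem_range] at h5
  obtain ⟨⟨⟨k, y⟩, hy⟩, h6⟩ := h5
  have hy' : y = f k := hy
  obtain ⟨h7, h8⟩ := ZFSet.pair_inj.1 (show pair (nat k) (rl y) = _ from h6)
  have hk := nat_inj.1 h7
  rw [hy', hk, hfm, rl_inj, bt_inj] at h8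
  have h9 := congrFun h8 n
  have h10 : h' m n = !(h m n) := if_pos rfl
  simp only [h10] at h9
  revert h9
  cases h m n <;> cases z n <;> simp

end

end Pool.Agent.NUC
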