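import Pool.Agent.Lib.MP_bf67b0_lc.NUC.Level

/-!
# Definable subsets are obtained by the basic operations
-/

namespace Pool.Agent.NUC

open ZFSet (pair)

/-- Bound for the free variables of a formula. -/
def Fml.bd : Fml → ℕ
  | .mem i j => max i j + 1
  | .eq i j => max i j + 1
  | .neg φ => φ.bd
  | .and φ ψ => max φ.bd ψ.bd
  | .ex φ => φ.bd - 1

/-- Tuples. -/
noncomputable def tup : ℕ → (ℕ → V) → V
  | 0, _ => ∅
  | n + 1, v => pair (v 0) (tup n (tl v))

/-- The set of all `n`-tuples of elements of `A`. -/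
noncomputable def An (A : V) : ℕ → V
  | 0 => {∅}
  | n + 1 => ZFSet.prod A (An A n)

theorem mem_An {A : V} {n : ℕ} : ∀ {t : V}, t ∈ An A n ↔ ∃ v : ℕ → V, (∀ i < n, v i ∈ A) ∧
    t = tup n v := by
  induction n with
  | zero =>
    intro t
    show t ∈ ({∅} : V) ↔ _
    rw [ZFSet.mem_singleton]
    constructor
    · intro h
      exact ⟨fun _ => ∅, by simp, h⟩
    · rintro ⟨v, _, h⟩
      exact h
  | succ n ih =>
    intro t
    show t ∈ ZFSet.prod A (An A n) ↔ _
    rw [ZFSet.mem_prod]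
    constructor
    · rintro ⟨a, ha, b, hb, rfl⟩
      obtain ⟨v, hv, rfl⟩ := ih.1 hb
      refine ⟨cons a v, fun i hi => ?_, rfl⟩
      cases i with
      | zero => exact ha
      | succ i => exact hv i (by omega)
    · rintro ⟨v, hv, rfl⟩
      exact ⟨v 0, hv 0 (by omega), _, ih.2 ⟨tl v, fun i hi => hv (i + 1) (by omega), rfl⟩, rfl⟩

theorem tup_congr {n : ℕ} : ∀ {v w : ℕ → V}, (∀ i < n, v i = w i) → tup n v = tup n w := by
  induction n with
  | zero => intro v w _; rfl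
  | succ n ih =>
    intro v w h
    show pair (v 0) (tup n (tl v)) = pair (w 0) (tup n (tl w))
    rw [h 0 (by omega), ih fun i hi => h (i + 1) (by omega)]

theorem tup_inj {n : ℕ} : ∀ {v w : ℕ → V}, tup n v = tup n w → ∀ i < n, v i = w i := by
  induction n with
  | zero => intro v w _ i hi; omega
  | succ n ih =>
    intro v w h i hi
    obtain ⟨h1, h2⟩ := ZFSet.pair_inj.1 (show pair (v 0) (tup n (tl v)) =
      pair (w 0) (tup n (tl w)) from h)
    cases i with
    | zero => exact h1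
    | succ i => exact ih h2 i (by omega)

/-- Closure under the basic operations. -/
def OpClosed (U : Set V) : Prop := ∀ i < 13, ∀ u ∈ U, ∀ v ∈ U, ∀ w ∈ U, op i u v w ∈ U

section closed

variable {U : Set V} (hU : OpClosed U)
include hU

theorem OpClosed.upair {u v : V} (hu : u ∈ U) (hv : v ∈ U) : ({u, v} : V) ∈ U :=
  hU 0 (by omega) u hu v hv v hv
theorem OpClosed.singleton {u : V} (hu : u ∈ U) : ({u} : V) ∈ U := by
  have := hU.upair hu hu
  rwa [ZFSet.pair_eq_singleton] at this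
theorem OpClosed.pair {u v : V} (hu : u ∈ U) (hv : v ∈ U) : ZFSet.pair u v ∈ U :=
  hU 1 (by omega) u hu v hv v hv
theorem OpClosed.sUnion {u : V} (hu : u ∈ U) : ZFSet.sUnion u ∈ U :=
  hU 4 (by omega) u hu u hu u hu
theorem OpClosed.diff {u v : V} (hu : u ∈ U) (hv : v ∈ U) : u \ v ∈ U :=
  hU 5 (by omega) u hu v hv v hv
theorem OpClosed.prod {u v : V} (hu : u ∈ U) (hv : v ∈ U) : ZFSet.prod u v ∈ U :=
  hU 6 (by omega) u hu v hv v hv
theorem OpClosed.dom {u : V} (hu : u ∈ U) : dom u ∈ U :=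
  hU 7 (by omega) u hu u hu u hu
theorem OpClosed.ran {u : V} (hu : u ∈ U) : ran u ∈ U :=
  hU 8 (by omega) u hu u hu u hu
theorem OpClosed.insOp {u v : V} (hu : u ∈ U) (hv : v ∈ U) : insOp u v ∈ U :=
  hU 9 (by omega) u hu v hv v hv
theorem OpClosed.inter {u v : V} (hu : u ∈ U) (hv : v ∈ U) : u ∩ v ∈ U := by
  have h : u ∩ v = u \ (u \ v) := by
    apply ZFSet.ext
    intro x
    simp only [ZFSet.mem_inter, ZFSet.mem_sdiff]
    tauto
  rw [h]
  exact hU.diff hu (hU.diff hu hv)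
theorem OpClosed.empty {u : V} (hu : u ∈ U) : (∅ : V) ∈ U := by
  have h : (∅ : V) = u \ u := by
    apply ZFSet.ext
    intro x
    simp
  rw [h]
  exact hU.diff hu hu

theorem OpClosed.An {A : V} (hA : A ∈ U) (n : ℕ) : An A n ∈ U := by
  induction n with
  | zero => exact hU.singleton (hU.empty hA)
  | succ n ih => exact hU.prod hA ih

theorem OpClosed.tup {A : V} (hA : A ∈ U) {n : ℕ} : ∀ {v : ℕ → V}, (∀ i < n, v i ∈ U) →
    tup n v ∈ U := by
  induction n with
  | zero => intro v _; exact hU.empty hA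
  | succ n ih => intro v hv; exact hU.pair (hv 0 (by omega)) (ih fun i hi => hv (i + 1) (by omega))

end closed

/-- The relation `Q` on `n`-tuples of elements of `A` is represented by an element of `U`. -/
def Rep (U : Set V) (A : V) (n : ℕ) (Q : (ℕ → V) → Prop) : Prop :=
  ∃ D ∈ U, (∀ t ∈ D, t ∈ An A n) ∧ ∀ v : ℕ → V, (∀ i < n, v i ∈ A) → (tup n v ∈ D ↔ Q v)

section rep

variable {U : Set V} (hU : OpClosed U) {A : V} (hA : A ∈ U)
include hU hA

omit hU hA in
theorem Rep.congr {n : ℕ} {Q R : (ℕ → V) → Prop} (h : Rep U A n Q) (hQR : ∀ v, R v ↔ Q v) :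
    Rep U A n R := by
  obtain ⟨D, hD, h1, h2⟩ := h
  exact ⟨D, hD, h1, fun v hv => (h2 v hv).trans (hQR v).symm⟩

theorem Rep.not {n : ℕ} {Q : (ℕ → V) → Prop} (h : Rep U A n Q) : Rep U A n (fun v => ¬ Q v) := by
  obtain ⟨D, hD, h1, h2⟩ := h
  refine ⟨An A n \ D, hU.diff (hU.An hA n) hD, fun t ht => (ZFSet.mem_sdiff.1 ht).1, ?_⟩
  intro v hv
  rw [ZFSet.mem_sdiff, h2 v hv]
  exact ⟨fun h => h.2, fun h => ⟨mem_An.2 ⟨v, hv, rfl⟩, h⟩⟩

omit hA in
theorem Rep.and {n : ℕ} {Q R : (ℕ → V) → Prop} (h : Rep U A n Q) (h' : Rep U A n R) :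
    Rep U A n (fun v => Q v ∧ R v) := by
  obtain ⟨D, hD, h1, h2⟩ := h
  obtain ⟨E, hE, h3, h4⟩ := h'
  refine ⟨D ∩ E, hU.inter hD hE, fun t ht => h1 t (ZFSet.mem_inter.1 ht).1, ?_⟩
  intro v hv
  rw [ZFSet.mem_inter, h2 v hv, h4 v hv]

theorem Rep.true {n : ℕ} : Rep U A n (fun _ => True) :=
  ⟨An A n, hU.An hA n, fun _ h => h, fun v hv => by
    simp only [iff_true]
    exact mem_An.2 ⟨v, hv, rfl⟩⟩

omit hA in
theorem Rep.ex {n : ℕ} {Q : (ℕ → V) → Prop} (h : Rep U A (n + 1) Q) :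
    Rep U A n (fun v => ∃ x ∈ A, Q (cons x v)) := by
  obtain ⟨D, hD, h1, h2⟩ := h
  refine ⟨NUC.ran D, hU.ran hD, ?_, ?_⟩
  · intro t ht
    obtain ⟨a, ha⟩ := mem_ran.1 ht
    exact (ZFSet.pair_mem_prod.1 (show pair a t ∈ ZFSet.prod A (NUC.An A n) from h1 _ ha)).2
  · intro v hv
    rw [mem_ran]
    constructor
    · rintro ⟨a, ha⟩
      have ha' : a ∈ A :=
        (ZFSet.pair_mem_prod.1 (show pair a _ ∈ ZFSet.prod A (NUC.An A n) from h1 _ ha)).1
      refine ⟨a, ha', (h2 (cons a v) ?_).1 ha⟩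
      intro i hi
      cases i with
      | zero => exact ha'
      | succ i => exact hv i (by omega)
    · rintro ⟨x, hx, hq⟩
      refine ⟨x, (h2 (cons x v) ?_).2 hq⟩
      intro i hi
      cases i with
      | zero => exact hx
      | succ i => exact hv i (by omega)

theorem Rep.prepend {n : ℕ} {Q : (ℕ → V) → Prop} (h : Rep U A n Q) :
    Rep U A (n + 1) (fun v => Q (tl v)) := by
  obtain ⟨D, hD, h1, h2⟩ := h
  refine ⟨ZFSet.prod A D, hU.prod hA hD, ?_, ?_⟩
  · intro t ht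
    obtain ⟨a, ha, b, hb, rfl⟩ := ZFSet.mem_prod.1 ht
    exact ZFSet.pair_mem_prod.2 ⟨ha, h1 b hb⟩
  · intro v hv
    show pair (v 0) (NUC.tup n (tl v)) ∈ ZFSet.prod A D ↔ _
    rw [ZFSet.pair_mem_prod, h2 (tl v) fun i hi => hv (i + 1) (by omega)]
    exact ⟨fun h => h.2, fun h => ⟨hv 0 (by omega), h⟩⟩

theorem Rep.insert {n : ℕ} {Q : (ℕ → V) → Prop} (h : Rep U A (n + 1) Q) :
    Rep U A (n + 2) (fun v => Q (cons (v 0) (tl (tl v)))) := by
  obtain ⟨D, hD, h1, h2⟩ := h
  refine ⟨NUC.insOp A D, hU.insOp hA hD, ?_, ?_⟩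
  · intro t ht
    obtain ⟨a, b, hb, t', ht', rfl⟩ := mem_insOp.1 ht
    have h3 := ZFSet.pair_mem_prod.1 (show pair a t' ∈ ZFSet.prod A (NUC.An A n) from h1 _ ht')
    exact ZFSet.pair_mem_prod.2 ⟨h3.1, ZFSet.pair_mem_prod.2 ⟨hb, h3.2⟩⟩
  · intro v hv
    refine Iff.trans ?_ (h2 (cons (v 0) (tl (tl v))) fun i hi => ?_)
    · rw [mem_insOp]
      constructor
      · rintro ⟨a, b, _, t', ht', h3⟩
        obtain ⟨h4, h5⟩ := ZFSet.pair_inj.1 (show pair (v 0) (pair (v 1) (NUC.tup n (tl (tl v)))) =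
          pair a (pair b t') from h3)
        obtain ⟨_, h6⟩ := ZFSet.pair_inj.1 h5
        show pair (v 0) (NUC.tup n (tl (tl v))) ∈ D
        rw [h4, h6]
        exact ht'
      · intro h3
        exact ⟨v 0, v 1, hv 1 (by omega), NUC.tup n (tl (tl v)), h3, rfl⟩
    · cases i with
      | zero => exact hv 0 (by omega)
      | succ i => exact hv (i + 2) (by omega)

/-- Atomic relations between two coordinates. -/
theorem Rep.rel {r : V → V → Prop} (hr : ∀ v ∈ U, relOp r A v ∈ U) (k s i : ℕ) :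
    Rep U A (k + 2 + s + i) (fun v => r (v i) (v (i + s + 1))) := by
  induction i with
  | zero =>
    induction s with
    | zero =>
      refine ⟨relOp r A (NUC.An A k), hr _ (hU.An hA k), ?_, ?_⟩
      · intro t ht
        obtain ⟨a, ha, b, hb, t', ht', _, rfl⟩ := mem_relOp.1 ht
        exact ZFSet.pair_mem_prod.2 ⟨ha, ZFSet.pair_mem_prod.2 ⟨hb, ht'⟩⟩
      · intro v hv
        rw [mem_relOp]
        constructor
        · rintro ⟨a, _, b, _, t', _, h1, h3⟩
          obtain ⟨h4, h5⟩ := ZFSet.pair_inj.1 (show pair (v 0) (pair (v 1) (NUC.tup k (tl (tl v)))) =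
            pair a (pair b t') from h3)
          obtain ⟨h6, _⟩ := ZFSet.pair_inj.1 h5
          show r (v 0) (v 1)
          rw [h4, h6]
          exact h1
        · intro h
          exact ⟨v 0, hv 0 (by omega), v 1, hv 1 (by omega), NUC.tup k (tl (tl v)),
            mem_An.2 ⟨tl (tl v), fun i hi => hv (i + 2) (by omega), rfl⟩, h, rfl⟩
    | succ s ih =>
      have h := Rep.insert hU hA (n := k + 1 + s) (Q := fun v => r (v 0) (v (0 + s + 1))) (by
        have : k + 1 + s + 1 = k + 2 + s + 0 := by omega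
        rw [this]
        exact ih)
      have h2 : k + 1 + s + 2 = k + 2 + (s + 1) + 0 := by omega
      rw [h2] at h
      exact h.congr fun v => by simp
  | succ i ih =>
    have h := Rep.prepend hU hA ih
    have h2 : k + 2 + s + i + 1 = k + 2 + s + (i + 1) := by omega
    rw [h2] at h
    refine h.congr fun v => ?_
    have h3 : i + 1 + s + 1 = i + s + 1 + 1 := by omega
    rw [h3]

theorem Rep.rel' {r : V → V → Prop} (hr : ∀ v ∈ U, relOp r A v ∈ U) {n i j : ℕ} (hij : i < j)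
    (hj : j < n) : Rep U A n (fun v => r (v i) (v j)) := by
  have h := Rep.rel hU hA hr (n - j - 1) (j - i - 1) i
  have h1 : n - j - 1 + 2 + (j - i - 1) + i = n := by omega
  have h2 : i + (j - i - 1) + 1 = j := by omega
  rw [h1, h2] at h
  exact h

/-- Satisfaction in the structure `A` is represented in every class closed under the operations. -/
theorem Rep.sat (φ : Fml) : ∀ n, φ.bd ≤ n → Rep U A n (fun v => Sat {x | x ∈ A} φ v) := by
  have h10 : ∀ v ∈ U, relOp (fun a b => a ∈ b) A v ∈ U := fun v hv =>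
    hU 10 (by omega) A hA v hv v hv
  have h11 : ∀ v ∈ U, relOp (fun a b => b ∈ a) A v ∈ U := fun v hv =>
    hU 11 (by omega) A hA v hv v hv
  have h12 : ∀ v ∈ U, relOp (fun a b => a = b) A v ∈ U := fun v hv =>
    hU 12 (by omega) A hA v hv v hv
  induction φ with
  | mem i j =>
    intro n hn
    have hn' : max i j + 1 ≤ n := hn
    rcases lt_trichotomy i j with h | h | h
    · exact Rep.rel' hU hA h10 h (by omega)
    · subst h
      exact (Rep.not hU hA (Rep.true hU hA)).congr fun v => by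
        show v i ∈ v i ↔ ¬ True
        simp [ZFSet.mem_irrefl]
    · exact Rep.rel' hU hA h11 h (by omega)
  | eq i j =>
    intro n hn
    have hn' : max i j + 1 ≤ n := hn
    rcases lt_trichotomy i j with h | h | h
    · exact Rep.rel' hU hA h12 h (by omega)
    · subst h
      exact (Rep.true hU hA).congr fun v => by
        show v i = v i ↔ True
        simp
    · exact (Rep.rel' hU hA h12 h (by omega)).congr fun v => eq_comm
  | neg φ ih => intro n hn; exact Rep.not hU hA (ih n hn)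
  | and φ ψ ih1 ih2 =>
    intro n hn
    have hn' : max φ.bd ψ.bd ≤ n := hn
    exact Rep.and hU (ih1 n (by omega)) (ih2 n (by omega))
  | ex φ ih =>
    intro n hn
    have hn' : φ.bd - 1 ≤ n := hn
    exact Rep.ex hU (ih (n + 1) (by omega))

/-- Definable subsets (with parameters) of elements of `U`. -/
theorem OpClosed.sep (hUA : ∀ x ∈ A, x ∈ U) (φ : Fml) {v : ℕ → V} (hv : ∀ n, v n ∈ A) {a : V}
    (ha : a ∈ U) (haA : ∀ x ∈ a, x ∈ A) :
    ZFSet.sep (fun x => Sat {x | x ∈ A} φ (cons x v)) a ∈ U := by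
  obtain ⟨D, hD, h1, h2⟩ := Rep.sat hU hA φ (φ.bd + 1) (by omega)
  have ht : NUC.tup φ.bd v ∈ U := hU.tup hA fun i _ => hUA _ (hv i)
  have hE : a ∩ NUC.dom (D ∩ ZFSet.prod A {NUC.tup φ.bd v}) ∈ U :=
    hU.inter ha (hU.dom (hU.inter hD (hU.prod hA (hU.singleton ht))))
  convert hE using 1
  apply ZFSet.ext
  intro x
  rw [ZFSet.mem_sep, ZFSet.mem_inter]
  refine and_congr_right fun hx => ?_
  have hc : ∀ i < φ.bd + 1, cons x v i ∈ A := by
    intro i _
    cases i with
    | zero => exact haA x hx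
    | succ i => exact hv i
  refine (h2 (cons x v) hc).symm.trans ?_
  rw [mem_dom]
  constructor
  · intro h
    exact ⟨NUC.tup φ.bd v, ZFSet.mem_inter.2 ⟨h, ZFSet.pair_mem_prod.2 ⟨haA x hx, by simp⟩⟩⟩
  · rintro ⟨y, hy⟩
    obtain ⟨h3, h4⟩ := ZFSet.mem_inter.1 hy
    have h5 := (ZFSet.pair_mem_prod.1 h4).2
    rw [ZFSet.mem_singleton] at h5
    rw [h5] at h3
    exact h3

end rep

/-- `LL X W` is closed under the operations. -/
theorem LL_opClosed {X : V} {W : Set V} (hW : Nice W) : OpClosed (LL X W) := by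
  rintro i hi u ⟨x, hx, hu⟩ v ⟨y, hy, hv⟩ w ⟨z, hz, hw⟩
  have hm : x ∪ (y ∪ z) ∈ W := hW.union hx (hW.union hy hz)
  refine ⟨insert (x ∪ (y ∪ z)) (x ∪ (y ∪ z)), hW.insert hm hm, ?_⟩
  refine Step_subset_S (ZFSet.mem_insert _ _) (op_mem_Step hi ?_ ?_ ?_)
  · exact ZFSet.mem_insert_of_mem _ (S_mono (by simp [ZFSet.rank_union]) hu)
  · exact ZFSet.mem_insert_of_mem _ (S_mono (by simp [ZFSet.rank_union]) hv)
  · exact ZFSet.mem_insert_of_mem _ (S_mono (by simp [ZFSet.rank_union]) hw)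

end Pool.Agent.NUC
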