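import Pool.Agent.Lib.MP_bf67b0_lc.NUC.LNice

/-!
# A definable well-order of the constructible sets
-/

namespace Pool.Agent.NUC

open ZFSet (pair)

/-- `r` well-orders the class `C`. -/
structure WOC (C : Set V) (r : V → V → Prop) : Prop where
  asymm : ∀ a ∈ C, ∀ b ∈ C, r a b → ¬ r b a
  least : ∀ B : Set V, B ⊆ C → B.Nonempty → ∃ m ∈ B, ∀ b ∈ B, b = m ∨ r m b

theorem WOC.total {C : Set V} {r : V → V → Prop} (h : WOC C r) {a b : V} (ha : a ∈ C)
    (hb : b ∈ C) : a = b ∨ r a b ∨ r b a := by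
  obtain ⟨m, hm, h1⟩ := h.least {a, b} (by
    intro x hx
    rcases hx with rfl | hx
    · exact ha
    · rw [Set.mem_singleton_iff.1 hx]; exact hb) ⟨a, Or.inl rfl⟩
  rcases hm with rfl | hm
  · rcases h1 b (Or.inr rfl) with h2 | h2
    · exact Or.inl h2.symm
    · exact Or.inr (Or.inl h2)
  · rw [Set.mem_singleton_iff.1 hm] at h1
    rcases h1 a (Or.inl rfl) with h2 | h2
    · exact Or.inl h2
    · exact Or.inr (Or.inr h2)

theorem WOC.irrefl {C : Set V} {r : V → V → Prop} (h : WOC C r) {a : V} (ha : a ∈ C) : ¬ r a a :=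
  fun h1 => h.asymm a ha a ha h1 h1

theorem WOC.congr {C C' : Set V} {r r' : V → V → Prop} (h : WOC C r) (hC : C' ⊆ C)
    (hr : ∀ a ∈ C', ∀ b ∈ C', r' a b ↔ r a b) : WOC C' r' where
  asymm a ha b hb h1 h2 :=
    h.asymm a (hC ha) b (hC hb) ((hr a ha b hb).1 h1) ((hr b hb a ha).1 h2)
  least B hB hne := by
    obtain ⟨m, hm, h1⟩ := h.least B (hB.trans hC) hne
    exact ⟨m, hm, fun b hb => (h1 b hb).imp id fun h2 => (hr m (hB hm) b (hB hb)).2 h2⟩

/-- The lexicographic order on pairs. -/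
def lexR (r s : V → V → Prop) (t t' : V) : Prop :=
  r (fst t) (fst t') ∨ (fst t = fst t' ∧ s (snd t) (snd t'))

theorem WOC.lex {C D : Set V} {r s : V → V → Prop} (hr : WOC C r) (hs : WOC D s) :
    WOC {t | ∃ a ∈ C, ∃ b ∈ D, t = pair a b} (lexR r s) where
  asymm := by
    rintro _ ⟨a, ha, b, hb, rfl⟩ _ ⟨a', ha', b', hb', rfl⟩ h1 h2
    unfold lexR at h1 h2
    simp only [fst_pair, snd_pair] at h1 h2
    rcases h1 with h1 | ⟨h1, h3⟩
    · rcases h2 with h2 | ⟨h2, h4⟩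
      · exact hr.asymm a ha a' ha' h1 h2
      · rw [h2] at h1
        exact hr.irrefl ha h1
    · rcases h2 with h2 | ⟨h2, h4⟩
      · rw [h1] at h2
        exact hr.irrefl ha' h2
      · exact hs.asymm b hb b' hb' h3 h4
  least := by
    intro B hB hne
    obtain ⟨a, ⟨t, ht, hta⟩, h1⟩ := hr.least {a | ∃ t ∈ B, fst t = a} (by
      rintro _ ⟨t, ht, rfl⟩
      obtain ⟨a, ha, b, hb, rfl⟩ := hB ht
      rw [fst_pair]
      exact ha) (by
      obtain ⟨t, ht⟩ := hne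
      exact ⟨fst t, t, ht, rfl⟩)
    obtain ⟨b, ⟨t', ht', htb, htb'⟩, h2⟩ := hs.least {b | ∃ t ∈ B, fst t = a ∧ snd t = b} (by
      rintro _ ⟨t, ht, _, rfl⟩
      obtain ⟨a, ha, b, hb, rfl⟩ := hB ht
      rw [snd_pair]
      exact hb) ⟨snd t, t, ht, hta, rfl⟩
    refine ⟨t', ht', fun u hu => ?_⟩
    rcases h1 (fst u) ⟨u, hu, rfl⟩ with h3 | h3
    · rcases h2 (snd u) ⟨u, hu, h3, rfl⟩ with h4 | h4
      · left
        obtain ⟨c, _, d, _, rfl⟩ := hB hu
        obtain ⟨c', _, d', _, rfl⟩ := hB ht'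
        simp only [fst_pair, snd_pair] at htb htb' h3 h4
        rw [h3, h4, htb, htb']
      · right
        right
        exact ⟨htb.trans h3.symm, by rw [htb']; exact h4⟩
    · right
      left
      rw [htb]
      exact h3

/-- Adding a top element. -/
theorem WOC.top {A : V} {r : V → V → Prop} (h : WOC {z | z ∈ A} r)
    (hr : ∀ a b, r a b → a ∈ A ∧ b ∈ A) :
    WOC {z | z ∈ (insert A A : V)} (fun a b => r a b ∨ (a ∈ A ∧ b = A)) where
  asymm := by
    rintro a _ b _ h1 h2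
    rcases h1 with h1 | ⟨h1, rfl⟩
    · rcases h2 with h2 | ⟨h2, rfl⟩
      · exact h.asymm a (hr a b h1).1 b (hr a b h1).2 h1 h2
      · exact ZFSet.mem_irrefl _ (hr _ _ h1).1
    · rcases h2 with h2 | ⟨h2, rfl⟩
      · exact ZFSet.mem_irrefl _ (hr _ _ h2).1
      · exact ZFSet.mem_irrefl _ h2
  least := by
    intro B hB hne
    by_cases h1 : ∃ z ∈ B, z ∈ A
    · obtain ⟨m, ⟨hm, hmA⟩, h2⟩ := h.least {z | z ∈ B ∧ z ∈ A} (fun z hz => hz.2) (by
        obtain ⟨z, hz, hzA⟩ := h1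
        exact ⟨z, hz, hzA⟩)
      refine ⟨m, hm, fun b hb => ?_⟩
      rcases ZFSet.mem_insert_iff.1 (hB hb) with rfl | hbA
      · exact Or.inr (Or.inr ⟨hmA, rfl⟩)
      · exact (h2 b ⟨hb, hbA⟩).imp id Or.inl
    · push Not at h1
      obtain ⟨z, hz⟩ := hne
      have hall : ∀ b ∈ B, b = A := fun b hb =>
        (ZFSet.mem_insert_iff.1 (hB hb)).resolve_right (h1 b hb)
      exact ⟨z, hz, fun b hb => Or.inl ((hall b hb).trans (hall z hz).symm)⟩

theorem WOC.nat (n : ℕ) : WOC {z | z ∈ nat n} (fun a b => a ∈ b) where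
  asymm := fun a _ b _ h1 h2 => ZFSet.mem_asymm h1 h2
  least := by
    intro B hB hne
    classical
    have hex : ∃ k, NUC.nat k ∈ B := by
      obtain ⟨z, hz⟩ := hne
      obtain ⟨k, _, rfl⟩ := mem_nat.1 (hB hz)
      exact ⟨k, hz⟩
    refine ⟨NUC.nat (Nat.find hex), Nat.find_spec hex, fun b hb => ?_⟩
    obtain ⟨k, _, rfl⟩ := mem_nat.1 (hB hb)
    rcases (Nat.find_min' hex hb).lt_or_eq with h | h
    · exact Or.inr (nat_mem_nat.2 h)
    · exact Or.inl (by rw [h])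

/-! ### Codes of the elements of `Step A` -/

/-- The operations together with the projection. -/
noncomputable def op' : ℕ → V → V → V → V
  | 0, u, _, _ => u
  | i + 1, u, v, w => op i u v w

theorem d3_op' (i : ℕ) : D3 (op' i) := by
  match i with
  | 0 => exact DT.var 0
  | i + 1 => exact d3_op i

theorem mem_Step' {A z : V} : z ∈ Step A ↔ ∃ i < 14, ∃ u ∈ (insert A A : V),
    ∃ v ∈ (insert A A : V), ∃ w ∈ (insert A A : V), z = op' i u v w := by
  rw [mem_Step]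
  constructor
  · rintro (h | ⟨i, hi, u, hu, v, hv, w, hw, h⟩)
    · exact ⟨0, by omega, z, h, z, h, z, h, rfl⟩
    · exact ⟨i + 1, by omega, u, hu, v, hv, w, hw, h⟩
  · rintro ⟨i, hi, u, hu, v, hv, w, hw, h⟩
    cases i with
    | zero => rw [h]; exact Or.inl hu
    | succ i => exact Or.inr ⟨i, by omega, u, hu, v, hv, w, hw, h⟩

open Classical in
/-- Decoding of a code `⟨i, ⟨u, ⟨v, w⟩⟩⟩`. -/
noncomputable def decN : ℕ → V → V
  | 0, _ => ∅
  | n + 1, t => if fst t = nat n then op' n (fst (snd t)) (fst (snd (snd t))) (snd (snd (snd t)))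
      else decN n t

theorem d1_decN (n : ℕ) : D1 (decN n) := by
  induction n with
  | zero => exact DT.empty
  | succ n ih =>
    exact DT.ite (Dfn.eq (DT.fst (DT.var 0)) (DT.nat n))
      ((d3_op' n).app (DT.fst (DT.snd (DT.var 0))) (DT.fst (DT.snd (DT.snd (DT.var 0))))
        (DT.snd (DT.snd (DT.snd (DT.var 0))))) ih

theorem decN_pair {n i : ℕ} (hi : i < n) (u v w : V) :
    decN n (pair (nat i) (pair u (pair v w))) = op' i u v w := by
  induction n with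
  | zero => omega
  | succ n ih =>
    unfold decN
    by_cases h : i = n
    · subst h
      rw [if_pos (fst_pair _ _)]
      simp only [fst_pair, snd_pair]
    · rw [if_neg (fun h' => h (nat_inj.1 ((fst_pair _ _).symm.trans h')))]
      exact ih (by omega)

/-- All codes. -/
noncomputable def Tup (A : V) : V :=
  ZFSet.prod (nat 14) (ZFSet.prod (insert A A) (ZFSet.prod (insert A A) (insert A A)))

theorem d1_Tup : D1 Tup :=
  DT.prod (DT.nat 14) (DT.prod (DT.insert (DT.var 0) (DT.var 0))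
    (DT.prod (DT.insert (DT.var 0) (DT.var 0)) (DT.insert (DT.var 0) (DT.var 0))))

theorem mem_Tup {A t : V} : t ∈ Tup A ↔ ∃ i < 14, ∃ u ∈ (insert A A : V),
    ∃ v ∈ (insert A A : V), ∃ w ∈ (insert A A : V), t = pair (nat i) (pair u (pair v w)) := by
  unfold Tup
  simp only [ZFSet.mem_prod, mem_nat]
  constructor
  · rintro ⟨_, ⟨i, hi, rfl⟩, _, ⟨u, hu, _, ⟨v, hv, w, hw, rfl⟩, rfl⟩, rfl⟩
    exact ⟨i, hi, u, hu, v, hv, w, hw, rfl⟩
  · rintro ⟨i, hi, u, hu, v, hv, w, hw, rfl⟩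
    exact ⟨_, ⟨i, hi, rfl⟩, _, ⟨u, hu, _, ⟨v, hv, w, hw, rfl⟩, rfl⟩, rfl⟩

theorem mem_Step_iff_code {A z : V} : z ∈ Step A ↔ ∃ t ∈ Tup A, decN 14 t = z := by
  rw [mem_Step']
  constructor
  · rintro ⟨i, hi, u, hu, v, hv, w, hw, rfl⟩
    exact ⟨_, mem_Tup.2 ⟨i, hi, u, hu, v, hv, w, hw, rfl⟩, decN_pair hi u v w⟩
  · rintro ⟨t, ht, rfl⟩
    obtain ⟨i, hi, u, hu, v, hv, w, hw, rfl⟩ := mem_Tup.1 ht
    exact ⟨i, hi, u, hu, v, hv, w, hw, decN_pair hi u v w⟩

/-- The order on `A ∪ {A}`. -/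
def rP (A R : V) (a b : V) : Prop := pair a b ∈ R ∨ (a ∈ A ∧ b = A)

/-- The order on the codes. -/
def lexT (A R : V) (t t' : V) : Prop :=
  lexR (fun a b => a ∈ b) (lexR (rP A R) (lexR (rP A R) (rP A R))) t t'

theorem dfn_rP : Dfn (fun _ v => rP (v 0) (v 1) (v 2) (v 3)) :=
  DC.or (Dfn.mem (DT.pair (DT.var 2) (DT.var 3)) (DT.var 1))
    (DC.and (Dfn.mem (DT.var 2) (DT.var 0)) (Dfn.eq (DT.var 3) (DT.var 0)))

theorem dfn_lexT : Dfn (fun _ v => lexT (v 0) (v 1) (v 2) (v 3)) := by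
  have hrP : R4 rP := dfn_rP
  refine DC.or (Dfn.mem (DT.fst (DT.var 2)) (DT.fst (DT.var 3)))
    (DC.and (Dfn.eq (DT.fst (DT.var 2)) (DT.fst (DT.var 3))) ?_)
  refine DC.or (hrP.app (DT.var 0) (DT.var 1) (DT.fst (DT.snd (DT.var 2)))
    (DT.fst (DT.snd (DT.var 3)))) (DC.and (Dfn.eq (DT.fst (DT.snd (DT.var 2)))
    (DT.fst (DT.snd (DT.var 3)))) ?_)
  refine DC.or (hrP.app (DT.var 0) (DT.var 1) (DT.fst (DT.snd (DT.snd (DT.var 2))))
    (DT.fst (DT.snd (DT.snd (DT.var 3))))) (DC.and (Dfn.eq (DT.fst (DT.snd (DT.snd (DT.var 2))))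
    (DT.fst (DT.snd (DT.snd (DT.var 3))))) ?_)
  exact hrP.app (DT.var 0) (DT.var 1) (DT.snd (DT.snd (DT.snd (DT.var 2))))
    (DT.snd (DT.snd (DT.snd (DT.var 3))))

theorem WOC.lexT {A R : V} (h : WOC {z | z ∈ A} (fun a b => pair a b ∈ R))
    (hR : ∀ a b, pair a b ∈ R → a ∈ A ∧ b ∈ A) : WOC {t | t ∈ Tup A} (lexT A R) := by
  have h1 : WOC {z | z ∈ (insert A A : V)} (rP A R) := WOC.top h hR
  refine ((WOC.nat 14).lex (h1.lex (h1.lex h1))).congr ?_ (fun _ _ _ _ => Iff.rfl)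
  intro t ht
  obtain ⟨i, hi, u, hu, v, hv, w, hw, rfl⟩ := mem_Tup.1 ht
  exact ⟨_, nat_mem_nat.2 hi, _, ⟨u, hu, _, ⟨v, hv, w, hw, rfl⟩, rfl⟩, rfl⟩

/-- The least code of `z`. -/
noncomputable def key (A R z : V) : V :=
  ZFSet.sUnion (ZFSet.sep (fun t => decN 14 t = z ∧ ∀ t' ∈ Tup A, decN 14 t' = z →
    t' = t ∨ lexT A R t t') (Tup A))

theorem d3_key : D3 key := by
  refine DT.sUnion (DT.sep (P := fun W t v => decN 14 t = v 2 ∧ ∀ t' ∈ Tup (v 0),
    decN 14 t' = v 2 → t' = t ∨ lexT (v 0) (v 1) t t') (d1_Tup.app (DT.var 0)) ?_)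
  refine DC.and (Dfn.eq ((d1_decN 14).app (DT.var 0)) (DT.var 3)) ?_
  refine Dfn.ball (P := fun W t' v =>
    decN 14 t' = v 3 → t' = v 0 ∨ lexT (v 1) (v 2) (v 0) t') (d1_Tup.app (DT.var 1)) ?_
  have h4 : R4 lexT := dfn_lexT
  exact DC.imp (Dfn.eq ((d1_decN 14).app (DT.var 0)) (DT.var 4))
    (DC.or (Dfn.eq (DT.var 0) (DT.var 1)) (h4.app (DT.var 2) (DT.var 3) (DT.var 1) (DT.var 0)))

theorem key_spec {A R : V} (h : WOC {t | t ∈ Tup A} (lexT A R)) {z : V} (hz : z ∈ Step A) :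
    key A R z ∈ Tup A ∧ decN 14 (key A R z) = z := by
  obtain ⟨m, ⟨hm, hmz⟩, h1⟩ := h.least {t | t ∈ Tup A ∧ decN 14 t = z} (fun t ht => ht.1) (by
    obtain ⟨t, ht, h1⟩ := mem_Step_iff_code.1 hz
    exact ⟨t, ht, h1⟩)
  have h2 : key A R z = m := by
    unfold key
    have : ZFSet.sep (fun t => decN 14 t = z ∧ ∀ t' ∈ Tup A, decN 14 t' = z →
        t' = t ∨ lexT A R t t') (Tup A) = {m} := by
      apply ZFSet.ext
      intro t
      rw [ZFSet.mem_sep, ZFSet.mem_singleton]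
      constructor
      · rintro ⟨ht, htz, h2⟩
        rcases h2 m hm hmz with h3 | h3
        · exact h3.symm
        · rcases h1 t ⟨ht, htz⟩ with h4 | h4
          · exact h4
          · exact absurd h3 (h.asymm m hm t ht h4)
      · rintro rfl
        exact ⟨hm, hmz, fun t' ht' h3 => h1 t' ⟨ht', h3⟩⟩
    rw [this, ZFSet.sUnion_singleton]
  rw [h2]
  exact ⟨hm, hmz⟩

/-- The order of `Step A`. -/
noncomputable def stepO (A R : V) : V :=
  R ∪ ZFSet.sep (fun t => snd t ∉ A ∧ (fst t ∈ A ∨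
    lexT A R (key A R (fst t)) (key A R (snd t)))) (ZFSet.prod (Step A) (Step A))

theorem mem_stepO {A R a b : V} : pair a b ∈ stepO A R ↔ pair a b ∈ R ∨
    (a ∈ Step A ∧ b ∈ Step A ∧ b ∉ A ∧ (a ∈ A ∨ lexT A R (key A R a) (key A R b))) := by
  unfold stepO
  rw [ZFSet.mem_union, ZFSet.mem_sep, ZFSet.pair_mem_prod, fst_pair, snd_pair]
  tauto

theorem d2_stepO : D2 stepO := by
  have h4 : R4 lexT := dfn_lexT
  refine DT.union (DT.var 1) (DT.sep (P := fun W t v => snd t ∉ v 0 ∧ (fst t ∈ v 0 ∨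
    lexT (v 0) (v 1) (key (v 0) (v 1) (fst t)) (key (v 0) (v 1) (snd t))))
    (DT.prod (d1_Step.app (DT.var 0)) (d1_Step.app (DT.var 0))) ?_)
  refine DC.and (DC.not (Dfn.mem (DT.snd (DT.var 0)) (DT.var 1)))
    (DC.or (Dfn.mem (DT.fst (DT.var 0)) (DT.var 1)) ?_)
  exact h4.app (DT.var 1) (DT.var 2) (d3_key.app (DT.var 1) (DT.var 2) (DT.fst (DT.var 0)))
    (d3_key.app (DT.var 1) (DT.var 2) (DT.snd (DT.var 0)))

theorem WOC.stepO {A R : V} (h : WOC {z | z ∈ A} (fun a b => pair a b ∈ R))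
    (hR : ∀ a b, pair a b ∈ R → a ∈ A ∧ b ∈ A) :
    WOC {z | z ∈ Step A} (fun a b => pair a b ∈ stepO A R) where
  asymm := by
    have hT := WOC.lexT h hR
    intro a ha b hb h1 h2
    rcases mem_stepO.1 h1 with h1 | ⟨_, _, hbA, h1⟩
    · obtain ⟨haA, hbA⟩ := hR a b h1
      rcases mem_stepO.1 h2 with h2 | ⟨_, _, h3, _⟩
      · exact h.asymm a haA b hbA h1 h2
      · exact h3 haA
    · rcases mem_stepO.1 h2 with h2 | ⟨_, _, haA, h2⟩
      · exact hbA (hR b a h2).1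
      · rcases h1 with h1 | h1
        · exact haA h1
        · rcases h2 with h2 | h2
          · exact hbA h2
          · exact hT.asymm _ (key_spec hT ha).1 _ (key_spec hT hb).1 h1 h2
  least := by
    have hT := WOC.lexT h hR
    intro B hB hne
    by_cases h1 : ∃ z ∈ B, z ∈ A
    · obtain ⟨m, ⟨hm, hmA⟩, h2⟩ := h.least {z | z ∈ B ∧ z ∈ A} (fun z hz => hz.2) (by
        obtain ⟨z, hz, hzA⟩ := h1
        exact ⟨z, hz, hzA⟩)
      refine ⟨m, hm, fun b hb => ?_⟩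
      by_cases hbA : b ∈ A
      · exact (h2 b ⟨hb, hbA⟩).imp id fun h3 => mem_stepO.2 (Or.inl h3)
      · exact Or.inr (mem_stepO.2 (Or.inr ⟨hB hm, hB hb, hbA, Or.inl hmA⟩))
    · push Not at h1
      obtain ⟨t, ⟨m, hm, hmt⟩, h2⟩ := hT.least {t | ∃ z ∈ B, key A R z = t} (by
        rintro _ ⟨z, hz, rfl⟩
        exact (key_spec hT (hB hz)).1) (by
        obtain ⟨z, hz⟩ := hne
        exact ⟨_, z, hz, rfl⟩)
      refine ⟨m, hm, fun b hb => ?_⟩
      rcases h2 (key A R b) ⟨b, hb, rfl⟩ with h3 | h3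
      · left
        rw [← (key_spec hT (hB hb)).2, h3, ← hmt, (key_spec hT (hB hm)).2]
      · right
        refine mem_stepO.2 (Or.inr ⟨hB hm, hB hb, h1 b hb, Or.inr ?_⟩)
        rw [hmt]
        exact h3

/-- The well-order of `S ∅ x`. -/
noncomputable def Ord (x : V) : V :=
  ZFSet.sUnion (ZFSet.range (fun y : x => stepO (S ∅ y.1) (Ord y.1)))
termination_by x
decreasing_by exact y.2

theorem Ord_eq (x : V) : Ord x = bU x (fun y => stepO (S ∅ y) (Ord y)) := by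
  rw [Ord]
  rfl

theorem mem_Ord {x t : V} : t ∈ Ord x ↔ ∃ y ∈ x, t ∈ stepO (S ∅ y) (Ord y) := by
  rw [Ord_eq, mem_bU]

theorem d1_Ord : D1 Ord := by
  refine D1.of_memRec (H := fun x f => bU x (fun y => stepO (S ∅ y) (app f y))) ?_ ?_
  · exact DT.bU (F := fun W y v => stepO (S ∅ y) (app (v 1) y)) (DT.var 0)
      (d2_stepO.app (d2_S.app DT.empty (DT.var 0)) (DT.app (DT.var 2) (DT.var 0)))
  · intro x
    rw [Ord_eq]
    unfold bU
    congr 1
    exact img_congr fun y hy => by rw [app_gr hy]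

/-- End extension. -/
structure EExt (A R A' R' : V) : Prop where
  sub : A ⊆ A'
  subR : R ⊆ R'
  init : ∀ a b, pair a b ∈ R' → b ∈ A → pair a b ∈ R

theorem EExt.trans {A R A' R' A'' R'' : V} (h : EExt A R A' R') (h' : EExt A' R' A'' R'') :
    EExt A R A'' R'' :=
  ⟨fun _ hx => h'.sub (h.sub hx), fun _ hx => h'.subR (h.subR hx),
    fun a b hab hb => h.init a b (h'.init a b hab (h.sub hb)) hb⟩

theorem eext_stepO (A R : V) : EExt A R (Step A) (stepO A R) :=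
  ⟨subset_Step A, fun _ hx => ZFSet.mem_union.2 (Or.inl hx), fun a b hab hb => by
    rcases mem_stepO.1 hab with h | ⟨_, _, h, _⟩
    · exact h
    · exact absurd hb h⟩

theorem Ord_aux (o : Ordinal.{0}) :
    (∀ x y : V, x.rank < y.rank → y.rank = o →
      EExt (Step (S ∅ x)) (stepO (S ∅ x) (Ord x)) (S ∅ y) (Ord y)) ∧
    (∀ x y : V, x.rank = o → y.rank = o → Ord x ⊆ Ord y) ∧
    (∀ x : V, x.rank = o → (∀ t ∈ Ord x, ∃ a ∈ S ∅ x, ∃ b ∈ S ∅ x, t = pair a b) ∧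
      WOC {z | z ∈ S ∅ x} (fun a b => pair a b ∈ Ord x)) := by
  induction o using WellFoundedLT.induction with
  | _ o ih =>
    have hOeq : ∀ x y : V, x.rank = y.rank → x.rank < o → Ord x = Ord y := by
      intro x y hxy hx
      apply ZFSet.ext
      intro z
      exact ⟨fun hz => (ih _ hx).2.1 x y rfl hxy.symm hz,
        fun hz => (ih _ hx).2.1 y x hxy.symm rfl hz⟩
    -- comparison of two smaller levels
    have hcmp : ∀ x y : V, x.rank ≤ y.rank → y.rank < o →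
        EExt (Step (S ∅ x)) (stepO (S ∅ x) (Ord x)) (Step (S ∅ y)) (stepO (S ∅ y) (Ord y)) := by
      intro x y hxy hy
      rcases hxy.lt_or_eq with h | h
      · exact ((ih _ hy).1 x y h rfl).trans (eext_stepO _ _)
      · rw [S_congr h, hOeq x y h (h ▸ hy)]
        exact ⟨fun _ h => h, fun _ h => h, fun _ _ h _ => h⟩
    have h0 : ∀ y' y : V, y' ∈ y → y.rank = o →
        EExt (Step (S ∅ y')) (stepO (S ∅ y') (Ord y')) (S ∅ y) (Ord y) := by
      intro y' y hy' hy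
      refine ⟨Step_subset_S hy', fun z hz => mem_Ord.2 ⟨y', hy', hz⟩, fun a b hab hb => ?_⟩
      obtain ⟨y'', hy'', h1⟩ := mem_Ord.1 hab
      have hr' : y'.rank < o := hy ▸ ZFSet.rank_lt_of_mem hy'
      have hr'' : y''.rank < o := hy ▸ ZFSet.rank_lt_of_mem hy''
      rcases le_total y''.rank y'.rank with h | h
      · exact (hcmp y'' y' h hr').subR h1
      · exact (hcmp y' y'' h hr'').init a b h1 hb
    have h1 : ∀ x y : V, x.rank < y.rank → y.rank = o →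
        EExt (Step (S ∅ x)) (stepO (S ∅ x) (Ord x)) (S ∅ y) (Ord y) := by
      intro x y hxy hy
      obtain ⟨y', hy', hr⟩ := ZFSet.lt_rank_iff.1 hxy
      exact (hcmp x y' hr (hy ▸ ZFSet.rank_lt_of_mem hy')).trans (h0 y' y hy' hy)
    refine ⟨h1, ?_, ?_⟩
    · intro x y hx hy t ht
      obtain ⟨x', hx', h2⟩ := mem_Ord.1 ht
      exact (h1 x' y (by rw [hy, ← hx]; exact ZFSet.rank_lt_of_mem hx') hy).subR h2
    · intro x hx
      -- the smaller levels are well-ordered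
      have hstep : ∀ y ∈ x, (∀ a b, pair a b ∈ stepO (S ∅ y) (Ord y) →
          a ∈ Step (S ∅ y) ∧ b ∈ Step (S ∅ y)) ∧
          WOC {z | z ∈ Step (S ∅ y)} (fun a b => pair a b ∈ stepO (S ∅ y) (Ord y)) := by
        intro y hy
        obtain ⟨h2, h3⟩ := (ih _ (hx ▸ ZFSet.rank_lt_of_mem hy)).2.2 y rfl
        have hR : ∀ a b, pair a b ∈ Ord y → a ∈ S ∅ y ∧ b ∈ S ∅ y := by
          intro a b hab
          obtain ⟨a', ha', b', hb', h4⟩ := h2 _ hab
          obtain ⟨rfl, rfl⟩ := ZFSet.pair_inj.1 h4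
          exact ⟨ha', hb'⟩
        refine ⟨fun a b hab => ?_, WOC.stepO h3 hR⟩
        rcases mem_stepO.1 hab with h | ⟨h4, h5, _, _⟩
        · exact ⟨subset_Step _ (hR a b h).1, subset_Step _ (hR a b h).2⟩
        · exact ⟨h4, h5⟩
      refine ⟨?_, ?_, ?_⟩
      · intro t ht
        obtain ⟨y, hy, h2⟩ := mem_Ord.1 ht
        unfold stepO at h2
        have h3 : ∃ a ∈ Step (S ∅ y), ∃ b ∈ Step (S ∅ y), t = pair a b := by
          rcases ZFSet.mem_union.1 h2 with h2 | h2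
          · obtain ⟨a, ha, b, hb, h4⟩ :=
              ((ih _ (hx ▸ ZFSet.rank_lt_of_mem hy)).2.2 y rfl).1 t h2
            exact ⟨a, subset_Step _ ha, b, subset_Step _ hb, h4⟩
          · exact ZFSet.mem_prod.1 (ZFSet.mem_sep.1 h2).1
        obtain ⟨a, ha, b, hb, h4⟩ := h3
        exact ⟨a, Step_subset_S hy ha, b, Step_subset_S hy hb, h4⟩
      · intro a _ b _ hab hba
        obtain ⟨y, hy, h2⟩ := mem_Ord.1 hab
        obtain ⟨y', hy', h3⟩ := mem_Ord.1 hba
        have hr : y.rank < o := hx ▸ ZFSet.rank_lt_of_mem hy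
        have hr' : y'.rank < o := hx ▸ ZFSet.rank_lt_of_mem hy'
        rcases le_total y.rank y'.rank with h | h
        · have h4 := (hcmp y y' h hr').subR h2
          have h5 := (hstep y' hy').1 _ _ h3
          exact (hstep y' hy').2.asymm a h5.2 b h5.1 h4 h3
        · have h4 := (hcmp y' y h hr).subR h3
          have h5 := (hstep y hy).1 _ _ h2
          exact (hstep y hy).2.asymm a h5.1 b h5.2 h2 h4
      · intro B hB hne
        obtain ⟨z, hz⟩ := hne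
        obtain ⟨y, hy, hzy⟩ : ∃ y ∈ x, z ∈ Step (S ∅ y) := by
          rcases mem_S.1 (hB hz) with h | h
          · exact absurd h (ZFSet.notMem_empty _)
          · exact h
        obtain ⟨m, ⟨hm, hmy⟩, h2⟩ := (hstep y hy).2.least {z | z ∈ B ∧ z ∈ Step (S ∅ y)}
          (fun z hz => hz.2) ⟨z, hz, hzy⟩
        refine ⟨m, hm, fun b hb => ?_⟩
        by_cases hby : b ∈ Step (S ∅ y)
        · exact (h2 b ⟨hb, hby⟩).imp id fun h3 => mem_Ord.2 ⟨y, hy, h3⟩
        · right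
          obtain ⟨y', hy', hby'⟩ : ∃ y ∈ x, b ∈ Step (S ∅ y) := by
            rcases mem_S.1 (hB hb) with h | h
            · exact absurd h (ZFSet.notMem_empty _)
            · exact h
          have hr : y.rank < o := hx ▸ ZFSet.rank_lt_of_mem hy
          have hr' : y'.rank < o := hx ▸ ZFSet.rank_lt_of_mem hy'
          rcases le_total y'.rank y.rank with h | h
          · exact absurd ((hcmp y' y h hr).sub hby') hby
          · have h3 := hcmp y y' h hr'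
            rcases (hstep y' hy').2.total (h3.sub hmy) hby' with h4 | h4 | h4
            · exact absurd (h4 ▸ hmy) hby
            · exact mem_Ord.2 ⟨y', hy', h4⟩
            · exact absurd ((hstep y hy).1 _ _ (h3.init b m h4 hmy)).1 hby

/-- `Ord x` well-orders `S ∅ x`. -/
theorem Ord_wo (x : V) : WOC {z | z ∈ S ∅ x} (fun a b => pair a b ∈ Ord x) :=
  ((Ord_aux _).2.2 x rfl).2

/-- The least element of `a ∩ S ∅ x`. -/
noncomputable def lst (x a : V) : V :=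
  ZFSet.sUnion (ZFSet.sep (fun m => m ∈ S ∅ x ∧ ∀ b ∈ a, b ∈ S ∅ x → b = m ∨ pair m b ∈ Ord x) a)

theorem d2_lst : D2 lst := by
  refine DT.sUnion (DT.sep (P := fun W m v => m ∈ S ∅ (v 0) ∧
    ∀ b ∈ v 1, b ∈ S ∅ (v 0) → b = m ∨ pair m b ∈ Ord (v 0)) (DT.var 1) ?_)
  refine DC.and (Dfn.mem (DT.var 0) (d2_S.app DT.empty (DT.var 1))) ?_
  refine Dfn.ball (P := fun W b v => b ∈ S ∅ (v 1) → b = v 0 ∨ pair (v 0) b ∈ Ord (v 1))
    (DT.var 2) ?_
  exact DC.imp (Dfn.mem (DT.var 0) (d2_S.app DT.empty (DT.var 2)))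
    (DC.or (Dfn.eq (DT.var 0) (DT.var 1))
      (Dfn.mem (DT.pair (DT.var 1) (DT.var 0)) (d1_Ord.app (DT.var 2))))

/-- `lst` is a definable choice function. -/
theorem lst_spec {x a : V} (h : ∃ z ∈ a, z ∈ S ∅ x) : lst x a ∈ a ∧ lst x a ∈ S ∅ x := by
  obtain ⟨m, ⟨hm, hmx⟩, h1⟩ := (Ord_wo x).least {z | z ∈ a ∧ z ∈ S ∅ x} (fun z hz => hz.2) (by
    obtain ⟨z, hz, hz'⟩ := h
    exact ⟨z, hz, hz'⟩)
  have h2 : lst x a = m := by
    unfold lst
    have : ZFSet.sep (fun m => m ∈ S ∅ x ∧ ∀ b ∈ a, b ∈ S ∅ x → b = m ∨ pair m b ∈ Ord x) a =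
        {m} := by
      apply ZFSet.ext
      intro t
      rw [ZFSet.mem_sep, ZFSet.mem_singleton]
      constructor
      · rintro ⟨ht, htx, h2⟩
        rcases h2 m hm hmx with h3 | h3
        · exact h3.symm
        · rcases h1 t ⟨ht, htx⟩ with h4 | h4
          · exact h4
          · exact absurd h3 ((Ord_wo x).asymm m hmx t htx h4)
      · rintro rfl
        exact ⟨hm, hmx, fun b hb hbx => h1 b ⟨hb, hbx⟩⟩
    rw [this, ZFSet.sUnion_singleton]
  rw [h2]
  exact ⟨hm, hmx⟩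

end Pool.Agent.NUC
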