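import Pool.Agent.Lib.MP_bf67b0_lc.NUC.Calc

/-!
# Definability calculus, part 2: recursion, relativised satisfaction
-/

namespace Pool.Agent.NUC

open ZFSet (pair)

section rec

variable {child : V → V → V} {H : V → V → V → V} {F : V → V → V}

/-- The restriction of the relation `g` to the set `a`. -/
noncomputable def rst (g a : V) : V :=
  ZFSet.sep (fun z => ∃ u ∈ a, ∃ w ∈ ZFSet.sUnion (ZFSet.sUnion g), z = pair u w) g

theorem mem_rst {g a z : V} : z ∈ rst g a ↔ z ∈ g ∧ ∃ u ∈ a, ∃ w, z = pair u w := by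
  unfold rst
  rw [ZFSet.mem_sep]
  refine and_congr_right fun hz => exists_congr fun u => and_congr_right fun _ => ?_
  constructor
  · rintro ⟨w, _, h⟩
    exact ⟨w, h⟩
  · rintro ⟨w, rfl⟩
    exact ⟨w, mem_UU_right hz, rfl⟩

theorem d2_rst : D2 rst := by
  refine DT.sep (P := fun W z v => ∃ u ∈ v 1, ∃ w ∈ ZFSet.sUnion (ZFSet.sUnion (v 0)), z = pair u w)
    (DT.var 0) ?_
  refine Dfn.bex (P := fun W u v => ∃ w ∈ ZFSet.sUnion (ZFSet.sUnion (v 1)), v 0 = pair u w)
    (DT.var 2) ?_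
  exact Dfn.bex (P := fun W w v => v 1 = pair (v 0) w) (DT.sUnion (DT.sUnion (DT.var 2)))
    (Dfn.eq (DT.var 2) (DT.pair (DT.var 1) (DT.var 0)))

/-- `g` is an attempt at the recursion. -/
def Att (child : V → V → V) (H : V → V → V → V) (p g : V) : Prop :=
  ∀ z ∈ g, ∃ x ∈ dom g, ∃ y ∈ ran g, z = pair x y ∧ child p x ⊆ dom g ∧
    y = H p x (rst g (child p x))

theorem r2_att (hc : D2 child) (hH : D3 H) : R2 (Att child H) := by
  refine Dfn.ball (P := fun W z v => ∃ x ∈ dom (v 1), ∃ y ∈ ran (v 1), z = pair x y ∧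
    child (v 0) x ⊆ dom (v 1) ∧ y = H (v 0) x (rst (v 1) (child (v 0) x))) (DT.var 1) ?_
  refine Dfn.bex (P := fun W x v => ∃ y ∈ ran (v 2), v 0 = pair x y ∧
    child (v 1) x ⊆ dom (v 2) ∧ y = H (v 1) x (rst (v 2) (child (v 1) x))) (DT.dom (DT.var 2)) ?_
  refine Dfn.bex (P := fun W y v => v 1 = pair (v 0) y ∧
    child (v 2) (v 0) ⊆ dom (v 3) ∧ y = H (v 2) (v 0) (rst (v 3) (child (v 2) (v 0))))
    (DT.ran (DT.var 3)) ?_
  refine DC.and (Dfn.eq (DT.var 2) (DT.pair (DT.var 1) (DT.var 0))) (DC.and ?_ ?_)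
  · exact Dfn.subset (hc.app (DT.var 3) (DT.var 1)) (DT.dom (DT.var 4))
  · exact Dfn.eq (DT.var 0) (hH.app (DT.var 3) (DT.var 1)
      (d2_rst.app (DT.var 4) (hc.app (DT.var 3) (DT.var 1))))

variable (hr : ∀ p x, ∀ y ∈ child p x, y.rank < x.rank)
  (hF : ∀ p x, F p x = H p x (gr (F p) (child p x)))
include hr hF

theorem Att.eq {p g : V} (hg : Att child H p g) : ∀ x y, pair x y ∈ g → y = F p x := by
  intro x
  induction hx : x.rank using WellFoundedLT.induction generalizing x with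
  | _ o ih =>
    intro y hxy
    obtain ⟨x', _, y', _, h1, h2, h3⟩ := hg _ hxy
    obtain ⟨rfl, rfl⟩ := ZFSet.pair_inj.1 h1
    rw [h3, hF]
    congr 1
    apply ZFSet.ext
    intro z
    rw [mem_rst, mem_gr]
    constructor
    · rintro ⟨hz, u, hu, w, rfl⟩
      refine ⟨u, hu, ?_⟩
      rw [ih u.rank (hx ▸ hr p x u hu) u rfl w hz]
    · rintro ⟨u, hu, rfl⟩
      obtain ⟨w, hw⟩ := mem_dom.1 (h2 hu)
      have h4 := ih u.rank (hx ▸ hr p x u hu) u rfl w hw
      rw [← h4]
      exact ⟨hw, u, hu, w, rfl⟩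

theorem Att.iff {p g : V} : Att child H p g ↔ (∀ z ∈ g, ∃ x, z = pair x (F p x)) ∧
    ∀ x y, pair x y ∈ g → ∀ u ∈ child p x, pair u (F p u) ∈ g := by
  constructor
  · intro hg
    refine ⟨fun z hz => ?_, fun x y hxy u hu => ?_⟩
    · obtain ⟨x, _, y, _, rfl, _, _⟩ := hg z hz
      exact ⟨x, by rw [← Att.eq hr hF hg x y hz]⟩
    · obtain ⟨x', _, y', _, h1, h2, _⟩ := hg _ hxy
      obtain ⟨rfl, rfl⟩ := ZFSet.pair_inj.1 h1
      obtain ⟨w, hw⟩ := mem_dom.1 (h2 hu)
      rw [← Att.eq hr hF hg u w hw]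
      exact hw
  · rintro ⟨h1, h2⟩ z hz
    obtain ⟨x, rfl⟩ := h1 z hz
    refine ⟨x, mem_dom.2 ⟨_, hz⟩, F p x, mem_ran.2 ⟨_, hz⟩, rfl, ?_, ?_⟩
    · intro u hu
      exact mem_dom.2 ⟨_, h2 _ _ hz u hu⟩
    · rw [hF p x]
      congr 1
      apply ZFSet.ext
      intro z
      rw [mem_rst, mem_gr]
      constructor
      · rintro ⟨u, hu, rfl⟩
        exact ⟨h2 _ _ hz u hu, u, hu, _, rfl⟩
      · rintro ⟨hz', u, hu, w, rfl⟩
        obtain ⟨u', hu'⟩ := h1 _ hz'
        obtain ⟨rfl, h3⟩ := ZFSet.pair_inj.1 hu'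
        exact ⟨u, hu, by rw [h3]⟩

theorem Att.exists (hc : D2 child) (hH : D3 H) {W : Set V} (hW : Nice W) {p : V} (hp : p ∈ W) :
    ∀ x ∈ W, ∃ g ∈ W, Att child H p g ∧ pair x (F p x) ∈ g := by
  intro x
  induction hx : x.rank using WellFoundedLT.induction generalizing x with
  | _ o ih =>
    intro hxW
    have hcW : child p x ∈ W := hc.mem hW hp hxW
    have hR : Dfn (fun W v => Att child H (v 2) (v 0) ∧ v 1 ∈ dom (v 0)) :=
      DC.and ((r2_att hc hH).app (DT.var 2) (DT.var 0)) (Dfn.mem (DT.var 1) (DT.dom (DT.var 0)))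
    obtain ⟨b, hb, hb'⟩ := hW.collD hR (v := fun _ => p) (fun _ => hp) hcW (fun u hu => by
      obtain ⟨g, hg, h1, h2⟩ := ih u.rank (hx ▸ hr p x u hu) u rfl (hW.memOf hcW hu)
      exact ⟨g, hg, h1, mem_dom.2 ⟨_, h2⟩⟩)
    have hG : ZFSet.sUnion (ZFSet.sep (fun g => Att child H p g) b) ∈ W :=
      hW.sUnion _ (hW.sepD (R := fun W v => Att child H (v 1) (v 0))
        ((r2_att hc hH).app (DT.var 1) (DT.var 0)) (v := fun _ => p) (fun _ => hp) hb)
    set G := ZFSet.sUnion (ZFSet.sep (fun g => Att child H p g) b) with hGdef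
    have hGm : ∀ z, z ∈ G ↔ ∃ g ∈ b, Att child H p g ∧ z ∈ g := by
      intro z
      rw [hGdef, ZFSet.mem_sUnion]
      constructor
      · rintro ⟨g, hg, hz⟩
        rw [ZFSet.mem_sep] at hg
        exact ⟨g, hg.1, hg.2, hz⟩
      · rintro ⟨g, hg, h1, hz⟩
        exact ⟨g, ZFSet.mem_sep.2 ⟨hg, h1⟩, hz⟩
    have hGA : Att child H p G := by
      rw [Att.iff hr hF]
      constructor
      · intro z hz
        obtain ⟨g, _, h1, hz⟩ := (hGm z).1 hz
        exact ((Att.iff hr hF).1 h1).1 z hz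
      · intro x y hxy u hu
        obtain ⟨g, hg, h1, hz⟩ := (hGm _).1 hxy
        exact (hGm _).2 ⟨g, hg, h1, ((Att.iff hr hF).1 h1).2 x y hz u hu⟩
    have hGc : ∀ u ∈ child p x, pair u (F p u) ∈ G := by
      intro u hu
      obtain ⟨g, hg, h1, h2⟩ := hb' u hu
      replace h1 : Att child H p g := h1
      obtain ⟨w, hw⟩ := mem_dom.1 (show u ∈ dom g from h2)
      rw [hGm]
      refine ⟨g, hg, h1, ?_⟩
      rw [← Att.eq hr hF h1 u w hw]
      exact hw
    have hrst : gr (F p) (child p x) = rst G (child p x) := by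
      apply ZFSet.ext
      intro z
      rw [mem_rst, mem_gr]
      constructor
      · rintro ⟨u, hu, rfl⟩
        exact ⟨hGc u hu, u, hu, _, rfl⟩
      · rintro ⟨hz, u, hu, w, rfl⟩
        exact ⟨u, hu, by rw [Att.eq hr hF hGA u w hz]⟩
    have hFW : F p x ∈ W := by
      rw [hF, hrst]
      exact hH.mem hW hp hxW (d2_rst.mem hW hG hcW)
    refine ⟨insert (pair x (F p x)) G, hW.insert (hW.pair hxW hFW) hG, ?_,
      ZFSet.mem_insert _ _⟩
    rw [Att.iff hr hF]
    constructor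
    · intro z hz
      rcases ZFSet.mem_insert_iff.1 hz with rfl | hz
      · exact ⟨x, rfl⟩
      · exact ((Att.iff hr hF).1 hGA).1 z hz
    · intro x' y' h u hu
      refine ZFSet.mem_insert_of_mem _ ?_
      rcases ZFSet.mem_insert_iff.1 h with h | h
      · obtain ⟨rfl, rfl⟩ := ZFSet.pair_inj.1 h
        exact hGc u hu
      · exact ((Att.iff hr hF).1 hGA).2 x' y' h u hu

/-- **Recursion theorem**: a function satisfying a rank-decreasing recursion with definable data is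
definable. -/
theorem D2.of_rec (hc : D2 child) (hH : D3 H) : D2 F where
  mem W hW v hv := by
    obtain ⟨g, hg, _, h⟩ := Att.exists hr hF hc hH hW (hv 0) (v 1) (hv 1)
    exact (hW.of_pair (hW.memOf hg h)).2
  dfn := by
    have h1 : Dfn (fun W v => ∃ g ∈ W, Att child H (v 1) g ∧ pair (v 2) (v 0) ∈ g) := by
      refine Dfn.ex (P := fun W g v => Att child H (v 1) g ∧ pair (v 2) (v 0) ∈ g) ?_
      exact DC.and ((r2_att hc hH).app (DT.var 2) (DT.var 0))
        (Dfn.mem (DT.pair (DT.var 3) (DT.var 1)) (DT.var 0))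
    refine h1.congr fun W hW v hv => ?_
    show v 0 = F (v 1) (v 2) ↔ _
    constructor
    · intro h
      obtain ⟨g, hg, h1, h2⟩ := Att.exists hr hF hc hH hW (hv 1) (v 2) (hv 2)
      exact ⟨g, hg, h1, by rw [h]; exact h2⟩
    · rintro ⟨g, _, h1, h2⟩
      exact Att.eq hr hF h1 _ _ h2

end rec

/-- Recursion without parameter. -/
theorem D1.of_rec {child : V → V} {H : V → V → V} {F : V → V} (hc : D1 child) (hH : D2 H)
    (hr : ∀ x, ∀ y ∈ child x, y.rank < x.rank) (hF : ∀ x, F x = H x (gr F (child x))) : D1 F := by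
  have h : D2 (fun _ x => F x) := D2.of_rec (child := fun _ x => child x)
    (H := fun _ x f => H x f) (fun _ => hr) (fun _ => hF) (hc.app (DT.var 1))
    (hH.app (DT.var 1) (DT.var 2))
  exact D2.app h (DT.var 0) (DT.var 0)

/-- ∈-recursion with a parameter. -/
theorem D2.of_memRec {H : V → V → V → V} {F : V → V → V} (hH : D3 H)
    (hF : ∀ p x, F p x = H p x (gr (F p) x)) : D2 F :=
  D2.of_rec (child := fun _ x => x) (fun _ _ _ hy => ZFSet.rank_lt_of_mem hy) hF (DT.var 1) hH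

theorem D1.of_memRec {H : V → V → V} {F : V → V} (hH : D2 H)
    (hF : ∀ x, F x = H x (gr F x)) : D1 F :=
  D1.of_rec (child := fun x => x) (DT.var 0) hH (fun _ _ hy => ZFSet.rank_lt_of_mem hy) hF

/-! ### Satisfaction relative to a definable class -/

/-- Satisfaction in the structure of those elements of `W` that satisfy `K W · p`. -/
theorem Dfn.relSat {K : Set V → V → V → Prop} (hK : Dfn (fun W v => K W (v 0) (v 1))) (φ : Fml) :
    Dfn (fun W v => Sat {x | x ∈ W ∧ K W x (v 0)} φ (tl v)) := by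
  induction φ with
  | mem i j => exact DC.mem' (i + 1) (j + 1)
  | eq i j => exact DC.eq' (i + 1) (j + 1)
  | neg φ ih => exact ih.not
  | and φ ψ ih1 ih2 => exact DC.and ih1 ih2
  | ex φ ih =>
    have h1 : Dfn (fun W v => ∃ x ∈ W, K W x (v 0) ∧
        Sat {x | x ∈ W ∧ K W x (v 0)} φ (cons x (tl v))) := by
      refine Dfn.ex (P := fun W x v => K W x (v 0) ∧
        Sat {x | x ∈ W ∧ K W x (v 0)} φ (cons x (tl v))) (DC.and ?_ ?_)
      · exact DC.ren hK (fun n => match n with | 0 => 0 | 1 => 1 | _ => 0)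
      · refine (DC.ren ih (fun n => match n with | 0 => 1 | 1 => 0 | n + 2 => n + 2)).congr ?_
        intro W _ v _
        have : cons (v 0) (tl (tl v)) = tl (fun n => v (match n with
            | 0 => 1 | 1 => 0 | n + 2 => n + 2)) := by
          funext n
          cases n <;> rfl
        show Sat {x | x ∈ W ∧ K W x (v 1)} φ (cons (v 0) (tl (tl v))) ↔
          Sat {x | x ∈ W ∧ K W x (v 1)} φ (tl (fun n => v (match n with
            | 0 => 1 | 1 => 0 | n + 2 => n + 2)))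
        rw [this]
    refine h1.congr fun W _ v _ => exists_congr fun x => ?_
    exact and_assoc

end Pool.Agent.NUC
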